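import Mathlib
import Pool.Agent.Run7.h880.MK.Smp

/-! The Efron-Stein inequality for functions of a random sample. -/

set_option autoImplicit false

namespace Pool.Agent.Run7.h880.RP

open Finset
open Pool.Agent.Run7.h880.MK (Smp Smp_mem Smp_card hits hits_eq nohit)

lemma smp_succ {ι : Type} (Ω : Finset ι) (m : ℕ) (g : (Fin (m + 1) → ι) → ℝ) :
    ∑ w ∈ Smp Ω (m + 1), g w = ∑ y ∈ Ω, ∑ v ∈ Smp Ω m, g (Fin.cons y v) := by
  rw [← sum_product']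
  refine (sum_nbij' (i := fun p : ι × (Fin m → ι) => (Fin.cons p.1 p.2 : Fin (m + 1) → ι))
    (j := fun w => (w 0, Fin.tail w)) ?_ ?_ ?_ ?_ ?_).symm
  · intro p hp
    rw [mem_product, Smp_mem] at hp
    rw [Smp_mem]
    intro l
    refine Fin.cases ?_ (fun i => ?_) l
    · exact hp.1
    · exact hp.2 i
  · intro w hw
    rw [Smp_mem] at hw
    rw [mem_product, Smp_mem]
    exact ⟨hw 0, fun l => hw l.succ⟩
  · intro p _
    rfl
  · intro w _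
    exact Fin.cons_self_tail w
  · intro p _
    rfl

lemma var_id {ι : Type} (Ω : Finset ι) (F : ι → ℝ) :
    ∑ y ∈ Ω, ∑ x ∈ Ω, (F y - F x) ^ 2 = 2 * Ω.card * (∑ y ∈ Ω, F y ^ 2) - 2 * (∑ y ∈ Ω, F y) ^ 2 := by
  have h1 : ∀ y ∈ Ω, ∑ x ∈ Ω, (F y - F x) ^ 2 = Ω.card * F y ^ 2 - 2 * F y * (∑ x ∈ Ω, F x) + ∑ x ∈ Ω, F x ^ 2 := by
    intro y _
    have h2 : ∀ x ∈ Ω, (F y - F x) ^ 2 = F y ^ 2 - 2 * F y * F x + F x ^ 2 := fun x _ => by ring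
    rw [sum_congr rfl h2, sum_add_distrib, sum_sub_distrib, sum_const, nsmul_eq_mul, ← mul_sum]
  rw [sum_congr rfl h1, sum_add_distrib, sum_sub_distrib, ← mul_sum, sum_const, nsmul_eq_mul, ← sum_mul, ← mul_sum]
  ring

/-- Efron-Stein -/
theorem es {ι : Type} [DecidableEq ι] (Ω : Finset ι) (hΩ : Ω.Nonempty) (m : ℕ) (f : (Fin m → ι) → ℝ) :
    ∑ w ∈ Smp Ω m, f w ^ 2 - (∑ w ∈ Smp Ω m, f w) ^ 2 / (Ω.card : ℝ) ^ m ≤
      1 / (2 * Ω.card) * ∑ w ∈ Smp Ω m, ∑ l, ∑ x ∈ Ω, (f w - f (Function.update w l x)) ^ 2 := by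
  have hq0 : (0 : ℝ) < Ω.card := by exact_mod_cast card_pos.2 hΩ
  obtain ⟨q, hq⟩ : ∃ q : ℝ, q = Ω.card := ⟨_, rfl⟩
  rw [← hq] at hq0 ⊢
  induction m with
  | zero =>
    have h0 : Smp Ω 0 = {Fin.elim0} := by
      ext w
      rw [Smp_mem, mem_singleton]
      constructor
      · intro _
        funext l
        exact l.elim0
      · intro _ l
        exact l.elim0
    rw [h0]
    simp
  | succ m ih =>
    rw [smp_succ, smp_succ, smp_succ]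
    obtain ⟨F, hF⟩ : ∃ F : ι → ℝ, F = fun y => ∑ v ∈ Smp Ω m, f (Fin.cons y v) := ⟨_, rfl⟩
    have hFy : ∀ y, F y = ∑ v ∈ Smp Ω m, f (Fin.cons y v) := fun y => by rw [hF]
    have h1 : ∀ y ∈ Ω, ∑ v ∈ Smp Ω m, f (Fin.cons y v) ^ 2 ≤ F y ^ 2 / q ^ m +
        1 / (2 * q) * ∑ v ∈ Smp Ω m, ∑ l, ∑ x ∈ Ω, (f (Fin.cons y v) - f (Fin.cons y (Function.update v l x))) ^ 2 := by
      intro y _
      have := ih (fun v => f (Fin.cons y v))
      rw [hFy]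
      linarith
    have h2 : ∑ y ∈ Ω, F y ^ 2 / q ^ m - (∑ y ∈ Ω, F y) ^ 2 / q ^ (m + 1) ≤
        1 / (2 * q) * ∑ y ∈ Ω, ∑ v ∈ Smp Ω m, ∑ x ∈ Ω, (f (Fin.cons y v) - f (Fin.cons x v)) ^ 2 := by
      have h3 : ∑ y ∈ Ω, F y ^ 2 / q ^ m - (∑ y ∈ Ω, F y) ^ 2 / q ^ (m + 1) =
          1 / (2 * q) * (1 / q ^ m) * ∑ y ∈ Ω, ∑ x ∈ Ω, (F y - F x) ^ 2 := by
        rw [var_id, ← sum_div, ← hq]
        field_simp
        ring
      rw [h3, mul_assoc]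
      refine mul_le_mul_of_nonneg_left ?_ (by positivity)
      rw [mul_sum]
      refine sum_le_sum fun y _ => ?_
      rw [sum_comm, mul_sum]
      refine sum_le_sum fun x _ => ?_
      rw [hFy, hFy, ← sum_sub_distrib]
      have h4 : (∑ v ∈ Smp Ω m, (f (Fin.cons y v) - f (Fin.cons x v))) ^ 2 ≤
          (Smp Ω m).card * ∑ v ∈ Smp Ω m, (f (Fin.cons y v) - f (Fin.cons x v)) ^ 2 := sq_sum_le_card_mul_sum_sq
      rw [Smp_card, Nat.cast_pow, ← hq] at h4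
      rw [one_div, inv_mul_le_iff₀ (by positivity)]
      exact h4
    have h5 : ∑ y ∈ Ω, ∑ v ∈ Smp Ω m, ∑ l, ∑ x ∈ Ω,
        (f (Fin.cons y v) - f (Function.update (Fin.cons y v : Fin (m + 1) → ι) l x)) ^ 2 =
        ∑ y ∈ Ω, ∑ v ∈ Smp Ω m, ∑ x ∈ Ω, (f (Fin.cons y v) - f (Fin.cons x v)) ^ 2 +
        ∑ y ∈ Ω, ∑ v ∈ Smp Ω m, ∑ l, ∑ x ∈ Ω, (f (Fin.cons y v) - f (Fin.cons y (Function.update v l x))) ^ 2 := by
      rw [← sum_add_distrib]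
      refine sum_congr rfl fun y _ => ?_
      rw [← sum_add_distrib]
      refine sum_congr rfl fun v _ => ?_
      rw [Fin.sum_univ_succ]
      simp only [Fin.update_cons_zero, Fin.cons_update]
    rw [h5, mul_add]
    have h6 := sum_le_sum h1
    rw [sum_add_distrib, ← mul_sum] at h6
    have h7 : ∑ y ∈ Ω, ∑ v ∈ Smp Ω m, f (Fin.cons y v) = ∑ y ∈ Ω, F y := sum_congr rfl fun y _ => (hFy y).symm
    rw [h7]
    linarith

lemma upd_mem {ι : Type} {Ω : Finset ι} {m : ℕ} {w : Fin m → ι} (hw : w ∈ Smp Ω m) (l : Fin m) {x : ι} (hx : x ∈ Ω) :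
    Function.update w l x ∈ Smp Ω m := by
  rw [Smp_mem] at hw ⊢
  intro i
  by_cases h : i = l
  · subst h
    rw [Function.update_self]
    exact hx
  · rw [Function.update_of_ne h]
    exact hw i

lemma sym {ι : Type} [DecidableEq ι] (Ω : Finset ι) (m : ℕ) (l : Fin m) (g : (Fin m → ι) → (Fin m → ι) → ℝ) :
    ∑ w ∈ Smp Ω m, ∑ x ∈ Ω, g w (Function.update w l x) = ∑ w ∈ Smp Ω m, ∑ x ∈ Ω, g (Function.update w l x) w := by
  rw [← sum_product', ← sum_product']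
  refine sum_nbij' (i := fun p : (Fin m → ι) × ι => (Function.update p.1 l p.2, p.1 l))
    (j := fun p : (Fin m → ι) × ι => (Function.update p.1 l p.2, p.1 l)) ?_ ?_ ?_ ?_ ?_
  · intro p hp
    rw [mem_product] at hp ⊢
    exact ⟨upd_mem hp.1 l hp.2, Smp_mem.1 hp.1 l⟩
  · intro p hp
    rw [mem_product] at hp ⊢
    exact ⟨upd_mem hp.1 l hp.2, Smp_mem.1 hp.1 l⟩
  · intro p _
    simp
  · intro p _
    simp
  · intro p _
    simp

/-- one-sided form -/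
theorem es_pos {ι : Type} [DecidableEq ι] (Ω : Finset ι) (hΩ : Ω.Nonempty) (m : ℕ) (f : (Fin m → ι) → ℝ) :
    ∑ w ∈ Smp Ω m, f w ^ 2 - (∑ w ∈ Smp Ω m, f w) ^ 2 / (Ω.card : ℝ) ^ m ≤
      1 / Ω.card * ∑ w ∈ Smp Ω m, ∑ l, ∑ x ∈ Ω, (max (f w - f (Function.update w l x)) 0) ^ 2 := by
  refine (es Ω hΩ m f).trans (le_of_eq ?_)
  have hq0 : (0 : ℝ) < Ω.card := by exact_mod_cast card_pos.2 hΩ
  have h1 : ∀ l : Fin m, ∑ w ∈ Smp Ω m, ∑ x ∈ Ω, (f w - f (Function.update w l x)) ^ 2 =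
      2 * ∑ w ∈ Smp Ω m, ∑ x ∈ Ω, (max (f w - f (Function.update w l x)) 0) ^ 2 := by
    intro l
    have h2 := sym Ω m l (fun w w' => (max (f w - f w') 0) ^ 2)
    have h3 : ∀ w ∈ Smp Ω m, ∑ x ∈ Ω, (f w - f (Function.update w l x)) ^ 2 =
        ∑ x ∈ Ω, (max (f w - f (Function.update w l x)) 0) ^ 2 + ∑ x ∈ Ω, (max (f (Function.update w l x) - f w) 0) ^ 2 := by
      intro w _
      rw [← sum_add_distrib]
      refine sum_congr rfl fun x _ => ?_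
      rcases le_total (f w) (f (Function.update w l x)) with h | h
      · rw [max_eq_right (by linarith), max_eq_left (by linarith)]
        ring
      · rw [max_eq_left (by linarith), max_eq_right (by linarith)]
        ring
    rw [sum_congr rfl h3, sum_add_distrib, ← h2]
    ring
  have h4 : ∑ w ∈ Smp Ω m, ∑ l, ∑ x ∈ Ω, (f w - f (Function.update w l x)) ^ 2 =
      ∑ l, ∑ w ∈ Smp Ω m, ∑ x ∈ Ω, (f w - f (Function.update w l x)) ^ 2 := sum_comm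
  have h5 : ∑ w ∈ Smp Ω m, ∑ l, ∑ x ∈ Ω, (max (f w - f (Function.update w l x)) 0) ^ 2 =
      ∑ l, ∑ w ∈ Smp Ω m, ∑ x ∈ Ω, (max (f w - f (Function.update w l x)) 0) ^ 2 := sum_comm
  rw [h4, h5, sum_congr rfl fun l _ => h1 l, ← mul_sum]
  field_simp

theorem es_neg {ι : Type} [DecidableEq ι] (Ω : Finset ι) (hΩ : Ω.Nonempty) (m : ℕ) (f : (Fin m → ι) → ℝ) :
    ∑ w ∈ Smp Ω m, f w ^ 2 - (∑ w ∈ Smp Ω m, f w) ^ 2 / (Ω.card : ℝ) ^ m ≤
      1 / Ω.card * ∑ w ∈ Smp Ω m, ∑ l, ∑ x ∈ Ω, (max (f (Function.update w l x) - f w) 0) ^ 2 := by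
  have h1 := es_pos Ω hΩ m (fun w => - f w)
  have h2 : ∀ w ∈ Smp Ω m, (- f w) ^ 2 = f w ^ 2 := fun w _ => by ring
  simp only [neg_sub_neg] at h1
  rw [sum_congr rfl h2, sum_neg_distrib, neg_sq] at h1
  exact h1

/-- Chebyshev: from positive probability to probability near one -/
theorem boost {ι : Type} [DecidableEq ι] (Ω : Finset ι) (hΩ : Ω.Nonempty) (m : ℕ) (f : (Fin m → ι) → ℝ) (V c₀ a s₀ s : ℝ)
    (hV : ∑ w ∈ Smp Ω m, f w ^ 2 - (∑ w ∈ Smp Ω m, f w) ^ 2 / (Ω.card : ℝ) ^ m ≤ V * (Ω.card : ℝ) ^ m)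
    (hs₀ : 0 < s₀) (hs : 0 < s) (hc : V < c₀ * s₀ ^ 2)
    (h : c₀ * (Ω.card : ℝ) ^ m ≤ ((Smp Ω m).filter fun w => a ≤ f w).card) :
    (((Smp Ω m).filter fun w => f w < a - s₀ - s).card : ℝ) ≤ V / s ^ 2 * (Ω.card : ℝ) ^ m := by
  have hq0 : (0 : ℝ) < Ω.card := by exact_mod_cast card_pos.2 hΩ
  obtain ⟨Q, hQ⟩ : ∃ Q : ℝ, Q = (Ω.card : ℝ) ^ m := ⟨_, rfl⟩
  have hQ0 : 0 < Q := by rw [hQ]; positivity
  obtain ⟨S, hS⟩ : ∃ S : ℝ, S = ∑ w ∈ Smp Ω m, f w := ⟨_, rfl⟩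
  rw [← hQ, ← hS] at hV
  rw [← hQ] at h ⊢
  have h1 : ∑ w ∈ Smp Ω m, (f w - S / Q) ^ 2 = ∑ w ∈ Smp Ω m, f w ^ 2 - S ^ 2 / Q := by
    have h2 : ∀ w ∈ Smp Ω m, (f w - S / Q) ^ 2 = f w ^ 2 - 2 * (S / Q) * f w + (S / Q) ^ 2 := fun w _ => by ring
    rw [sum_congr rfl h2, sum_add_distrib, sum_sub_distrib, ← mul_sum, sum_const, nsmul_eq_mul, Smp_card, Nat.cast_pow,
      ← hQ, ← hS]
    field_simp
    ring
  rw [← h1] at hV
  have hsub : ∀ (p : (Fin m → ι) → Prop) [DecidablePred p] (t : ℝ), (∀ w, p w → t ≤ (f w - S / Q) ^ 2) →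
      (((Smp Ω m).filter p).card : ℝ) * t ≤ V * Q := by
    intro p _ t hpt
    calc (((Smp Ω m).filter p).card : ℝ) * t = ∑ w ∈ (Smp Ω m).filter p, t := by rw [sum_const, nsmul_eq_mul]
      _ ≤ ∑ w ∈ (Smp Ω m).filter p, (f w - S / Q) ^ 2 := sum_le_sum fun w hw => hpt w (mem_filter.1 hw).2
      _ ≤ ∑ w ∈ Smp Ω m, (f w - S / Q) ^ 2 :=
          sum_le_sum_of_subset_of_nonneg (filter_subset _ _) fun _ _ _ => sq_nonneg _
      _ ≤ V * Q := hV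
  have h2 : a - s₀ ≤ S / Q := by
    by_contra hcon
    rw [not_le] at hcon
    have h3 := hsub (fun w => a ≤ f w) (s₀ ^ 2) (fun w hw => pow_le_pow_left₀ hs₀.le (by linarith) 2)
    have h4 := mul_le_mul_of_nonneg_right h (sq_nonneg s₀)
    have h5 : c₀ * s₀ ^ 2 * Q ≤ V * Q := by linarith
    have h6 := le_of_mul_le_mul_right h5 hQ0
    linarith
  have h3 := hsub (fun w => f w < a - s₀ - s) (s ^ 2) (fun w hw => by
    have h4 : s ≤ S / Q - f w := by linarith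
    calc s ^ 2 ≤ (S / Q - f w) ^ 2 := pow_le_pow_left₀ hs.le h4 2
      _ = _ := by ring)
  rw [div_mul_eq_mul_div, le_div_iff₀ (by positivity)]
  exact h3

end Pool.Agent.Run7.h880.RP
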