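import Mathlib
import Pool.Agent.Run7.h880.MK.Smp

/-! Random samples: exactly `k` hits, one and two sets. -/

set_option autoImplicit false

namespace Pool.Agent.Run7.h880.RP

open Finset
open Pool.Agent.Run7.h880.MK (Smp Smp_mem Smp_card hits hits_eq nohit)

/-- the positions of the hits -/
def tr {ι : Type} [DecidableEq ι] (A : Finset ι) {m : ℕ} (w : Fin m → ι) : Finset (Fin m) := univ.filter fun l => w l ∈ A

lemma hits_tr {ι : Type} [DecidableEq ι] (A : Finset ι) {m : ℕ} (w : Fin m → ι) : hits A w = (tr A w).card := rfl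

lemma mem_tr {ι : Type} [DecidableEq ι] (A : Finset ι) {m : ℕ} (w : Fin m → ι) (l : Fin m) : l ∈ tr A w ↔ w l ∈ A := by
  unfold tr
  simp

lemma prod_tr {m : ℕ} (T : Finset (Fin m)) (a b : ℝ) :
    ∏ l, (if l ∈ T then a else b) = a ^ T.card * b ^ (m - T.card) := by
  rw [prod_ite, prod_const, prod_const]
  congr 2
  · congr 1
    ext l; simp
  · have : (univ.filter fun l => l ∉ T) = Tᶜ := by ext l; simp
    rw [this, card_compl, Fintype.card_fin]

lemma tr_fiber {ι : Type} [DecidableEq ι] (Ω A : Finset ι) (hA : A ⊆ Ω) (m : ℕ) (T : Finset (Fin m)) :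
    (((Smp Ω m).filter fun w => tr A w = T).card : ℝ) = (A.card : ℝ) ^ T.card * ((Ω.card : ℝ) - A.card) ^ (m - T.card) := by
  have h1 : (Smp Ω m).filter (fun w => tr A w = T) = Fintype.piFinset (fun l => if l ∈ T then A else Ω \ A) := by
    ext w
    rw [mem_filter, Smp_mem, Fintype.mem_piFinset]
    constructor
    · rintro ⟨h1, h2⟩ l
      split_ifs with h
      · rw [← h2, mem_tr] at h
        exact h
      · rw [← h2, mem_tr] at h
        exact mem_sdiff.2 ⟨h1 l, h⟩
    · intro h
      refine ⟨fun l => ?_, ?_⟩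
      · have := h l
        split_ifs at this with h3
        · exact hA this
        · exact (mem_sdiff.1 this).1
      · ext l
        rw [mem_tr]
        have := h l
        split_ifs at this with h3
        · exact ⟨fun _ => h3, fun _ => this⟩
        · exact ⟨fun h4 => absurd h4 (mem_sdiff.1 this).2, fun h4 => absurd h4 h3⟩
  rw [h1, Fintype.card_piFinset, ← prod_tr, Nat.cast_prod]
  refine prod_congr rfl fun l _ => ?_
  split_ifs
  · rfl
  · rw [card_sdiff_of_subset hA, Nat.cast_sub (card_le_card hA)]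

/-- exactly `k` hits -/
theorem ex_card {ι : Type} [DecidableEq ι] (Ω A : Finset ι) (hA : A ⊆ Ω) (m k : ℕ) :
    (((Smp Ω m).filter fun w => hits A w = k).card : ℝ) =
      m.choose k * ((A.card : ℝ) ^ k * ((Ω.card : ℝ) - A.card) ^ (m - k)) := by
  have h1 : ((Smp Ω m).filter fun w => hits A w = k).card =
      ∑ T ∈ powersetCard k (univ : Finset (Fin m)), ((Smp Ω m).filter fun w => tr A w = T).card := by
    rw [card_eq_sum_card_fiberwise (f := fun w => tr A w) (t := powersetCard k (univ : Finset (Fin m)))]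
    · refine sum_congr rfl fun T hT => ?_
      rw [mem_powersetCard] at hT
      congr 1
      ext w
      rw [mem_filter, mem_filter, mem_filter, hits_tr]
      constructor
      · rintro ⟨⟨h1, _⟩, h3⟩
        exact ⟨h1, h3⟩
      · rintro ⟨h1, h2⟩
        exact ⟨⟨h1, by rw [h2]; exact hT.2⟩, h2⟩
    · intro w hw
      have hw := mem_filter.1 (mem_coe.1 hw)
      rw [hits_tr] at hw
      exact mem_coe.2 (mem_powersetCard.2 ⟨subset_univ _, hw.2⟩)
  rw [h1, Nat.cast_sum]
  have h2 : ∀ T ∈ powersetCard k (univ : Finset (Fin m)), ((((Smp Ω m).filter fun w => tr A w = T).card : ℕ) : ℝ) =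
      (A.card : ℝ) ^ k * ((Ω.card : ℝ) - A.card) ^ (m - k) := by
    intro T hT
    rw [mem_powersetCard] at hT
    rw [tr_fiber Ω A hA m T, hT.2]
  rw [sum_congr rfl h2, sum_const, card_powersetCard, card_univ, Fintype.card_fin, nsmul_eq_mul]

/-- supersets of a given set -/
lemma sup_card {m : ℕ} (S : Finset (Fin m)) (k : ℕ) :
    ((powersetCard k (univ : Finset (Fin m))).filter fun T => S ⊆ T).card ≤ (m - S.card).choose (k - S.card) := by
  have h1 : (powersetCard (k - S.card) (Sᶜ)).card = (m - S.card).choose (k - S.card) := by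
    rw [card_powersetCard, card_compl, Fintype.card_fin]
  rw [← h1]
  refine card_le_card_of_injOn (fun T => T \ S) ?_ ?_
  · intro T hT
    have hT := mem_filter.1 (mem_coe.1 hT)
    have hT1 := mem_powersetCard.1 hT.1
    refine mem_coe.2 (mem_powersetCard.2 ⟨?_, ?_⟩)
    · intro l hl
      rw [mem_compl]
      exact (mem_sdiff.1 hl).2
    · show (T \ S).card = _
      rw [card_sdiff_of_subset hT.2, hT1.2]
  · intro T hT T' hT' he
    have hT := (mem_filter.1 (mem_coe.1 hT)).2
    have hT' := (mem_filter.1 (mem_coe.1 hT')).2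
    have he : T \ S = T' \ S := he
    rw [← sdiff_union_of_subset hT, ← sdiff_union_of_subset hT', he]

lemma choose_step {m k : ℕ} (hk : k ≤ m) (i : ℕ) (hi : i ≤ k) :
    ((m - i).choose (k - i) : ℝ) * (m : ℝ) ^ i ≤ (k : ℝ) ^ i * m.choose k := by
  induction i with
  | zero => simp
  | succ i ih =>
    have h1 := ih (by omega)
    have h2 : (m - i) * ((m - (i + 1)).choose (k - (i + 1))) = (m - i).choose (k - i) * (k - i) := by
      have e1 : m - i = (m - (i + 1)) + 1 := by omega
      have e2 : k - i = (k - (i + 1)) + 1 := by omega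
      have := Nat.add_one_mul_choose_eq (m - (i + 1)) (k - (i + 1))
      rw [← e1, ← e2] at this
      exact this
    have h3 : ((m : ℝ) - i) * ((m - (i + 1)).choose (k - (i + 1)) : ℝ) = ((m - i).choose (k - i) : ℝ) * ((k : ℝ) - i) := by
      have := congrArg (Nat.cast (R := ℝ)) h2
      rw [Nat.cast_mul, Nat.cast_mul, Nat.cast_sub (by omega), Nat.cast_sub (by omega)] at this
      exact this
    have hmi : (0 : ℝ) < (m : ℝ) - i := by
      have : ((i + 1 : ℕ) : ℝ) ≤ m := by exact_mod_cast (by omega : i + 1 ≤ m)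
      push_cast at this
      linarith
    have hki : (k : ℝ) ≤ m := by exact_mod_cast hk
    have hi0 : (0 : ℝ) ≤ i := Nat.cast_nonneg _
    -- C' * m ≤ k * C
    have h4 : ((m - (i + 1)).choose (k - (i + 1)) : ℝ) * m ≤ k * ((m - i).choose (k - i) : ℝ) := by
      have hC : (0 : ℝ) ≤ ((m - i).choose (k - i) : ℝ) := Nat.cast_nonneg _
      refine le_of_mul_le_mul_left ?_ hmi
      calc ((m : ℝ) - i) * (((m - (i + 1)).choose (k - (i + 1)) : ℝ) * m)
          = (((m : ℝ) - i) * ((m - (i + 1)).choose (k - (i + 1)) : ℝ)) * m := by ring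
        _ = (((m - i).choose (k - i) : ℝ) * ((k : ℝ) - i)) * m := by rw [h3]
        _ = ((m - i).choose (k - i) : ℝ) * (((k : ℝ) - i) * m) := by ring
        _ ≤ ((m - i).choose (k - i) : ℝ) * (((m : ℝ) - i) * k) := by
            refine mul_le_mul_of_nonneg_left ?_ hC
            nlinarith
        _ = _ := by ring
    calc ((m - (i + 1)).choose (k - (i + 1)) : ℝ) * (m : ℝ) ^ (i + 1)
        = (((m - (i + 1)).choose (k - (i + 1)) : ℝ) * m) * (m : ℝ) ^ i := by ring
      _ ≤ (k * ((m - i).choose (k - i) : ℝ)) * (m : ℝ) ^ i := mul_le_mul_of_nonneg_right h4 (by positivity)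
      _ = k * (((m - i).choose (k - i) : ℝ) * (m : ℝ) ^ i) := by ring
      _ ≤ k * ((k : ℝ) ^ i * m.choose k) := mul_le_mul_of_nonneg_left h1 (Nat.cast_nonneg _)
      _ = _ := by ring

/-- exponential moments of the intersection of two random `k`-subsets -/
theorem hyper {m k : ℕ} (hk : k ≤ m) (hm : 1 ≤ m) (s : ℝ) (hs : 0 ≤ s) :
    ∑ T ∈ powersetCard k (univ : Finset (Fin m)), ∑ T' ∈ powersetCard k (univ : Finset (Fin m)), (1 + s) ^ (T ∩ T').card ≤
      (m.choose k : ℝ) ^ 2 * Real.exp (s * k ^ 2 / m) := by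
  have hm0 : (0 : ℝ) < m := by exact_mod_cast hm
  have h1 : ∀ T ∈ powersetCard k (univ : Finset (Fin m)),
      ∑ T' ∈ powersetCard k (univ : Finset (Fin m)), (1 + s) ^ (T ∩ T').card ≤ m.choose k * Real.exp (s * k ^ 2 / m) := by
    intro T hT
    have hTk := (mem_powersetCard.1 hT).2
    have h2 : ∀ T' : Finset (Fin m), (1 + s) ^ (T ∩ T').card = ∑ S ∈ T.powerset, s ^ S.card * (if S ⊆ T' then 1 else 0) := by
      intro T'
      have h3 := sum_pow_mul_eq_add_pow s 1 (T ∩ T')
      simp only [one_pow, mul_one] at h3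
      rw [add_comm, ← h3]
      simp only [mul_ite, mul_one, mul_zero]
      rw [← sum_filter]
      refine sum_congr ?_ fun _ _ => rfl
      ext S
      rw [mem_powerset, mem_filter, mem_powerset, subset_inter_iff]
    rw [sum_congr rfl fun T' _ => h2 T', sum_comm]
    have h4 : ∀ S ∈ T.powerset, ∑ T' ∈ powersetCard k (univ : Finset (Fin m)), s ^ S.card * (if S ⊆ T' then (1 : ℝ) else 0) ≤
        m.choose k * (s * k / m) ^ S.card := by
      intro S hS
      have hSk : S.card ≤ k := by rw [← hTk]; exact card_le_card (mem_powerset.1 hS)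
      rw [← mul_sum, sum_boole]
      have h5 : ((((powersetCard k (univ : Finset (Fin m))).filter fun T => S ⊆ T).card : ℕ) : ℝ) ≤
          ((m - S.card).choose (k - S.card) : ℝ) := by exact_mod_cast sup_card S k
      have h6 := choose_step hk S.card hSk
      have h7 : ((m - S.card).choose (k - S.card) : ℝ) ≤ (k : ℝ) ^ S.card * m.choose k / (m : ℝ) ^ S.card := by
        rwa [le_div_iff₀ (by positivity)]
      calc s ^ S.card * ((((powersetCard k (univ : Finset (Fin m))).filter fun T => S ⊆ T).card : ℕ) : ℝ)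
          ≤ s ^ S.card * ((k : ℝ) ^ S.card * m.choose k / (m : ℝ) ^ S.card) :=
            mul_le_mul_of_nonneg_left (h5.trans h7) (by positivity)
        _ = _ := by rw [div_pow, mul_pow]; ring
    refine (sum_le_sum h4).trans ?_
    rw [← mul_sum]
    refine mul_le_mul_of_nonneg_left ?_ (Nat.cast_nonneg _)
    have h5 := sum_pow_mul_eq_add_pow (s * k / m) 1 T
    simp only [one_pow, mul_one] at h5
    rw [h5, hTk]
    calc (s * k / m + 1) ^ k ≤ (Real.exp (s * k / m)) ^ k :=
          pow_le_pow_left₀ (by positivity) (Real.add_one_le_exp _) k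
      _ = Real.exp (s * k ^ 2 / m) := by
          rw [← Real.exp_nat_mul]
          congr 1
          ring
  refine (sum_le_sum h1).trans ?_
  rw [sum_const, card_powersetCard, card_univ, Fintype.card_fin, nsmul_eq_mul]
  refine le_of_eq ?_
  ring

lemma tr_fiber2 {ι : Type} [DecidableEq ι] (Ω A B : Finset ι) (m : ℕ) (T T' : Finset (Fin m)) :
    (((Smp Ω m).filter fun w => tr A w = T ∧ tr B w = T').card : ℝ) ≤
      ∏ l, (if l ∈ T then (if l ∈ T' then ((A ∩ B).card : ℝ) else A.card) else
        (if l ∈ T' then (B.card : ℝ) else (Ω \ (A ∪ B)).card)) := by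
  have h1 : (Smp Ω m).filter (fun w => tr A w = T ∧ tr B w = T') ⊆
      Fintype.piFinset (fun l => if l ∈ T then (if l ∈ T' then A ∩ B else A) else (if l ∈ T' then B else Ω \ (A ∪ B))) := by
    intro w hw
    rw [mem_filter, Smp_mem] at hw
    rw [Fintype.mem_piFinset]
    obtain ⟨h1, h2, h3⟩ := hw
    intro l
    by_cases h4 : l ∈ T <;> by_cases h5 : l ∈ T' <;> simp only [h4, h5, if_true, if_false]
    · rw [← h2, mem_tr] at h4
      rw [← h3, mem_tr] at h5
      exact mem_inter.2 ⟨h4, h5⟩
    · rw [← h2, mem_tr] at h4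
      exact h4
    · rw [← h3, mem_tr] at h5
      exact h5
    · rw [← h2, mem_tr] at h4
      rw [← h3, mem_tr] at h5
      refine mem_sdiff.2 ⟨h1 l, fun h => ?_⟩
      rcases mem_union.1 h with h | h
      · exact h4 h
      · exact h5 h
  have h2 : (((Smp Ω m).filter fun w => tr A w = T ∧ tr B w = T').card : ℝ) ≤
      ((Fintype.piFinset (fun l => if l ∈ T then (if l ∈ T' then A ∩ B else A) else
        (if l ∈ T' then B else Ω \ (A ∪ B)))).card : ℝ) := by exact_mod_cast card_le_card h1
  refine h2.trans (le_of_eq ?_)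
  rw [Fintype.card_piFinset, Nat.cast_prod]
  refine prod_congr rfl fun l _ => ?_
  split_ifs <;> rfl

/-- both sets have exactly `k` hits -/
theorem pair {ι : Type} [DecidableEq ι] (Ω A B : Finset ι) (hA : A ⊆ Ω) (hB : B ⊆ Ω) (hΩ : Ω.Nonempty) (m k : ℕ)
    (hk : 2 * k ≤ m) (hm : 1 ≤ m) (s a b D : ℝ) (hs : 0 ≤ s) (ha : a = A.card / Ω.card) (hb : b = B.card / Ω.card)
    (hab : ((A ∩ B).card : ℝ) ≤ (1 + s) * (a * b) * Ω.card) (hD : D = 1 - a - b + (A ∩ B).card / Ω.card) :
    (((Smp Ω m).filter fun w => hits A w = k ∧ hits B w = k).card : ℝ) ≤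
      Ω.card ^ m * (a ^ k * b ^ k * D ^ (m - 2 * k)) * ((m.choose k : ℝ) ^ 2 * Real.exp (s * k ^ 2 / m)) := by
  obtain ⟨q, hq⟩ : ∃ q : ℝ, q = Ω.card := ⟨_, rfl⟩
  have hq0 : 0 < q := by rw [hq]; exact_mod_cast card_pos.2 hΩ
  rw [← hq] at ha hb hab hD ⊢
  have ha0 : 0 ≤ a := by rw [ha]; positivity
  have hb0 : 0 ≤ b := by rw [hb]; positivity
  have hAq : (A.card : ℝ) = a * q := by rw [ha, div_mul_cancel₀ _ hq0.ne']
  have hBq : (B.card : ℝ) = b * q := by rw [hb, div_mul_cancel₀ _ hq0.ne']
  have hDq : ((Ω \ (A ∪ B)).card : ℝ) = D * q := by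
    rw [card_sdiff_of_subset (union_subset hA hB), Nat.cast_sub (card_le_card (union_subset hA hB)), ← hq, hD]
    have h1 := card_union_add_card_inter A B
    have h2 : ((A ∪ B).card : ℝ) + (A ∩ B).card = A.card + B.card := by exact_mod_cast h1
    have e : (1 - a - b + ((A ∩ B).card : ℝ) / q) * q = q - a * q - b * q + (A ∩ B).card := by
      rw [add_mul, div_mul_cancel₀ _ hq0.ne']
      ring
    rw [e, ← hAq, ← hBq]
    linarith
  have hD0 : 0 ≤ D := by
    have h1 : 0 ≤ D * q := by rw [← hDq]; exact Nat.cast_nonneg _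
    exact nonneg_of_mul_nonneg_left h1 hq0
  have hD1 : D ≤ 1 := by
    have h1 : D * q ≤ 1 * q := by
      rw [← hDq, one_mul, hq]
      exact_mod_cast card_le_card sdiff_subset
    exact le_of_mul_le_mul_right h1 hq0
  have h1 : ((Smp Ω m).filter fun w => hits A w = k ∧ hits B w = k).card =
      ∑ P ∈ powersetCard k (univ : Finset (Fin m)) ×ˢ powersetCard k (univ : Finset (Fin m)),
        ((Smp Ω m).filter fun w => tr A w = P.1 ∧ tr B w = P.2).card := by
    rw [card_eq_sum_card_fiberwise (f := fun w => (tr A w, tr B w))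
      (t := powersetCard k (univ : Finset (Fin m)) ×ˢ powersetCard k (univ : Finset (Fin m)))]
    · refine sum_congr rfl fun P hP => ?_
      rw [mem_product, mem_powersetCard, mem_powersetCard] at hP
      congr 1
      ext w
      rw [mem_filter, mem_filter, mem_filter, hits_tr, hits_tr]
      constructor
      · rintro ⟨⟨h1, _⟩, h3⟩
        have h3 : (tr A w, tr B w) = P := h3
        exact ⟨h1, by rw [← h3], by rw [← h3]⟩
      · rintro ⟨h1, h2, h3⟩
        exact ⟨⟨h1, by rw [h2]; exact hP.1.2, by rw [h3]; exact hP.2.2⟩, Prod.ext h2 h3⟩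
    · intro w hw
      have hw := mem_filter.1 (mem_coe.1 hw)
      rw [hits_tr, hits_tr] at hw
      exact mem_coe.2 (mem_product.2 ⟨mem_powersetCard.2 ⟨subset_univ _, hw.2.1⟩,
        mem_powersetCard.2 ⟨subset_univ _, hw.2.2⟩⟩)
  rw [h1, Nat.cast_sum, sum_product]
  have h2 : ∀ T ∈ powersetCard k (univ : Finset (Fin m)), ∀ T' ∈ powersetCard k (univ : Finset (Fin m)),
      ((((Smp Ω m).filter fun w => tr A w = T ∧ tr B w = T').card : ℕ) : ℝ) ≤
        q ^ m * (a ^ k * b ^ k * D ^ (m - 2 * k)) * (1 + s) ^ (T ∩ T').card := by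
    intro T hT T' hT'
    have hTk := (mem_powersetCard.1 hT).2
    have hTk' := (mem_powersetCard.1 hT').2
    refine (tr_fiber2 Ω A B m T T').trans ?_
    have h3 : ∏ l, (if l ∈ T then (if l ∈ T' then ((A ∩ B).card : ℝ) else A.card) else
        (if l ∈ T' then (B.card : ℝ) else (Ω \ (A ∪ B)).card)) ≤
        ∏ l : Fin m, (q * (if l ∈ T then a else 1) * (if l ∈ T' then b else 1) * (if l ∈ T ∩ T' then (1 + s) else 1) *
          (if l ∈ T ∪ T' then 1 else D)) := by
      refine prod_le_prod (fun l _ => by split_ifs <;> exact Nat.cast_nonneg _) fun l _ => ?_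
      by_cases h4 : l ∈ T <;> by_cases h5 : l ∈ T' <;>
        simp only [h4, h5, if_true, if_false, mem_inter, mem_union, and_self, and_true, and_false,
          or_self, or_true, or_false, mul_one]
      · refine hab.trans (le_of_eq ?_)
        ring
      · rw [hAq]
        exact le_of_eq (by ring)
      · rw [hBq]
        exact le_of_eq (by ring)
      · rw [hDq]
        exact le_of_eq (by ring)
    refine h3.trans ?_
    rw [prod_mul_distrib, prod_mul_distrib, prod_mul_distrib, prod_mul_distrib, prod_const, card_univ, Fintype.card_fin,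
      prod_tr, prod_tr, prod_tr, prod_tr, hTk, hTk']
    simp only [one_pow, mul_one, one_mul]
    have h4 : D ^ (m - (T ∪ T').card) ≤ D ^ (m - 2 * k) := by
      refine pow_le_pow_of_le_one hD0 hD1 ?_
      have := card_union_le T T'
      omega
    calc q ^ m * a ^ k * b ^ k * (1 + s) ^ (T ∩ T').card * D ^ (m - (T ∪ T').card)
        ≤ q ^ m * a ^ k * b ^ k * (1 + s) ^ (T ∩ T').card * D ^ (m - 2 * k) := by
          refine mul_le_mul_of_nonneg_left h4 ?_
          positivity
      _ = _ := by ring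
  refine (sum_le_sum fun T hT => sum_le_sum fun T' hT' => h2 T hT T' hT').trans ?_
  simp only [← mul_sum]
  refine mul_le_mul_of_nonneg_left (hyper (by omega) hm s hs) ?_
  positivity

end Pool.Agent.Run7.h880.RP
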