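import Mathlib
import Pool.Agent.Run7.h880.MK.Smp

/-! Random samples: large deviations of the number of hits, for finitely many sets at the same time. -/

set_option autoImplicit false

namespace Pool.Agent.Run7.h880.RP

open Finset
open Pool.Agent.Run7.h880.MK (Smp Smp_mem Smp_card hits hits_eq nohit)

/-- the rate function -/
noncomputable def hf (x : ℝ) : ℝ := 1 - x + x * Real.log x

lemma hf_zero : hf 0 = 1 := by simp [hf]

lemma hf_nonneg {x : ℝ} (hx : 0 ≤ x) : 0 ≤ hf x := by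
  unfold hf
  rcases hx.eq_or_lt with h | h
  · rw [← h]; simp
  · have h1 := Real.one_sub_inv_le_log_of_pos h
    have h2 : x * (1 - x⁻¹) ≤ x * Real.log x := mul_le_mul_of_nonneg_left h1 h.le
    have h3 : x * (1 - x⁻¹) = x - 1 := by field_simp
    linarith

lemma one {ι : Type} [DecidableEq ι] (Ω A : Finset ι) (hA : A ⊆ Ω) (m : ℕ) (p t s : ℝ)
    (hb : (A.card : ℝ) * (Real.exp t - 1) ≤ p * Ω.card * (Real.exp t - 1)) :
    (((Smp Ω m).filter fun w => s ≤ t * hits A w).card : ℝ) ≤ Ω.card ^ m * Real.exp (m * (p * (Real.exp t - 1)) - s) := by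
  classical
  have h2 : (((Smp Ω m).filter fun w => s ≤ t * hits A w).card : ℝ) ≤
      ∑ w ∈ Smp Ω m, Real.exp (-s) * ∏ l, Real.exp (t * (if w l ∈ A then (1 : ℝ) else 0)) := by
    rw [card_eq_sum_ones, Nat.cast_sum]
    calc ∑ w ∈ (Smp Ω m).filter (fun w => s ≤ t * hits A w), ((1 : ℕ) : ℝ)
        ≤ ∑ w ∈ (Smp Ω m).filter (fun w => s ≤ t * hits A w),
            Real.exp (-s) * ∏ l, Real.exp (t * (if w l ∈ A then (1 : ℝ) else 0)) := by
          refine sum_le_sum fun w hw => ?_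
          have hw := (mem_filter.1 hw).2
          rw [← Real.exp_sum, ← Real.exp_add, ← mul_sum, ← hits_eq, Nat.cast_one]
          refine Real.one_le_exp ?_
          linarith
      _ ≤ _ := sum_le_sum_of_subset_of_nonneg (filter_subset _ _) fun _ _ _ => by positivity
  refine h2.trans ?_
  rw [← mul_sum]
  have h3 : ∑ w ∈ Smp Ω m, ∏ l, Real.exp (t * (if w l ∈ A then (1 : ℝ) else 0)) =
      (∑ ω ∈ Ω, Real.exp (t * (if ω ∈ A then (1 : ℝ) else 0))) ^ m := by
    have := Finset.prod_univ_sum (fun _ : Fin m => Ω) (fun (_ : Fin m) (ω : ι) => Real.exp (t * (if ω ∈ A then (1 : ℝ) else 0)))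
    rw [prod_const, card_univ, Fintype.card_fin] at this
    rw [this]
    rfl
  rw [h3]
  have h4 : ∑ ω ∈ Ω, Real.exp (t * (if ω ∈ A then (1 : ℝ) else 0)) = Ω.card + A.card * (Real.exp t - 1) := by
    have h2 : ∀ ω ∈ Ω, Real.exp (t * (if ω ∈ A then (1 : ℝ) else 0)) = 1 + (Real.exp t - 1) * (if ω ∈ A then (1 : ℝ) else 0) := by
      intro ω _
      split_ifs
      · rw [mul_one]; ring
      · rw [mul_zero, Real.exp_zero]; ring
    rw [sum_congr rfl h2, sum_add_distrib, ← mul_sum, sum_boole, sum_const, nsmul_eq_mul, mul_one]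
    have h3 : Ω.filter (fun ω => ω ∈ A) = A := by
      ext ω
      rw [mem_filter]
      exact ⟨fun h => h.2, fun h => ⟨hA h, h⟩⟩
    rw [h3]
    ring
  have h5 : ∑ ω ∈ Ω, Real.exp (t * (if ω ∈ A then (1 : ℝ) else 0)) ≤ Ω.card * Real.exp (p * (Real.exp t - 1)) := by
    rw [h4]
    have h6 := Real.add_one_le_exp (p * (Real.exp t - 1))
    calc (Ω.card : ℝ) + A.card * (Real.exp t - 1) ≤ Ω.card + p * Ω.card * (Real.exp t - 1) := by linarith
      _ = Ω.card * (p * (Real.exp t - 1) + 1) := by ring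
      _ ≤ _ := mul_le_mul_of_nonneg_left h6 (Nat.cast_nonneg _)
  calc Real.exp (-s) * (∑ ω ∈ Ω, Real.exp (t * (if ω ∈ A then (1 : ℝ) else 0))) ^ m
      ≤ Real.exp (-s) * (Ω.card * Real.exp (p * (Real.exp t - 1))) ^ m := by
        refine mul_le_mul_of_nonneg_left (pow_le_pow_left₀ (sum_nonneg fun _ _ => (Real.exp_pos _).le) h5 m)
          (Real.exp_pos _).le
    _ = _ := by
        have e : Real.exp (m * (p * (Real.exp t - 1)) - s) = Real.exp (-s) * Real.exp (m * (p * (Real.exp t - 1))) := by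
          rw [← Real.exp_add]
          congr 1
          ring
        rw [mul_pow, ← Real.exp_nat_mul, e]
        ring

/-- too many hits -/
theorem up {ι : Type} [DecidableEq ι] (Ω A : Finset ι) (hA : A ⊆ Ω) (m : ℕ) (p u : ℝ) (hu : 1 ≤ u)
    (hp : (A.card : ℝ) ≤ p * Ω.card) :
    (((Smp Ω m).filter fun w => u * (m * p) ≤ hits A w).card : ℝ) ≤ Ω.card ^ m * Real.exp (-(m * p * hf u)) := by
  classical
  have hu0 : 0 < u := by linarith
  have ht : 0 ≤ Real.log u := Real.log_nonneg hu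
  have h1 := one Ω A hA m p (Real.log u) (Real.log u * (u * (m * p))) (by
    rw [Real.exp_log hu0]
    exact mul_le_mul_of_nonneg_right hp (by linarith))
  rw [Real.exp_log hu0] at h1
  have e1 : (m : ℝ) * (p * (u - 1)) - Real.log u * (u * (m * p)) = -(m * p * hf u) := by unfold hf; ring
  rw [e1] at h1
  refine le_trans ?_ h1
  have : (Smp Ω m).filter (fun w => u * (m * p) ≤ hits A w) ⊆
      (Smp Ω m).filter fun w => Real.log u * (u * (m * p)) ≤ Real.log u * hits A w := by
    intro w hw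
    obtain ⟨h2, h3⟩ := mem_filter.1 hw
    exact mem_filter.2 ⟨h2, mul_le_mul_of_nonneg_left h3 ht⟩
  exact_mod_cast card_le_card this

/-- too few hits -/
theorem lo {ι : Type} [DecidableEq ι] (Ω A : Finset ι) (hA : A ⊆ Ω) (m : ℕ) (p l : ℝ) (hl0 : 0 ≤ l) (hl : l ≤ 1)
    (hp : p * Ω.card ≤ A.card) (hΩ : Ω.Nonempty) :
    (((Smp Ω m).filter fun w => (hits A w : ℝ) ≤ l * (m * p)).card : ℝ) ≤ Ω.card ^ m * Real.exp (-(m * p * hf l)) := by
  classical
  rcases hl0.eq_or_lt with h0 | h0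
  · rw [← h0, hf_zero, mul_one]
    have h1 := nohit Ω A hA m
    have hc : (0 : ℝ) < Ω.card := by exact_mod_cast card_pos.2 hΩ
    have h2 : (Smp Ω m).filter (fun w => (hits A w : ℝ) ≤ 0 * (m * p)) ⊆ (Smp Ω m).filter fun w => ∀ l, w l ∉ A := by
      intro w hw
      obtain ⟨h2, h3⟩ := mem_filter.1 hw
      refine mem_filter.2 ⟨h2, fun l hl => ?_⟩
      rw [zero_mul] at h3
      have h4 : hits A w = 0 := by
        have : (0 : ℝ) ≤ hits A w := Nat.cast_nonneg _
        exact_mod_cast le_antisymm h3 this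
      unfold hits at h4
      rw [card_eq_zero, filter_eq_empty_iff] at h4
      exact h4 (mem_univ l) hl
    have h3 : (((Smp Ω m).filter (fun w => (hits A w : ℝ) ≤ 0 * (m * p))).card : ℝ) ≤
        ((Smp Ω m).filter fun w => ∀ l, w l ∉ A).card := by
      exact_mod_cast card_le_card h2
    refine h3.trans (h1.trans ?_)
    refine mul_le_mul_of_nonneg_left (Real.exp_le_exp.2 ?_) (by positivity)
    have h4 : p ≤ (A.card : ℝ) / Ω.card := by rwa [le_div_iff₀ hc]
    have h5 : (0 : ℝ) ≤ m := Nat.cast_nonneg _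
    nlinarith
  · have ht : Real.log l ≤ 0 := Real.log_nonpos h0.le hl
    have h1 := one Ω A hA m p (Real.log l) (Real.log l * (l * (m * p))) (by
      rw [Real.exp_log h0]
      nlinarith)
    rw [Real.exp_log h0] at h1
    have e1 : (m : ℝ) * (p * (l - 1)) - Real.log l * (l * (m * p)) = -(m * p * hf l) := by unfold hf; ring
    rw [e1] at h1
    refine le_trans ?_ h1
    have : (Smp Ω m).filter (fun w => (hits A w : ℝ) ≤ l * (m * p)) ⊆
        (Smp Ω m).filter fun w => Real.log l * (l * (m * p)) ≤ Real.log l * hits A w := by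
      intro w hw
      obtain ⟨h2, h3⟩ := mem_filter.1 hw
      exact mem_filter.2 ⟨h2, mul_le_mul_of_nonpos_left h3 ht⟩
    exact_mod_cast card_le_card this

/-- **large deviations for finitely many sets** whose densities are between `(1 - δ) / L` and `(1 + δ) / L` -/
theorem law {ι κ : Type} [DecidableEq ι] (Ω : Finset ι) (hΩ : Ω.Nonempty) (J : Finset κ) (A : κ → Finset ι)
    (hA : ∀ j ∈ J, A j ⊆ Ω) (L δ : ℝ)
    (hd : ∀ j ∈ J, |((A j).card : ℝ) - Ω.card / L| ≤ δ * (Ω.card / L)) (m : ℕ) :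
    (∀ u : ℝ, 1 ≤ u → ∃ Bad : Finset (Fin m → ι),
      (Bad.card : ℝ) ≤ J.card * (Ω.card ^ m * Real.exp (-((1 + δ) * (m / L) * hf u))) ∧
      ∀ w : Fin m → ι, (∀ l, w l ∈ Ω) → w ∉ Bad → ∀ j ∈ J, (hits (A j) w : ℝ) < u * ((1 + δ) * (m / L))) ∧
    (∀ l : ℝ, 0 ≤ l → l ≤ 1 → ∃ Bad : Finset (Fin m → ι),
      (Bad.card : ℝ) ≤ J.card * (Ω.card ^ m * Real.exp (-((1 - δ) * (m / L) * hf l))) ∧
      ∀ w : Fin m → ι, (∀ l, w l ∈ Ω) → w ∉ Bad → ∀ j ∈ J, l * ((1 - δ) * (m / L)) < (hits (A j) w : ℝ)) := by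
  classical
  constructor
  · intro u hu
    refine ⟨J.biUnion fun j => (Smp Ω m).filter fun w => u * (m * ((1 + δ) / L)) ≤ hits (A j) w, ?_, ?_⟩
    · calc ((J.biUnion fun j => (Smp Ω m).filter fun w => u * (m * ((1 + δ) / L)) ≤ hits (A j) w).card : ℝ)
          ≤ ((∑ j ∈ J, ((Smp Ω m).filter fun w => u * (m * ((1 + δ) / L)) ≤ hits (A j) w).card : ℕ) : ℝ) := by
            exact_mod_cast card_biUnion_le
        _ = ∑ j ∈ J, (((Smp Ω m).filter fun w => u * (m * ((1 + δ) / L)) ≤ hits (A j) w).card : ℝ) := by rw [Nat.cast_sum]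
        _ ≤ ∑ _j ∈ J, (Ω.card ^ m * Real.exp (-((1 + δ) * (m / L) * hf u))) := by
            refine sum_le_sum fun j hj => ?_
            have h1 := up Ω (A j) (hA j hj) m ((1 + δ) / L) u hu (by
              have := (abs_le.1 (hd j hj)).2
              have e : (1 + δ) / L * (Ω.card : ℝ) = Ω.card / L + δ * (Ω.card / L) := by ring
              rw [e]
              linarith)
            refine h1.trans (le_of_eq ?_)
            congr 2
            ring
        _ = _ := by rw [sum_const, nsmul_eq_mul]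
    · intro w hw hwB j hj
      by_contra hcon
      refine hwB (mem_biUnion.2 ⟨j, hj, mem_filter.2 ⟨Smp_mem.2 hw, ?_⟩⟩)
      rw [not_lt] at hcon
      refine le_trans (le_of_eq ?_) hcon
      ring
  · intro l hl0 hl
    refine ⟨J.biUnion fun j => (Smp Ω m).filter fun w => (hits (A j) w : ℝ) ≤ l * (m * ((1 - δ) / L)), ?_, ?_⟩
    · calc ((J.biUnion fun j => (Smp Ω m).filter fun w => (hits (A j) w : ℝ) ≤ l * (m * ((1 - δ) / L))).card : ℝ)
          ≤ ((∑ j ∈ J, ((Smp Ω m).filter fun w => (hits (A j) w : ℝ) ≤ l * (m * ((1 - δ) / L))).card : ℕ) : ℝ) := by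
            exact_mod_cast card_biUnion_le
        _ = ∑ j ∈ J, (((Smp Ω m).filter fun w => (hits (A j) w : ℝ) ≤ l * (m * ((1 - δ) / L))).card : ℝ) := by rw [Nat.cast_sum]
        _ ≤ ∑ _j ∈ J, (Ω.card ^ m * Real.exp (-((1 - δ) * (m / L) * hf l))) := by
            refine sum_le_sum fun j hj => ?_
            have h1 := lo Ω (A j) (hA j hj) m ((1 - δ) / L) l hl0 hl (by
              have := (abs_le.1 (hd j hj)).1
              have e : (1 - δ) / L * (Ω.card : ℝ) = Ω.card / L - δ * (Ω.card / L) := by ring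
              rw [e]
              linarith) hΩ
            refine h1.trans (le_of_eq ?_)
            congr 2
            ring
        _ = _ := by rw [sum_const, nsmul_eq_mul]
    · intro w hw hwB j hj
      by_contra hcon
      refine hwB (mem_biUnion.2 ⟨j, hj, mem_filter.2 ⟨Smp_mem.2 hw, ?_⟩⟩)
      rw [not_lt] at hcon
      refine hcon.trans (le_of_eq ?_)
      ring

end Pool.Agent.Run7.h880.RP
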