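import Mathlib
import Pool.Agent.Run7.h880.RP.Ex
import Pool.Agent.Run7.h880.RP.Ld

/-! Random samples: the second moment of the number of sets with exactly `k` hits. -/

set_option autoImplicit false

namespace Pool.Agent.Run7.h880.RP

open Finset
open Pool.Agent.Run7.h880.MK (Smp Smp_mem Smp_card hits hits_eq nohit)

lemma one_sub_ge {x : ℝ} (h0 : 0 ≤ x) (h1 : x ≤ 1 / 2) : Real.exp (-x - 2 * x ^ 2) ≤ 1 - x := by
  have hp : 0 < 1 - x := by linarith
  rw [← Real.le_log_iff_exp_le hp]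
  have h2 := Real.one_sub_inv_le_log_of_pos hp
  refine le_trans ?_ h2
  have h3 : (1 - x)⁻¹ ≤ 1 + x + 2 * x ^ 2 := by
    rw [inv_le_iff_one_le_mul₀ hp]
    nlinarith [mul_nonneg h0 h0, mul_nonneg (mul_nonneg h0 h0) (by linarith : 0 ≤ 1 - 2 * x)]
  linarith

lemma one_sub_ge2 {x : ℝ} (h0 : 0 ≤ x) (h1 : x ≤ 1 / 2) : Real.exp (-(2 * x)) ≤ 1 - x := by
  refine le_trans (Real.exp_le_exp.2 ?_) (one_sub_ge h0 h1)
  nlinarith

/-- the main term -/
noncomputable def PP (L : ℝ) (m k : ℕ) : ℝ := m.choose k * (1 / L) ^ k * Real.exp (-(m / L))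

lemma PP_nonneg {L : ℝ} (hL : 0 < L) (m k : ℕ) : 0 ≤ PP L m k := by unfold PP; positivity

section
variable {a L K K₀ : ℝ} {m k : ℕ} (hL : 4 ≤ L) (hK0 : 0 ≤ K₀) (hK : 1 ≤ K) (hLK : 2 * K₀ ≤ L)
  (hm : (m : ℝ) ≤ K * L ^ 2) (hk : (k : ℝ) ≤ K * L) (ha : |a - 1 / L| ≤ K₀ / L ^ 2)
include hL hK0 hK hLK ha

lemma a_hi : a ≤ 1 / L * Real.exp (K₀ / L) := by
  have hL0 : 0 < L := by linarith
  have h1 := (abs_le.1 ha).2
  have h2 : 1 / L * (1 + K₀ / L) ≤ 1 / L * Real.exp (K₀ / L) :=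
    mul_le_mul_of_nonneg_left (by linarith [Real.add_one_le_exp (K₀ / L)]) (by positivity)
  have h3 : 1 / L * (1 + K₀ / L) = 1 / L + K₀ / L ^ 2 := by field_simp
  linarith

lemma a_lo : 1 / L * Real.exp (-(2 * (K₀ / L))) ≤ a := by
  have hL0 : 0 < L := by linarith
  have h1 := (abs_le.1 ha).1
  have h4 : K₀ / L ≤ 1 / 2 := by rw [div_le_iff₀ hL0]; linarith
  have h2 : 1 / L * Real.exp (-(2 * (K₀ / L))) ≤ 1 / L * (1 - K₀ / L) :=
    mul_le_mul_of_nonneg_left (one_sub_ge2 (by positivity) h4) (by positivity)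
  have h3 : 1 / L * (1 - K₀ / L) = 1 / L - K₀ / L ^ 2 := by field_simp
  linarith

lemma a_half : 1 / (2 * L) ≤ a ∧ a ≤ 3 / (2 * L) := by
  have hL0 : 0 < L := by linarith
  have h4 : K₀ / L ^ 2 ≤ 1 / (2 * L) := by
    rw [div_le_div_iff₀ (by positivity) (by positivity)]
    nlinarith
  have e1 : 1 / L = 1 / (2 * L) + 1 / (2 * L) := by field_simp; norm_num
  have e2 : 3 / (2 * L) = 1 / L + 1 / (2 * L) := by field_simp; norm_num
  have := abs_le.1 ha
  rw [e2]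
  constructor <;> linarith

include hm hk

lemma am_lo : (m : ℝ) / L - K₀ * K ≤ a * m := by
  have hL0 : 0 < L := by linarith
  have h1 := (abs_le.1 ha).1
  have hm0 : (0 : ℝ) ≤ m := Nat.cast_nonneg m
  have h2 : (1 / L - K₀ / L ^ 2) * m ≤ a * m := mul_le_mul_of_nonneg_right (by linarith) hm0
  have h3 : K₀ / L ^ 2 * m ≤ K₀ * K := by
    rw [div_mul_eq_mul_div, div_le_iff₀ (by positivity)]
    nlinarith
  have e : (1 / L - K₀ / L ^ 2) * m = m / L - K₀ / L ^ 2 * m := by ring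
  linarith

lemma am_hi : a * m ≤ (m : ℝ) / L + K₀ * K := by
  have hL0 : 0 < L := by linarith
  have h1 := (abs_le.1 ha).2
  have hm0 : (0 : ℝ) ≤ m := Nat.cast_nonneg m
  have h2 : a * m ≤ (1 / L + K₀ / L ^ 2) * m := mul_le_mul_of_nonneg_right (by linarith) hm0
  have h3 : K₀ / L ^ 2 * m ≤ K₀ * K := by
    rw [div_mul_eq_mul_div, div_le_iff₀ (by positivity)]
    nlinarith
  have e : (1 / L + K₀ / L ^ 2) * m = m / L + K₀ / L ^ 2 * m := by ring
  linarith

lemma a2m : a ^ 2 * m ≤ 3 * K := by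
  have hL0 : 0 < L := by linarith
  obtain ⟨h1, h2⟩ := a_half hL hK0 hK hLK ha
  have h0 : 0 ≤ a := le_trans (by positivity) h1
  have hm0 : (0 : ℝ) ≤ m := Nat.cast_nonneg m
  have h3 : a ^ 2 ≤ (3 / (2 * L)) ^ 2 := pow_le_pow_left₀ h0 h2 2
  calc a ^ 2 * m ≤ (3 / (2 * L)) ^ 2 * (K * L ^ 2) := mul_le_mul h3 hm hm0 (by positivity)
    _ = 9 / 4 * K := by field_simp; ring
    _ ≤ 3 * K := by linarith

lemma ak : a * k ≤ 2 * K := by
  have hL0 : 0 < L := by linarith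
  obtain ⟨h1, h2⟩ := a_half hL hK0 hK hLK ha
  have hk0 : (0 : ℝ) ≤ k := Nat.cast_nonneg k
  calc a * k ≤ 3 / (2 * L) * (K * L) := mul_le_mul h2 hk hk0 (by positivity)
    _ = 3 / 2 * K := by field_simp
    _ ≤ 2 * K := by linarith

lemma kL : K₀ / L * k ≤ K₀ * K := by
  have hL0 : 0 < L := by linarith
  rw [div_mul_eq_mul_div, div_le_iff₀ hL0]
  nlinarith

lemma ak_hi : a ^ k ≤ (1 / L) ^ k * Real.exp (K₀ * K) := by
  have hL0 : 0 < L := by linarith
  obtain ⟨h1, h2⟩ := a_half hL hK0 hK hLK ha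
  have h0 : 0 ≤ a := le_trans (by positivity) h1
  calc a ^ k ≤ (1 / L * Real.exp (K₀ / L)) ^ k := pow_le_pow_left₀ h0 (a_hi hL hK0 hK hLK ha) k
    _ = (1 / L) ^ k * Real.exp (K₀ / L * k) := by rw [mul_pow, ← Real.exp_nat_mul, mul_comm (k : ℝ)]
    _ ≤ _ := mul_le_mul_of_nonneg_left (Real.exp_le_exp.2 (kL hL hK0 hK hLK hm hk ha)) (by positivity)

lemma ak_lo : (1 / L) ^ k * Real.exp (-(2 * (K₀ * K))) ≤ a ^ k := by
  have hL0 : 0 < L := by linarith
  calc (1 / L) ^ k * Real.exp (-(2 * (K₀ * K))) ≤ (1 / L) ^ k * Real.exp (-(2 * (K₀ / L)) * k) := by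
        refine mul_le_mul_of_nonneg_left (Real.exp_le_exp.2 ?_) (by positivity)
        have := kL hL hK0 hK hLK hm hk ha
        have e : -(2 * (K₀ / L)) * (k : ℝ) = -(2 * (K₀ / L * k)) := by ring
        rw [e]
        linarith
    _ = (1 / L * Real.exp (-(2 * (K₀ / L)))) ^ k := by rw [mul_pow, ← Real.exp_nat_mul, mul_comm (k : ℝ)]
    _ ≤ a ^ k := pow_le_pow_left₀ (by positivity) (a_lo hL hK0 hK hLK ha) k

end

lemma one_hi {a L K K₀ : ℝ} {m k : ℕ} (hL : 4 ≤ L) (hK0 : 0 ≤ K₀) (hK : 1 ≤ K) (hLK : 2 * K₀ ≤ L)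
    (hm : (m : ℝ) ≤ K * L ^ 2) (hk : (k : ℝ) ≤ K * L) (ha : |a - 1 / L| ≤ K₀ / L ^ 2) (hkm : k ≤ m) :
    m.choose k * (a ^ k * (1 - a) ^ (m - k)) ≤ PP L m k * Real.exp (10 * K * (K₀ + 1)) := by
  have hL0 : 0 < L := by linarith
  obtain ⟨h1, h2⟩ := a_half hL hK0 hK hLK ha
  have h0 : 0 ≤ a := le_trans (by positivity) h1
  have h3 : a ≤ 1 / 2 := by
    refine h2.trans ?_
    rw [div_le_div_iff₀ (by positivity) (by norm_num)]
    linarith
  have h4 := ak_hi hL hK0 hK hLK hm hk ha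
  have h5 : (1 - a) ^ (m - k) ≤ Real.exp (-(m / L) + (K₀ * K + 2 * K)) := by
    calc (1 - a) ^ (m - k) ≤ (Real.exp (-a)) ^ (m - k) := by
          refine pow_le_pow_left₀ (by linarith) ?_ _
          have := Real.add_one_le_exp (-a)
          linarith
      _ = Real.exp (-(a * m) + a * k) := by
          rw [← Real.exp_nat_mul, Nat.cast_sub hkm]
          congr 1
          ring
      _ ≤ _ := by
          refine Real.exp_le_exp.2 ?_
          have := am_lo hL hK0 hK hLK hm hk ha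
          have := ak hL hK0 hK hLK hm hk ha
          linarith
  calc m.choose k * (a ^ k * (1 - a) ^ (m - k))
      ≤ m.choose k * (((1 / L) ^ k * Real.exp (K₀ * K)) * Real.exp (-(m / L) + (K₀ * K + 2 * K))) := by
        refine mul_le_mul_of_nonneg_left ?_ (Nat.cast_nonneg _)
        exact mul_le_mul h4 h5 (by have : 0 ≤ 1 - a := by linarith
                                   positivity) (by positivity)
    _ = PP L m k * Real.exp (2 * K₀ * K + 2 * K) := by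
        unfold PP
        have e : Real.exp (2 * K₀ * K + 2 * K) = Real.exp (K₀ * K) * Real.exp (K₀ * K + 2 * K) := by
          rw [← Real.exp_add]; congr 1; ring
        rw [e, Real.exp_add (-(m / L)) (K₀ * K + 2 * K)]
        ring
    _ ≤ _ := by
        refine mul_le_mul_of_nonneg_left (Real.exp_le_exp.2 ?_) (PP_nonneg hL0 m k)
        nlinarith [mul_nonneg hK0 (by linarith : (0 : ℝ) ≤ K)]

lemma one_lo {a L K K₀ : ℝ} {m k : ℕ} (hL : 4 ≤ L) (hK0 : 0 ≤ K₀) (hK : 1 ≤ K) (hLK : 2 * K₀ ≤ L)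
    (hm : (m : ℝ) ≤ K * L ^ 2) (hk : (k : ℝ) ≤ K * L) (ha : |a - 1 / L| ≤ K₀ / L ^ 2) :
    PP L m k * Real.exp (-(10 * K * (K₀ + 1))) ≤ m.choose k * (a ^ k * (1 - a) ^ (m - k)) := by
  have hL0 : 0 < L := by linarith
  obtain ⟨h1, h2⟩ := a_half hL hK0 hK hLK ha
  have h0 : 0 ≤ a := le_trans (by positivity) h1
  have h3 : a ≤ 1 / 2 := by
    refine h2.trans ?_
    rw [div_le_div_iff₀ (by positivity) (by norm_num)]
    linarith
  have h4 := ak_lo hL hK0 hK hLK hm hk ha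
  have h5 : Real.exp (-(m / L) - (K₀ * K + 6 * K)) ≤ (1 - a) ^ (m - k) := by
    calc Real.exp (-(m / L) - (K₀ * K + 6 * K)) ≤ Real.exp (m * (-a - 2 * a ^ 2)) := by
          refine Real.exp_le_exp.2 ?_
          have := am_hi hL hK0 hK hLK hm hk ha
          have := a2m hL hK0 hK hLK hm hk ha
          nlinarith
      _ = (Real.exp (-a - 2 * a ^ 2)) ^ m := by rw [← Real.exp_nat_mul]
      _ ≤ (1 - a) ^ m := pow_le_pow_left₀ (Real.exp_pos _).le (one_sub_ge h0 h3) m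
      _ ≤ (1 - a) ^ (m - k) := pow_le_pow_of_le_one (by linarith) (by linarith) (Nat.sub_le _ _)
  calc PP L m k * Real.exp (-(10 * K * (K₀ + 1)))
      ≤ PP L m k * Real.exp (-(3 * K₀ * K + 6 * K)) := by
        refine mul_le_mul_of_nonneg_left (Real.exp_le_exp.2 ?_) (PP_nonneg hL0 m k)
        nlinarith [mul_nonneg hK0 (by linarith : (0 : ℝ) ≤ K)]
    _ = m.choose k * (((1 / L) ^ k * Real.exp (-(2 * (K₀ * K)))) * Real.exp (-(m / L) - (K₀ * K + 6 * K))) := by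
        unfold PP
        have e : Real.exp (-(3 * K₀ * K + 6 * K)) = Real.exp (-(2 * (K₀ * K))) * Real.exp (-(K₀ * K + 6 * K)) := by
          rw [← Real.exp_add]; congr 1; ring
        rw [e, sub_eq_add_neg, Real.exp_add (-(m / L)) (-(K₀ * K + 6 * K))]
        ring
    _ ≤ _ := by
        refine mul_le_mul_of_nonneg_left ?_ (Nat.cast_nonneg _)
        exact mul_le_mul h4 h5 (by positivity) (by positivity)

lemma two_hi {a b c D L K K₀ ρ : ℝ} {m k : ℕ} (hL : 4 ≤ L) (hK0 : 0 ≤ K₀) (hK : 1 ≤ K) (hLK : 2 * K₀ ≤ L)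
    (hm : (m : ℝ) ≤ K * L ^ 2) (hk : (k : ℝ) ≤ K * L) (ha : |a - 1 / L| ≤ K₀ / L ^ 2) (hb : |b - 1 / L| ≤ K₀ / L ^ 2)
    (hk2 : (k : ℝ) ^ 2 ≤ K * m) (hm1 : 1 ≤ m) (hkm : 2 * k ≤ m) (hρ : 0 ≤ ρ) (hc0 : 0 ≤ c) (hc : c ≤ ρ / L ^ 2)
    (hD : D = 1 - a - b + c) (hD0 : 0 ≤ D) :
    (a ^ k * b ^ k * D ^ (m - 2 * k)) * ((m.choose k : ℝ) ^ 2 * Real.exp (4 * ρ * k ^ 2 / m)) ≤
      PP L m k ^ 2 * Real.exp (10 * K * (K₀ + 1) * (1 + ρ)) := by
  have hL0 : 0 < L := by linarith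
  have hm0 : (0 : ℝ) < m := by exact_mod_cast hm1
  obtain ⟨h1, h2⟩ := a_half hL hK0 hK hLK ha
  obtain ⟨h1', h2'⟩ := a_half hL hK0 hK hLK hb
  have h0 : 0 ≤ a := le_trans (by positivity) h1
  have h0' : 0 ≤ b := le_trans (by positivity) h1'
  have h4 := ak_hi hL hK0 hK hLK hm hk ha
  have h4' := ak_hi hL hK0 hK hLK hm hk hb
  have hcm : c * m ≤ ρ * K := by
    calc c * m ≤ ρ / L ^ 2 * (K * L ^ 2) := mul_le_mul hc hm hm0.le (by positivity)
      _ = ρ * K := by field_simp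
  have h5 : D ^ (m - 2 * k) ≤ Real.exp (-(m / L) + -(m / L) + (2 * (K₀ * K) + 8 * K + ρ * K)) := by
    calc D ^ (m - 2 * k) ≤ (Real.exp (-a - b + c)) ^ (m - 2 * k) := by
          refine pow_le_pow_left₀ hD0 ?_ _
          have := Real.add_one_le_exp (-a - b + c)
          linarith
      _ = Real.exp (-(a * m) - b * m + c * m + 2 * (a * k) + 2 * (b * k) - 2 * (c * k)) := by
          rw [← Real.exp_nat_mul, Nat.cast_sub hkm]
          congr 1
          push_cast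
          ring
      _ ≤ _ := by
          refine Real.exp_le_exp.2 ?_
          have := am_lo hL hK0 hK hLK hm hk ha
          have := ak hL hK0 hK hLK hm hk ha
          have := am_lo hL hK0 hK hLK hm hk hb
          have := ak hL hK0 hK hLK hm hk hb
          have : 0 ≤ c * k := by positivity
          linarith
  have h6 : Real.exp (4 * ρ * k ^ 2 / m) ≤ Real.exp (4 * ρ * K) := by
    refine Real.exp_le_exp.2 ?_
    rw [div_le_iff₀ hm0]
    nlinarith [mul_le_mul_of_nonneg_left hk2 hρ]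
  calc (a ^ k * b ^ k * D ^ (m - 2 * k)) * ((m.choose k : ℝ) ^ 2 * Real.exp (4 * ρ * k ^ 2 / m))
      ≤ (((1 / L) ^ k * Real.exp (K₀ * K)) * ((1 / L) ^ k * Real.exp (K₀ * K)) *
          Real.exp (-(m / L) + -(m / L) + (2 * (K₀ * K) + 8 * K + ρ * K))) *
          ((m.choose k : ℝ) ^ 2 * Real.exp (4 * ρ * K)) := by
        refine mul_le_mul ?_ (mul_le_mul_of_nonneg_left h6 (by positivity)) (by positivity) (by positivity)
        refine mul_le_mul ?_ h5 (by positivity) (by positivity)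
        exact mul_le_mul h4 h4' (by positivity) (by positivity)
    _ = PP L m k ^ 2 * Real.exp (4 * (K₀ * K) + 8 * K + 5 * (ρ * K)) := by
        unfold PP
        have e : Real.exp (4 * (K₀ * K) + 8 * K + 5 * (ρ * K)) =
            Real.exp (K₀ * K) * Real.exp (K₀ * K) * Real.exp (2 * (K₀ * K) + 8 * K + ρ * K) * Real.exp (4 * ρ * K) := by
          rw [← Real.exp_add, ← Real.exp_add, ← Real.exp_add]; congr 1; ring
        rw [e, Real.exp_add (-(m / L) + -(m / L)) _, Real.exp_add (-((m : ℝ) / L)) (-(m / L))]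
        ring
    _ ≤ _ := by
        refine mul_le_mul_of_nonneg_left (Real.exp_le_exp.2 ?_) (by positivity)
        have hKρ : 0 ≤ ρ * K := by positivity
        have hKK : 0 ≤ K₀ * K := by positivity
        have hKKρ : 0 ≤ K₀ * K * ρ := by positivity
        nlinarith

end Pool.Agent.Run7.h880.RP
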