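import Mathlib
import Pool.Agent.Run7.h880.RP.Mom

/-! Random samples: with positive probability some set has exactly `k` hits. -/

set_option autoImplicit false

namespace Pool.Agent.Run7.h880.RP

open Finset
open Pool.Agent.Run7.h880.MK (Smp Smp_mem Smp_card hits hits_eq nohit)

/-- truncated second moment -/
theorem secmom {ι κ : Type} [DecidableEq ι] [DecidableEq κ] (Ω : Finset ι) (hΩ : Ω.Nonempty) (J : Finset κ)
    (A : κ → Finset ι) (hA : ∀ j ∈ J, A j ⊆ Ω) (L K K₀ K₂ : ℝ) (m k : ℕ) (hL : 4 ≤ L) (hK0 : 0 ≤ K₀) (hK : 1 ≤ K)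
    (hLK : 2 * K₀ ≤ L) (hm : (m : ℝ) ≤ K * L ^ 2) (hk : (k : ℝ) ≤ K * L) (hk2 : (k : ℝ) ^ 2 ≤ K * m) (hm1 : 1 ≤ m)
    (hkm : 2 * k ≤ m) (hd : ∀ j ∈ J, |((A j).card : ℝ) / Ω.card - 1 / L| ≤ K₀ / L ^ 2)
    (ρ : κ → κ → ℝ) (hρ : ∀ i j, 0 ≤ ρ i j)
    (hp : ∀ i ∈ J, ∀ j ∈ J, i ≠ j → ((A i ∩ A j).card : ℝ) / Ω.card ≤ ρ i j / L ^ 2)
    (hs : ∑ i ∈ J, ∑ j ∈ J, (if i = j then 0 else Real.exp (10 * K * (K₀ + 1) * (1 + ρ i j))) ≤ K₂ * (J.card : ℝ) ^ 2)
    (hP : 1 ≤ J.card * PP L m k) :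
    (Ω.card : ℝ) ^ m * (Real.exp (-(2 * (10 * K * (K₀ + 1)))) / (Real.exp (10 * K * (K₀ + 1)) + K₂)) ≤
      ((Smp Ω m).filter fun w => ∃ j ∈ J, hits (A j) w = k).card := by
  classical
  obtain ⟨c, hc⟩ : ∃ c, c = 10 * K * (K₀ + 1) := ⟨_, rfl⟩
  rw [← hc] at hs ⊢
  obtain ⟨q, hq⟩ : ∃ q : ℝ, q = Ω.card := ⟨_, rfl⟩
  have hq0 : 0 < q := by rw [hq]; exact_mod_cast card_pos.2 hΩ
  have hL0 : 0 < L := by linarith
  obtain ⟨P, hPe⟩ : ∃ P, P = PP L m k := ⟨_, rfl⟩
  have hP0 : 0 ≤ P := by rw [hPe]; exact PP_nonneg hL0 m k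
  obtain ⟨T, hT⟩ : ∃ T, T = J.card * P := ⟨_, rfl⟩
  rw [← hPe, ← hT] at hP
  rw [← hq] at hd hp ⊢
  obtain ⟨Z, hZ⟩ : ∃ Z : (Fin m → ι) → ℝ, Z = fun w => ∑ j ∈ J, (if hits (A j) w = k then (1 : ℝ) else 0) := ⟨_, rfl⟩
  obtain ⟨B, hB⟩ : ∃ B, B = (Smp Ω m).filter fun w => ∃ j ∈ J, hits (A j) w = k := ⟨_, rfl⟩
  rw [← hB]
  have hk1 : k ≤ m := by omega
  -- first moment
  have hex : ∀ j ∈ J, ((((Smp Ω m).filter fun w => hits (A j) w = k).card : ℕ) : ℝ) =
      q ^ m * (m.choose k * (((A j).card / q) ^ k * (1 - (A j).card / q) ^ (m - k))) := by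
    intro j hj
    rw [ex_card Ω (A j) (hA j hj) m k, ← hq]
    have e1 : ((A j).card : ℝ) = ((A j).card / q) * q := by rw [div_mul_cancel₀ _ hq0.ne']
    have e2 : q - ((A j).card : ℝ) = (1 - (A j).card / q) * q := by rw [sub_mul, div_mul_cancel₀ _ hq0.ne', one_mul]
    have e3 : q ^ m = q ^ k * q ^ (m - k) := by rw [← pow_add]; congr 1; omega
    rw [e2, e3, mul_pow]
    nth_rewrite 1 [e1]
    rw [mul_pow]
    ring
  have hS1 : q ^ m * (T * Real.exp (-c)) ≤ ∑ w ∈ Smp Ω m, Z w := by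
    rw [hZ, sum_comm]
    have h1 : ∀ j ∈ J, q ^ m * (P * Real.exp (-c)) ≤ ∑ w ∈ Smp Ω m, (if hits (A j) w = k then (1 : ℝ) else 0) := by
      intro j hj
      rw [sum_boole, hex j hj, hPe, hc]
      exact mul_le_mul_of_nonneg_left (one_lo hL hK0 hK hLK hm hk (hd j hj)) (by positivity)
    refine le_trans (le_of_eq ?_) (sum_le_sum h1)
    rw [sum_const, nsmul_eq_mul, hT]
    ring
  have hS2 : ∑ w ∈ Smp Ω m, Z w ^ 2 ≤ q ^ m * (T * Real.exp c + K₂ * T ^ 2) := by
    have h1 : ∑ w ∈ Smp Ω m, Z w ^ 2 = ∑ i ∈ J, ∑ j ∈ J,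
        ((((Smp Ω m).filter fun w => hits (A i) w = k ∧ hits (A j) w = k).card : ℕ) : ℝ) := by
      rw [hZ]
      have h2 : ∀ w ∈ Smp Ω m, (∑ j ∈ J, (if hits (A j) w = k then (1 : ℝ) else 0)) ^ 2 =
          ∑ i ∈ J, ∑ j ∈ J, (if hits (A i) w = k ∧ hits (A j) w = k then (1 : ℝ) else 0) := by
        intro w _
        rw [sq, sum_mul_sum]
        refine sum_congr rfl fun i _ => sum_congr rfl fun j _ => ?_
        by_cases h3 : hits (A i) w = k <;> by_cases h4 : hits (A j) w = k <;> simp [h3, h4]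
      rw [sum_congr rfl h2, sum_comm]
      refine sum_congr rfl fun i _ => ?_
      rw [sum_comm]
      refine sum_congr rfl fun j _ => ?_
      rw [sum_boole]
    rw [h1]
    have h2 : ∀ i ∈ J, ∀ j ∈ J, ((((Smp Ω m).filter fun w => hits (A i) w = k ∧ hits (A j) w = k).card : ℕ) : ℝ) ≤
        q ^ m * (P ^ 2 * (if i = j then 0 else Real.exp (c * (1 + ρ i j)))) +
          (if i = j then q ^ m * (P * Real.exp c) else 0) := by
      intro i hi j hj
      by_cases hij : i = j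
      · subst hij
        simp only [if_true, mul_zero, zero_add, and_self]
        rw [hex i hi, hPe, hc]
        exact mul_le_mul_of_nonneg_left (one_hi hL hK0 hK hLK hm hk (hd i hi) hk1) (by positivity)
      · simp only [hij, if_false, add_zero]
        obtain ⟨a1, a2⟩ := a_half hL hK0 hK hLK (hd i hi)
        obtain ⟨b1, b2⟩ := a_half hL hK0 hK hLK (hd j hj)
        have hab : ((A i ∩ A j).card : ℝ) ≤ (1 + 4 * ρ i j) * ((A i).card / q * ((A j).card / q)) * q := by
          have h3 := hp i hi j hj hij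
          rw [div_le_iff₀ hq0] at h3
          refine h3.trans (mul_le_mul_of_nonneg_right ?_ hq0.le)
          have h4 : 1 / (2 * L) * (1 / (2 * L)) ≤ (A i).card / q * ((A j).card / q) :=
            mul_le_mul a1 b1 (by positivity) (by positivity)
          calc ρ i j / L ^ 2 = 4 * ρ i j * (1 / (2 * L) * (1 / (2 * L))) := by field_simp; norm_num
            _ ≤ 4 * ρ i j * ((A i).card / q * ((A j).card / q)) :=
                mul_le_mul_of_nonneg_left h4 (by have := hρ i j; positivity)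
            _ ≤ _ := by
                refine mul_le_mul_of_nonneg_right (by linarith) (by positivity)
        have h5 := pair Ω (A i) (A j) (hA i hi) (hA j hj) hΩ m k hkm hm1 (4 * ρ i j) ((A i).card / q) ((A j).card / q)
          (1 - (A i).card / q - (A j).card / q + (A i ∩ A j).card / q) (by have := hρ i j; positivity)
          (by rw [hq]) (by rw [hq]) (by rw [← hq]; exact hab) (by rw [hq])
        rw [← hq] at h5
        refine h5.trans ?_
        rw [mul_assoc (q ^ m)]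
        refine mul_le_mul_of_nonneg_left ?_ (by positivity)
        rw [hPe, hc]
        refine two_hi hL hK0 hK hLK hm hk (hd i hi) (hd j hj) hk2 hm1 hkm (hρ i j) (by positivity) (hp i hi j hj hij) rfl ?_
        have h6 := card_union_add_card_inter (A i) (A j)
        have h7 : ((A i ∪ A j).card : ℝ) + (A i ∩ A j).card = (A i).card + (A j).card := by exact_mod_cast h6
        have h8 : ((A i ∪ A j).card : ℝ) ≤ q := by
          rw [hq]
          exact_mod_cast card_le_card (union_subset (hA i hi) (hA j hj))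
        have e : 1 - ((A i).card : ℝ) / q - (A j).card / q + (A i ∩ A j).card / q =
            (q - ((A i).card + (A j).card - (A i ∩ A j).card)) / q := by field_simp; ring
        rw [e]
        exact div_nonneg (by linarith) hq0.le
    refine (sum_le_sum fun i hi => sum_le_sum fun j hj => h2 i hi j hj).trans ?_
    have h3 : ∀ i ∈ J, ∑ j ∈ J, (q ^ m * (P ^ 2 * (if i = j then 0 else Real.exp (c * (1 + ρ i j)))) +
        (if i = j then q ^ m * (P * Real.exp c) else 0)) =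
        q ^ m * (P ^ 2 * ∑ j ∈ J, (if i = j then 0 else Real.exp (c * (1 + ρ i j)))) + q ^ m * (P * Real.exp c) := by
      intro i hi
      rw [sum_add_distrib, ← mul_sum, ← mul_sum, sum_ite_eq, if_pos hi]
    rw [sum_congr rfl h3, sum_add_distrib, ← mul_sum, ← mul_sum, sum_const, nsmul_eq_mul]
    have h4 : P ^ 2 * ∑ i ∈ J, ∑ j ∈ J, (if i = j then 0 else Real.exp (c * (1 + ρ i j))) ≤ P ^ 2 * (K₂ * (J.card : ℝ) ^ 2) :=
      mul_le_mul_of_nonneg_left hs (by positivity)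
    calc q ^ m * (P ^ 2 * ∑ i ∈ J, ∑ j ∈ J, (if i = j then 0 else Real.exp (c * (1 + ρ i j)))) + J.card * (q ^ m * (P * Real.exp c))
        ≤ q ^ m * (P ^ 2 * (K₂ * (J.card : ℝ) ^ 2)) + J.card * (q ^ m * (P * Real.exp c)) := by
          have := mul_le_mul_of_nonneg_left h4 (by positivity : 0 ≤ q ^ m)
          linarith
      _ = _ := by rw [hT]; ring
  have hK2 : 0 ≤ K₂ := by
    have h1 : 0 ≤ ∑ i ∈ J, ∑ j ∈ J, (if i = j then 0 else Real.exp (c * (1 + ρ i j))) :=
      sum_nonneg fun i _ => sum_nonneg fun j _ => by split_ifs <;> positivity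
    have h2 : (0 : ℝ) < (J.card : ℝ) ^ 2 := by
      have : (0 : ℝ) < J.card := by
        rcases (Nat.cast_nonneg (α := ℝ) J.card).eq_or_lt with h | h
        · rw [hT, ← h, zero_mul] at hP
          linarith
        · exact h
      positivity
    exact nonneg_of_mul_nonneg_left (h1.trans hs) h2
  -- Cauchy
  have h1 : ∑ w ∈ Smp Ω m, Z w = ∑ w ∈ B, Z w := by
    rw [hB, sum_filter]
    refine sum_congr rfl fun w _ => ?_
    split_ifs with h
    · rfl
    · rw [hZ]
      refine sum_eq_zero fun j hj => ?_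
      rw [if_neg]
      exact fun h2 => h ⟨j, hj, h2⟩
  have h2 : (∑ w ∈ B, Z w) ^ 2 ≤ B.card * ∑ w ∈ B, Z w ^ 2 := sq_sum_le_card_mul_sum_sq
  have h3 : ∑ w ∈ B, Z w ^ 2 ≤ ∑ w ∈ Smp Ω m, Z w ^ 2 := by
    rw [hB]
    exact sum_le_sum_of_subset_of_nonneg (filter_subset _ _) fun _ _ _ => sq_nonneg _
  have h4 : (q ^ m * (T * Real.exp (-c))) ^ 2 ≤ B.card * (q ^ m * (T ^ 2 * (Real.exp c + K₂))) := by
    calc (q ^ m * (T * Real.exp (-c))) ^ 2 ≤ (∑ w ∈ B, Z w) ^ 2 := by
          rw [← h1]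
          exact pow_le_pow_left₀ (by positivity) hS1 2
      _ ≤ B.card * (q ^ m * (T * Real.exp c + K₂ * T ^ 2)) :=
          h2.trans (mul_le_mul_of_nonneg_left (h3.trans hS2) (Nat.cast_nonneg _))
      _ ≤ B.card * (q ^ m * (T ^ 2 * (Real.exp c + K₂))) := by
          refine mul_le_mul_of_nonneg_left (mul_le_mul_of_nonneg_left ?_ (by positivity)) (Nat.cast_nonneg _)
          have h5 : T ≤ T ^ 2 := by nlinarith
          have h6 := mul_le_mul_of_nonneg_right h5 (Real.exp_pos c).le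
          linarith
  have hT0 : 0 < T := by linarith
  have h5 : q ^ m * T ^ 2 * (q ^ m * Real.exp (-(2 * c))) ≤ q ^ m * T ^ 2 * (B.card * (Real.exp c + K₂)) := by
    have e : Real.exp (-(2 * c)) = Real.exp (-c) ^ 2 := by
      rw [← Real.exp_nat_mul]; congr 1; push_cast; ring
    rw [e]
    calc _ = (q ^ m * (T * Real.exp (-c))) ^ 2 := by ring
      _ ≤ _ := h4
      _ = _ := by ring
  have h6 := le_of_mul_le_mul_left h5 (by positivity)
  rw [mul_div_assoc', div_le_iff₀ (by positivity)]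
  exact h6

/-- an upper bound for factorials -/
lemma fact_le (k : ℕ) (hk : 1 ≤ k) : (k.factorial : ℝ) ≤ k * ((k : ℝ) ^ k * Real.exp (1 - k)) := by
  induction k, hk using Nat.le_induction with
  | base => simp
  | succ k hk ih =>
    have hk0 : (0 : ℝ) < k := by exact_mod_cast hk
    rw [Nat.factorial_succ]
    push_cast
    have h1 : Real.exp 1 * (k : ℝ) ^ (k + 1) ≤ ((k : ℝ) + 1) ^ (k + 1) := by
      have h2 := Real.one_sub_inv_le_log_of_pos (show (0 : ℝ) < ((k : ℝ) + 1) / k by positivity)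
      have h3 : 1 - (((k : ℝ) + 1) / k)⁻¹ = 1 / ((k : ℝ) + 1) := by field_simp; ring
      rw [h3] at h2
      have h4 : 1 ≤ ((k : ℝ) + 1) * Real.log (((k : ℝ) + 1) / k) := by
        rw [div_le_iff₀ (by positivity)] at h2
        linarith
      have h5 : Real.exp 1 ≤ (((k : ℝ) + 1) / k) ^ (k + 1) := by
        rw [← Real.exp_log (show (0 : ℝ) < (((k : ℝ) + 1) / k) ^ (k + 1) by positivity), Real.log_pow]
        refine Real.exp_le_exp.2 ?_
        push_cast
        exact h4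
      calc Real.exp 1 * (k : ℝ) ^ (k + 1) ≤ (((k : ℝ) + 1) / k) ^ (k + 1) * (k : ℝ) ^ (k + 1) :=
            mul_le_mul_of_nonneg_right h5 (by positivity)
        _ = ((k : ℝ) + 1) ^ (k + 1) := by rw [← mul_pow, div_mul_cancel₀ _ hk0.ne']
    calc ((k : ℝ) + 1) * (k.factorial : ℝ) ≤ ((k : ℝ) + 1) * (k * ((k : ℝ) ^ k * Real.exp (1 - k))) :=
          mul_le_mul_of_nonneg_left ih (by positivity)
      _ = ((k : ℝ) + 1) * (Real.exp (-k) * (Real.exp 1 * (k : ℝ) ^ (k + 1))) := by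
          have e : Real.exp (1 - k) = Real.exp (-(k : ℝ)) * Real.exp 1 := by rw [← Real.exp_add]; congr 1; ring
          rw [e]
          ring
      _ ≤ ((k : ℝ) + 1) * (Real.exp (-k) * ((k : ℝ) + 1) ^ (k + 1)) := by gcongr
      _ = _ := by
          have e : Real.exp (1 - ((k : ℝ) + 1)) = Real.exp (-(k : ℝ)) := by congr 1; ring
          rw [e]
          ring

/-- the main term from below -/
theorem PP_lo {L : ℝ} {m k : ℕ} (hL : 0 < L) (hk : 1 ≤ k) (hkm : 2 * k ≤ m) :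
    Real.exp (-(m / L * hf (k / (m / L))) - 2 * (k ^ 2 / m) - 1) / k ≤ PP L m k := by
  have hm1 : 1 ≤ m := by omega
  have hm0 : (0 : ℝ) < m := by exact_mod_cast hm1
  have hk0 : (0 : ℝ) < k := by exact_mod_cast hk
  have h1 : (m : ℝ) ^ k * Real.exp (-(2 * (k ^ 2 / m))) ≤ m.choose k * k.factorial := by
    have h2 := Nat.pow_sub_le_descFactorial m k
    rw [Nat.descFactorial_eq_factorial_mul_choose] at h2
    have h3 : (((m + 1 - k : ℕ) : ℝ)) ^ k ≤ k.factorial * m.choose k := by exact_mod_cast h2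
    have h4 : (m : ℝ) * (1 - k / m) ≤ ((m + 1 - k : ℕ) : ℝ) := by
      rw [Nat.cast_sub (by omega)]
      push_cast
      rw [mul_sub, mul_div_cancel₀ _ hm0.ne']
      linarith
    have h5 : (k : ℝ) / m ≤ 1 / 2 := by
      rw [div_le_div_iff₀ hm0 (by norm_num)]
      have : ((2 * k : ℕ) : ℝ) ≤ m := by exact_mod_cast hkm
      push_cast at this
      linarith
    have h6 := one_sub_ge2 (show (0 : ℝ) ≤ k / m by positivity) h5
    calc (m : ℝ) ^ k * Real.exp (-(2 * (k ^ 2 / m))) = (m * Real.exp (-(2 * (k / m)))) ^ k := by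
          rw [mul_pow, ← Real.exp_nat_mul]
          congr 2
          ring
      _ ≤ (m * (1 - k / m)) ^ k := by
          refine pow_le_pow_left₀ (by positivity) (mul_le_mul_of_nonneg_left h6 hm0.le) k
      _ ≤ _ := (pow_le_pow_left₀ (mul_nonneg hm0.le (by linarith)) h4 k).trans h3
      _ = _ := by ring
  have h2 := fact_le k hk
  have h3 : (m : ℝ) ^ k * Real.exp (-(2 * (k ^ 2 / m))) ≤ m.choose k * (k * ((k : ℝ) ^ k * Real.exp (1 - k))) :=
    h1.trans (mul_le_mul_of_nonneg_left h2 (Nat.cast_nonneg _))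
  have h4 : (m : ℝ) ^ k * Real.exp (-(2 * (k ^ 2 / m))) / (k * ((k : ℝ) ^ k * Real.exp (1 - k))) ≤ m.choose k := by
    rw [div_le_iff₀ (by positivity)]
    exact h3
  unfold PP
  have h5 : Real.exp (-(m / L * hf (k / (m / L))) - 2 * (k ^ 2 / m) - 1) / k =
      (m : ℝ) ^ k * Real.exp (-(2 * (k ^ 2 / m))) / (k * ((k : ℝ) ^ k * Real.exp (1 - k))) * (1 / L) ^ k *
        Real.exp (-(m / L)) := by
    have hμ : (0 : ℝ) < m / L := by positivity
    have e1 : -(m / L * hf (k / (m / L))) = -(m / L) + k + -(k * Real.log (k / (m / L))) := by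
      unfold hf
      field_simp
      ring
    have e2 : Real.exp (-(k * Real.log (k / (m / L)))) = (m / L) ^ k / (k : ℝ) ^ k := by
      rw [Real.exp_neg, Real.exp_nat_mul, Real.exp_log (by positivity), div_pow, inv_div]
    have e3 : Real.exp (-(m / L * hf (k / (m / L))) - 2 * (k ^ 2 / m) - 1) =
        Real.exp (-(m / L)) * Real.exp (-(1 - k)) * ((m / L) ^ k / (k : ℝ) ^ k) * Real.exp (-(2 * (k ^ 2 / m))) := by
      rw [← e2, ← Real.exp_add, ← Real.exp_add, ← Real.exp_add, e1]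
      congr 1
      ring
    rw [e3, Real.exp_neg (1 - (k : ℝ)), div_pow, div_pow, one_pow]
    field_simp
  rw [h5]
  gcongr

end Pool.Agent.Run7.h880.RP
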