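import Mathlib
import Pool.Agent.Run7.h880.RP.Two
import Pool.Agent.Run7.h880.RP.Es

/-! Random samples: the largest and the smallest number of hits, from below and from above, in probability. -/

set_option autoImplicit false

namespace Pool.Agent.Run7.h880.RP

open Finset Filter
open Pool.Agent.Run7.h880.MK (Smp Smp_mem Smp_card hits hits_eq nohit)

/-- a system of sets `A j` (`j ∈ J`) in `Ω` of density near `1 / L`, with intersections of density `O(1 / L ^ 2)` on average -/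
structure Sys {ι κ : Type} [DecidableEq ι] [DecidableEq κ] (Ω : Finset ι) (J : Finset κ) (A : κ → Finset ι)
    (L K₀ c K₂ : ℝ) : Prop where
  ne : Ω.Nonempty
  sub : ∀ j ∈ J, A j ⊆ Ω
  dens : ∀ j ∈ J, |((A j).card : ℝ) / Ω.card - 1 / L| ≤ K₀ / L ^ 2
  two : ∃ ρ : κ → κ → ℝ, (∀ i j, 0 ≤ ρ i j) ∧
    (∀ i ∈ J, ∀ j ∈ J, i ≠ j → ((A i ∩ A j).card : ℝ) / Ω.card ≤ ρ i j / L ^ 2) ∧
    ∑ i ∈ J, ∑ j ∈ J, (if i = j then 0 else Real.exp (c * (1 + ρ i j))) ≤ K₂ * (J.card : ℝ) ^ 2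

lemma upd_hits {ι : Type} [DecidableEq ι] (A : Finset ι) {m : ℕ} (w : Fin m → ι) (l : Fin m) (x : ι) :
    (hits A w : ℝ) - hits A (Function.update w l x) = (if w l ∈ A then 1 else 0) - (if x ∈ A then 1 else 0) := by
  rw [hits_eq, hits_eq, ← sum_sub_distrib, sum_eq_single l]
  · rw [Function.update_self]
  · intro i _ hi
    rw [Function.update_of_ne hi, sub_self]
  · intro h
    exact absurd (mem_univ l) h

/-- the variance of the maximum -/
theorem var_max {ι κ : Type} [DecidableEq ι] (Ω : Finset ι) (hΩ : Ω.Nonempty) (J : Finset κ) (hJ : J.Nonempty)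
    (A : κ → Finset ι) (m : ℕ) :
    ∑ w ∈ Smp Ω m, (J.sup' hJ fun j => (hits (A j) w : ℝ)) ^ 2 -
      (∑ w ∈ Smp Ω m, (J.sup' hJ fun j => (hits (A j) w : ℝ))) ^ 2 / (Ω.card : ℝ) ^ m ≤
      ∑ w ∈ Smp Ω m, (J.sup' hJ fun j => (hits (A j) w : ℝ)) := by
  have hq0 : (0 : ℝ) < Ω.card := by exact_mod_cast card_pos.2 hΩ
  refine (es_pos Ω hΩ m fun w => J.sup' hJ fun j => (hits (A j) w : ℝ)).trans ?_
  rw [one_div, inv_mul_le_iff₀ hq0, mul_sum]
  refine sum_le_sum fun w _ => ?_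
  obtain ⟨j, hj, hje⟩ := exists_mem_eq_sup' hJ fun j => (hits (A j) w : ℝ)
  rw [hje, hits_eq, mul_sum]
  refine sum_le_sum fun l _ => ?_
  have h1 : ∀ x ∈ Ω, (max ((∑ l, if w l ∈ A j then (1 : ℝ) else 0) -
      (J.sup' hJ fun j => (hits (A j) (Function.update w l x) : ℝ))) 0) ^ 2 ≤ (if w l ∈ A j then (1 : ℝ) else 0) := by
    intro x _
    rw [← hits_eq]
    have h2 : (hits (A j) (Function.update w l x) : ℝ) ≤ J.sup' hJ fun j => (hits (A j) (Function.update w l x) : ℝ) :=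
      le_sup' (fun j => (hits (A j) (Function.update w l x) : ℝ)) hj
    have h3 := upd_hits (A j) w l x
    have h4 : (0 : ℝ) ≤ (if x ∈ A j then 1 else 0) := by split_ifs <;> norm_num
    have h5 : max ((hits (A j) w : ℝ) - (J.sup' hJ fun j => (hits (A j) (Function.update w l x) : ℝ))) 0 ≤
        (if w l ∈ A j then (1 : ℝ) else 0) := by
      refine max_le ?_ (by split_ifs <;> norm_num)
      linarith
    have h6 : (0 : ℝ) ≤ max ((hits (A j) w : ℝ) - (J.sup' hJ fun j => (hits (A j) (Function.update w l x) : ℝ))) 0 :=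
      le_max_right _ _
    refine (pow_le_pow_left₀ h6 h5 2).trans ?_
    split_ifs <;> norm_num
  refine (sum_le_sum h1).trans ?_
  rw [sum_const, nsmul_eq_mul]

/-- the variance of the minimum -/
theorem var_min {ι κ : Type} [DecidableEq ι] (Ω : Finset ι) (hΩ : Ω.Nonempty) (J : Finset κ) (hJ : J.Nonempty)
    (A : κ → Finset ι) (β : ℝ) (hA : ∀ j ∈ J, A j ⊆ Ω) (hβ : ∀ j ∈ J, ((A j).card : ℝ) ≤ β * Ω.card) (m : ℕ) :
    ∑ w ∈ Smp Ω m, (-(J.inf' hJ fun j => (hits (A j) w : ℝ))) ^ 2 -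
      (∑ w ∈ Smp Ω m, (-(J.inf' hJ fun j => (hits (A j) w : ℝ)))) ^ 2 / (Ω.card : ℝ) ^ m ≤
      m * β * (Ω.card : ℝ) ^ m := by
  have hq0 : (0 : ℝ) < Ω.card := by exact_mod_cast card_pos.2 hΩ
  refine (es_pos Ω hΩ m fun w => -(J.inf' hJ fun j => (hits (A j) w : ℝ))).trans ?_
  rw [one_div, inv_mul_le_iff₀ hq0]
  have h0 : ∀ w ∈ Smp Ω m, ∑ l : Fin m, ∑ x ∈ Ω, (max (-(J.inf' hJ fun j => (hits (A j) w : ℝ)) -
      -(J.inf' hJ fun j => (hits (A j) (Function.update w l x) : ℝ))) 0) ^ 2 ≤ m * (β * Ω.card) := by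
    intro w _
    obtain ⟨j, hj, hje⟩ := exists_mem_eq_inf' hJ fun j => (hits (A j) w : ℝ)
    rw [hje]
    have h7 : ∀ l ∈ (univ : Finset (Fin m)), ∑ x ∈ Ω, (max (-(hits (A j) w : ℝ) -
        -(J.inf' hJ fun j => (hits (A j) (Function.update w l x) : ℝ))) 0) ^ 2 ≤ β * Ω.card := by
      intro l _
      have h1 : ∀ x ∈ Ω, (max (-(hits (A j) w : ℝ) -
          -(J.inf' hJ fun j => (hits (A j) (Function.update w l x) : ℝ))) 0) ^ 2 ≤ (if x ∈ A j then (1 : ℝ) else 0) := by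
        intro x _
        have h2 : (J.inf' hJ fun j => (hits (A j) (Function.update w l x) : ℝ)) ≤ hits (A j) (Function.update w l x) :=
          inf'_le (fun j => (hits (A j) (Function.update w l x) : ℝ)) hj
        have h3 := upd_hits (A j) w l x
        have h4 : (0 : ℝ) ≤ (if w l ∈ A j then 1 else 0) := by split_ifs <;> norm_num
        have h5 : max (-(hits (A j) w : ℝ) - -(J.inf' hJ fun j => (hits (A j) (Function.update w l x) : ℝ))) 0 ≤
            (if x ∈ A j then (1 : ℝ) else 0) := by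
          refine max_le ?_ (by split_ifs <;> norm_num)
          linarith
        have h6 : (0 : ℝ) ≤ max (-(hits (A j) w : ℝ) - -(J.inf' hJ fun j => (hits (A j) (Function.update w l x) : ℝ))) 0 :=
          le_max_right _ _
        refine (pow_le_pow_left₀ h6 h5 2).trans ?_
        split_ifs <;> norm_num
      refine (sum_le_sum h1).trans ?_
      rw [sum_boole]
      have h8 : Ω.filter (fun x => x ∈ A j) = A j := by
        ext x
        rw [mem_filter]
        exact ⟨fun h => h.2, fun h => ⟨hA j hj h, h⟩⟩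
      rw [h8]
      exact hβ j hj
    refine (sum_le_sum h7).trans ?_
    rw [sum_const, card_univ, Fintype.card_fin, nsmul_eq_mul]
  refine (sum_le_sum h0).trans (le_of_eq ?_)
  rw [sum_const, Smp_card, nsmul_eq_mul]
  push_cast
  ring

lemma hf_cont {u : ℝ} (hu : 0 < u) : ContinuousAt hf u := by
  unfold hf
  have h1 : ContinuousAt (fun x : ℝ => x * Real.log x) u := continuousAt_id.mul (Real.continuousAt_log hu.ne')
  exact (continuousAt_const.sub continuousAt_id).add h1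

/-- the constant `K` -/
noncomputable def Kc (lam u : ℝ) : ℝ := 1 + lam + (u * lam + 1) + 2 * (u * lam + 1) ^ 2 / lam

/-- with positive probability some set has exactly `k` hits -/
theorem some_k (γ lam u K₀ K₂ : ℝ) (hlam : 0 < lam) (hu : 0 < u) (hK0 : 0 ≤ K₀) (hγ : lam * hf u < γ) :
    ∀ᶠ L : ℝ in atTop, ∀ (m k : ℕ), |(m : ℝ) - lam * L ^ 2| ≤ L → |(k : ℝ) - u * lam * L| ≤ 1 →
    ∀ {ι κ : Type} [DecidableEq ι] [DecidableEq κ] (Ω : Finset ι) (J : Finset κ) (A : κ → Finset ι),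
    Sys Ω J A L K₀ (10 * Kc lam u * (K₀ + 1)) K₂ → Real.exp (γ * L - 1) ≤ J.card →
    (Ω.card : ℝ) ^ m * (Real.exp (-(2 * (10 * Kc lam u * (K₀ + 1)))) / (Real.exp (10 * Kc lam u * (K₀ + 1)) + K₂)) ≤
      ((Smp Ω m).filter fun w => ∃ j ∈ J, hits (A j) w = k).card := by
  obtain ⟨τ, hτ⟩ : ∃ τ, τ = (γ - lam * hf u) / 4 := ⟨_, rfl⟩
  have hτ0 : 0 < τ := by rw [hτ]; linarith
  obtain ⟨η, hη⟩ : ∃ η, η = τ / lam := ⟨_, rfl⟩
  have hη0 : 0 < η := by rw [hη]; positivity
  obtain ⟨δ, hδ0, hδ⟩ := Metric.continuousAt_iff.1 (hf_cont hu) η hη0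
  obtain ⟨K, hK⟩ : ∃ K, K = Kc lam u := ⟨_, rfl⟩
  have hKp : 0 < 2 * (u * lam + 1) ^ 2 / lam := by positivity
  have hul : 0 < u * lam := by positivity
  have hK1 : 1 ≤ K := by rw [hK]; unfold Kc; linarith
  have hKm : lam + 1 ≤ K := by rw [hK]; unfold Kc; linarith
  have hKk : u * lam + 1 ≤ K := by rw [hK]; unfold Kc; linarith
  have hKkm : 2 * (u * lam + 1) ^ 2 / lam ≤ K := by rw [hK]; unfold Kc; linarith
  have hhf := hf_nonneg hu.le
  have hlog : ∀ᶠ L : ℝ in atTop, Real.log L ≤ τ * L := by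
    have := (Real.isLittleO_log_id_atTop).bound hτ0
    filter_upwards [this, eventually_ge_atTop 1] with L h1 h2
    rw [Real.norm_of_nonneg (Real.log_nonneg h2), id, Real.norm_of_nonneg (by linarith)] at h1
    exact h1
  filter_upwards [eventually_ge_atTop 4, eventually_ge_atTop (2 * K₀), eventually_ge_atTop (4 / lam),
    eventually_ge_atTop (8 / (u * lam)), eventually_gt_atTop (4 * (1 + u) / (lam * δ)), hlog,
    eventually_ge_atTop ((hf u + η + 2 * K + 2 + Real.log (u * lam + 1)) / τ),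
    eventually_ge_atTop (8 * (u * lam + 1) / lam)]
    with L l4 lK l1 l2 l3 llog l5 l6 m k hm hk ι κ _ _ Ω J A hS hJ
  rw [← hK] at hS ⊢
  have hL0 : 0 < L := by linarith
  have hL1 : 1 ≤ L := by linarith
  rw [div_le_iff₀ hlam] at l1
  rw [div_le_iff₀ hul] at l2
  rw [div_lt_iff₀ (by positivity)] at l3
  rw [div_le_iff₀ hτ0] at l5
  rw [div_le_iff₀ hlam] at l6
  have hm' := abs_le.1 hm
  have hk' := abs_le.1 hk
  have hmlo : lam / 2 * L ^ 2 ≤ m := by nlinarith
  have hmhi : (m : ℝ) ≤ (lam + 1) * L ^ 2 := by nlinarith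
  have hm0 : (0 : ℝ) < m := lt_of_lt_of_le (by positivity) hmlo
  have hm1 : 1 ≤ m := by exact_mod_cast hm0
  have hkhi : (k : ℝ) ≤ (u * lam + 1) * L := by nlinarith
  have hklo : u * lam / 2 * L ≤ k := by nlinarith
  have hk0 : (0 : ℝ) < k := lt_of_lt_of_le (by positivity) hklo
  have hk1 : 1 ≤ k := by exact_mod_cast hk0
  have hkm : 2 * k ≤ m := by
    have h1 : ((2 * k : ℕ) : ℝ) ≤ m := by
      push_cast
      calc 2 * (k : ℝ) ≤ 2 * ((u * lam + 1) * L) := by linarith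
        _ ≤ lam / 2 * L ^ 2 := by nlinarith
        _ ≤ m := hmlo
    exact_mod_cast h1
  have hk2 : (k : ℝ) ^ 2 ≤ K * m := by
    calc (k : ℝ) ^ 2 ≤ ((u * lam + 1) * L) ^ 2 := pow_le_pow_left₀ hk0.le hkhi 2
      _ = 2 * (u * lam + 1) ^ 2 / lam * (lam / 2 * L ^ 2) := by field_simp
      _ ≤ K * m := mul_le_mul hKkm hmlo (by positivity) (by linarith)
  -- the main term
  have hμ0 : (0 : ℝ) < m / L := by positivity
  have hμ1 : |(m : ℝ) / L - lam * L| ≤ 1 := by
    have e : (m : ℝ) / L - lam * L = (m - lam * L ^ 2) / L := by field_simp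
    rw [e, abs_div, abs_of_pos hL0, div_le_one hL0]
    exact hm
  have hμ2 : lam / 2 * L ≤ m / L := by
    rw [le_div_iff₀ hL0]
    calc lam / 2 * L * L = lam / 2 * L ^ 2 := by ring
      _ ≤ m := hmlo
  have hclose : |(k : ℝ) / (m / L) - u| < δ := by
    have e : (k : ℝ) / (m / L) - u = (k - u * (m / L)) / (m / L) := by
      rw [sub_div, mul_div_cancel_right₀ _ hμ0.ne']
    rw [e, abs_div, abs_of_pos hμ0, div_lt_iff₀ hμ0]
    have h1 : |(k : ℝ) - u * (m / L)| ≤ 1 + u := by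
      have h2 : (k : ℝ) - u * (m / L) = (k - u * lam * L) - u * (m / L - lam * L) := by ring
      rw [h2]
      refine (abs_sub _ _).trans ?_
      rw [abs_mul, abs_of_pos hu]
      have := mul_le_mul_of_nonneg_left hμ1 hu.le
      linarith
    have h3 : δ * (lam / 2 * L) ≤ δ * (m / L) := mul_le_mul_of_nonneg_left hμ2 hδ0.le
    nlinarith
  have hhf2 : hf (k / (m / L)) ≤ hf u + η := by
    have := hδ (by rw [Real.dist_eq]; exact hclose)
    rw [Real.dist_eq] at this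
    have := (abs_lt.1 this).2
    linarith
  have hP : 1 ≤ J.card * PP L m k := by
    have h1 := PP_lo hL0 hk1 hkm
    have h2 : Real.exp (γ * L - 1) * (Real.exp (-(m / L * hf (k / (m / L))) - 2 * (k ^ 2 / m) - 1) / k) ≤
        J.card * PP L m k := mul_le_mul hJ h1 (by positivity) (Nat.cast_nonneg _)
    refine le_trans ?_ h2
    rw [mul_div_assoc', ← Real.exp_add, le_div_iff₀ hk0, one_mul, ← Real.log_le_iff_le_exp hk0]
    have h3 : Real.log k ≤ Real.log (u * lam + 1) + τ * L := by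
      refine (Real.log_le_log hk0 hkhi).trans ?_
      rw [Real.log_mul (by positivity) hL0.ne']
      linarith
    have h4 : (m : ℝ) / L * hf (k / (m / L)) ≤ (lam * L + 1) * (hf u + η) := by
      have h5 : (m : ℝ) / L ≤ lam * L + 1 := by linarith [(abs_le.1 hμ1).2]
      exact mul_le_mul h5 hhf2 (hf_nonneg (by positivity)) (by positivity)
    have h5 : (k : ℝ) ^ 2 / m ≤ K := by rw [div_le_iff₀ hm0]; exact hk2
    have h6 : lam * η = τ := by rw [hη]; field_simp
    have h7 : lam * hf u = γ - 4 * τ := by rw [hτ]; ring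
    have h8 : (lam * L + 1) * (hf u + η) = L * (lam * hf u) + L * (lam * η) + hf u + η := by ring
    rw [h8, h6, h7] at h4
    have h9 : 0 ≤ τ * L := by positivity
    nlinarith
  obtain ⟨ρ, hρ0, hρ, hρs⟩ := hS.two
  exact secmom Ω hS.ne J A hS.sub L K K₀ K₂ m k l4 hK0 hK1 lK
    (hmhi.trans (mul_le_mul_of_nonneg_right hKm (by positivity))) (hkhi.trans (mul_le_mul_of_nonneg_right hKk hL0.le))
    hk2 hm1 hkm hS.dens ρ hρ0 hρ hρs hP

end Pool.Agent.Run7.h880.RP
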