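import Mathlib
import Pool.Agent.Run7.h880.RP.Core

/-! Two independent random samples: the second moment. -/

set_option autoImplicit false

namespace Pool.Agent.Run7.h880.RP

open Finset Filter
open Pool.Agent.Run7.h880.MK (Smp Smp_mem Smp_card hits hits_eq nohit)

/-- Cauchy's inequality for the number of events -/
theorem csz {α κ : Type} [DecidableEq κ] (S : Finset α) (J : Finset κ) (E : κ → α → Prop) [∀ j, DecidablePred (E j)]
    (P c K₂ : ℝ) (R : κ → κ → ℝ) (hP0 : 0 ≤ P)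
    (h1 : ∀ j ∈ J, (S.card : ℝ) * (P * Real.exp (-c)) ≤ (S.filter (E j)).card)
    (h2 : ∀ j ∈ J, ((S.filter (E j)).card : ℝ) ≤ S.card * (P * Real.exp c))
    (h3 : ∀ i ∈ J, ∀ j ∈ J, i ≠ j → ((S.filter fun w => E i w ∧ E j w).card : ℝ) ≤ S.card * (P ^ 2 * R i j))
    (hR : ∑ i ∈ J, ∑ j ∈ J, (if i = j then 0 else R i j) ≤ K₂ * (J.card : ℝ) ^ 2) (hK2 : 0 ≤ K₂) (hT : 1 ≤ J.card * P)
    [DecidablePred fun w => ∃ j ∈ J, E j w] (hS : S.Nonempty) :
    (S.card : ℝ) * (Real.exp (-(2 * c)) / (Real.exp c + K₂)) ≤ (S.filter fun w => ∃ j ∈ J, E j w).card := by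
  classical
  obtain ⟨q, hq⟩ : ∃ q : ℝ, q = S.card := ⟨_, rfl⟩
  have hq0 : 0 < q := by rw [hq]; exact_mod_cast card_pos.2 hS
  rw [← hq] at h1 h2 h3 ⊢
  obtain ⟨T, hTe⟩ : ∃ T, T = J.card * P := ⟨_, rfl⟩
  rw [← hTe] at hT
  obtain ⟨Z, hZ⟩ : ∃ Z : α → ℝ, Z = fun w => ∑ j ∈ J, (if E j w then (1 : ℝ) else 0) := ⟨_, rfl⟩
  obtain ⟨B, hB⟩ : ∃ B, B = S.filter fun w => ∃ j ∈ J, E j w := ⟨_, rfl⟩
  rw [← hB]
  have hS1 : q * (T * Real.exp (-c)) ≤ ∑ w ∈ S, Z w := by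
    rw [hZ, sum_comm]
    have h4 : ∀ j ∈ J, q * (P * Real.exp (-c)) ≤ ∑ w ∈ S, (if E j w then (1 : ℝ) else 0) := by
      intro j hj
      rw [sum_boole]
      exact h1 j hj
    refine le_trans (le_of_eq ?_) (sum_le_sum h4)
    rw [sum_const, nsmul_eq_mul, hTe]
    ring
  have hS2 : ∑ w ∈ S, Z w ^ 2 ≤ q * (T * Real.exp c + K₂ * T ^ 2) := by
    have h4 : ∑ w ∈ S, Z w ^ 2 = ∑ i ∈ J, ∑ j ∈ J, (((S.filter fun w => E i w ∧ E j w).card : ℕ) : ℝ) := by
      rw [hZ]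
      have h5 : ∀ w ∈ S, (∑ j ∈ J, (if E j w then (1 : ℝ) else 0)) ^ 2 =
          ∑ i ∈ J, ∑ j ∈ J, (if E i w ∧ E j w then (1 : ℝ) else 0) := by
        intro w _
        rw [sq, sum_mul_sum]
        refine sum_congr rfl fun i _ => sum_congr rfl fun j _ => ?_
        by_cases h3 : E i w <;> by_cases h4 : E j w <;> simp [h3, h4]
      rw [sum_congr rfl h5, sum_comm]
      refine sum_congr rfl fun i _ => ?_
      rw [sum_comm]
      refine sum_congr rfl fun j _ => ?_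
      rw [sum_boole]
    rw [h4]
    have h5 : ∀ i ∈ J, ∀ j ∈ J, (((S.filter fun w => E i w ∧ E j w).card : ℕ) : ℝ) ≤
        q * (P ^ 2 * (if i = j then 0 else R i j)) + (if i = j then q * (P * Real.exp c) else 0) := by
      intro i hi j hj
      by_cases hij : i = j
      · subst hij
        simp only [if_true, mul_zero, zero_add, and_self]
        exact h2 i hi
      · simp only [hij, if_false, add_zero]
        exact h3 i hi j hj hij
    refine (sum_le_sum fun i hi => sum_le_sum fun j hj => h5 i hi j hj).trans ?_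
    have h6 : ∀ i ∈ J, ∑ j ∈ J, (q * (P ^ 2 * (if i = j then 0 else R i j)) + (if i = j then q * (P * Real.exp c) else 0)) =
        q * (P ^ 2 * ∑ j ∈ J, (if i = j then 0 else R i j)) + q * (P * Real.exp c) := by
      intro i hi
      rw [sum_add_distrib, ← mul_sum, ← mul_sum, sum_ite_eq, if_pos hi]
    rw [sum_congr rfl h6, sum_add_distrib, ← mul_sum, ← mul_sum, sum_const, nsmul_eq_mul]
    have h7 : P ^ 2 * ∑ i ∈ J, ∑ j ∈ J, (if i = j then 0 else R i j) ≤ P ^ 2 * (K₂ * (J.card : ℝ) ^ 2) :=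
      mul_le_mul_of_nonneg_left hR (by positivity)
    calc q * (P ^ 2 * ∑ i ∈ J, ∑ j ∈ J, (if i = j then 0 else R i j)) + J.card * (q * (P * Real.exp c))
        ≤ q * (P ^ 2 * (K₂ * (J.card : ℝ) ^ 2)) + J.card * (q * (P * Real.exp c)) := by
          have := mul_le_mul_of_nonneg_left h7 hq0.le
          linarith
      _ = _ := by rw [hTe]; ring
  have h4 : ∑ w ∈ S, Z w = ∑ w ∈ B, Z w := by
    rw [hB, sum_filter]
    refine sum_congr rfl fun w _ => ?_
    split_ifs with h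
    · rfl
    · rw [hZ]
      refine sum_eq_zero fun j hj => ?_
      rw [if_neg]
      exact fun h2 => h ⟨j, hj, h2⟩
  have h5 : (∑ w ∈ B, Z w) ^ 2 ≤ B.card * ∑ w ∈ B, Z w ^ 2 := sq_sum_le_card_mul_sum_sq
  have h6 : ∑ w ∈ B, Z w ^ 2 ≤ ∑ w ∈ S, Z w ^ 2 := by
    rw [hB]
    exact sum_le_sum_of_subset_of_nonneg (filter_subset _ _) fun _ _ _ => sq_nonneg _
  have hT0 : 0 < T := by linarith
  have h7 : (q * (T * Real.exp (-c))) ^ 2 ≤ B.card * (q * (T ^ 2 * (Real.exp c + K₂))) := by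
    calc (q * (T * Real.exp (-c))) ^ 2 ≤ (∑ w ∈ B, Z w) ^ 2 := by
          rw [← h4]
          exact pow_le_pow_left₀ (by positivity) hS1 2
      _ ≤ B.card * (q * (T * Real.exp c + K₂ * T ^ 2)) :=
          h5.trans (mul_le_mul_of_nonneg_left (h6.trans hS2) (Nat.cast_nonneg _))
      _ ≤ B.card * (q * (T ^ 2 * (Real.exp c + K₂))) := by
          refine mul_le_mul_of_nonneg_left (mul_le_mul_of_nonneg_left ?_ hq0.le) (Nat.cast_nonneg _)
          have h5 : T ≤ T ^ 2 := by nlinarith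
          have h6 := mul_le_mul_of_nonneg_right h5 (Real.exp_pos c).le
          linarith
  have h8 : q * T ^ 2 * (q * Real.exp (-(2 * c))) ≤ q * T ^ 2 * (B.card * (Real.exp c + K₂)) := by
    have e : Real.exp (-(2 * c)) = Real.exp (-c) ^ 2 := by
      rw [← Real.exp_nat_mul]; congr 1; push_cast; ring
    rw [e]
    calc _ = (q * (T * Real.exp (-c))) ^ 2 := by ring
      _ ≤ _ := h7
      _ = _ := by ring
  have h9 := le_of_mul_le_mul_left h8 (by positivity)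
  rw [mul_div_assoc', div_le_iff₀ (by positivity)]
  exact h9

section
variable {ι κ : Type} [DecidableEq ι] [DecidableEq κ] {Ω : Finset ι} {J : Finset κ} {A : κ → Finset ι}
  {L K K₀ c K₂ : ℝ} {m k : ℕ}

lemma ex_norm (hS : Sys Ω J A L K₀ c K₂) (hkm : k ≤ m) (j : κ) (hj : j ∈ J) :
    ((((Smp Ω m).filter fun w => hits (A j) w = k).card : ℕ) : ℝ) = (Ω.card : ℝ) ^ m *
      (m.choose k * (((A j).card / Ω.card) ^ k * (1 - (A j).card / Ω.card) ^ (m - k))) := by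
  have hq0 : (0 : ℝ) < Ω.card := by exact_mod_cast card_pos.2 hS.ne
  obtain ⟨q, hq⟩ : ∃ q : ℝ, q = Ω.card := ⟨_, rfl⟩
  rw [ex_card Ω (A j) (hS.sub j hj) m k, ← hq]
  rw [← hq] at hq0
  have e1 : ((A j).card : ℝ) = ((A j).card / q) * q := by rw [div_mul_cancel₀ _ hq0.ne']
  have e2 : q - ((A j).card : ℝ) = (1 - (A j).card / q) * q := by rw [sub_mul, div_mul_cancel₀ _ hq0.ne', one_mul]
  have e3 : q ^ m = q ^ k * q ^ (m - k) := by rw [← pow_add]; congr 1; omega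
  rw [e2, e3, mul_pow]
  nth_rewrite 1 [e1]
  rw [mul_pow]
  ring

/-- the events, and the pairs of events, for one sample -/
theorem ex_all (hS : Sys Ω J A L K₀ c K₂) (hL : 4 ≤ L) (hK0 : 0 ≤ K₀) (hK : 1 ≤ K) (hLK : 2 * K₀ ≤ L)
    (hm : (m : ℝ) ≤ K * L ^ 2) (hk : (k : ℝ) ≤ K * L) (hk2 : (k : ℝ) ^ 2 ≤ K * m) (hm1 : 1 ≤ m) (hkm : 2 * k ≤ m) :
    (∀ j ∈ J, (Ω.card : ℝ) ^ m * (PP L m k * Real.exp (-(10 * K * (K₀ + 1)))) ≤
      ((Smp Ω m).filter fun w => hits (A j) w = k).card) ∧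
    (∀ j ∈ J, (((Smp Ω m).filter fun w => hits (A j) w = k).card : ℝ) ≤
      (Ω.card : ℝ) ^ m * (PP L m k * Real.exp (10 * K * (K₀ + 1)))) ∧
    ∃ ρ : κ → κ → ℝ, (∀ i j, 0 ≤ ρ i j) ∧
      ∑ i ∈ J, ∑ j ∈ J, (if i = j then 0 else Real.exp (c * (1 + ρ i j))) ≤ K₂ * (J.card : ℝ) ^ 2 ∧
      ∀ i ∈ J, ∀ j ∈ J, i ≠ j → (((Smp Ω m).filter fun w => hits (A i) w = k ∧ hits (A j) w = k).card : ℝ) ≤
        (Ω.card : ℝ) ^ m * (PP L m k ^ 2 * Real.exp (10 * K * (K₀ + 1) * (1 + ρ i j))) := by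
  classical
  have hq0 : (0 : ℝ) < Ω.card := by exact_mod_cast card_pos.2 hS.ne
  have hL0 : 0 < L := by linarith
  have hk1 : k ≤ m := by omega
  refine ⟨fun j hj => ?_, fun j hj => ?_, ?_⟩
  · rw [ex_norm hS hk1 j hj]
    exact mul_le_mul_of_nonneg_left (one_lo hL hK0 hK hLK hm hk (hS.dens j hj)) (by positivity)
  · rw [ex_norm hS hk1 j hj]
    exact mul_le_mul_of_nonneg_left (one_hi hL hK0 hK hLK hm hk (hS.dens j hj) hk1) (by positivity)
  · obtain ⟨ρ, hρ0, hρ, hρs⟩ := hS.two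
    refine ⟨ρ, hρ0, hρs, fun i hi j hj hij => ?_⟩
    obtain ⟨q, hq⟩ : ∃ q : ℝ, q = Ω.card := ⟨_, rfl⟩
    have hd := hS.dens
    have hA := hS.sub
    rw [← hq] at hρ hd hq0 ⊢
    obtain ⟨a1, a2⟩ := a_half hL hK0 hK hLK (hd i hi)
    obtain ⟨b1, b2⟩ := a_half hL hK0 hK hLK (hd j hj)
    have hab : ((A i ∩ A j).card : ℝ) ≤ (1 + 4 * ρ i j) * ((A i).card / q * ((A j).card / q)) * q := by
      have h3 := hρ i hi j hj hij
      rw [div_le_iff₀ hq0] at h3
      refine h3.trans (mul_le_mul_of_nonneg_right ?_ hq0.le)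
      have h4 : 1 / (2 * L) * (1 / (2 * L)) ≤ (A i).card / q * ((A j).card / q) :=
        mul_le_mul a1 b1 (by positivity) (by positivity)
      calc ρ i j / L ^ 2 = 4 * ρ i j * (1 / (2 * L) * (1 / (2 * L))) := by field_simp; norm_num
        _ ≤ 4 * ρ i j * ((A i).card / q * ((A j).card / q)) :=
            mul_le_mul_of_nonneg_left h4 (by have := hρ0 i j; positivity)
        _ ≤ _ := by
            refine mul_le_mul_of_nonneg_right (by linarith) (by positivity)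
    have h5 := pair Ω (A i) (A j) (hA i hi) (hA j hj) hS.ne m k hkm hm1 (4 * ρ i j) ((A i).card / q) ((A j).card / q)
      (1 - (A i).card / q - (A j).card / q + (A i ∩ A j).card / q) (by have := hρ0 i j; positivity)
      (by rw [hq]) (by rw [hq]) (by rw [← hq]; exact hab) (by rw [hq])
    rw [← hq] at h5
    refine h5.trans ?_
    rw [mul_assoc (q ^ m)]
    refine mul_le_mul_of_nonneg_left ?_ (by positivity)
    refine two_hi hL hK0 hK hLK hm hk (hd i hi) (hd j hj) hk2 hm1 hkm (hρ0 i j) (by positivity) (hρ i hi j hj hij) rfl ?_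
    have h6 := card_union_add_card_inter (A i) (A j)
    have h7 : ((A i ∪ A j).card : ℝ) + (A i ∩ A j).card = (A i).card + (A j).card := by exact_mod_cast h6
    have h8 : ((A i ∪ A j).card : ℝ) ≤ q := by
      rw [hq]
      exact_mod_cast card_le_card (union_subset (hA i hi) (hA j hj))
    have e : 1 - ((A i).card : ℝ) / q - (A j).card / q + (A i ∩ A j).card / q =
        (q - ((A i).card + (A j).card - (A i ∩ A j).card)) / q := by field_simp; ring
    rw [e]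
    exact div_nonneg (by linarith) hq0.le

end

/-- the sizes of `m` and `k`, and the main term, as in `some_k` -/
theorem sizes (lam u K₀ τ : ℝ) (hlam : 0 < lam) (hu : 0 < u) (hτ0 : 0 < τ) :
    ∀ᶠ L : ℝ in atTop, ∀ (m k : ℕ), |(m : ℝ) - lam * L ^ 2| ≤ L → |(k : ℝ) - u * lam * L| ≤ 1 →
    4 ≤ L ∧ 2 * K₀ ≤ L ∧ (m : ℝ) ≤ Kc lam u * L ^ 2 ∧ (k : ℝ) ≤ Kc lam u * L ∧ (k : ℝ) ^ 2 ≤ Kc lam u * m ∧ 1 ≤ m ∧
    2 * k ≤ m ∧ Real.exp (-((lam * hf u + τ) * L)) ≤ PP L m k := by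
  obtain ⟨η, hη⟩ : ∃ η, η = τ / (3 * lam) := ⟨_, rfl⟩
  have hη0 : 0 < η := by rw [hη]; positivity
  obtain ⟨δ, hδ0, hδ⟩ := Metric.continuousAt_iff.1 (hf_cont hu) η hη0
  obtain ⟨K, hK⟩ : ∃ K, K = Kc lam u := ⟨_, rfl⟩
  have hKp : 0 < 2 * (u * lam + 1) ^ 2 / lam := by positivity
  have hul : 0 < u * lam := by positivity
  have hK1 : 1 ≤ K := by rw [hK]; unfold Kc; linarith
  have hKm : lam + 1 ≤ K := by rw [hK]; unfold Kc; linarith
  have hKk : u * lam + 1 ≤ K := by rw [hK]; unfold Kc; linarith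
  have hKkm : 2 * (u * lam + 1) ^ 2 / lam ≤ K := by rw [hK]; unfold Kc; linarith
  have hhf := hf_nonneg hu.le
  have hlog : ∀ᶠ L : ℝ in atTop, Real.log L ≤ τ / 3 * L := by
    have := (Real.isLittleO_log_id_atTop).bound (show (0 : ℝ) < τ / 3 by positivity)
    filter_upwards [this, eventually_ge_atTop 1] with L h1 h2
    rw [Real.norm_of_nonneg (Real.log_nonneg h2), id, Real.norm_of_nonneg (by linarith)] at h1
    exact h1
  filter_upwards [eventually_ge_atTop 4, eventually_ge_atTop (2 * K₀), eventually_ge_atTop (4 / lam),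
    eventually_ge_atTop (8 / (u * lam)), eventually_gt_atTop (4 * (1 + u) / (lam * δ)), hlog,
    eventually_ge_atTop ((hf u + η + 2 * K + 2 + Real.log (u * lam + 1)) / (τ / 3)),
    eventually_ge_atTop (8 * (u * lam + 1) / lam)]
    with L l4 lK l1 l2 l3 llog l5 l6 m k hm hk
  rw [← hK]
  have hL0 : 0 < L := by linarith
  have hL1 : 1 ≤ L := by linarith
  rw [div_le_iff₀ hlam] at l1
  rw [div_le_iff₀ hul] at l2
  rw [div_lt_iff₀ (by positivity)] at l3
  rw [div_le_iff₀ (by positivity)] at l5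
  rw [div_le_iff₀ hlam] at l6
  have hm' := abs_le.1 hm
  have hk' := abs_le.1 hk
  have hmlo : lam / 2 * L ^ 2 ≤ m := by nlinarith
  have hmhi : (m : ℝ) ≤ (lam + 1) * L ^ 2 := by nlinarith
  have hm0 : (0 : ℝ) < m := lt_of_lt_of_le (by positivity) hmlo
  have hm1 : 1 ≤ m := by exact_mod_cast hm0
  have hkhi : (k : ℝ) ≤ (u * lam + 1) * L := by nlinarith
  have hklo : u * lam / 2 * L ≤ k := by nlinarith
  have hk0 : (0 : ℝ) < k := lt_of_lt_of_le (by positivity) hklo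
  have hk1 : 1 ≤ k := by exact_mod_cast hk0
  have hkm : 2 * k ≤ m := by
    have h1 : ((2 * k : ℕ) : ℝ) ≤ m := by
      push_cast
      calc 2 * (k : ℝ) ≤ 2 * ((u * lam + 1) * L) := by linarith
        _ ≤ lam / 2 * L ^ 2 := by nlinarith
        _ ≤ m := hmlo
    exact_mod_cast h1
  have hk2 : (k : ℝ) ^ 2 ≤ K * m := by
    calc (k : ℝ) ^ 2 ≤ ((u * lam + 1) * L) ^ 2 := pow_le_pow_left₀ hk0.le hkhi 2
      _ = 2 * (u * lam + 1) ^ 2 / lam * (lam / 2 * L ^ 2) := by field_simp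
      _ ≤ K * m := mul_le_mul hKkm hmlo (by positivity) (by linarith)
  have hμ0 : (0 : ℝ) < m / L := by positivity
  have hμ1 : |(m : ℝ) / L - lam * L| ≤ 1 := by
    have e : (m : ℝ) / L - lam * L = (m - lam * L ^ 2) / L := by field_simp
    rw [e, abs_div, abs_of_pos hL0, div_le_one hL0]
    exact hm
  have hμ2 : lam / 2 * L ≤ m / L := by
    rw [le_div_iff₀ hL0]
    calc lam / 2 * L * L = lam / 2 * L ^ 2 := by ring
      _ ≤ m := hmlo
  have hclose : |(k : ℝ) / (m / L) - u| < δ := by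
    have e : (k : ℝ) / (m / L) - u = (k - u * (m / L)) / (m / L) := by
      rw [sub_div, mul_div_cancel_right₀ _ hμ0.ne']
    rw [e, abs_div, abs_of_pos hμ0, div_lt_iff₀ hμ0]
    have h1 : |(k : ℝ) - u * (m / L)| ≤ 1 + u := by
      have h2 : (k : ℝ) - u * (m / L) = (k - u * lam * L) - u * (m / L - lam * L) := by ring
      rw [h2]
      refine (abs_sub _ _).trans ?_
      rw [abs_mul, abs_of_pos hu]
      have := mul_le_mul_of_nonneg_left hμ1 hu.le
      linarith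
    have h3 : δ * (lam / 2 * L) ≤ δ * (m / L) := mul_le_mul_of_nonneg_left hμ2 hδ0.le
    nlinarith
  have hhf2 : hf (k / (m / L)) ≤ hf u + η := by
    have := hδ (by rw [Real.dist_eq]; exact hclose)
    rw [Real.dist_eq] at this
    have := (abs_lt.1 this).2
    linarith
  refine ⟨l4, lK, hmhi.trans (mul_le_mul_of_nonneg_right hKm (by positivity)),
    hkhi.trans (mul_le_mul_of_nonneg_right hKk hL0.le), hk2, hm1, hkm, ?_⟩
  refine le_trans ?_ (PP_lo hL0 hk1 hkm)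
  rw [le_div_iff₀ hk0, ← Real.exp_log hk0, ← Real.exp_add]
  rw [Real.exp_log hk0]
  refine Real.exp_le_exp.2 ?_
  have h3 : Real.log k ≤ Real.log (u * lam + 1) + τ / 3 * L := by
    refine (Real.log_le_log hk0 hkhi).trans ?_
    rw [Real.log_mul (by positivity) hL0.ne']
    linarith
  have h4 : (m : ℝ) / L * hf (k / (m / L)) ≤ (lam * L + 1) * (hf u + η) := by
    have h5 : (m : ℝ) / L ≤ lam * L + 1 := by linarith [(abs_le.1 hμ1).2]
    exact mul_le_mul h5 hhf2 (hf_nonneg (by positivity)) (by positivity)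
  have h5 : (k : ℝ) ^ 2 / m ≤ K := by rw [div_le_iff₀ hm0]; exact hk2
  have h6 : lam * η = τ / 3 := by rw [hη]; field_simp
  have h8 : (lam * L + 1) * (hf u + η) = L * (lam * hf u) + L * (lam * η) + hf u + η := by ring
  rw [h8, h6] at h4
  nlinarith

end Pool.Agent.Run7.h880.RP
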