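import Mathlib
import Pool.Agent.Run7.h880.RP.Core

/-! Random samples: the four laws. -/

set_option autoImplicit false

namespace Pool.Agent.Run7.h880.RP

open Finset Filter
open Pool.Agent.Run7.h880.MK (Smp Smp_mem Smp_card hits hits_eq nohit)

lemma hf_continuous : Continuous hf := by
  unfold hf
  exact (continuous_const.sub continuous_id).add Real.continuous_mul_log

lemma sys_dens {ι κ : Type} [DecidableEq ι] [DecidableEq κ] {Ω : Finset ι} {J : Finset κ} {A : κ → Finset ι}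
    {L K₀ c K₂ : ℝ} (hS : Sys Ω J A L K₀ c K₂) (hL : 0 < L) :
    ∀ j ∈ J, |((A j).card : ℝ) - Ω.card / L| ≤ K₀ / L * (Ω.card / L) := by
  intro j hj
  have hq0 : (0 : ℝ) < Ω.card := by exact_mod_cast card_pos.2 hS.ne
  have h1 := hS.dens j hj
  have e : ((A j).card : ℝ) - Ω.card / L = ((A j).card / Ω.card - 1 / L) * Ω.card := by field_simp
  rw [e, abs_mul, abs_of_pos hq0]
  calc |((A j).card : ℝ) / Ω.card - 1 / L| * Ω.card ≤ K₀ / L ^ 2 * Ω.card := mul_le_mul_of_nonneg_right h1 hq0.le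
    _ = _ := by field_simp

/-- every set has fewer than `u lam L` hits -/
theorem max_hi (γ lam u K₀ : ℝ) (hlam : 0 < lam) (hu : 1 < u) (hK0 : 0 ≤ K₀) (hγ : γ < lam * hf u) :
    ∃ c : ℝ, 0 < c ∧ ∀ᶠ L : ℝ in atTop, ∀ (m : ℕ), |(m : ℝ) - lam * L ^ 2| ≤ L →
    ∀ {ι κ : Type} [DecidableEq ι] [DecidableEq κ] (Ω : Finset ι) (J : Finset κ) (A : κ → Finset ι) (c' K₂ : ℝ),
    Sys Ω J A L K₀ c' K₂ → (J.card : ℝ) ≤ Real.exp (γ * L + 1) →
    (((Smp Ω m).filter fun w => ∃ j ∈ J, u * lam * L ≤ hits (A j) w).card : ℝ) ≤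
      Real.exp (-(c * L)) * (Ω.card : ℝ) ^ m := by
  classical
  -- choose u' < u
  obtain ⟨u', hu1, hu2, hu3⟩ : ∃ u' : ℝ, 1 < u' ∧ u' < u ∧ γ < lam * hf u' := by
    have h1 : ContinuousAt (fun x => lam * hf x) u := (continuous_const.mul hf_continuous).continuousAt
    obtain ⟨δ, hδ0, hδ⟩ := Metric.continuousAt_iff.1 h1 (lam * hf u - γ) (by linarith)
    obtain ⟨t, ht⟩ : ∃ t, t = min (δ / 2) ((u - 1) / 2) := ⟨_, rfl⟩
    have ht0 : 0 < t := by rw [ht]; exact lt_min (by positivity) (by linarith)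
    have ht1 : t ≤ δ / 2 := by rw [ht]; exact min_le_left _ _
    have ht2 : t ≤ (u - 1) / 2 := by rw [ht]; exact min_le_right _ _
    have h2 := hδ (x := u - t) (by rw [Real.dist_eq, abs_lt]; constructor <;> linarith)
    rw [Real.dist_eq] at h2
    have := (abs_lt.1 h2).1
    exact ⟨u - t, by linarith, by linarith, by linarith⟩
  obtain ⟨c, hc⟩ : ∃ c, c = (lam * hf u' - γ) / 2 := ⟨_, rfl⟩
  have hc0 : 0 < c := by rw [hc]; linarith
  refine ⟨c, hc0, ?_⟩
  have hul : 0 < (u - u') * lam := mul_pos (by linarith) hlam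
  filter_upwards [eventually_ge_atTop 1, eventually_ge_atTop ((1 + hf u') / c),
    eventually_ge_atTop ((u' * (1 + K₀ * (lam + 1))) / ((u - u') * lam)), eventually_ge_atTop (1 / lam)]
    with L l1 l2 l3 l4 m hm ι κ _ _ Ω J A c' K₂ hS hJ
  have hL0 : 0 < L := by linarith
  rw [div_le_iff₀ hc0] at l2
  rw [div_le_iff₀ hul] at l3
  rw [div_le_iff₀ hlam] at l4
  have hm' := abs_le.1 hm
  have hμ1 : |(m : ℝ) / L - lam * L| ≤ 1 := by
    have e : (m : ℝ) / L - lam * L = (m - lam * L ^ 2) / L := by field_simp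
    rw [e, abs_div, abs_of_pos hL0, div_le_one hL0]
    exact hm
  have hμ := abs_le.1 hμ1
  obtain ⟨Bad, hB1, hB2⟩ := (law Ω hS.ne J A hS.sub L (K₀ / L) (sys_dens hS hL0) m).1 u' hu1.le
  have hsub : (Smp Ω m).filter (fun w => ∃ j ∈ J, u * lam * L ≤ hits (A j) w) ⊆ Bad := by
    intro w hw
    obtain ⟨h1, j, hj, h2⟩ := mem_filter.1 hw
    by_contra hcon
    have h3 := hB2 w (Smp_mem.1 h1) hcon j hj
    have h4 : u' * ((1 + K₀ / L) * (m / L)) ≤ u * lam * L := by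
      have h5 : (1 + K₀ / L) * ((m : ℝ) / L) ≤ (1 + K₀ / L) * (lam * L + 1) :=
        mul_le_mul_of_nonneg_left (by linarith) (by positivity)
      have h6 : (1 + K₀ / L) * (lam * L + 1) = lam * L + 1 + K₀ * (lam + 1 / L) := by field_simp
      have h7 : 1 / L ≤ 1 := by rw [div_le_one hL0]; exact l1
      have h8 : K₀ * (lam + 1 / L) ≤ K₀ * (lam + 1) := mul_le_mul_of_nonneg_left (by linarith) hK0
      have h9 : (1 + K₀ / L) * ((m : ℝ) / L) ≤ lam * L + (1 + K₀ * (lam + 1)) := by linarith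
      calc u' * ((1 + K₀ / L) * (m / L)) ≤ u' * (lam * L + (1 + K₀ * (lam + 1))) :=
            mul_le_mul_of_nonneg_left h9 (by linarith)
        _ = u' * lam * L + u' * (1 + K₀ * (lam + 1)) := by ring
        _ ≤ u' * lam * L + L * ((u - u') * lam) := by linarith
        _ = u * lam * L := by ring
    linarith
  have h1 : (((Smp Ω m).filter fun w => ∃ j ∈ J, u * lam * L ≤ hits (A j) w).card : ℝ) ≤ Bad.card := by
    exact_mod_cast card_le_card hsub
  refine h1.trans (hB1.trans ?_)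
  have h2 : (J.card : ℝ) * ((Ω.card : ℝ) ^ m * Real.exp (-((1 + K₀ / L) * (m / L) * hf u'))) ≤
      Real.exp (γ * L + 1) * ((Ω.card : ℝ) ^ m * Real.exp (-((lam * L - 1) * hf u'))) := by
    refine mul_le_mul hJ (mul_le_mul_of_nonneg_left (Real.exp_le_exp.2 ?_) (by positivity)) (by positivity) (by positivity)
    have h3 : lam * L - 1 ≤ (1 + K₀ / L) * (m / L) := by
      have h4 : 0 ≤ K₀ / L * ((m : ℝ) / L) := by positivity
      nlinarith
    have := mul_le_mul_of_nonneg_right h3 (hf_nonneg (by linarith : (0 : ℝ) ≤ u'))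
    linarith
  refine h2.trans ?_
  have h3 : Real.exp (γ * L + 1) * ((Ω.card : ℝ) ^ m * Real.exp (-((lam * L - 1) * hf u'))) =
      Real.exp (γ * L + 1 - (lam * L - 1) * hf u') * (Ω.card : ℝ) ^ m := by
    rw [sub_eq_add_neg (γ * L + 1), Real.exp_add (γ * L + 1)]
    ring
  rw [h3]
  refine mul_le_mul_of_nonneg_right (Real.exp_le_exp.2 ?_) (by positivity)
  have h4 : lam * hf u' = γ + 2 * c := by rw [hc]; ring
  nlinarith

/-- every set has more than `l lam L` hits -/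
theorem min_lo (γ lam l K₀ : ℝ) (hlam : 0 < lam) (hl0 : 0 ≤ l) (hl1 : l < 1) (hK0 : 0 ≤ K₀) (hγ : γ < lam * hf l) :
    ∃ c : ℝ, 0 < c ∧ ∀ᶠ L : ℝ in atTop, ∀ (m : ℕ), |(m : ℝ) - lam * L ^ 2| ≤ L →
    ∀ {ι κ : Type} [DecidableEq ι] [DecidableEq κ] (Ω : Finset ι) (J : Finset κ) (A : κ → Finset ι) (c' K₂ : ℝ),
    Sys Ω J A L K₀ c' K₂ → (J.card : ℝ) ≤ Real.exp (γ * L + 1) →
    (((Smp Ω m).filter fun w => ∃ j ∈ J, (hits (A j) w : ℝ) ≤ l * lam * L).card : ℝ) ≤
      Real.exp (-(c * L)) * (Ω.card : ℝ) ^ m := by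
  classical
  obtain ⟨u', hu1, hu2, hu3⟩ : ∃ u' : ℝ, l < u' ∧ u' < 1 ∧ γ < lam * hf u' := by
    have h1 : ContinuousAt (fun x => lam * hf x) l := (continuous_const.mul hf_continuous).continuousAt
    obtain ⟨δ, hδ0, hδ⟩ := Metric.continuousAt_iff.1 h1 (lam * hf l - γ) (by linarith)
    obtain ⟨t, ht⟩ : ∃ t, t = min (δ / 2) ((1 - l) / 2) := ⟨_, rfl⟩
    have ht0 : 0 < t := by rw [ht]; exact lt_min (by positivity) (by linarith)
    have ht1 : t ≤ δ / 2 := by rw [ht]; exact min_le_left _ _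
    have ht2 : t ≤ (1 - l) / 2 := by rw [ht]; exact min_le_right _ _
    have h2 := hδ (x := l + t) (by rw [Real.dist_eq, abs_lt]; constructor <;> linarith)
    rw [Real.dist_eq] at h2
    have := (abs_lt.1 h2).1
    exact ⟨l + t, by linarith, by linarith, by linarith⟩
  obtain ⟨c, hc⟩ : ∃ c, c = (lam * hf u' - γ) / 2 := ⟨_, rfl⟩
  have hc0 : 0 < c := by rw [hc]; linarith
  refine ⟨c, hc0, ?_⟩
  have hul : 0 < (u' - l) * lam := mul_pos (by linarith) hlam
  filter_upwards [eventually_ge_atTop 1, eventually_ge_atTop ((1 + (1 + K₀ * (lam + 1)) * hf u') / c),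
    eventually_ge_atTop ((u' * (1 + K₀ * (lam + 1))) / ((u' - l) * lam)), eventually_ge_atTop (1 / lam),
    eventually_ge_atTop K₀]
    with L l1 l2 l3 l4 l5 m hm ι κ _ _ Ω J A c' K₂ hS hJ
  have hL0 : 0 < L := by linarith
  rw [div_le_iff₀ hc0] at l2
  rw [div_le_iff₀ hul] at l3
  rw [div_le_iff₀ hlam] at l4
  have hm' := abs_le.1 hm
  have hμ1 : |(m : ℝ) / L - lam * L| ≤ 1 := by
    have e : (m : ℝ) / L - lam * L = (m - lam * L ^ 2) / L := by field_simp
    rw [e, abs_div, abs_of_pos hL0, div_le_one hL0]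
    exact hm
  have hμ := abs_le.1 hμ1
  have hkey : lam * L - (1 + K₀ * (lam + 1)) ≤ (1 - K₀ / L) * ((m : ℝ) / L) := by
    have h5 : K₀ / L * ((m : ℝ) / L) ≤ K₀ / L * (lam * L + 1) := mul_le_mul_of_nonneg_left (by linarith) (by positivity)
    have h6 : K₀ / L * (lam * L + 1) = K₀ * (lam + 1 / L) := by field_simp
    have h7 : 1 / L ≤ 1 := by rw [div_le_one hL0]; exact l1
    have h8 : K₀ * (lam + 1 / L) ≤ K₀ * (lam + 1) := mul_le_mul_of_nonneg_left (by linarith) hK0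
    have e : (1 - K₀ / L) * ((m : ℝ) / L) = m / L - K₀ / L * (m / L) := by ring
    rw [e]
    linarith
  obtain ⟨Bad, hB1, hB2⟩ := (law Ω hS.ne J A hS.sub L (K₀ / L) (sys_dens hS hL0) m).2 u' (by linarith) hu2.le
  have hsub : (Smp Ω m).filter (fun w => ∃ j ∈ J, (hits (A j) w : ℝ) ≤ l * lam * L) ⊆ Bad := by
    intro w hw
    obtain ⟨h1, j, hj, h2⟩ := mem_filter.1 hw
    by_contra hcon
    have h3 := hB2 w (Smp_mem.1 h1) hcon j hj
    have h4 : l * lam * L ≤ u' * ((1 - K₀ / L) * (m / L)) := by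
      calc l * lam * L = u' * lam * L - L * ((u' - l) * lam) := by ring
        _ ≤ u' * lam * L - u' * (1 + K₀ * (lam + 1)) := by linarith
        _ = u' * (lam * L - (1 + K₀ * (lam + 1))) := by ring
        _ ≤ _ := mul_le_mul_of_nonneg_left hkey (by linarith)
    linarith
  have h1 : (((Smp Ω m).filter fun w => ∃ j ∈ J, (hits (A j) w : ℝ) ≤ l * lam * L).card : ℝ) ≤ Bad.card := by
    exact_mod_cast card_le_card hsub
  refine h1.trans (hB1.trans ?_)
  have h2 : (J.card : ℝ) * ((Ω.card : ℝ) ^ m * Real.exp (-((1 - K₀ / L) * (m / L) * hf u'))) ≤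
      Real.exp (γ * L + 1) * ((Ω.card : ℝ) ^ m * Real.exp (-((lam * L - (1 + K₀ * (lam + 1))) * hf u'))) := by
    refine mul_le_mul hJ (mul_le_mul_of_nonneg_left (Real.exp_le_exp.2 ?_) (by positivity)) (by positivity) (by positivity)
    have := mul_le_mul_of_nonneg_right hkey (hf_nonneg (by linarith : (0 : ℝ) ≤ u'))
    linarith
  refine h2.trans ?_
  have h3 : Real.exp (γ * L + 1) * ((Ω.card : ℝ) ^ m * Real.exp (-((lam * L - (1 + K₀ * (lam + 1))) * hf u'))) =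
      Real.exp (γ * L + 1 - (lam * L - (1 + K₀ * (lam + 1))) * hf u') * (Ω.card : ℝ) ^ m := by
    rw [sub_eq_add_neg (γ * L + 1), Real.exp_add (γ * L + 1)]
    ring
  rw [h3]
  refine mul_le_mul_of_nonneg_right (Real.exp_le_exp.2 ?_) (by positivity)
  have h4 : lam * hf u' = γ + 2 * c := by rw [hc]; ring
  nlinarith

lemma hf_large (T : ℝ) : ∃ u : ℝ, 1 ≤ u ∧ T ≤ hf u := by
  refine ⟨Real.exp 2 + |T|, ?_, ?_⟩
  · have := Real.add_one_le_exp (2 : ℝ)
    have := abs_nonneg T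
    linarith
  · have h0 : 0 < Real.exp 2 := Real.exp_pos 2
    have h1 : 2 ≤ Real.log (Real.exp 2 + |T|) := by
      have h2 : Real.log (Real.exp 2) ≤ Real.log (Real.exp 2 + |T|) := Real.log_le_log h0 (by linarith [abs_nonneg T])
      rwa [Real.log_exp] at h2
    unfold hf
    have h3 := le_abs_self T
    have h4 := abs_nonneg T
    have h5 : (Real.exp 2 + |T|) * 2 ≤ (Real.exp 2 + |T|) * Real.log (Real.exp 2 + |T|) :=
      mul_le_mul_of_nonneg_left h1 (by positivity)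
    linarith

/-- some set has at least `v lam L` hits -/
theorem max_lo (γ lam u v K₀ K₂ K₅ : ℝ) (hlam : 0 < lam) (hv : 0 < v) (hvu : v < u) (hK0 : 0 ≤ K₀) (hK2 : 0 ≤ K₂)
    (hγ : lam * hf u < γ) :
    ∃ C : ℝ, 0 < C ∧ ∀ᶠ L : ℝ in atTop, ∀ (m : ℕ), |(m : ℝ) - lam * L ^ 2| ≤ L →
    ∀ {ι κ : Type} [DecidableEq ι] [DecidableEq κ] (Ω : Finset ι) (J : Finset κ) (A : κ → Finset ι),
    Sys Ω J A L K₀ (10 * Kc lam u * (K₀ + 1)) K₂ → Real.exp (γ * L - 1) ≤ J.card → (J.card : ℝ) ≤ Real.exp (K₅ * L) →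
    (((Smp Ω m).filter fun w => ∀ j ∈ J, (hits (A j) w : ℝ) < v * lam * L).card : ℝ) ≤ C / L * (Ω.card : ℝ) ^ m := by
  classical
  have hu : 0 < u := by linarith
  obtain ⟨c₀, hc₀⟩ : ∃ c₀, c₀ = Real.exp (-(2 * (10 * Kc lam u * (K₀ + 1)))) /
    (Real.exp (10 * Kc lam u * (K₀ + 1)) + K₂) := ⟨_, rfl⟩
  have hc0 : 0 < c₀ := by rw [hc₀]; positivity
  obtain ⟨u₃, hu31, hu3⟩ := hf_large ((K₅ + 1) / lam)
  rw [div_le_iff₀ hlam] at hu3
  obtain ⟨C₃, hC₃⟩ : ∃ C₃, C₃ = 2 * u₃ * (lam + 1) + 1 := ⟨_, rfl⟩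
  have hC30 : 0 < C₃ := by rw [hC₃]; positivity
  obtain ⟨τ, hτ⟩ : ∃ τ, τ = (u - v) * lam / 4 := ⟨_, rfl⟩
  have hτ0 : 0 < τ := by rw [hτ]; have : 0 < u - v := by linarith
                         positivity
  refine ⟨C₃ / τ ^ 2, by positivity, ?_⟩
  have hexp : ∀ᶠ L : ℝ in atTop, (lam + 1) * L ^ 2 ≤ Real.exp L := by
    have h1 := (Real.isLittleO_pow_exp_atTop (n := 2)).bound (show (0 : ℝ) < 1 / (lam + 1) by positivity)
    filter_upwards [h1, eventually_ge_atTop 0] with L h2 h3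
    rw [Real.norm_of_nonneg (by positivity), Real.norm_of_nonneg (Real.exp_pos _).le, div_mul_eq_mul_div, one_mul,
      le_div_iff₀ (by positivity)] at h2
    linarith
  filter_upwards [some_k γ lam u K₀ K₂ hlam hu hK0 hγ, eventually_ge_atTop 4, eventually_ge_atTop (2 / lam),
    eventually_gt_atTop (C₃ / (c₀ * τ ^ 2)), hexp, eventually_ge_atTop K₀]
    with L hsome l1 l2 l3 l4 l5 m hm ι κ _ _ Ω J A hS hJ hJ5
  have hL0 : 0 < L := by linarith
  rw [div_le_iff₀ hlam] at l2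
  rw [div_lt_iff₀ (by positivity)] at l3
  have hm' := abs_le.1 hm
  have hq0 : (0 : ℝ) < Ω.card := by exact_mod_cast card_pos.2 hS.ne
  have hJne : J.Nonempty := by
    rw [nonempty_iff_ne_empty]
    rintro rfl
    rw [card_empty, Nat.cast_zero] at hJ
    linarith [Real.exp_pos (γ * L - 1)]
  have hmhi : (m : ℝ) ≤ (lam + 1) * L ^ 2 := by nlinarith
  have hμlo : lam / 2 * L ≤ m / L := by
    rw [le_div_iff₀ hL0]
    nlinarith
  have hμhi : (m : ℝ) / L ≤ (lam + 1) * L := by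
    rw [div_le_iff₀ hL0]
    calc (m : ℝ) ≤ (lam + 1) * L ^ 2 := hmhi
      _ = _ := by ring
  obtain ⟨k, hk⟩ : ∃ k : ℕ, k = ⌈u * lam * L⌉₊ := ⟨_, rfl⟩
  have hk1 : u * lam * L ≤ k := by rw [hk]; exact Nat.le_ceil _
  have hk2 : (k : ℝ) ≤ u * lam * L + 1 := by rw [hk]; exact (Nat.ceil_lt_add_one (by positivity)).le
  have h1 := hsome m k hm (by rw [abs_le]; constructor <;> linarith) Ω J A hS hJ
  rw [← hc₀] at h1
  -- the sum of the maximum
  have hsum : ∑ w ∈ Smp Ω m, (J.sup' hJne fun j => (hits (A j) w : ℝ)) ≤ C₃ * L * (Ω.card : ℝ) ^ m := by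
    have hd : ∀ j ∈ J, |((A j).card : ℝ) - Ω.card / L| ≤ 1 * (Ω.card / L) := by
      intro j hj
      refine (sys_dens hS hL0 j hj).trans (mul_le_mul_of_nonneg_right ?_ (by positivity))
      rw [div_le_one hL0]
      exact l5
    obtain ⟨Bad, hB1, hB2⟩ := (law Ω hS.ne J A hS.sub L 1 hd m).1 u₃ hu31
    have h2 : ∀ w ∈ Smp Ω m, (J.sup' hJne fun j => (hits (A j) w : ℝ)) ≤ u₃ * ((1 + 1) * (m / L)) +
        m * (if w ∈ Bad then 1 else 0) := by
      intro w hw
      refine sup'_le hJne _ fun j hj => ?_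
      split_ifs with h
      · have h3 : (hits (A j) w : ℝ) ≤ m := by
          have : hits (A j) w ≤ m := by
            unfold hits
            refine (card_le_univ _).trans (le_of_eq (Fintype.card_fin m))
          exact_mod_cast this
        have h4 : 0 ≤ u₃ * ((1 + 1) * ((m : ℝ) / L)) := by positivity
        linarith
      · have := hB2 w (Smp_mem.1 hw) h j hj
        linarith
    refine (sum_le_sum h2).trans ?_
    rw [sum_add_distrib, sum_const, nsmul_eq_mul, Smp_card, Nat.cast_pow, ← mul_sum, sum_boole]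
    have h3 : ((((Smp Ω m).filter fun w => w ∈ Bad).card : ℕ) : ℝ) ≤ Bad.card := by
      have : (Smp Ω m).filter (fun w => w ∈ Bad) ⊆ Bad := fun w hw => (mem_filter.1 hw).2
      exact_mod_cast card_le_card this
    have h4 : (m : ℝ) * Bad.card ≤ (Ω.card : ℝ) ^ m := by
      have h5 : (Bad.card : ℝ) ≤ Real.exp (-L) * (Ω.card : ℝ) ^ m := by
        refine hB1.trans ?_
        calc (J.card : ℝ) * ((Ω.card : ℝ) ^ m * Real.exp (-((1 + 1) * (m / L) * hf u₃)))
            ≤ Real.exp (K₅ * L) * ((Ω.card : ℝ) ^ m * Real.exp (-((K₅ + 1) * L))) := by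
              refine mul_le_mul hJ5 (mul_le_mul_of_nonneg_left (Real.exp_le_exp.2 ?_) (by positivity)) (by positivity)
                (by positivity)
              have h6 : lam / 2 * L * hf u₃ ≤ m / L * hf u₃ := mul_le_mul_of_nonneg_right hμlo (hf_nonneg (by linarith))
              have h7 : (K₅ + 1) * L ≤ hf u₃ * lam * L := mul_le_mul_of_nonneg_right hu3 hL0.le
              nlinarith
          _ = _ := by
              have e : Real.exp (-L) = Real.exp (K₅ * L) * Real.exp (-((K₅ + 1) * L)) := by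
                rw [← Real.exp_add]; congr 1; ring
              rw [e]
              ring
      calc (m : ℝ) * Bad.card ≤ Real.exp L * (Real.exp (-L) * (Ω.card : ℝ) ^ m) :=
            mul_le_mul (hmhi.trans l4) h5 (Nat.cast_nonneg _) (Real.exp_pos _).le
        _ = (Ω.card : ℝ) ^ m := by
            rw [← mul_assoc, ← Real.exp_add, add_neg_cancel, Real.exp_zero, one_mul]
    have h5 : (m : ℝ) * ((((Smp Ω m).filter fun w => w ∈ Bad).card : ℕ) : ℝ) ≤ (Ω.card : ℝ) ^ m :=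
      (mul_le_mul_of_nonneg_left h3 (Nat.cast_nonneg m)).trans h4
    have h6 : u₃ * ((1 + 1) * ((m : ℝ) / L)) ≤ 2 * u₃ * (lam + 1) * L := by
      have := mul_le_mul_of_nonneg_left hμhi (by linarith : (0 : ℝ) ≤ 2 * u₃)
      linarith
    calc (Ω.card : ℝ) ^ m * (u₃ * ((1 + 1) * ((m : ℝ) / L))) + m * ((((Smp Ω m).filter fun w => w ∈ Bad).card : ℕ) : ℝ)
        ≤ (Ω.card : ℝ) ^ m * (2 * u₃ * (lam + 1) * L) + (Ω.card : ℝ) ^ m * L := by
          have h7 := mul_le_mul_of_nonneg_left h6 (by positivity : 0 ≤ (Ω.card : ℝ) ^ m)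
          have h8 : (Ω.card : ℝ) ^ m ≤ (Ω.card : ℝ) ^ m * L := le_mul_of_one_le_right (by positivity) (by linarith)
          linarith
      _ = _ := by rw [hC₃]; ring
  have hV := (var_max Ω hS.ne J hJne A m).trans hsum
  have hb := boost Ω hS.ne m (fun w => J.sup' hJne fun j => (hits (A j) w : ℝ)) (C₃ * L) c₀ k (τ * L) (τ * L) hV
    (by positivity) (by positivity) (by nlinarith) (by
      rw [mul_comm]
      refine h1.trans ?_
      have : (Smp Ω m).filter (fun w => ∃ j ∈ J, hits (A j) w = k) ⊆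
          (Smp Ω m).filter fun w => (k : ℝ) ≤ J.sup' hJne fun j => (hits (A j) w : ℝ) := by
        intro w hw
        obtain ⟨h2, j, hj, h3⟩ := mem_filter.1 hw
        refine mem_filter.2 ⟨h2, ?_⟩
        rw [← h3]
        exact le_sup' (fun j => (hits (A j) w : ℝ)) hj
      exact_mod_cast card_le_card this)
  have hsub : (Smp Ω m).filter (fun w => ∀ j ∈ J, (hits (A j) w : ℝ) < v * lam * L) ⊆
      (Smp Ω m).filter fun w => (J.sup' hJne fun j => (hits (A j) w : ℝ)) < k - τ * L - τ * L := by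
    intro w hw
    obtain ⟨h2, h3⟩ := mem_filter.1 hw
    refine mem_filter.2 ⟨h2, ?_⟩
    rw [sup'_lt_iff]
    intro j hj
    refine (h3 j hj).trans_le ?_
    have e : v * lam * L = u * lam * L - 4 * (τ * L) := by rw [hτ]; ring
    have : 0 < τ * L := by positivity
    linarith
  have h2 : (((Smp Ω m).filter fun w => ∀ j ∈ J, (hits (A j) w : ℝ) < v * lam * L).card : ℝ) ≤
      ((Smp Ω m).filter fun w => (J.sup' hJne fun j => (hits (A j) w : ℝ)) < k - τ * L - τ * L).card := by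
    exact_mod_cast card_le_card hsub
  refine h2.trans (hb.trans (le_of_eq ?_))
  field_simp

/-- some set has at most `v lam L` hits -/
theorem min_hi (γ lam u v K₀ K₂ : ℝ) (hlam : 0 < lam) (hu : 0 < u) (hvu : u < v) (hK0 : 0 ≤ K₀) (hK2 : 0 ≤ K₂)
    (hγ : lam * hf u < γ) :
    ∃ C : ℝ, 0 < C ∧ ∀ᶠ L : ℝ in atTop, ∀ (m : ℕ), |(m : ℝ) - lam * L ^ 2| ≤ L →
    ∀ {ι κ : Type} [DecidableEq ι] [DecidableEq κ] (Ω : Finset ι) (J : Finset κ) (A : κ → Finset ι),
    Sys Ω J A L K₀ (10 * Kc lam u * (K₀ + 1)) K₂ → Real.exp (γ * L - 1) ≤ J.card →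
    (((Smp Ω m).filter fun w => ∀ j ∈ J, v * lam * L < (hits (A j) w : ℝ)).card : ℝ) ≤ C / L * (Ω.card : ℝ) ^ m := by
  classical
  obtain ⟨c₀, hc₀⟩ : ∃ c₀, c₀ = Real.exp (-(2 * (10 * Kc lam u * (K₀ + 1)))) /
    (Real.exp (10 * Kc lam u * (K₀ + 1)) + K₂) := ⟨_, rfl⟩
  have hc0 : 0 < c₀ := by rw [hc₀]; positivity
  obtain ⟨C₃, hC₃⟩ : ∃ C₃, C₃ = 3 / 2 * (lam + 1) := ⟨_, rfl⟩
  have hC30 : 0 < C₃ := by rw [hC₃]; positivity
  obtain ⟨τ, hτ⟩ : ∃ τ, τ = (v - u) * lam / 4 := ⟨_, rfl⟩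
  have hτ0 : 0 < τ := by rw [hτ]; have : 0 < v - u := by linarith
                         positivity
  refine ⟨C₃ / τ ^ 2, by positivity, ?_⟩
  filter_upwards [some_k γ lam u K₀ K₂ hlam hu hK0 hγ, eventually_ge_atTop 4,
    eventually_gt_atTop (C₃ / (c₀ * τ ^ 2)), eventually_ge_atTop (2 * K₀)]
    with L hsome l1 l3 l5 m hm ι κ _ _ Ω J A hS hJ
  have hL0 : 0 < L := by linarith
  rw [div_lt_iff₀ (by positivity)] at l3
  have hm' := abs_le.1 hm
  have hq0 : (0 : ℝ) < Ω.card := by exact_mod_cast card_pos.2 hS.ne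
  have hJne : J.Nonempty := by
    rw [nonempty_iff_ne_empty]
    rintro rfl
    rw [card_empty, Nat.cast_zero] at hJ
    linarith [Real.exp_pos (γ * L - 1)]
  have hmhi : (m : ℝ) ≤ (lam + 1) * L ^ 2 := by nlinarith
  obtain ⟨k, hk⟩ : ∃ k : ℕ, k = ⌊u * lam * L⌋₊ := ⟨_, rfl⟩
  have hk1 : (k : ℝ) ≤ u * lam * L := by rw [hk]; exact Nat.floor_le (by positivity)
  have hk2 : u * lam * L ≤ k + 1 := by rw [hk]; exact (Nat.lt_floor_add_one _).le
  have h1 := hsome m k hm (by rw [abs_le]; constructor <;> linarith) Ω J A hS hJ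
  rw [← hc₀] at h1
  have hβ : ∀ j ∈ J, ((A j).card : ℝ) ≤ 3 / (2 * L) * Ω.card := by
    intro j hj
    have h2 := (a_half (K := 1) l1 hK0 le_rfl l5 (hS.dens j hj)).2
    rwa [div_le_iff₀ hq0] at h2
  have hV := var_min Ω hS.ne J hJne A (3 / (2 * L)) hS.sub hβ m
  have hV2 : (m : ℝ) * (3 / (2 * L)) * (Ω.card : ℝ) ^ m ≤ C₃ * L * (Ω.card : ℝ) ^ m := by
    refine mul_le_mul_of_nonneg_right ?_ (by positivity)
    rw [mul_div_assoc', div_le_iff₀ (by positivity), hC₃]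
    nlinarith
  have hb := boost Ω hS.ne m (fun w => -(J.inf' hJne fun j => (hits (A j) w : ℝ))) (C₃ * L) c₀ (-k) (τ * L) (τ * L)
    (hV.trans hV2) (by positivity) (by positivity) (by nlinarith) (by
      rw [mul_comm]
      refine h1.trans ?_
      have : (Smp Ω m).filter (fun w => ∃ j ∈ J, hits (A j) w = k) ⊆
          (Smp Ω m).filter fun w => -(k : ℝ) ≤ -(J.inf' hJne fun j => (hits (A j) w : ℝ)) := by
        intro w hw
        obtain ⟨h2, j, hj, h3⟩ := mem_filter.1 hw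
        refine mem_filter.2 ⟨h2, ?_⟩
        rw [← h3, neg_le_neg_iff]
        exact inf'_le (fun j => (hits (A j) w : ℝ)) hj
      exact_mod_cast card_le_card this)
  have hsub : (Smp Ω m).filter (fun w => ∀ j ∈ J, v * lam * L < (hits (A j) w : ℝ)) ⊆
      (Smp Ω m).filter fun w => -(J.inf' hJne fun j => (hits (A j) w : ℝ)) < -k - τ * L - τ * L := by
    intro w hw
    obtain ⟨h2, h3⟩ := mem_filter.1 hw
    refine mem_filter.2 ⟨h2, ?_⟩
    have h4 : k + τ * L + τ * L < J.inf' hJne fun j => (hits (A j) w : ℝ) := by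
      rw [lt_inf'_iff]
      intro j hj
      refine lt_of_le_of_lt ?_ (h3 j hj)
      have e : v * lam * L = u * lam * L + 4 * (τ * L) := by rw [hτ]; ring
      have : 0 < τ * L := by positivity
      linarith
    linarith
  have h2 : (((Smp Ω m).filter fun w => ∀ j ∈ J, v * lam * L < (hits (A j) w : ℝ)).card : ℝ) ≤
      ((Smp Ω m).filter fun w => -(J.inf' hJne fun j => (hits (A j) w : ℝ)) < -k - τ * L - τ * L).card := by
    exact_mod_cast card_le_card hsub
  refine h2.trans (hb.trans (le_of_eq ?_))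
  field_simp

end Pool.Agent.Run7.h880.RP
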