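import Mathlib
import Pool.Agent.Run7.h880.RP.Dim2a
import Pool.Agent.Run7.h880.RP.Fin

/-! Two independent random samples: points inside of the limit shape. -/

set_option autoImplicit false

namespace Pool.Agent.Run7.h880.RP

open Finset Filter
open Pool.Agent.Run7.h880.MK (Smp Smp_mem Smp_card hits hits_eq nohit)

/-- the variance on a product -/
lemma es_prod {α β : Type} (S : Finset α) (T : Finset β) (hS : S.Nonempty) (hT : T.Nonempty) (f : α → β → ℝ) :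
    ∑ a ∈ S, ∑ b ∈ T, f a b ^ 2 - (∑ a ∈ S, ∑ b ∈ T, f a b) ^ 2 / (S.card * T.card) ≤
      ∑ b ∈ T, (∑ a ∈ S, f a b ^ 2 - (∑ a ∈ S, f a b) ^ 2 / S.card) +
      ∑ a ∈ S, (∑ b ∈ T, f a b ^ 2 - (∑ b ∈ T, f a b) ^ 2 / T.card) := by
  have hs : (0 : ℝ) < S.card := by exact_mod_cast card_pos.2 hS
  have ht : (0 : ℝ) < T.card := by exact_mod_cast card_pos.2 hT
  obtain ⟨F, hF⟩ : ∃ F : β → ℝ, F = fun b => ∑ a ∈ S, f a b := ⟨_, rfl⟩
  have h1 : ∑ b ∈ T, F b ^ 2 - (∑ b ∈ T, F b) ^ 2 / T.card ≤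
      S.card * ∑ a ∈ S, (∑ b ∈ T, f a b ^ 2 - (∑ b ∈ T, f a b) ^ 2 / T.card) := by
    have h2 : ∀ G : β → ℝ, ∑ b ∈ T, G b ^ 2 - (∑ b ∈ T, G b) ^ 2 / T.card =
        1 / (2 * T.card) * ∑ y ∈ T, ∑ x ∈ T, (G y - G x) ^ 2 := by
      intro G
      rw [var_id]
      field_simp
    rw [h2]
    have h3 : ∀ y ∈ T, ∀ x ∈ T, (F y - F x) ^ 2 ≤ S.card * ∑ a ∈ S, (f a y - f a x) ^ 2 := by
      intro y _ x _
      rw [hF]
      simp only
      rw [← sum_sub_distrib]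
      exact sq_sum_le_card_mul_sum_sq
    have h4 : ∑ y ∈ T, ∑ x ∈ T, (F y - F x) ^ 2 ≤ ∑ y ∈ T, ∑ x ∈ T, S.card * ∑ a ∈ S, (f a y - f a x) ^ 2 :=
      sum_le_sum fun y hy => sum_le_sum fun x hx => h3 y hy x hx
    refine (mul_le_mul_of_nonneg_left h4 (by positivity)).trans (le_of_eq ?_)
    have h5 : ∑ a ∈ S, (∑ b ∈ T, f a b ^ 2 - (∑ b ∈ T, f a b) ^ 2 / T.card) =
        ∑ a ∈ S, 1 / (2 * (T.card : ℝ)) * ∑ y ∈ T, ∑ x ∈ T, (f a y - f a x) ^ 2 := sum_congr rfl fun a _ => h2 (f a)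
    rw [h5, ← mul_sum]
    have h6 : ∑ a ∈ S, ∑ y ∈ T, ∑ x ∈ T, (f a y - f a x) ^ 2 = ∑ y ∈ T, ∑ x ∈ T, ∑ a ∈ S, (f a y - f a x) ^ 2 := by
      rw [sum_comm]
      refine sum_congr rfl fun y _ => ?_
      rw [sum_comm]
    rw [h6]
    simp only [← mul_sum]
    ring
  have h2 : ∑ a ∈ S, ∑ b ∈ T, f a b ^ 2 = ∑ b ∈ T, ∑ a ∈ S, f a b ^ 2 := sum_comm
  have h3 : ∑ a ∈ S, ∑ b ∈ T, f a b = ∑ b ∈ T, F b := by rw [hF]; exact sum_comm
  rw [h2, h3, sum_sub_distrib]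
  have h4 : ∑ b ∈ T, (∑ a ∈ S, f a b) ^ 2 / (S.card : ℝ) = (∑ b ∈ T, F b ^ 2) / S.card := by
    rw [hF, sum_div]
  rw [h4]
  have h5 : (∑ b ∈ T, F b ^ 2) / S.card - (∑ b ∈ T, F b) ^ 2 / (S.card * T.card) ≤
      ∑ a ∈ S, (∑ b ∈ T, f a b ^ 2 - (∑ b ∈ T, f a b) ^ 2 / T.card) := by
    have e : (∑ b ∈ T, F b ^ 2) / S.card - (∑ b ∈ T, F b) ^ 2 / (S.card * T.card) =
        (∑ b ∈ T, F b ^ 2 - (∑ b ∈ T, F b) ^ 2 / T.card) / S.card := by field_simp
    rw [e, div_le_iff₀ hs, mul_comm]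
    exact h1
  linarith

/-- Chebyshev: from positive probability to probability near one -/
theorem boostS {α : Type} (S : Finset α) (hS : S.Nonempty) (f : α → ℝ) (V c₀ a s₀ s : ℝ)
    (hV : ∑ w ∈ S, f w ^ 2 - (∑ w ∈ S, f w) ^ 2 / (S.card : ℝ) ≤ V * S.card)
    (hs₀ : 0 < s₀) (hs : 0 < s) (hc : V < c₀ * s₀ ^ 2)
    (h : c₀ * (S.card : ℝ) ≤ (S.filter fun w => a ≤ f w).card) :
    ((S.filter fun w => f w < a - s₀ - s).card : ℝ) ≤ V / s ^ 2 * S.card := by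
  obtain ⟨Q, hQ⟩ : ∃ Q : ℝ, Q = (S.card : ℝ) := ⟨_, rfl⟩
  have hQ0 : 0 < Q := by rw [hQ]; exact_mod_cast card_pos.2 hS
  obtain ⟨W, hW⟩ : ∃ W : ℝ, W = ∑ w ∈ S, f w := ⟨_, rfl⟩
  rw [← hQ, ← hW] at hV
  rw [← hQ] at h ⊢
  have h1 : ∑ w ∈ S, (f w - W / Q) ^ 2 = ∑ w ∈ S, f w ^ 2 - W ^ 2 / Q := by
    have h2 : ∀ w ∈ S, (f w - W / Q) ^ 2 = f w ^ 2 - 2 * (W / Q) * f w + (W / Q) ^ 2 := fun w _ => by ring
    rw [sum_congr rfl h2, sum_add_distrib, sum_sub_distrib, ← mul_sum, sum_const, nsmul_eq_mul, ← hQ, ← hW]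
    field_simp
    ring
  rw [← h1] at hV
  have hsub : ∀ (p : α → Prop) [DecidablePred p] (t : ℝ), (∀ w, p w → t ≤ (f w - W / Q) ^ 2) →
      ((S.filter p).card : ℝ) * t ≤ V * Q := by
    intro p _ t hpt
    calc ((S.filter p).card : ℝ) * t = ∑ w ∈ S.filter p, t := by rw [sum_const, nsmul_eq_mul]
      _ ≤ ∑ w ∈ S.filter p, (f w - W / Q) ^ 2 := sum_le_sum fun w hw => hpt w (mem_filter.1 hw).2
      _ ≤ ∑ w ∈ S, (f w - W / Q) ^ 2 :=
          sum_le_sum_of_subset_of_nonneg (filter_subset _ _) fun _ _ _ => sq_nonneg _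
      _ ≤ V * Q := hV
  have h2 : a - s₀ ≤ W / Q := by
    by_contra hcon
    rw [not_le] at hcon
    have h3 := hsub (fun w => a ≤ f w) (s₀ ^ 2) (fun w hw => pow_le_pow_left₀ hs₀.le (by linarith) 2)
    have h4 := mul_le_mul_of_nonneg_right h (sq_nonneg s₀)
    have h5 : c₀ * s₀ ^ 2 * Q ≤ V * Q := by linarith
    have h6 := le_of_mul_le_mul_right h5 hQ0
    linarith
  have h3 := hsub (fun w => f w < a - s₀ - s) (s ^ 2) (fun w hw => by
    have h4 : s ≤ W / Q - f w := by linarith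
    calc s ^ 2 ≤ (W / Q - f w) ^ 2 := pow_le_pow_left₀ hs.le h4 2
      _ = _ := by ring)
  rw [div_mul_eq_mul_div, le_div_iff₀ (by positivity)]
  exact h3

/-- the mean number of hits -/
lemma sum_hits {ι : Type} [DecidableEq ι] (Ω A : Finset ι) (hΩ : Ω.Nonempty) (hA : A ⊆ Ω) (β : ℝ)
    (hβ : (A.card : ℝ) ≤ β * Ω.card) (m : ℕ) : ∑ w ∈ Smp Ω m, (hits A w : ℝ) ≤ m * β * (Ω.card : ℝ) ^ m := by
  have hq0 : (0 : ℝ) < Ω.card := by exact_mod_cast card_pos.2 hΩ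
  have h1 : ∀ l : Fin m, ∑ w ∈ Smp Ω m, (if w l ∈ A then (1 : ℝ) else 0) ≤ β * (Ω.card : ℝ) ^ m := by
    intro l
    have h2 := sym Ω m l (fun _ w' => if w' l ∈ A then (1 : ℝ) else 0)
    simp only [Function.update_self] at h2
    have h3 : ∑ w ∈ Smp Ω m, ∑ x ∈ Ω, (if x ∈ A then (1 : ℝ) else 0) ≤ (Ω.card : ℝ) ^ m * (β * Ω.card) := by
      have h8 : Ω.filter (fun x => x ∈ A) = A := by
        ext x
        rw [mem_filter]
        exact ⟨fun h => h.2, fun h => ⟨hA h, h⟩⟩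
      simp only [sum_boole, h8]
      rw [sum_const, Smp_card, nsmul_eq_mul, Nat.cast_pow]
      exact mul_le_mul_of_nonneg_left hβ (by positivity)
    rw [h2] at h3
    have h4 : ∑ w ∈ Smp Ω m, ∑ _x ∈ Ω, (if w l ∈ A then (1 : ℝ) else 0) =
        Ω.card * ∑ w ∈ Smp Ω m, (if w l ∈ A then (1 : ℝ) else 0) := by
      rw [mul_sum]
      refine sum_congr rfl fun w _ => ?_
      rw [sum_const, nsmul_eq_mul]
    rw [h4] at h3
    refine le_of_mul_le_mul_left (h3.trans (le_of_eq ?_)) hq0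
    ring
  have h2 : ∑ w ∈ Smp Ω m, (hits A w : ℝ) = ∑ l, ∑ w ∈ Smp Ω m, (if w l ∈ A then (1 : ℝ) else 0) := by
    rw [sum_comm]
    exact sum_congr rfl fun w _ => hits_eq A w
  rw [h2]
  refine (sum_le_sum fun l _ => h1 l).trans (le_of_eq ?_)
  rw [sum_const, card_univ, Fintype.card_fin, nsmul_eq_mul]
  ring

/-- the variance of a distance -/
theorem var_dist {ι κ : Type} [DecidableEq ι] (Ω : Finset ι) (hΩ : Ω.Nonempty) (J : Finset κ) (hJ : J.Nonempty)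
    (A : κ → Finset ι) (β X : ℝ) (hA : ∀ j ∈ J, A j ⊆ Ω) (hβ : ∀ j ∈ J, ((A j).card : ℝ) ≤ β * Ω.card)
    (r : κ → ℝ) (hr : ∀ j, 0 ≤ r j) (m : ℕ) :
    ∑ w ∈ Smp Ω m, (-(J.inf' hJ fun j => |(hits (A j) w : ℝ) - X| + r j)) ^ 2 -
      (∑ w ∈ Smp Ω m, (-(J.inf' hJ fun j => |(hits (A j) w : ℝ) - X| + r j))) ^ 2 / ((Smp Ω m).card : ℝ) ≤
      ∑ w ∈ Smp Ω m, 2 * (X + J.inf' hJ fun j => |(hits (A j) w : ℝ) - X| + r j) + 2 * m * β * (Ω.card : ℝ) ^ m := by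
  have hq0 : (0 : ℝ) < Ω.card := by exact_mod_cast card_pos.2 hΩ
  have hc : ((Smp Ω m).card : ℝ) = (Ω.card : ℝ) ^ m := by rw [Smp_card]; push_cast; rfl
  rw [hc]
  refine (es_pos Ω hΩ m fun w => -(J.inf' hJ fun j => |(hits (A j) w : ℝ) - X| + r j)).trans ?_
  rw [one_div, inv_mul_le_iff₀ hq0]
  have h0 : ∀ w ∈ Smp Ω m, ∑ l : Fin m, ∑ x ∈ Ω, (max (-(J.inf' hJ fun j => |(hits (A j) w : ℝ) - X| + r j) -
      -(J.inf' hJ fun j => |(hits (A j) (Function.update w l x) : ℝ) - X| + r j)) 0) ^ 2 ≤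
      Ω.card * (2 * (X + J.inf' hJ fun j => |(hits (A j) w : ℝ) - X| + r j)) + 2 * m * (β * Ω.card) := by
    intro w _
    obtain ⟨j, hj, hje⟩ := exists_mem_eq_inf' hJ fun j => |(hits (A j) w : ℝ) - X| + r j
    rw [hje]
    have h7 : ∀ l ∈ (univ : Finset (Fin m)), ∑ x ∈ Ω, (max (-(|(hits (A j) w : ℝ) - X| + r j) -
        -(J.inf' hJ fun j => |(hits (A j) (Function.update w l x) : ℝ) - X| + r j)) 0) ^ 2 ≤
        Ω.card * (2 * (if w l ∈ A j then (1 : ℝ) else 0)) + 2 * (β * Ω.card) := by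
      intro l _
      have h1 : ∀ x ∈ Ω, (max (-(|(hits (A j) w : ℝ) - X| + r j) -
          -(J.inf' hJ fun j => |(hits (A j) (Function.update w l x) : ℝ) - X| + r j)) 0) ^ 2 ≤
          2 * (if w l ∈ A j then (1 : ℝ) else 0) + 2 * (if x ∈ A j then (1 : ℝ) else 0) := by
        intro x _
        have h2 : (J.inf' hJ fun j => |(hits (A j) (Function.update w l x) : ℝ) - X| + r j) ≤
            |(hits (A j) (Function.update w l x) : ℝ) - X| + r j :=
          inf'_le (fun j => |(hits (A j) (Function.update w l x) : ℝ) - X| + r j) hj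
        have h3 := upd_hits (A j) w l x
        have h4 : |(hits (A j) (Function.update w l x) : ℝ) - X| - |(hits (A j) w : ℝ) - X| ≤
            |(hits (A j) (Function.update w l x) : ℝ) - hits (A j) w| := by
          have := abs_sub_abs_le_abs_sub ((hits (A j) (Function.update w l x) : ℝ) - X) ((hits (A j) w : ℝ) - X)
          refine this.trans (le_of_eq ?_)
          congr 1
          ring
        obtain ⟨p, hp⟩ : ∃ p : ℝ, p = (if w l ∈ A j then (1 : ℝ) else 0) := ⟨_, rfl⟩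
        obtain ⟨o, ho⟩ : ∃ o : ℝ, o = (if x ∈ A j then (1 : ℝ) else 0) := ⟨_, rfl⟩
        have hp' : p = 0 ∨ p = 1 := by rw [hp]; split_ifs <;> simp
        have ho' : o = 0 ∨ o = 1 := by rw [ho]; split_ifs <;> simp
        rw [← hp, ← ho] at h3 ⊢
        have h5 : |(hits (A j) (Function.update w l x) : ℝ) - hits (A j) w| ≤ p + o := by
          have e : (hits (A j) (Function.update w l x) : ℝ) - hits (A j) w = o - p := by linarith
          rw [e, abs_le]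
          rcases hp' with h | h <;> rcases ho' with h' | h' <;> rw [h, h'] <;> norm_num
        have h6 : max (-(|(hits (A j) w : ℝ) - X| + r j) -
            -(J.inf' hJ fun j => |(hits (A j) (Function.update w l x) : ℝ) - X| + r j)) 0 ≤ p + o := by
          refine max_le (by linarith) ?_
          rcases hp' with h | h <;> rcases ho' with h' | h' <;> rw [h, h'] <;> norm_num
        refine (pow_le_pow_left₀ (le_max_right _ _) h6 2).trans ?_
        rcases hp' with h | h <;> rcases ho' with h' | h' <;> rw [h, h'] <;> norm_num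
      refine (sum_le_sum h1).trans ?_
      rw [sum_add_distrib, sum_const, ← mul_sum, sum_boole, nsmul_eq_mul]
      have h8 : Ω.filter (fun x => x ∈ A j) = A j := by
        ext x
        rw [mem_filter]
        exact ⟨fun h => h.2, fun h => ⟨hA j hj h, h⟩⟩
      rw [h8]
      have := hβ j hj
      linarith
    refine (sum_le_sum h7).trans ?_
    rw [sum_add_distrib, sum_const, card_univ, Fintype.card_fin, nsmul_eq_mul, ← mul_sum, ← mul_sum, ← hits_eq]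
    have h9 : (hits (A j) w : ℝ) ≤ X + (|(hits (A j) w : ℝ) - X| + r j) := by
      have := le_abs_self ((hits (A j) w : ℝ) - X)
      have := hr j
      linarith
    have := mul_le_mul_of_nonneg_left (mul_le_mul_of_nonneg_left h9 (by norm_num : (0 : ℝ) ≤ 2)) hq0.le
    linarith
  refine (sum_le_sum h0).trans (le_of_eq ?_)
  rw [sum_add_distrib, ← mul_sum, sum_const, Smp_card, nsmul_eq_mul]
  push_cast
  ring

/-- with positive probability some index has exactly `k` and `l` hits -/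
theorem some_kl (γ lam x y K₀ : ℝ) (hlam : 0 < lam) (hx : 0 < x) (hy : 0 < y) (hK0 : 0 ≤ K₀)
    (hγ : lam * (hf x + hf y) < γ) : ∃ c : ℝ, 0 ≤ c ∧ ∀ K₂ : ℝ, 0 ≤ K₂ → ∃ c₀ : ℝ, 0 < c₀ ∧
    ∀ᶠ L : ℝ in atTop, ∀ (m k l : ℕ), |(m : ℝ) - lam * L ^ 2| ≤ L → |(k : ℝ) - x * lam * L| ≤ 1 →
    |(l : ℝ) - y * lam * L| ≤ 1 →
    ∀ {ι κ : Type} [DecidableEq ι] [DecidableEq κ] (Ω : Finset ι) (J : Finset κ) (A B : κ → Finset ι),
    Sys Ω J A L K₀ c K₂ → Sys Ω J B L K₀ c K₂ → Real.exp (γ * L) ≤ J.card →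
    c₀ * ((Smp Ω m ×ˢ Smp Ω m).card : ℝ) ≤
      (((Smp Ω m ×ˢ Smp Ω m).filter fun p => ∃ j ∈ J, hits (A j) p.1 = k ∧ hits (B j) p.2 = l).card : ℝ) := by
  classical
  obtain ⟨τ, hτ⟩ : ∃ τ, τ = (γ - lam * (hf x + hf y)) / 2 := ⟨_, rfl⟩
  have hτ0 : 0 < τ := by rw [hτ]; linarith
  obtain ⟨c1, hc1⟩ : ∃ c1, c1 = 10 * Kc lam x * (K₀ + 1) := ⟨_, rfl⟩
  obtain ⟨c2, hc2⟩ : ∃ c2, c2 = 10 * Kc lam y * (K₀ + 1) := ⟨_, rfl⟩
  have hKx : 1 ≤ Kc lam x := by
    unfold Kc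
    have h1 : 0 < 2 * (x * lam + 1) ^ 2 / lam := by positivity
    have h2 : 0 < x * lam := by positivity
    linarith
  have hKy : 1 ≤ Kc lam y := by
    unfold Kc
    have h1 : 0 < 2 * (y * lam + 1) ^ 2 / lam := by positivity
    have h2 : 0 < y * lam := by positivity
    linarith
  have hc10 : 0 ≤ c1 := by rw [hc1]; positivity
  have hc20 : 0 ≤ c2 := by rw [hc2]; positivity
  refine ⟨2 * max c1 c2, by positivity, fun K₂ hK2 => ?_⟩
  refine ⟨Real.exp (-(2 * (c1 + c2))) / (Real.exp (c1 + c2) + 2 * K₂), by positivity, ?_⟩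
  filter_upwards [sizes lam x K₀ τ hlam hx hτ0, sizes lam y K₀ τ hlam hy hτ0]
    with L s1 s2 m k l hm hk hl ι κ _ _ Ω J A B hSA hSB hJ
  obtain ⟨l4, lK, a1, a2, a3, a4, a5, a6⟩ := s1 m k hm hk
  obtain ⟨-, -, b1, b2, b3, -, b5, b6⟩ := s2 m l hm hl
  have hL0 : 0 < L := by linarith
  obtain ⟨e1, e2, ρ, hρ0, hρs, hρ⟩ := ex_all hSA l4 hK0 hKx lK a1 a2 a3 a4 a5
  obtain ⟨f1, f2, ρ', hρ0', hρs', hρ'⟩ := ex_all hSB l4 hK0 hKy lK b1 b2 b3 a4 b5
  rw [← hc1] at e1 e2 hρ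
  rw [← hc2] at f1 f2 hρ'
  have hQ : ((Smp Ω m ×ˢ Smp Ω m).card : ℝ) = (Ω.card : ℝ) ^ m * (Ω.card : ℝ) ^ m := by
    rw [card_product, Smp_card]
    push_cast
    rfl
  have hPk := PP_nonneg hL0 m k
  have hPl := PP_nonneg hL0 m l
  have hne : (Smp Ω m ×ˢ Smp Ω m).Nonempty := by
    obtain ⟨o, ho⟩ := hSA.ne
    exact ⟨(fun _ => o, fun _ => o), mem_product.2 ⟨Smp_mem.2 fun _ => ho, Smp_mem.2 fun _ => ho⟩⟩
  have hfil : ∀ j, (Smp Ω m ×ˢ Smp Ω m).filter (fun p => hits (A j) p.1 = k ∧ hits (B j) p.2 = l) =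
      (Smp Ω m).filter (fun w => hits (A j) w = k) ×ˢ (Smp Ω m).filter (fun w => hits (B j) w = l) := fun j =>
    filter_product (fun w => hits (A j) w = k) (fun w => hits (B j) w = l)
  have hfil2 : ∀ i j, (Smp Ω m ×ˢ Smp Ω m).filter (fun p => (hits (A i) p.1 = k ∧ hits (B i) p.2 = l) ∧
      (hits (A j) p.1 = k ∧ hits (B j) p.2 = l)) =
      (Smp Ω m).filter (fun w => hits (A i) w = k ∧ hits (A j) w = k) ×ˢ
      (Smp Ω m).filter (fun w => hits (B i) w = l ∧ hits (B j) w = l) := by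
    intro i j
    ext p
    simp only [mem_filter, mem_product]
    tauto
  refine le_trans (le_of_eq ?_) (csz (Smp Ω m ×ˢ Smp Ω m) J (fun j p => hits (A j) p.1 = k ∧ hits (B j) p.2 = l)
    (PP L m k * PP L m l) (c1 + c2) (2 * K₂) (fun i j => Real.exp (c1 * (1 + ρ i j)) * Real.exp (c2 * (1 + ρ' i j)))
    (by positivity) ?_ ?_ ?_ ?_ (by positivity) ?_ hne)
  · ring
  · intro j hj
    rw [hQ, hfil, card_product, Nat.cast_mul]
    refine le_trans (le_of_eq ?_) (mul_le_mul (e1 j hj) (f1 j hj) (by positivity) (Nat.cast_nonneg _))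
    have e : Real.exp (-(c1 + c2)) = Real.exp (-c1) * Real.exp (-c2) := by rw [← Real.exp_add]; congr 1; ring
    rw [e]
    ring
  · intro j hj
    rw [hQ, hfil, card_product, Nat.cast_mul]
    refine (mul_le_mul (e2 j hj) (f2 j hj) (Nat.cast_nonneg _) (by positivity)).trans (le_of_eq ?_)
    rw [Real.exp_add]
    ring
  · intro i hi j hj hij
    rw [hQ, hfil2, card_product, Nat.cast_mul]
    refine (mul_le_mul (hρ i hi j hj hij) (hρ' i hi j hj hij) (Nat.cast_nonneg _) (by positivity)).trans (le_of_eq ?_)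
    ring
  · have h1 : ∀ i ∈ J, ∀ j ∈ J, (if i = j then 0 else Real.exp (c1 * (1 + ρ i j)) * Real.exp (c2 * (1 + ρ' i j))) ≤
        (if i = j then 0 else Real.exp (2 * max c1 c2 * (1 + ρ i j))) +
        (if i = j then 0 else Real.exp (2 * max c1 c2 * (1 + ρ' i j))) := by
      intro i _ j _
      split_ifs
      · simp
      · rw [← Real.exp_add]
        have g1 := hρ0 i j
        have g2 := hρ0' i j
        have m1 := le_max_left c1 c2
        have m2 := le_max_right c1 c2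
        have k1 : c1 * (1 + ρ i j) ≤ max c1 c2 * (1 + ρ i j) := mul_le_mul_of_nonneg_right m1 (by linarith)
        have k2 : c2 * (1 + ρ' i j) ≤ max c1 c2 * (1 + ρ' i j) := mul_le_mul_of_nonneg_right m2 (by linarith)
        rcases le_total (max c1 c2 * (1 + ρ i j)) (max c1 c2 * (1 + ρ' i j)) with h | h
        · have := Real.exp_le_exp.2 (by linarith : c1 * (1 + ρ i j) + c2 * (1 + ρ' i j) ≤ 2 * max c1 c2 * (1 + ρ' i j))
          have := Real.exp_pos (2 * max c1 c2 * (1 + ρ i j))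
          linarith
        · have := Real.exp_le_exp.2 (by linarith : c1 * (1 + ρ i j) + c2 * (1 + ρ' i j) ≤ 2 * max c1 c2 * (1 + ρ i j))
          have := Real.exp_pos (2 * max c1 c2 * (1 + ρ' i j))
          linarith
    refine (sum_le_sum fun i hi => sum_le_sum fun j hj => h1 i hi j hj).trans ?_
    simp only [sum_add_distrib]
    linarith
  · calc (1 : ℝ) = Real.exp (γ * L) * (Real.exp (-((lam * hf x + τ) * L)) * Real.exp (-((lam * hf y + τ) * L))) := by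
          rw [← Real.exp_add, ← Real.exp_add, ← Real.exp_zero]
          congr 1
          rw [hτ]
          ring
      _ ≤ _ := mul_le_mul hJ (mul_le_mul a6 b6 (Real.exp_pos _).le hPk) (by positivity) (Nat.cast_nonneg _)

end Pool.Agent.Run7.h880.RP
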