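import Mathlib
import Pool.Agent.Run7.h880.RP.Fin

/-! The constants of Cramer's model and the extreme numbers of hits of a random sample. -/

set_option autoImplicit false

namespace Pool.Agent.Run7.h880.RP

open Finset Filter
open Pool.Agent.Run7.h880.MK (Smp Smp_mem Smp_card hits hits_eq nohit)

/-- the upper constant: the least `u ≥ 1` with `lam (1 - u + u log u) ≥ 1` -/
noncomputable def cp (lam : ℝ) : ℝ := sInf {u : ℝ | 1 ≤ u ∧ 1 ≤ lam * hf u}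

/-- the lower constant: the largest `l ≤ 1` with `lam (1 - l + l log l) ≥ 1`, and `0` if there is none -/
noncomputable def cm (lam : ℝ) : ℝ := sSup {l : ℝ | 0 ≤ l ∧ l ≤ 1 ∧ 1 ≤ lam * hf l}

lemma hf_deriv {x : ℝ} (hx : x ≠ 0) : HasDerivAt hf (Real.log x) x := by
  have h1 := (Real.hasDerivAt_mul_log hx)
  have h2 := ((hasDerivAt_const x (1 : ℝ)).sub (hasDerivAt_id x)).add h1
  have e : (0 : ℝ) - 1 + (Real.log x + 1) = Real.log x := by ring
  rw [e] at h2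
  exact h2

lemma hf_mono : StrictMonoOn hf (Set.Ici 1) := by
  refine strictMonoOn_of_deriv_pos (convex_Ici 1) hf_continuous.continuousOn ?_
  intro x hx
  rw [interior_Ici] at hx
  have hx : 1 < x := hx
  rw [(hf_deriv (by linarith : x ≠ 0)).deriv]
  exact Real.log_pos hx

lemma hf_anti : StrictAntiOn hf (Set.Icc 0 1) := by
  refine strictAntiOn_of_deriv_neg (convex_Icc 0 1) hf_continuous.continuousOn ?_
  intro x hx
  rw [interior_Icc] at hx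
  obtain ⟨h0, h1⟩ := hx
  rw [(hf_deriv h0.ne').deriv]
  exact Real.log_neg h0 h1

lemma hf_one : hf 1 = 0 := by simp [hf]

lemma cp_set_ne {lam : ℝ} (h : 0 < lam) : {u : ℝ | 1 ≤ u ∧ 1 ≤ lam * hf u}.Nonempty := by
  obtain ⟨u, h1, h2⟩ := hf_large (1 / lam)
  refine ⟨u, h1, ?_⟩
  rw [div_le_iff₀ h] at h2
  linarith

lemma cp_bdd (lam : ℝ) : BddBelow {u : ℝ | 1 ≤ u ∧ 1 ≤ lam * hf u} := ⟨1, fun _ h => h.1⟩

lemma cm_bdd (lam : ℝ) : BddAbove {l : ℝ | 0 ≤ l ∧ l ≤ 1 ∧ 1 ≤ lam * hf l} := ⟨1, fun _ h => h.2.1⟩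

lemma cp_gt {lam u : ℝ} (h : 0 < lam) (hu : cp lam < u) : 1 < lam * hf u := by
  obtain ⟨v, ⟨h1, h2⟩, h3⟩ := exists_lt_of_csInf_lt (cp_set_ne h) hu
  have h4 := hf_mono (Set.mem_Ici.2 h1) (Set.mem_Ici.2 (h1.trans h3.le)) h3
  have := mul_lt_mul_of_pos_left h4 h
  linarith

lemma cp_lt {lam u : ℝ} (h1 : 1 ≤ u) (hu : u < cp lam) : lam * hf u < 1 := by
  by_contra hcon
  have := csInf_le (cp_bdd lam) (show u ∈ {u : ℝ | 1 ≤ u ∧ 1 ≤ lam * hf u} from ⟨h1, not_lt.1 hcon⟩)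
  unfold cp at hu
  linarith

lemma one_lt_cp {lam : ℝ} (h : 0 < lam) : 1 < cp lam := by
  have h1 : ContinuousAt (fun x => lam * hf x) 1 := (continuous_const.mul hf_continuous).continuousAt
  obtain ⟨δ, hδ0, hδ⟩ := Metric.continuousAt_iff.1 h1 1 one_pos
  have h2 : 1 + δ ≤ cp lam := by
    refine le_csInf (cp_set_ne h) fun u hu => ?_
    by_contra hcon
    rw [not_le] at hcon
    have h3 := hδ (x := u) (by rw [Real.dist_eq, abs_lt]; constructor <;> linarith [hu.1])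
    rw [Real.dist_eq, hf_one, mul_zero, sub_zero] at h3
    have := (abs_lt.1 h3).2
    linarith [hu.2]
  linarith

lemma cm_nonneg (lam : ℝ) : 0 ≤ cm lam := Real.sSup_nonneg fun _ h => h.1

lemma cm_gt {lam l : ℝ} (h : 0 < lam) (hl0 : 0 ≤ l) (hl : l < cm lam) : 1 < lam * hf l := by
  have hne : {l : ℝ | 0 ≤ l ∧ l ≤ 1 ∧ 1 ≤ lam * hf l}.Nonempty := by
    rw [Set.nonempty_iff_ne_empty]
    intro h0
    unfold cm at hl
    rw [h0, Real.sSup_empty] at hl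
    linarith
  obtain ⟨v, ⟨h1, h2, h3⟩, h4⟩ := exists_lt_of_lt_csSup hne hl
  have h5 := hf_anti (Set.mem_Icc.2 ⟨hl0, h4.le.trans h2⟩) (Set.mem_Icc.2 ⟨h1, h2⟩) h4
  have := mul_lt_mul_of_pos_left h5 h
  linarith

lemma cm_lt {lam l : ℝ} (h1 : l ≤ 1) (hl : cm lam < l) : lam * hf l < 1 := by
  by_contra hcon
  have := le_csSup (cm_bdd lam) (show l ∈ {l : ℝ | 0 ≤ l ∧ l ≤ 1 ∧ 1 ≤ lam * hf l} from
    ⟨(cm_nonneg lam).trans hl.le, h1, not_lt.1 hcon⟩)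
  unfold cm at hl
  linarith

lemma cm_lt_one {lam : ℝ} : cm lam < 1 := by
  have h1 : ContinuousAt (fun x => lam * hf x) 1 := (continuous_const.mul hf_continuous).continuousAt
  obtain ⟨δ, hδ0, hδ⟩ := Metric.continuousAt_iff.1 h1 1 one_pos
  have h2 : cm lam ≤ max (1 - δ) 0 := by
    refine Real.sSup_le ?_ (le_max_right _ _)
    intro l hl
    by_contra hcon
    rw [not_le, max_lt_iff] at hcon
    have h3 := hδ (x := l) (by rw [Real.dist_eq, abs_lt]; constructor <;> linarith [hl.2.1])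
    rw [Real.dist_eq, hf_one, mul_zero, sub_zero] at h3
    have := (abs_lt.1 h3).2
    linarith [hl.2.2]
  refine h2.trans_lt (max_lt ?_ ?_) <;> linarith

/-- both constants tend to `1` -/
lemma cp_tendsto (δ : ℝ) (hδ : 0 < δ) : ∃ l0 : ℝ, 0 < l0 ∧ ∀ lam : ℝ, l0 ≤ lam → cp lam ≤ 1 + δ := by
  have h1 : 0 < hf (1 + δ) := by
    have := hf_mono (Set.mem_Ici.2 le_rfl) (Set.mem_Ici.2 (by linarith : (1 : ℝ) ≤ 1 + δ)) (by linarith)
    rwa [hf_one] at this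
  refine ⟨1 / hf (1 + δ), by positivity, fun lam hl => ?_⟩
  refine csInf_le (cp_bdd lam) ⟨by linarith, ?_⟩
  rw [div_le_iff₀ h1] at hl
  exact hl

lemma cm_tendsto (δ : ℝ) (hδ : 0 < δ) : ∃ l0 : ℝ, 0 < l0 ∧ ∀ lam : ℝ, l0 ≤ lam → 1 - δ ≤ cm lam := by
  obtain ⟨t, ht⟩ : ∃ t, t = min δ 1 := ⟨_, rfl⟩
  have ht0 : 0 < t := by rw [ht]; exact lt_min hδ one_pos
  have ht1 : t ≤ 1 := by rw [ht]; exact min_le_right _ _
  have ht2 : t ≤ δ := by rw [ht]; exact min_le_left _ _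
  have h1 : 0 < hf (1 - t) := by
    have := hf_anti (Set.mem_Icc.2 ⟨by linarith, by linarith⟩ : (1 - t) ∈ Set.Icc (0 : ℝ) 1)
      (Set.mem_Icc.2 ⟨zero_le_one, le_rfl⟩) (by linarith : 1 - t < 1)
    rwa [hf_one] at this
  refine ⟨1 / hf (1 - t), by positivity, fun lam hl => ?_⟩
  have h2 : 1 - t ≤ cm lam := by
    refine le_csSup (cm_bdd lam) ⟨by linarith, by linarith, ?_⟩
    rw [div_le_iff₀ h1] at hl
    exact hl
  linarith

/-- the extreme numbers of hits are as in Cramer's model, up to `ε` -/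
def Extreme {ι κ : Type} [DecidableEq ι] (J : Finset κ) (A : κ → Finset ι) (μ up lo ε : ℝ) {m : ℕ} (w : Fin m → ι) : Prop :=
  (∀ j ∈ J, (hits (A j) w : ℝ) ≤ (up + ε) * μ) ∧ (∃ j ∈ J, (up - ε) * μ ≤ (hits (A j) w : ℝ)) ∧
  (∀ j ∈ J, (lo - ε) * μ ≤ (hits (A j) w : ℝ)) ∧ ∃ j ∈ J, (hits (A j) w : ℝ) ≤ (lo + ε) * μ

/-- **the extreme numbers of hits** -/
theorem extremes (γ lam ε K₀ : ℝ) (hγ : 0 < γ) (hlam : 0 < lam) (hε : 0 < ε) (hK0 : 0 ≤ K₀) :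
    ∃ c : ℝ, ∀ K₂ : ℝ, 0 ≤ K₂ → ∃ C : ℝ, 0 < C ∧ ∀ᶠ L : ℝ in atTop, ∀ (m : ℕ), |(m : ℝ) - lam * L ^ 2| ≤ L →
    ∀ {ι κ : Type} [DecidableEq ι] [DecidableEq κ] (Ω : Finset ι) (J : Finset κ) (A : κ → Finset ι),
    Sys Ω J A L K₀ c K₂ → Real.exp (γ * L - 1) ≤ J.card → (J.card : ℝ) ≤ Real.exp (γ * L + 1) →
    ∀ (P : (Fin m → ι) → Prop) [DecidablePred P], (∀ w, P w → ¬ Extreme J A (lam * L) (cp (lam / γ)) (cm (lam / γ)) ε w) →
    (((Smp Ω m).filter P).card : ℝ) ≤ C / L * (Ω.card : ℝ) ^ m := by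
  classical
  have hlg : 0 < lam / γ := by positivity
  obtain ⟨a, ha⟩ : ∃ a, a = cp (lam / γ) := ⟨_, rfl⟩
  obtain ⟨b, hb⟩ : ∃ b, b = cm (lam / γ) := ⟨_, rfl⟩
  have ha1 : 1 < a := by rw [ha]; exact one_lt_cp hlg
  have hb0 : 0 ≤ b := by rw [hb]; exact cm_nonneg _
  have hb1 : b < 1 := by rw [hb]; exact cm_lt_one
  have hconv : ∀ x : ℝ, (lam / γ * hf x < 1 → lam * hf x < γ) ∧ (1 < lam / γ * hf x → γ < lam * hf x) := by
    intro x
    have e : lam / γ * hf x = lam * hf x / γ := by ring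
    rw [e]
    constructor
    · intro h
      rwa [div_lt_one hγ] at h
    · intro h
      rwa [one_lt_div hγ] at h
  -- the parameters
  obtain ⟨u1, hu11, hu12, hu13⟩ : ∃ u1, 1 ≤ u1 ∧ a - ε < u1 ∧ u1 < a := by
    refine ⟨max 1 (a - ε / 2), le_max_left _ _, ?_, max_lt ha1 (by linarith)⟩
    exact lt_of_lt_of_le (by linarith) (le_max_right _ _)
  obtain ⟨u2, hu21, hu22, hu23⟩ : ∃ u2, b < u2 ∧ u2 < 1 ∧ u2 < b + ε := by
    obtain ⟨u2, h1, h2⟩ := exists_between (show b < min 1 (b + ε) from lt_min hb1 (by linarith))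
    exact ⟨u2, h1, h2.trans_le (min_le_left _ _), h2.trans_le (min_le_right _ _)⟩
  have hu20 : 0 < u2 := by linarith
  have g1 : lam * hf u1 < γ := (hconv u1).1 (cp_lt hu11 (by rw [← ha]; exact hu13))
  have g2 : lam * hf u2 < γ := (hconv u2).1 (cm_lt hu22.le (by rw [← hb]; exact hu21))
  obtain ⟨c1, hc1, h1⟩ := max_hi γ lam (a + ε) K₀ hlam (by linarith) hK0
    ((hconv _).2 (cp_gt hlg (by rw [← ha]; linarith)))
  obtain ⟨c, hc⟩ : ∃ c, c = max (10 * Kc lam u1 * (K₀ + 1)) (10 * Kc lam u2 * (K₀ + 1)) := ⟨_, rfl⟩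
  refine ⟨c, fun K₂ hK2 => ?_⟩
  obtain ⟨C3, hC3, h3⟩ := max_lo γ lam u1 (max (a - ε) (1 / 2)) K₀ K₂ (γ + 1) hlam
    (lt_of_lt_of_le (by norm_num) (le_max_right _ _)) (max_lt hu12 (by linarith)) hK0 hK2 g1
  obtain ⟨C4, hC4, h4⟩ := min_hi γ lam u2 (b + ε) K₀ K₂ hlam hu20 hu23 hK0 hK2 g2
  have h2 : ∃ c2 : ℝ, 0 < c2 ∧ ∀ᶠ L : ℝ in atTop, ∀ (m : ℕ), |(m : ℝ) - lam * L ^ 2| ≤ L →
      ∀ {ι κ : Type} [DecidableEq ι] [DecidableEq κ] (Ω : Finset ι) (J : Finset κ) (A : κ → Finset ι) (c' K₂ : ℝ),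
      Sys Ω J A L K₀ c' K₂ → (J.card : ℝ) ≤ Real.exp (γ * L + 1) →
      (((Smp Ω m).filter fun w => ∃ j ∈ J, (hits (A j) w : ℝ) < (b - ε) * lam * L).card : ℝ) ≤
        Real.exp (-(c2 * L)) * (Ω.card : ℝ) ^ m := by
    rcases lt_or_ge (b - ε) 0 with hneg | hpos
    · refine ⟨1, one_pos, ?_⟩
      filter_upwards [eventually_gt_atTop 0] with L hL m hm ι κ _ _ Ω J A c' K₂ hS hJ
      rw [filter_false_of_mem, card_empty, Nat.cast_zero]
      · positivity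
      · rintro w _ ⟨j, _, h5⟩
        have h6 : (0 : ℝ) ≤ hits (A j) w := Nat.cast_nonneg _
        have h7 : (b - ε) * lam * L < 0 := by
          have : (b - ε) * lam < 0 := mul_neg_of_neg_of_pos hneg hlam
          exact mul_neg_of_neg_of_pos this hL
        linarith
    · obtain ⟨c2, hc2, h5⟩ := min_lo γ lam (b - ε) K₀ hlam hpos (by linarith) hK0
        ((hconv _).2 (cm_gt hlg hpos (by rw [← hb]; linarith)))
      refine ⟨c2, hc2, ?_⟩
      filter_upwards [h5] with L h6 m hm ι κ _ _ Ω J A c' K₂ hS hJ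
      refine le_trans ?_ (h6 m hm Ω J A c' K₂ hS hJ)
      refine Nat.cast_le.2 (card_le_card fun w hw => ?_)
      obtain ⟨h7, j, hj, h8⟩ := mem_filter.1 hw
      exact mem_filter.2 ⟨h7, j, hj, h8.le⟩
  obtain ⟨c2, hc2, h2⟩ := h2
  refine ⟨C3 + C4 + 1 / c1 + 1 / c2, by positivity, ?_⟩
  filter_upwards [h1, h2, h3, h4, eventually_ge_atTop 1] with L k1 k2 k3 k4 l1 m hm ι κ _ _ Ω J A hS hJ1 hJ2 P _ hP
  have hL0 : 0 < L := by linarith
  have hq : (0 : ℝ) ≤ (Ω.card : ℝ) ^ m := by positivity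
  have hSle : ∀ c' : ℝ, c' ≤ c → Sys Ω J A L K₀ c' K₂ := by
    intro c' hc'
    obtain ⟨ρ, hρ0, hρ, hρs⟩ := hS.two
    refine ⟨hS.ne, hS.sub, hS.dens, ρ, hρ0, hρ, le_trans ?_ hρs⟩
    refine sum_le_sum fun i _ => sum_le_sum fun j _ => ?_
    split_ifs
    · exact le_rfl
    · refine Real.exp_le_exp.2 (mul_le_mul_of_nonneg_right hc' ?_)
      linarith [hρ0 i j]
  have hexp : ∀ x : ℝ, 0 < x → Real.exp (-(x * L)) ≤ 1 / x / L := by
    intro x hx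
    rw [Real.exp_neg, div_div, one_div]
    refine inv_anti₀ (by positivity) ?_
    have := Real.add_one_le_exp (x * L)
    linarith
  have hsub : (Smp Ω m).filter P ⊆
      ((Smp Ω m).filter fun w => ∃ j ∈ J, (a + ε) * lam * L ≤ hits (A j) w) ∪
      (((Smp Ω m).filter fun w => ∃ j ∈ J, (hits (A j) w : ℝ) < (b - ε) * lam * L) ∪
      (((Smp Ω m).filter fun w => ∀ j ∈ J, (hits (A j) w : ℝ) < max (a - ε) (1 / 2) * lam * L) ∪
      ((Smp Ω m).filter fun w => ∀ j ∈ J, (b + ε) * lam * L < (hits (A j) w : ℝ)))) := by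
    intro w hw
    obtain ⟨hw1, hw2⟩ := mem_filter.1 hw
    rw [mem_union, mem_union, mem_union, mem_filter, mem_filter, mem_filter, mem_filter]
    by_contra hcon
    push Not at hcon
    obtain ⟨e1, e2, e3, e4⟩ := hcon
    obtain ⟨j3, hj3, e3⟩ := e3 hw1
    obtain ⟨j4, hj4, e4⟩ := e4 hw1
    refine hP w hw2 ⟨fun j hj => ?_, ⟨j3, hj3, ?_⟩, fun j hj => ?_, ⟨j4, hj4, ?_⟩⟩
    · rw [← ha, ← mul_assoc]
      exact (e1 hw1 j hj).le
    · rw [← ha]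
      refine le_trans ?_ e3
      rw [mul_assoc]
      exact mul_le_mul_of_nonneg_right (le_max_left _ _) (by positivity)
    · rw [← hb, ← mul_assoc]
      exact e2 hw1 j hj
    · rw [← hb, ← mul_assoc]
      exact e4
  have t1 := k1 m hm Ω J A c K₂ hS hJ2
  have t2 := k2 m hm Ω J A c K₂ hS hJ2
  have t3 := k3 m hm Ω J A (hSle _ (by rw [hc]; exact le_max_left _ _)) hJ1
    (hJ2.trans (Real.exp_le_exp.2 (by nlinarith)))
  have t4 := k4 m hm Ω J A (hSle _ (by rw [hc]; exact le_max_right _ _)) hJ1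
  have t1' := t1.trans (mul_le_mul_of_nonneg_right (hexp c1 hc1) hq)
  have t2' := t2.trans (mul_le_mul_of_nonneg_right (hexp c2 hc2) hq)
  have hcard : (((Smp Ω m).filter P).card : ℝ) ≤
      ((Smp Ω m).filter fun w => ∃ j ∈ J, (a + ε) * lam * L ≤ hits (A j) w).card +
      (((Smp Ω m).filter fun w => ∃ j ∈ J, (hits (A j) w : ℝ) < (b - ε) * lam * L).card +
      (((Smp Ω m).filter fun w => ∀ j ∈ J, (hits (A j) w : ℝ) < max (a - ε) (1 / 2) * lam * L).card +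
      ((Smp Ω m).filter fun w => ∀ j ∈ J, (b + ε) * lam * L < (hits (A j) w : ℝ)).card)) := by
    have h5 := (card_le_card hsub).trans ((card_union_le _ _).trans (Nat.add_le_add_left ((card_union_le _ _).trans
      (Nat.add_le_add_left (card_union_le _ _) _)) _))
    exact_mod_cast h5
  refine hcard.trans ?_
  have e : (C3 + C4 + 1 / c1 + 1 / c2) / L * (Ω.card : ℝ) ^ m = 1 / c1 / L * (Ω.card : ℝ) ^ m +
      (1 / c2 / L * (Ω.card : ℝ) ^ m + (C3 / L * (Ω.card : ℝ) ^ m + C4 / L * (Ω.card : ℝ) ^ m)) := by ring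
  rw [e]
  linarith

end Pool.Agent.Run7.h880.RP
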