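import Mathlib
import Pool.Agent.Run7.h880.RP.Ext

/-! Random samples: the law of large numbers for long samples, and the constants for small `lam`. -/

set_option autoImplicit false

namespace Pool.Agent.Run7.h880.RP

open Finset Filter
open Pool.Agent.Run7.h880.MK (Smp Smp_mem Smp_card hits hits_eq nohit)

/-- long samples: every set has `(1 ± ε) m / L` hits -/
theorem big (ε K₀ G₀ : ℝ) (hε : 0 < ε) (hK0 : 0 ≤ K₀) : ∃ lam₀ : ℝ, 0 < lam₀ ∧ ∀ᶠ L : ℝ in atTop,
    ∀ {ι κ : Type} [DecidableEq ι] (Ω : Finset ι) (J : Finset κ) (A : κ → Finset ι), Ω.Nonempty → (∀ j ∈ J, A j ⊆ Ω) →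
    (∀ j ∈ J, |((A j).card : ℝ) / Ω.card - 1 / L| ≤ K₀ / L ^ 2) → (J.card : ℝ) ≤ Real.exp (G₀ * L) →
    ∀ m : ℕ, lam₀ * L ^ 2 ≤ m → ∀ (P : (Fin m → ι) → Prop) [DecidablePred P],
    (∀ w, P w → ∃ j ∈ J, ε < |(hits (A j) w : ℝ) / (m / L) - 1|) →
    (((Smp Ω m).filter P).card : ℝ) ≤ Real.exp (-L) * (Ω.card : ℝ) ^ m := by
  classical
  obtain ⟨u, hu⟩ : ∃ u, u = 1 + ε / 2 := ⟨_, rfl⟩
  obtain ⟨l, hl⟩ : ∃ l, l = max 0 (1 - ε / 2) := ⟨_, rfl⟩
  have hu1 : 1 < u := by rw [hu]; linarith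
  have hl0 : 0 ≤ l := by rw [hl]; exact le_max_left _ _
  have hl1 : l < 1 := by rw [hl]; exact max_lt one_pos (by linarith)
  have hfu : 0 < hf u := by
    have := hf_mono (Set.mem_Ici.2 le_rfl) (Set.mem_Ici.2 hu1.le) hu1
    rwa [hf_one] at this
  have hfl : 0 < hf l := by
    have := hf_anti (Set.mem_Icc.2 ⟨hl0, hl1.le⟩) (Set.mem_Icc.2 ⟨zero_le_one, le_rfl⟩) hl1
    rwa [hf_one] at this
  obtain ⟨T, hT⟩ : ∃ T, T = |G₀| + 2 := ⟨_, rfl⟩
  have hT0 : 0 < T := by rw [hT]; positivity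
  refine ⟨2 * T / hf u + 2 * T / hf l, by positivity, ?_⟩
  filter_upwards [eventually_ge_atTop 1, eventually_ge_atTop (K₀ * 2), eventually_ge_atTop (K₀ * u / (ε / 2))]
    with L l1 l2 l3 ι κ _ Ω J A hΩ hA hd hJ m hm P _ hP
  have hL0 : 0 < L := by linarith
  have hq0 : (0 : ℝ) < Ω.card := by exact_mod_cast card_pos.2 hΩ
  rw [div_le_iff₀ (by positivity)] at l3
  have hm0 : (0 : ℝ) < m := lt_of_lt_of_le (by positivity) hm
  have hd2 : ∀ j ∈ J, |((A j).card : ℝ) - Ω.card / L| ≤ K₀ / L * (Ω.card / L) := by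
    intro j hj
    have h1 := hd j hj
    have e : ((A j).card : ℝ) - Ω.card / L = ((A j).card / Ω.card - 1 / L) * Ω.card := by field_simp
    rw [e, abs_mul, abs_of_pos hq0]
    calc |((A j).card : ℝ) / Ω.card - 1 / L| * Ω.card ≤ K₀ / L ^ 2 * Ω.card := mul_le_mul_of_nonneg_right h1 hq0.le
      _ = _ := by field_simp
  obtain ⟨δ, hδ⟩ : ∃ δ, δ = K₀ / L := ⟨_, rfl⟩
  rw [← hδ] at hd2
  have hδ0 : 0 ≤ δ := by rw [hδ]; positivity
  have hδ1 : δ ≤ 1 / 2 := by rw [hδ, div_le_div_iff₀ hL0 (by norm_num)]; linarith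
  have hδ2 : δ * u ≤ ε / 2 := by rw [hδ, div_mul_eq_mul_div, div_le_iff₀ hL0]; linarith
  have hμ0 : (0 : ℝ) < m / L := by positivity
  obtain ⟨⟨B1, h11, h12⟩, ⟨B2, h21, h22⟩⟩ :
      (∃ Bad : Finset (Fin m → ι), (Bad.card : ℝ) ≤ J.card * (Ω.card ^ m * Real.exp (-((1 + δ) * (m / L) * hf u))) ∧
        ∀ w : Fin m → ι, (∀ l, w l ∈ Ω) → w ∉ Bad → ∀ j ∈ J, (hits (A j) w : ℝ) < u * ((1 + δ) * (m / L))) ∧
      (∃ Bad : Finset (Fin m → ι), (Bad.card : ℝ) ≤ J.card * (Ω.card ^ m * Real.exp (-((1 - δ) * (m / L) * hf l))) ∧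
        ∀ w : Fin m → ι, (∀ l, w l ∈ Ω) → w ∉ Bad → ∀ j ∈ J, l * ((1 - δ) * (m / L)) < (hits (A j) w : ℝ)) := by
    have := law Ω hΩ J A hA L δ hd2 m
    exact ⟨this.1 u hu1.le, this.2 l hl0 hl1.le⟩
  have hmL : (2 * T / hf u + 2 * T / hf l) * L ≤ m / L := by
    rw [le_div_iff₀ hL0]
    calc (2 * T / hf u + 2 * T / hf l) * L * L = (2 * T / hf u + 2 * T / hf l) * L ^ 2 := by ring
      _ ≤ m := hm
  have hexp2 : ∀ x : ℝ, 2 * T * L ≤ 2 * x → J.card * ((Ω.card : ℝ) ^ m * Real.exp (-x)) ≤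
      Real.exp (-L) / 2 * (Ω.card : ℝ) ^ m := by
    intro x hx
    have h1 : (J.card : ℝ) ≤ Real.exp (|G₀| * L) := hJ.trans (Real.exp_le_exp.2 (mul_le_mul_of_nonneg_right (le_abs_self _) hL0.le))
    have h2 : Real.exp (-x) ≤ Real.exp (-(|G₀| * L)) * Real.exp (-L) * Real.exp (-L) := by
      rw [← Real.exp_add, ← Real.exp_add]
      refine Real.exp_le_exp.2 ?_
      rw [hT] at hx
      linarith
    have h3 : Real.exp (-L) ≤ 1 / 2 := by
      rw [Real.exp_neg, one_div]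
      refine inv_anti₀ (by norm_num) ?_
      have := Real.add_one_le_exp L
      linarith
    calc J.card * ((Ω.card : ℝ) ^ m * Real.exp (-x))
        ≤ Real.exp (|G₀| * L) * ((Ω.card : ℝ) ^ m * (Real.exp (-(|G₀| * L)) * Real.exp (-L) * Real.exp (-L))) := by
          gcongr
      _ = (Real.exp (|G₀| * L) * Real.exp (-(|G₀| * L))) * (Real.exp (-L) * Real.exp (-L)) * (Ω.card : ℝ) ^ m := by ring
      _ = Real.exp (-L) * Real.exp (-L) * (Ω.card : ℝ) ^ m := by rw [← Real.exp_add, add_neg_cancel, Real.exp_zero, one_mul]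
      _ ≤ Real.exp (-L) * (1 / 2) * (Ω.card : ℝ) ^ m := by gcongr
      _ = _ := by ring
  have b1 : (B1.card : ℝ) ≤ Real.exp (-L) / 2 * (Ω.card : ℝ) ^ m := by
    refine h11.trans (hexp2 _ ?_)
    have h1 : 2 * T / hf u * L ≤ m / L := by
      have : 0 ≤ 2 * T / hf l * L := by positivity
      linarith
    have h2 : 2 * T * L ≤ m / L * hf u := by
      calc 2 * T * L = 2 * T / hf u * L * hf u := by field_simp
        _ ≤ _ := mul_le_mul_of_nonneg_right h1 hfu.le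
    have h3 : m / L * hf u ≤ (1 + δ) * (m / L) * hf u := by
      have : 0 ≤ δ * ((m : ℝ) / L * hf u) := by positivity
      nlinarith
    have h4 : 0 ≤ (m : ℝ) / L * hf u := by positivity
    linarith
  have b2 : (B2.card : ℝ) ≤ Real.exp (-L) / 2 * (Ω.card : ℝ) ^ m := by
    refine h21.trans (hexp2 _ ?_)
    have h1 : 2 * T / hf l * L ≤ m / L := by
      have : 0 ≤ 2 * T / hf u * L := by positivity
      linarith
    have h2 : 2 * T * L ≤ m / L * hf l := by
      calc 2 * T * L = 2 * T / hf l * L * hf l := by field_simp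
        _ ≤ _ := mul_le_mul_of_nonneg_right h1 hfl.le
    have h3 : m / L * hf l ≤ 2 * ((1 - δ) * (m / L) * hf l) := by
      have : 0 ≤ (1 - 2 * δ) * ((m : ℝ) / L * hf l) := by
        have : 0 ≤ 1 - 2 * δ := by linarith
        positivity
      nlinarith
    linarith
  have hsub : (Smp Ω m).filter P ⊆ B1 ∪ B2 := by
    intro w hw
    obtain ⟨hw1, hw2⟩ := mem_filter.1 hw
    obtain ⟨j, hj, h1⟩ := hP w hw2
    by_contra hcon
    rw [mem_union, not_or] at hcon
    have h2 := h12 w (Smp_mem.1 hw1) hcon.1 j hj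
    have h3 := h22 w (Smp_mem.1 hw1) hcon.2 j hj
    have h4 : (hits (A j) w : ℝ) / (m / L) ≤ 1 + ε := by
      rw [div_le_iff₀ hμ0]
      have : u * (1 + δ) ≤ 1 + ε := by
        have : u * (1 + δ) = u + δ * u := by ring
        rw [this, hu] at *
        linarith
      have := mul_le_mul_of_nonneg_right this hμ0.le
      linarith
    have h5 : 1 - ε ≤ (hits (A j) w : ℝ) / (m / L) := by
      rw [le_div_iff₀ hμ0]
      have : 1 - ε ≤ l * (1 - δ) := by
        have h6 : 1 - ε / 2 ≤ l := by rw [hl]; exact le_max_right _ _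
        have h7 : δ * l ≤ ε / 2 := by
          have : δ * l ≤ δ * u := mul_le_mul_of_nonneg_left (by linarith) hδ0
          linarith
        have : l * (1 - δ) = l - δ * l := by ring
        linarith
      have := mul_le_mul_of_nonneg_right this hμ0.le
      linarith
    have h6 : |(hits (A j) w : ℝ) / (m / L) - 1| ≤ ε := by rw [abs_le]; constructor <;> linarith
    linarith
  have h1 : (((Smp Ω m).filter P).card : ℝ) ≤ B1.card + B2.card := by
    exact_mod_cast (card_le_card hsub).trans (card_union_le _ _)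
  linarith

lemma cm_zero {lam : ℝ} : cm lam = 0 ↔ lam ≤ 1 := by
  constructor
  · intro h
    by_contra hcon
    rw [not_le] at hcon
    have h1 : ContinuousAt (fun x => lam * hf x) 0 := (continuous_const.mul hf_continuous).continuousAt
    obtain ⟨δ, hδ0, hδ⟩ := Metric.continuousAt_iff.1 h1 (lam - 1) (by linarith)
    obtain ⟨t, ht⟩ : ∃ t, t = min (δ / 2) 1 := ⟨_, rfl⟩
    have ht0 : 0 < t := by rw [ht]; exact lt_min (by positivity) one_pos
    have ht1 : t ≤ δ / 2 := by rw [ht]; exact min_le_left _ _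
    have ht2 : t ≤ 1 := by rw [ht]; exact min_le_right _ _
    have h3 := hδ (x := t) (by rw [Real.dist_eq, abs_lt]; constructor <;> linarith)
    rw [Real.dist_eq, hf_zero, mul_one] at h3
    have h4 := (abs_lt.1 h3).1
    have h5 : t ≤ cm lam := le_csSup (cm_bdd lam) ⟨ht0.le, ht2, by linarith⟩
    linarith
  · intro h
    refine le_antisymm ?_ (cm_nonneg lam)
    refine Real.sSup_le ?_ le_rfl
    intro l hl
    by_contra hcon
    rw [not_le] at hcon
    have h1 := hf_anti (Set.mem_Icc.2 ⟨le_rfl, zero_le_one⟩) (Set.mem_Icc.2 ⟨hl.1, hl.2.1⟩) hcon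
    rw [hf_zero] at h1
    have h2 := hf_nonneg hl.1
    have h3 := hl.2.2
    nlinarith

lemma cp_tend : Tendsto cp atTop (nhds 1) := by
  rw [Metric.tendsto_atTop]
  intro δ hδ
  obtain ⟨l0, h0, h1⟩ := cp_tendsto (δ / 2) (by positivity)
  refine ⟨l0, fun lam hl => ?_⟩
  have h2 := h1 lam hl
  have h3 := one_lt_cp (lt_of_lt_of_le h0 hl)
  rw [Real.dist_eq, abs_lt]
  constructor <;> linarith

lemma cm_tend : Tendsto cm atTop (nhds 1) := by
  rw [Metric.tendsto_atTop]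
  intro δ hδ
  obtain ⟨l0, h0, h1⟩ := cm_tendsto (δ / 2) (by positivity)
  refine ⟨l0, fun lam hl => ?_⟩
  have h2 := h1 lam hl
  have h3 := cm_lt_one (lam := lam)
  rw [Real.dist_eq, abs_lt]
  constructor <;> linarith

end Pool.Agent.Run7.h880.RP
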