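import Mathlib
import Pool.Agent.Run7.h880.RP.Ext
import Pool.Agent.Run7.h880.RP.Big

/-! The extreme numbers of hits, for families which may be thinner. -/

set_option autoImplicit false

namespace Pool.Agent.Run7.h880.RP

open Finset Filter
open Pool.Agent.Run7.h880.MK (Smp Smp_mem Smp_card hits hits_eq nohit)

lemma Sys.mono {ι κ : Type} [DecidableEq ι] [DecidableEq κ] {Ω : Finset ι} {J : Finset κ} {A : κ → Finset ι}
    {L K₀ c c' K₂ : ℝ} (hS : Sys Ω J A L K₀ c K₂) (h : c' ≤ c) : Sys Ω J A L K₀ c' K₂ := by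
  obtain ⟨ρ, hρ0, hρ, hρs⟩ := hS.two
  refine ⟨hS.ne, hS.sub, hS.dens, ρ, hρ0, hρ, le_trans ?_ hρs⟩
  refine sum_le_sum fun i _ => sum_le_sum fun j _ => ?_
  split_ifs
  · exact le_rfl
  · refine Real.exp_le_exp.2 (mul_le_mul_of_nonneg_right h ?_)
    linarith [hρ0 i j]

/-- **the extreme numbers of hits** -/
theorem extremes2 (γ lam ε K₀ : ℝ) (hγ : 0 < γ) (hlam : 0 < lam) (hε : 0 < ε) (hK0 : 0 ≤ K₀) :
    ∃ c η : ℝ, 0 ≤ c ∧ 0 < η ∧ ∀ K₂ : ℝ, 0 ≤ K₂ → ∃ C : ℝ, 0 < C ∧ ∀ᶠ L : ℝ in atTop, ∀ (m : ℕ), |(m : ℝ) - lam * L ^ 2| ≤ L →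
    ∀ {ι κ : Type} [DecidableEq ι] [DecidableEq κ] (Ω : Finset ι) (J : Finset κ) (A : κ → Finset ι),
    Sys Ω J A L K₀ c K₂ → Real.exp ((γ - η) * L) ≤ J.card → (J.card : ℝ) ≤ Real.exp (γ * L + 1) →
    ∀ (P : (Fin m → ι) → Prop) [DecidablePred P], (∀ w, P w → ¬ Extreme J A (lam * L) (cp (lam / γ)) (cm (lam / γ)) ε w) →
    (((Smp Ω m).filter P).card : ℝ) ≤ C / L * (Ω.card : ℝ) ^ m := by
  classical
  have hlg : 0 < lam / γ := by positivity
  obtain ⟨a, ha⟩ : ∃ a, a = cp (lam / γ) := ⟨_, rfl⟩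
  obtain ⟨b, hb⟩ : ∃ b, b = cm (lam / γ) := ⟨_, rfl⟩
  have ha1 : 1 < a := by rw [ha]; exact one_lt_cp hlg
  have hb0 : 0 ≤ b := by rw [hb]; exact cm_nonneg _
  have hb1 : b < 1 := by rw [hb]; exact cm_lt_one
  have hconv : ∀ x : ℝ, (lam / γ * hf x < 1 → lam * hf x < γ) ∧ (1 < lam / γ * hf x → γ < lam * hf x) := by
    intro x
    have e : lam / γ * hf x = lam * hf x / γ := by ring
    rw [e]
    constructor
    · intro h
      rwa [div_lt_one hγ] at h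
    · intro h
      rwa [one_lt_div hγ] at h
  -- the parameters
  obtain ⟨u1, hu11, hu12, hu13⟩ : ∃ u1, 1 ≤ u1 ∧ a - ε < u1 ∧ u1 < a := by
    refine ⟨max 1 (a - ε / 2), le_max_left _ _, ?_, max_lt ha1 (by linarith)⟩
    exact lt_of_lt_of_le (by linarith) (le_max_right _ _)
  obtain ⟨u2, hu21, hu22, hu23⟩ : ∃ u2, b < u2 ∧ u2 < 1 ∧ u2 < b + ε := by
    obtain ⟨u2, h1, h2⟩ := exists_between (show b < min 1 (b + ε) from lt_min hb1 (by linarith))
    exact ⟨u2, h1, h2.trans_le (min_le_left _ _), h2.trans_le (min_le_right _ _)⟩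
  have hu20 : 0 < u2 := by linarith
  have g1 : lam * hf u1 < γ := (hconv u1).1 (cp_lt hu11 (by rw [← ha]; exact hu13))
  have g2 : lam * hf u2 < γ := (hconv u2).1 (cm_lt hu22.le (by rw [← hb]; exact hu21))
  obtain ⟨η, hη0, hη1, hη2⟩ : ∃ η : ℝ, 0 < η ∧ lam * hf u1 < γ - η ∧ lam * hf u2 < γ - η := by
    refine ⟨min ((γ - lam * hf u1) / 2) ((γ - lam * hf u2) / 2), lt_min (by linarith) (by linarith), ?_, ?_⟩
    · have := min_le_left ((γ - lam * hf u1) / 2) ((γ - lam * hf u2) / 2)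
      linarith
    · have := min_le_right ((γ - lam * hf u1) / 2) ((γ - lam * hf u2) / 2)
      linarith
  obtain ⟨c1, hc1, h1⟩ := max_hi γ lam (a + ε) K₀ hlam (by linarith) hK0
    ((hconv _).2 (cp_gt hlg (by rw [← ha]; linarith)))
  obtain ⟨c, hc⟩ : ∃ c, c = max 0 (max (10 * Kc lam u1 * (K₀ + 1)) (10 * Kc lam u2 * (K₀ + 1))) := ⟨_, rfl⟩
  refine ⟨c, η, by rw [hc]; exact le_max_left _ _, hη0, fun K₂ hK2 => ?_⟩
  obtain ⟨C3, hC3, h3⟩ := max_lo (γ - η) lam u1 (max (a - ε) (1 / 2)) K₀ K₂ (γ + 1) hlam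
    (lt_of_lt_of_le (by norm_num) (le_max_right _ _)) (max_lt hu12 (by linarith)) hK0 hK2 hη1
  obtain ⟨C4, hC4, h4⟩ := min_hi (γ - η) lam u2 (b + ε) K₀ K₂ hlam hu20 hu23 hK0 hK2 hη2
  have h2 : ∃ c2 : ℝ, 0 < c2 ∧ ∀ᶠ L : ℝ in atTop, ∀ (m : ℕ), |(m : ℝ) - lam * L ^ 2| ≤ L →
      ∀ {ι κ : Type} [DecidableEq ι] [DecidableEq κ] (Ω : Finset ι) (J : Finset κ) (A : κ → Finset ι) (c' K₂ : ℝ),
      Sys Ω J A L K₀ c' K₂ → (J.card : ℝ) ≤ Real.exp (γ * L + 1) →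
      (((Smp Ω m).filter fun w => ∃ j ∈ J, (hits (A j) w : ℝ) < (b - ε) * lam * L).card : ℝ) ≤
        Real.exp (-(c2 * L)) * (Ω.card : ℝ) ^ m := by
    rcases lt_or_ge (b - ε) 0 with hneg | hpos
    · refine ⟨1, one_pos, ?_⟩
      filter_upwards [eventually_gt_atTop 0] with L hL m hm ι κ _ _ Ω J A c' K₂ hS hJ
      rw [filter_false_of_mem, card_empty, Nat.cast_zero]
      · positivity
      · rintro w _ ⟨j, _, h5⟩
        have h6 : (0 : ℝ) ≤ hits (A j) w := Nat.cast_nonneg _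
        have h7 : (b - ε) * lam * L < 0 := by
          have : (b - ε) * lam < 0 := mul_neg_of_neg_of_pos hneg hlam
          exact mul_neg_of_neg_of_pos this hL
        linarith
    · obtain ⟨c2, hc2, h5⟩ := min_lo γ lam (b - ε) K₀ hlam hpos (by linarith) hK0
        ((hconv _).2 (cm_gt hlg hpos (by rw [← hb]; linarith)))
      refine ⟨c2, hc2, ?_⟩
      filter_upwards [h5] with L h6 m hm ι κ _ _ Ω J A c' K₂ hS hJ
      refine le_trans ?_ (h6 m hm Ω J A c' K₂ hS hJ)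
      refine Nat.cast_le.2 (card_le_card fun w hw => ?_)
      obtain ⟨h7, j, hj, h8⟩ := mem_filter.1 hw
      exact mem_filter.2 ⟨h7, j, hj, h8.le⟩
  obtain ⟨c2, hc2, h2⟩ := h2
  refine ⟨C3 + C4 + 1 / c1 + 1 / c2, by positivity, ?_⟩
  filter_upwards [h1, h2, h3, h4, eventually_ge_atTop 1] with L k1 k2 k3 k4 l1 m hm ι κ _ _ Ω J A hS hJ1 hJ2 P _ hP
  have hL0 : 0 < L := by linarith
  have hq : (0 : ℝ) ≤ (Ω.card : ℝ) ^ m := by positivity
  have hexp : ∀ x : ℝ, 0 < x → Real.exp (-(x * L)) ≤ 1 / x / L := by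
    intro x hx
    rw [Real.exp_neg, div_div, one_div]
    refine inv_anti₀ (by positivity) ?_
    have := Real.add_one_le_exp (x * L)
    linarith
  have hsub : (Smp Ω m).filter P ⊆
      ((Smp Ω m).filter fun w => ∃ j ∈ J, (a + ε) * lam * L ≤ hits (A j) w) ∪
      (((Smp Ω m).filter fun w => ∃ j ∈ J, (hits (A j) w : ℝ) < (b - ε) * lam * L) ∪
      (((Smp Ω m).filter fun w => ∀ j ∈ J, (hits (A j) w : ℝ) < max (a - ε) (1 / 2) * lam * L) ∪
      ((Smp Ω m).filter fun w => ∀ j ∈ J, (b + ε) * lam * L < (hits (A j) w : ℝ)))) := by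
    intro w hw
    obtain ⟨hw1, hw2⟩ := mem_filter.1 hw
    rw [mem_union, mem_union, mem_union, mem_filter, mem_filter, mem_filter, mem_filter]
    by_contra hcon
    push Not at hcon
    obtain ⟨e1, e2, e3, e4⟩ := hcon
    obtain ⟨j3, hj3, e3⟩ := e3 hw1
    obtain ⟨j4, hj4, e4⟩ := e4 hw1
    refine hP w hw2 ⟨fun j hj => ?_, ⟨j3, hj3, ?_⟩, fun j hj => ?_, ⟨j4, hj4, ?_⟩⟩
    · rw [← ha, ← mul_assoc]
      exact (e1 hw1 j hj).le
    · rw [← ha]
      refine le_trans ?_ e3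
      rw [mul_assoc]
      exact mul_le_mul_of_nonneg_right (le_max_left _ _) (by positivity)
    · rw [← hb, ← mul_assoc]
      exact e2 hw1 j hj
    · rw [← hb, ← mul_assoc]
      exact e4
  have hJ1' : Real.exp ((γ - η) * L - 1) ≤ J.card := le_trans (Real.exp_le_exp.2 (by linarith)) hJ1
  have t1 := k1 m hm Ω J A c K₂ hS hJ2
  have t2 := k2 m hm Ω J A c K₂ hS hJ2
  have t3 := k3 m hm Ω J A (hS.mono (by rw [hc]; exact (le_max_left _ _).trans (le_max_right _ _))) hJ1'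
    (hJ2.trans (Real.exp_le_exp.2 (by nlinarith)))
  have t4 := k4 m hm Ω J A (hS.mono (by rw [hc]; exact (le_max_right _ _).trans (le_max_right _ _))) hJ1'
  have t1' := t1.trans (mul_le_mul_of_nonneg_right (hexp c1 hc1) hq)
  have t2' := t2.trans (mul_le_mul_of_nonneg_right (hexp c2 hc2) hq)
  have hcard : (((Smp Ω m).filter P).card : ℝ) ≤
      ((Smp Ω m).filter fun w => ∃ j ∈ J, (a + ε) * lam * L ≤ hits (A j) w).card +
      (((Smp Ω m).filter fun w => ∃ j ∈ J, (hits (A j) w : ℝ) < (b - ε) * lam * L).card +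
      (((Smp Ω m).filter fun w => ∀ j ∈ J, (hits (A j) w : ℝ) < max (a - ε) (1 / 2) * lam * L).card +
      ((Smp Ω m).filter fun w => ∀ j ∈ J, (b + ε) * lam * L < (hits (A j) w : ℝ)).card)) := by
    have h5 := (card_le_card hsub).trans ((card_union_le _ _).trans (Nat.add_le_add_left ((card_union_le _ _).trans
      (Nat.add_le_add_left (card_union_le _ _) _)) _))
    exact_mod_cast h5
  refine hcard.trans ?_
  have e : (C3 + C4 + 1 / c1 + 1 / c2) / L * (Ω.card : ℝ) ^ m = 1 / c1 / L * (Ω.card : ℝ) ^ m +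
      (1 / c2 / L * (Ω.card : ℝ) ^ m + (C3 / L * (Ω.card : ℝ) ^ m + C4 / L * (Ω.card : ℝ) ^ m)) := by ring
  rw [e]
  linarith

end Pool.Agent.Run7.h880.RP
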