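import Mathlib
import Pool.Agent.Run7.h880.RP.Dim2b
import Pool.Agent.Run7.h880.RP.Ext2

/-! Two independent random samples: the limit shape. -/

set_option autoImplicit false

namespace Pool.Agent.Run7.h880.RP

open Finset Filter
open Pool.Agent.Run7.h880.MK (Smp Smp_mem Smp_card hits hits_eq nohit)

/-- near every interior point of the limit shape -/
theorem near_pt (γ lam x y ε K₀ : ℝ) (hlam : 0 < lam) (hx : 0 < x) (hy : 0 < y) (hε : 0 < ε) (hK0 : 0 ≤ K₀)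
    (hγ : lam * (hf x + hf y) < γ) : ∃ c : ℝ, 0 ≤ c ∧ ∀ K₂ : ℝ, 0 ≤ K₂ → ∃ C : ℝ, 0 < C ∧
    ∀ᶠ L : ℝ in atTop, ∀ (m : ℕ), |(m : ℝ) - lam * L ^ 2| ≤ L →
    ∀ {ι κ : Type} [DecidableEq ι] [DecidableEq κ] (Ω : Finset ι) (J : Finset κ) (A B : κ → Finset ι),
    Sys Ω J A L K₀ c K₂ → Sys Ω J B L K₀ c K₂ → Real.exp (γ * L) ≤ J.card →
    (((Smp Ω m ×ˢ Smp Ω m).filter fun p => ∀ j ∈ J,
      ε * (lam * L) < |(hits (A j) p.1 : ℝ) - x * lam * L| + |(hits (B j) p.2 : ℝ) - y * lam * L|).card : ℝ) ≤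
      C / L * ((Smp Ω m ×ˢ Smp Ω m).card : ℝ) := by
  classical
  obtain ⟨c, hc, hsome⟩ := some_kl γ lam x y K₀ hlam hx hy hK0 hγ
  refine ⟨c, hc, fun K₂ hK2 => ?_⟩
  obtain ⟨c₀, hc0, hsome⟩ := hsome K₂ hK2
  obtain ⟨C₃, hC₃⟩ : ∃ C₃, C₃ = 6 * (x * lam) + 6 * (y * lam) + 18 * (lam + 1) := ⟨_, rfl⟩
  have hC30 : 0 < C₃ := by rw [hC₃]; positivity
  obtain ⟨τ, hτ⟩ : ∃ τ, τ = ε * lam / 4 := ⟨_, rfl⟩
  have hτ0 : 0 < τ := by rw [hτ]; positivity
  refine ⟨C₃ / τ ^ 2, by positivity, ?_⟩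
  filter_upwards [hsome, eventually_ge_atTop 4, eventually_ge_atTop (2 * K₀), eventually_gt_atTop (C₃ / (c₀ * τ ^ 2)),
    eventually_ge_atTop (2 / τ)]
    with L hsome l4 lK l3 l5 m hm ι κ _ _ Ω J A B hSA hSB hJ
  have hL0 : 0 < L := by linarith
  rw [div_lt_iff₀ (by positivity)] at l3
  rw [div_le_iff₀ hτ0] at l5
  have hm' := abs_le.1 hm
  have hmhi : (m : ℝ) ≤ (lam + 1) * L ^ 2 := by nlinarith
  have hJne : J.Nonempty := by
    rw [nonempty_iff_ne_empty]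
    rintro rfl
    rw [card_empty, Nat.cast_zero] at hJ
    linarith [Real.exp_pos (γ * L)]
  have hq0 : (0 : ℝ) < Ω.card := by exact_mod_cast card_pos.2 hSA.ne
  have hsm : ((Smp Ω m).card : ℝ) = (Ω.card : ℝ) ^ m := by rw [Smp_card]; push_cast; rfl
  obtain ⟨Q, hQ⟩ : ∃ Q : ℝ, Q = (Ω.card : ℝ) ^ m := ⟨_, rfl⟩
  have hQ0 : 0 < Q := by rw [hQ]; positivity
  have hQQ : ((Smp Ω m ×ˢ Smp Ω m).card : ℝ) = Q * Q := by
    rw [card_product, Nat.cast_mul, hsm, ← hQ]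
  have hne1 : (Smp Ω m).Nonempty := by
    obtain ⟨o, ho⟩ := hSA.ne
    exact ⟨fun _ => o, Smp_mem.2 fun _ => ho⟩
  have hne : (Smp Ω m ×ˢ Smp Ω m).Nonempty := hne1.product hne1
  obtain ⟨β, hβe⟩ : ∃ β, β = 3 / (2 * L) := ⟨_, rfl⟩
  have hβA : ∀ j ∈ J, ((A j).card : ℝ) ≤ β * Ω.card := by
    intro j hj
    have h2 := (a_half (K := 1) l4 hK0 le_rfl lK (hSA.dens j hj)).2
    rw [hβe]
    rwa [div_le_iff₀ hq0] at h2
  have hβB : ∀ j ∈ J, ((B j).card : ℝ) ≤ β * Ω.card := by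
    intro j hj
    have h2 := (a_half (K := 1) l4 hK0 le_rfl lK (hSB.dens j hj)).2
    rw [hβe]
    rwa [div_le_iff₀ hq0] at h2
  have hmβ : (m : ℝ) * β ≤ 3 / 2 * (lam + 1) * L := by
    rw [hβe, mul_div_assoc', div_le_iff₀ (by positivity)]
    nlinarith
  obtain ⟨X, hX⟩ : ∃ X, X = x * lam * L := ⟨_, rfl⟩
  obtain ⟨Y, hY⟩ : ∃ Y, Y = y * lam * L := ⟨_, rfl⟩
  have hX0 : 0 < X := by rw [hX]; positivity
  have hY0 : 0 < Y := by rw [hY]; positivity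
  obtain ⟨D, hD⟩ : ∃ D : (Fin m → ι) → (Fin m → ι) → ℝ, D = fun w v =>
    J.inf' hJne fun j => |(hits (A j) w : ℝ) - X| + |(hits (B j) v : ℝ) - Y| := ⟨_, rfl⟩
  obtain ⟨k, hk⟩ : ∃ k : ℕ, k = ⌊X⌋₊ := ⟨_, rfl⟩
  have hk1 : (k : ℝ) ≤ X := by rw [hk]; exact Nat.floor_le hX0.le
  have hk2 : X ≤ k + 1 := by rw [hk]; exact (Nat.lt_floor_add_one _).le
  obtain ⟨l, hl⟩ : ∃ l : ℕ, l = ⌊Y⌋₊ := ⟨_, rfl⟩
  have hl1 : (l : ℝ) ≤ Y := by rw [hl]; exact Nat.floor_le hY0.le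
  have hl2 : Y ≤ l + 1 := by rw [hl]; exact (Nat.lt_floor_add_one _).le
  have h1 := hsome m k l hm (by rw [← hX, abs_le]; constructor <;> linarith) (by rw [← hY, abs_le]; constructor <;> linarith)
    Ω J A B hSA hSB hJ
  -- the sum of the distances
  have hJe := hJne
  obtain ⟨j₀, hj₀⟩ := hJe
  have hDle : ∀ w v, D w v ≤ X + Y + (hits (A j₀) w : ℝ) + (hits (B j₀) v : ℝ) := by
    intro w v
    rw [hD]
    refine (inf'_le (fun j => |(hits (A j) w : ℝ) - X| + |(hits (B j) v : ℝ) - Y|) hj₀).trans ?_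
    have g1 : |(hits (A j₀) w : ℝ) - X| ≤ hits (A j₀) w + X := by
      rw [abs_le]
      have : (0 : ℝ) ≤ hits (A j₀) w := Nat.cast_nonneg _
      constructor <;> linarith
    have g2 : |(hits (B j₀) v : ℝ) - Y| ≤ hits (B j₀) v + Y := by
      rw [abs_le]
      have : (0 : ℝ) ≤ hits (B j₀) v := Nat.cast_nonneg _
      constructor <;> linarith
    linarith
  have hsumD : ∑ w ∈ Smp Ω m, ∑ v ∈ Smp Ω m, D w v ≤ Q * Q * (X + Y + 2 * (m * β)) := by
    have g1 := sum_hits Ω (A j₀) hSA.ne (hSA.sub j₀ hj₀) β (hβA j₀ hj₀) m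
    have g2 := sum_hits Ω (B j₀) hSB.ne (hSB.sub j₀ hj₀) β (hβB j₀ hj₀) m
    rw [← hQ] at g1 g2
    calc ∑ w ∈ Smp Ω m, ∑ v ∈ Smp Ω m, D w v
        ≤ ∑ w ∈ Smp Ω m, ∑ v ∈ Smp Ω m, (X + Y + (hits (A j₀) w : ℝ) + (hits (B j₀) v : ℝ)) :=
          sum_le_sum fun w _ => sum_le_sum fun v _ => hDle w v
      _ = Q * Q * (X + Y) + Q * ∑ w ∈ Smp Ω m, (hits (A j₀) w : ℝ) + Q * ∑ v ∈ Smp Ω m, (hits (B j₀) v : ℝ) := by
          simp only [sum_add_distrib, sum_const, nsmul_eq_mul, hsm, ← hQ, ← mul_sum]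
          ring
      _ ≤ _ := by
          have := mul_le_mul_of_nonneg_left g1 hQ0.le
          have := mul_le_mul_of_nonneg_left g2 hQ0.le
          nlinarith
  have hvar : ∑ w ∈ Smp Ω m, ∑ v ∈ Smp Ω m, (-(D w v)) ^ 2 -
      (∑ w ∈ Smp Ω m, ∑ v ∈ Smp Ω m, -(D w v)) ^ 2 / ((Smp Ω m).card * (Smp Ω m).card) ≤ C₃ * L * (Q * Q) := by
    refine (es_prod (Smp Ω m) (Smp Ω m) hne1 hne1 fun w v => -(D w v)).trans ?_
    have g1 : ∑ v ∈ Smp Ω m, (∑ w ∈ Smp Ω m, (-(D w v)) ^ 2 - (∑ w ∈ Smp Ω m, -(D w v)) ^ 2 / (Smp Ω m).card) ≤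
        ∑ v ∈ Smp Ω m, (∑ w ∈ Smp Ω m, 2 * (X + D w v) + 2 * m * β * Q) := by
      refine sum_le_sum fun v _ => ?_
      rw [hD, hQ]
      exact var_dist Ω hSA.ne J ⟨j₀, hj₀⟩ A β X hSA.sub hβA (fun j => |(hits (B j) v : ℝ) - Y|) (fun j => abs_nonneg _) m
    have g2 : ∑ w ∈ Smp Ω m, (∑ v ∈ Smp Ω m, (-(D w v)) ^ 2 - (∑ v ∈ Smp Ω m, -(D w v)) ^ 2 / (Smp Ω m).card) ≤
        ∑ w ∈ Smp Ω m, (∑ v ∈ Smp Ω m, 2 * (Y + D w v) + 2 * m * β * Q) := by
      refine sum_le_sum fun w _ => ?_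
      have e : ∀ v, D w v = J.inf' ⟨j₀, hj₀⟩ fun j => |(hits (B j) v : ℝ) - Y| + |(hits (A j) w : ℝ) - X| := by
        intro v
        rw [hD]
        simp only [add_comm]
      simp only [e]
      rw [hQ]
      exact var_dist Ω hSB.ne J ⟨j₀, hj₀⟩ B β Y hSB.sub hβB (fun j => |(hits (A j) w : ℝ) - X|) (fun j => abs_nonneg _) m
    refine (add_le_add g1 g2).trans ?_
    have e1 : ∑ v ∈ Smp Ω m, (∑ w ∈ Smp Ω m, 2 * (X + D w v) + 2 * m * β * Q) =
        2 * X * (Q * Q) + 2 * ∑ w ∈ Smp Ω m, ∑ v ∈ Smp Ω m, D w v + 2 * (m * β) * (Q * Q) := by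
      rw [sum_comm (s := Smp Ω m) (t := Smp Ω m) (f := fun w v => D w v)]
      simp only [sum_add_distrib, sum_const, nsmul_eq_mul, hsm, ← hQ, ← mul_sum]
      ring
    have e2 : ∑ w ∈ Smp Ω m, (∑ v ∈ Smp Ω m, 2 * (Y + D w v) + 2 * m * β * Q) =
        2 * Y * (Q * Q) + 2 * ∑ w ∈ Smp Ω m, ∑ v ∈ Smp Ω m, D w v + 2 * (m * β) * (Q * Q) := by
      simp only [sum_add_distrib, sum_const, nsmul_eq_mul, hsm, ← hQ, ← mul_sum]
      ring
    rw [e1, e2]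
    have h3 : 0 < Q * Q := by positivity
    have h4 : 2 * X * (Q * Q) + 2 * (Q * Q * (X + Y + 2 * (m * β))) + 2 * (m * β) * (Q * Q) +
        (2 * Y * (Q * Q) + 2 * (Q * Q * (X + Y + 2 * (m * β))) + 2 * (m * β) * (Q * Q)) =
        (6 * X + 6 * Y + 12 * (m * β)) * (Q * Q) := by ring
    have h5 : 6 * X + 6 * Y + 12 * (m * β) ≤ C₃ * L := by
      rw [hC₃, hX, hY]
      have := mul_le_mul_of_nonneg_left hmβ (by norm_num : (0 : ℝ) ≤ 12)
      nlinarith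
    have h6 := mul_le_mul_of_nonneg_right h5 h3.le
    linarith
  have hb := boostS (Smp Ω m ×ˢ Smp Ω m) hne (fun p => -(D p.1 p.2)) (C₃ * L) c₀ (-2) (τ * L) (τ * L) (by
      rw [sum_product, sum_product]
      rw [card_product, Nat.cast_mul]
      refine hvar.trans (le_of_eq ?_)
      rw [hsm, ← hQ]) (by positivity) (by positivity) (by nlinarith) (by
      refine h1.trans ?_
      have : (Smp Ω m ×ˢ Smp Ω m).filter (fun p => ∃ j ∈ J, hits (A j) p.1 = k ∧ hits (B j) p.2 = l) ⊆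
          (Smp Ω m ×ˢ Smp Ω m).filter fun p => -2 ≤ -(D p.1 p.2) := by
        intro p hp
        obtain ⟨h2, j, hj, h3, h4⟩ := mem_filter.1 hp
        refine mem_filter.2 ⟨h2, ?_⟩
        rw [neg_le_neg_iff, hD]
        refine (inf'_le (fun j => |(hits (A j) p.1 : ℝ) - X| + |(hits (B j) p.2 : ℝ) - Y|) hj).trans ?_
        rw [h3, h4]
        have g1 : |(k : ℝ) - X| ≤ 1 := by rw [abs_le]; constructor <;> linarith
        have g2 : |(l : ℝ) - Y| ≤ 1 := by rw [abs_le]; constructor <;> linarith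
        linarith
      exact_mod_cast card_le_card this)
  have hsub : (Smp Ω m ×ˢ Smp Ω m).filter (fun p => ∀ j ∈ J,
      ε * (lam * L) < |(hits (A j) p.1 : ℝ) - x * lam * L| + |(hits (B j) p.2 : ℝ) - y * lam * L|) ⊆
      (Smp Ω m ×ˢ Smp Ω m).filter fun p => -(D p.1 p.2) < -2 - τ * L - τ * L := by
    intro p hp
    obtain ⟨h2, h3⟩ := mem_filter.1 hp
    refine mem_filter.2 ⟨h2, ?_⟩
    have h4 : 2 + τ * L + τ * L < D p.1 p.2 := by
      rw [hD]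
      refine (lt_inf'_iff hJne).2 ?_
      intro j hj
      have := h3 j hj
      rw [← hX, ← hY] at this
      refine lt_of_le_of_lt ?_ this
      have e : ε * (lam * L) = 4 * (τ * L) := by rw [hτ]; ring
      linarith
    linarith
  have h2 : (((Smp Ω m ×ˢ Smp Ω m).filter fun p => ∀ j ∈ J,
      ε * (lam * L) < |(hits (A j) p.1 : ℝ) - x * lam * L| + |(hits (B j) p.2 : ℝ) - y * lam * L|).card : ℝ) ≤
      ((Smp Ω m ×ˢ Smp Ω m).filter fun p => -(D p.1 p.2) < -2 - τ * L - τ * L).card := by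
    exact_mod_cast card_le_card hsub
  refine h2.trans (hb.trans (le_of_eq ?_))
  rw [hQQ]
  field_simp

/-- exactly `k` hits, from above -/
theorem ex_up {ι κ : Type} [DecidableEq ι] [DecidableEq κ] {Ω : Finset ι} {J : Finset κ} {A : κ → Finset ι}
    {L K₀ c K₂ lam : ℝ} {m : ℕ} (hS : Sys Ω J A L K₀ c K₂) (hL : 1 ≤ L) (hlam : 0 < lam) (hK0 : 0 ≤ K₀)
    (hm : |(m : ℝ) - lam * L ^ 2| ≤ L) (j : κ) (hj : j ∈ J) (k : ℕ) :
    (((Smp Ω m).filter fun w => hits (A j) w = k).card : ℝ) ≤ (Ω.card : ℝ) ^ m *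
      Real.exp (-(lam * L * hf (k / (lam * L))) + (K₀ * (lam + 1) + 1) * (k / (lam * L) + 1)) := by
  classical
  have hL0 : 0 < L := by linarith
  have hq0 : (0 : ℝ) < Ω.card := by exact_mod_cast card_pos.2 hS.ne
  obtain ⟨a, ha⟩ : ∃ a : ℝ, a = (A j).card / Ω.card := ⟨_, rfl⟩
  have hAa : ((A j).card : ℝ) = a * Ω.card := by rw [ha, div_mul_cancel₀ _ hq0.ne']
  have hd := hS.dens j hj
  rw [← ha] at hd
  have hm0 : (0 : ℝ) ≤ m := Nat.cast_nonneg m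
  have hm' := abs_le.1 hm
  obtain ⟨μ, hμ⟩ : ∃ μ, μ = lam * L := ⟨_, rfl⟩
  have hμ0 : 0 < μ := by rw [hμ]; positivity
  have hma : |a * m - μ| ≤ K₀ * (lam + 1) + 1 := by
    have e : a * m - μ = (a - 1 / L) * m + (m - lam * L ^ 2) / L := by rw [hμ]; field_simp; ring
    rw [e]
    refine (abs_add_le _ _).trans (add_le_add ?_ ?_)
    · rw [abs_mul, abs_of_nonneg hm0]
      have hmhi : (m : ℝ) ≤ (lam + 1) * L ^ 2 := by nlinarith
      calc |a - 1 / L| * m ≤ K₀ / L ^ 2 * ((lam + 1) * L ^ 2) := mul_le_mul hd hmhi hm0 (by positivity)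
        _ = _ := by field_simp
    · rw [abs_div, abs_of_pos hL0, div_le_one hL0]
      exact hm
  have hma' := abs_le.1 hma
  rw [← hμ]
  rcases Nat.eq_zero_or_pos k with h0 | h0
  · subst h0
    have h1 := nohit Ω (A j) (hS.sub j hj) m
    have h2 : (Smp Ω m).filter (fun w => hits (A j) w = 0) ⊆ (Smp Ω m).filter fun w => ∀ l, w l ∉ A j := by
      intro w hw
      obtain ⟨h2, h3⟩ := mem_filter.1 hw
      refine mem_filter.2 ⟨h2, fun l hl => ?_⟩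
      unfold hits at h3
      rw [card_eq_zero, filter_eq_empty_iff] at h3
      exact h3 (mem_univ l) hl
    have h3 : (((Smp Ω m).filter (fun w => hits (A j) w = 0)).card : ℝ) ≤
        ((Smp Ω m).filter fun w => ∀ l, w l ∉ A j).card := by
      exact_mod_cast card_le_card h2
    refine h3.trans (h1.trans (mul_le_mul_of_nonneg_left (Real.exp_le_exp.2 ?_) (pow_pos hq0 m).le))
    rw [← ha, Nat.cast_zero, zero_div, hf_zero]
    linarith
  · have hk0 : (0 : ℝ) < k := by exact_mod_cast h0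
    obtain ⟨u, hu⟩ : ∃ u : ℝ, u = k / μ := ⟨_, rfl⟩
    have hu0 : 0 < u := by rw [hu]; positivity
    have hku : (k : ℝ) = u * μ := by rw [hu, div_mul_cancel₀ _ hμ0.ne']
    have h1 := one Ω (A j) (hS.sub j hj) m a (Real.log u) (Real.log u * k) (by rw [hAa])
    rw [Real.exp_log hu0] at h1
    have h2 : (Smp Ω m).filter (fun w => hits (A j) w = k) ⊆
        (Smp Ω m).filter fun w => Real.log u * k ≤ Real.log u * hits (A j) w := by
      intro w hw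
      obtain ⟨h2, h3⟩ := mem_filter.1 hw
      exact mem_filter.2 ⟨h2, by rw [h3]⟩
    have h3 : (((Smp Ω m).filter (fun w => hits (A j) w = k)).card : ℝ) ≤
        ((Smp Ω m).filter fun w => Real.log u * k ≤ Real.log u * hits (A j) w).card := by
      exact_mod_cast card_le_card h2
    refine h3.trans (h1.trans (mul_le_mul_of_nonneg_left (Real.exp_le_exp.2 ?_) (pow_pos hq0 m).le))
    rw [← hu, hku]
    unfold hf
    have h4 : (a * m - μ) * (u - 1) ≤ (K₀ * (lam + 1) + 1) * (u + 1) := by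
      have h5 : |(a * m - μ) * (u - 1)| ≤ (K₀ * (lam + 1) + 1) * (u + 1) := by
        rw [abs_mul]
        refine mul_le_mul hma ?_ (abs_nonneg _) (by positivity)
        rw [abs_le]
        constructor <;> linarith
      exact (le_abs_self _).trans h5
    nlinarith

/-- no point outside of the limit shape -/
theorem outer (γ lam ε K₀ : ℝ) (hγ : 0 < γ) (hlam : 0 < lam) (hε : 0 < ε) (hK0 : 0 ≤ K₀) :
    ∃ C : ℝ, 0 < C ∧ ∀ᶠ L : ℝ in atTop, ∀ (m : ℕ), |(m : ℝ) - lam * L ^ 2| ≤ L →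
    ∀ {ι κ : Type} [DecidableEq ι] [DecidableEq κ] (Ω : Finset ι) (J : Finset κ) (A B : κ → Finset ι) (c K₂ : ℝ),
    Sys Ω J A L K₀ c K₂ → Sys Ω J B L K₀ c K₂ → (J.card : ℝ) ≤ Real.exp (γ * L + 1) →
    (((Smp Ω m ×ˢ Smp Ω m).filter fun p => ∃ j ∈ J,
      γ + ε < lam * (hf (hits (A j) p.1 / (lam * L)) + hf (hits (B j) p.2 / (lam * L)))).card : ℝ) ≤
      C / L * ((Smp Ω m ×ˢ Smp Ω m).card : ℝ) := by
  classical
  obtain ⟨T, hT1, hT2⟩ := hf_large ((γ + 1) / lam)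
  rw [div_le_iff₀ hlam] at hT2
  obtain ⟨c1, hc1, h1⟩ := max_hi γ lam (T + 1) K₀ hlam (by linarith) hK0 (by
    have h2 := hf_mono (Set.mem_Ici.2 hT1) (Set.mem_Ici.2 (by linarith : (1 : ℝ) ≤ T + 1)) (by linarith)
    nlinarith)
  obtain ⟨T', hT'⟩ : ∃ T', T' = T + 1 := ⟨_, rfl⟩
  rw [← hT'] at h1
  have hT'0 : 0 < T' := by rw [hT']; linarith
  obtain ⟨C₁, hC₁⟩ : ∃ C₁, C₁ = K₀ * (lam + 1) + 1 := ⟨_, rfl⟩
  have hC10 : 0 < C₁ := by rw [hC₁]; positivity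
  obtain ⟨D, hD⟩ : ∃ D, D = (T' * lam + 1) ^ 2 * Real.exp (1 + 2 * (C₁ * (T' + 1))) := ⟨_, rfl⟩
  have hD0 : 0 < D := by rw [hD]; positivity
  refine ⟨1 / c1 + 1 / c1 + 1, by positivity, ?_⟩
  have hexp3 : ∀ᶠ L : ℝ in atTop, D * L ^ 3 ≤ Real.exp (ε * L) := by
    have h1 := ((Real.isLittleO_pow_exp_atTop (n := 3)).bound (show (0 : ℝ) < ε ^ 3 / D by positivity))
    have h2 : Tendsto (fun L : ℝ => ε * L) atTop atTop := tendsto_id.const_mul_atTop hε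
    filter_upwards [h2.eventually h1, eventually_ge_atTop 0] with L h3 h4
    rw [Real.norm_of_nonneg (by positivity), Real.norm_of_nonneg (Real.exp_pos _).le, mul_pow, div_mul_eq_mul_div,
      le_div_iff₀ hD0] at h3
    have h5 : ε ^ 3 * (D * L ^ 3) ≤ ε ^ 3 * Real.exp (ε * L) := by linarith
    exact le_of_mul_le_mul_left h5 (by positivity)
  filter_upwards [h1, eventually_ge_atTop 1, hexp3] with L k1 l1 l3 m hm ι κ _ _ Ω J A B c K₂ hSA hSB hJ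
  have hL0 : 0 < L := by linarith
  obtain ⟨μ, hμ⟩ : ∃ μ, μ = lam * L := ⟨_, rfl⟩
  have hμ0 : 0 < μ := by rw [hμ]; positivity
  obtain ⟨Q, hQ⟩ : ∃ Q : ℝ, Q = (Ω.card : ℝ) ^ m := ⟨_, rfl⟩
  have hQ0 : 0 < Q := by
    have hq0 : (0 : ℝ) < Ω.card := by exact_mod_cast card_pos.2 hSA.ne
    rw [hQ]; positivity
  have hsm : ((Smp Ω m).card : ℝ) = Q := by rw [Smp_card, hQ]; push_cast; rfl
  have hQQ : ((Smp Ω m ×ˢ Smp Ω m).card : ℝ) = Q * Q := by rw [card_product, Nat.cast_mul, hsm]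
  have hexp : ∀ x : ℝ, 0 < x → Real.exp (-(x * L)) ≤ 1 / x / L := by
    intro x hx
    rw [Real.exp_neg, div_div, one_div]
    refine inv_anti₀ (by positivity) ?_
    have := Real.add_one_le_exp (x * L)
    linarith
  -- the large values
  have t1 := (k1 m hm Ω J A c K₂ hSA hJ).trans (mul_le_mul_of_nonneg_right (hexp c1 hc1) (by positivity))
  have t2 := (k1 m hm Ω J B c K₂ hSB hJ).trans (mul_le_mul_of_nonneg_right (hexp c1 hc1) (by positivity))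
  rw [← hQ] at t1 t2
  -- the pairs
  obtain ⟨R, hR⟩ : ∃ R : Finset (ℕ × ℕ), R = ((range (⌊T' * μ⌋₊ + 1)) ×ˢ (range (⌊T' * μ⌋₊ + 1))).filter
    fun r : ℕ × ℕ => γ + ε < lam * (hf (r.1 / μ) + hf (r.2 / μ)) := ⟨_, rfl⟩
  have hRc : (R.card : ℝ) ≤ (T' * lam + 1) ^ 2 * L ^ 2 := by
    have h2 : R.card ≤ (⌊T' * μ⌋₊ + 1) * (⌊T' * μ⌋₊ + 1) := by
      rw [hR]
      refine (card_filter_le _ _).trans (le_of_eq ?_)
      rw [card_product, card_range]
    have h3 : ((⌊T' * μ⌋₊ : ℕ) : ℝ) + 1 ≤ (T' * lam + 1) * L := by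
      have := Nat.floor_le (show 0 ≤ T' * μ by positivity)
      rw [hμ] at this ⊢
      nlinarith
    calc (R.card : ℝ) ≤ (((⌊T' * μ⌋₊ : ℕ) : ℝ) + 1) * (((⌊T' * μ⌋₊ : ℕ) : ℝ) + 1) := by exact_mod_cast h2
      _ ≤ ((T' * lam + 1) * L) * ((T' * lam + 1) * L) := mul_le_mul h3 h3 (by positivity) (by positivity)
      _ = _ := by ring
  have hsub : (Smp Ω m ×ˢ Smp Ω m).filter (fun p => ∃ j ∈ J,
      γ + ε < lam * (hf (hits (A j) p.1 / μ) + hf (hits (B j) p.2 / μ))) ⊆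
      (((Smp Ω m).filter fun w => ∃ j ∈ J, T' * lam * L ≤ hits (A j) w) ×ˢ Smp Ω m) ∪
      ((Smp Ω m ×ˢ ((Smp Ω m).filter fun w => ∃ j ∈ J, T' * lam * L ≤ hits (B j) w)) ∪
      J.biUnion fun j => R.biUnion fun r => ((Smp Ω m).filter fun w => hits (A j) w = r.1) ×ˢ
        ((Smp Ω m).filter fun w => hits (B j) w = r.2)) := by
    intro p hp
    obtain ⟨h2, j, hj, h3⟩ := mem_filter.1 hp
    rw [mem_product] at h2
    by_cases g1 : T' * lam * L ≤ hits (A j) p.1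
    · exact mem_union_left _ (mem_product.2 ⟨mem_filter.2 ⟨h2.1, j, hj, g1⟩, h2.2⟩)
    · by_cases g2 : T' * lam * L ≤ hits (B j) p.2
      · exact mem_union_right _ (mem_union_left _ (mem_product.2 ⟨h2.1, mem_filter.2 ⟨h2.2, j, hj, g2⟩⟩))
      · refine mem_union_right _ (mem_union_right _ (mem_biUnion.2 ⟨j, hj, mem_biUnion.2
          ⟨(hits (A j) p.1, hits (B j) p.2), ?_, mem_product.2 ⟨mem_filter.2 ⟨h2.1, rfl⟩, mem_filter.2 ⟨h2.2, rfl⟩⟩⟩⟩))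
        rw [hR, mem_filter, mem_product, mem_range, mem_range]
        rw [not_le] at g1 g2
        have e : T' * lam * L = T' * μ := by rw [hμ]; ring
        rw [e] at g1 g2
        exact ⟨⟨Nat.lt_succ_of_le (Nat.le_floor g1.le), Nat.lt_succ_of_le (Nat.le_floor g2.le)⟩, h3⟩
  have hpair : ∀ j ∈ J, ∀ r ∈ R, ((((Smp Ω m).filter fun w => hits (A j) w = r.1) ×ˢ
      ((Smp Ω m).filter fun w => hits (B j) w = r.2)).card : ℝ) ≤
      Q * Q * Real.exp (-((γ + ε) * L) + 2 * (C₁ * (T' + 1))) := by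
    intro j hj r hr
    rw [hR, mem_filter, mem_product, mem_range, mem_range] at hr
    obtain ⟨⟨r1, r2⟩, r3⟩ := hr
    have g1 := ex_up hSA l1 hlam hK0 hm j hj r.1
    have g2 := ex_up hSB l1 hlam hK0 hm j hj r.2
    rw [← hμ, ← hQ, ← hC₁] at g1 g2
    rw [card_product, Nat.cast_mul]
    refine (mul_le_mul g1 g2 (Nat.cast_nonneg _) (by positivity)).trans ?_
    have e : Q * Real.exp (-(μ * hf (r.1 / μ)) + C₁ * (r.1 / μ + 1)) * (Q * Real.exp (-(μ * hf (r.2 / μ)) + C₁ * (r.2 / μ + 1))) =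
        Q * Q * Real.exp ((-(μ * hf (r.1 / μ)) + C₁ * (r.1 / μ + 1)) + (-(μ * hf (r.2 / μ)) + C₁ * (r.2 / μ + 1))) := by
      rw [Real.exp_add (-(μ * hf (r.1 / μ)) + C₁ * (r.1 / μ + 1))]
      ring
    rw [e]
    refine mul_le_mul_of_nonneg_left (Real.exp_le_exp.2 ?_) (by positivity)
    have b1 : (r.1 : ℝ) / μ ≤ T' := by
      rw [div_le_iff₀ hμ0]
      have h2 : (r.1 : ℝ) ≤ ((⌊T' * μ⌋₊ : ℕ) : ℝ) := by exact_mod_cast Nat.le_of_lt_succ r1
      exact h2.trans (Nat.floor_le (by positivity))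
    have b2 : (r.2 : ℝ) / μ ≤ T' := by
      rw [div_le_iff₀ hμ0]
      have h2 : (r.2 : ℝ) ≤ ((⌊T' * μ⌋₊ : ℕ) : ℝ) := by exact_mod_cast Nat.le_of_lt_succ r2
      exact h2.trans (Nat.floor_le (by positivity))
    have b3 := mul_le_mul_of_nonneg_left (show (r.1 : ℝ) / μ + 1 ≤ T' + 1 by linarith) hC10.le
    have b4 := mul_le_mul_of_nonneg_left (show (r.2 : ℝ) / μ + 1 ≤ T' + 1 by linarith) hC10.le
    have b5 : (γ + ε) * L ≤ μ * hf (r.1 / μ) + μ * hf (r.2 / μ) := by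
      have := mul_le_mul_of_nonneg_right r3.le hL0.le
      have e2 : lam * (hf (r.1 / μ) + hf (r.2 / μ)) * L = μ * hf (r.1 / μ) + μ * hf (r.2 / μ) := by
        nth_rewrite 3 [hμ]
        nth_rewrite 4 [hμ]
        ring
      linarith
    linarith
  have hbi : ((J.biUnion fun j => R.biUnion fun r => ((Smp Ω m).filter fun w => hits (A j) w = r.1) ×ˢ
        ((Smp Ω m).filter fun w => hits (B j) w = r.2)).card : ℝ) ≤ 1 / L * (Q * Q) := by
    have h2 : ((J.biUnion fun j => R.biUnion fun r => ((Smp Ω m).filter fun w => hits (A j) w = r.1) ×ˢ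
        ((Smp Ω m).filter fun w => hits (B j) w = r.2)).card : ℝ) ≤
        ∑ j ∈ J, ∑ r ∈ R, ((((Smp Ω m).filter fun w => hits (A j) w = r.1) ×ˢ
        ((Smp Ω m).filter fun w => hits (B j) w = r.2)).card : ℝ) := by
      have h3 := (card_biUnion_le (s := J) (t := fun j => R.biUnion fun r => ((Smp Ω m).filter fun w => hits (A j) w = r.1) ×ˢ
        ((Smp Ω m).filter fun w => hits (B j) w = r.2))).trans (sum_le_sum fun j _ => card_biUnion_le)
      exact_mod_cast h3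
    refine h2.trans ((sum_le_sum fun j hj => sum_le_sum fun r hr => hpair j hj r hr).trans ?_)
    rw [sum_const, sum_const, nsmul_eq_mul, nsmul_eq_mul]
    have h3 : (J.card : ℝ) * (R.card * (Q * Q * Real.exp (-((γ + ε) * L) + 2 * (C₁ * (T' + 1))))) ≤
        Real.exp (γ * L + 1) * ((T' * lam + 1) ^ 2 * L ^ 2 * (Q * Q * Real.exp (-((γ + ε) * L) + 2 * (C₁ * (T' + 1))))) := by
      gcongr
    refine h3.trans ?_
    have e : Real.exp (γ * L + 1) * ((T' * lam + 1) ^ 2 * L ^ 2 * (Q * Q * Real.exp (-((γ + ε) * L) + 2 * (C₁ * (T' + 1))))) =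
        (D * L ^ 3) * Real.exp (-(ε * L)) / L * (Q * Q) := by
      have e2 : Real.exp (-((γ + ε) * L) + 2 * (C₁ * (T' + 1))) =
          Real.exp (-(γ * L)) * Real.exp (-(ε * L)) * Real.exp (2 * (C₁ * (T' + 1))) := by
        rw [← Real.exp_add, ← Real.exp_add]; congr 1; ring
      have e3 : Real.exp (γ * L + 1) * Real.exp (-(γ * L)) = Real.exp 1 := by
        rw [← Real.exp_add]; congr 1; ring
      rw [hD, Real.exp_add 1, e2]
      calc _ = (Real.exp (γ * L + 1) * Real.exp (-(γ * L))) * (T' * lam + 1) ^ 2 * L ^ 2 * (Q * Q) *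
            (Real.exp (-(ε * L)) * Real.exp (2 * (C₁ * (T' + 1)))) := by ring
        _ = _ := by rw [e3]; field_simp
    rw [e]
    refine mul_le_mul_of_nonneg_right (div_le_div_of_nonneg_right ?_ hL0.le) (by positivity)
    calc D * L ^ 3 * Real.exp (-(ε * L)) ≤ Real.exp (ε * L) * Real.exp (-(ε * L)) :=
          mul_le_mul_of_nonneg_right l3 (Real.exp_pos _).le
      _ = 1 := by rw [← Real.exp_add, add_neg_cancel, Real.exp_zero]
  rw [← hμ] at *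
  have hcard := (card_le_card hsub).trans ((card_union_le _ _).trans (Nat.add_le_add_left (card_union_le _ _) _))
  have hcard' : (((Smp Ω m ×ˢ Smp Ω m).filter (fun p => ∃ j ∈ J,
      γ + ε < lam * (hf (hits (A j) p.1 / μ) + hf (hits (B j) p.2 / μ)))).card : ℝ) ≤
      ((((Smp Ω m).filter fun w => ∃ j ∈ J, T' * lam * L ≤ hits (A j) w) ×ˢ Smp Ω m).card : ℝ) +
      (((Smp Ω m ×ˢ ((Smp Ω m).filter fun w => ∃ j ∈ J, T' * lam * L ≤ hits (B j) w)).card : ℝ) +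
      ((J.biUnion fun j => R.biUnion fun r => ((Smp Ω m).filter fun w => hits (A j) w = r.1) ×ˢ
        ((Smp Ω m).filter fun w => hits (B j) w = r.2)).card : ℝ)) := by exact_mod_cast hcard
  refine hcard'.trans ?_
  rw [card_product, card_product, Nat.cast_mul, Nat.cast_mul, hsm, hQQ]
  have t1' := mul_le_mul_of_nonneg_right t1 hQ0.le
  have t2' := mul_le_mul_of_nonneg_left t2 hQ0.le
  have e : (1 / c1 + 1 / c1 + 1) / L * (Q * Q) = 1 / c1 / L * Q * Q + (Q * (1 / c1 / L * Q) + 1 / L * (Q * Q)) := by ring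
  rw [e]
  linarith

end Pool.Agent.Run7.h880.RP
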