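import Mathlib
import Pool.Agent.Run7.h880.RP.Dim2c

/-! Two independent random samples: the limit shape. -/

set_option autoImplicit false

namespace Pool.Agent.Run7.h880.RP

open Finset Filter
open Pool.Agent.Run7.h880.MK (Smp Smp_mem Smp_card hits hits_eq nohit)

/-- the limit region -/
def Reg2 (γ lam : ℝ) : Set (ℝ × ℝ) := {z | 0 ≤ z.1 ∧ 0 ≤ z.2 ∧ lam * (hf z.1 + hf z.2) ≤ γ}

/-- the points of the sample fill the set `R`, up to `ε` -/
def Shape {ι κ : Type} [DecidableEq ι] (J : Finset κ) (A B : κ → Finset ι) (μ : ℝ) (R : Set (ℝ × ℝ)) (ε : ℝ) {m : ℕ}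
    (p : (Fin m → ι) × (Fin m → ι)) : Prop :=
  (∀ j ∈ J, ∃ z ∈ R, |(hits (A j) p.1 : ℝ) / μ - z.1| + |(hits (B j) p.2 : ℝ) / μ - z.2| ≤ ε) ∧
  (∀ z ∈ R, ∃ j ∈ J, |(hits (A j) p.1 : ℝ) / μ - z.1| + |(hits (B j) p.2 : ℝ) / μ - z.2| ≤ ε)

lemma hf_shrink {t x : ℝ} (ht0 : 0 ≤ t) (ht1 : t ≤ 1) (hx : 0 ≤ x) : hf ((1 - t) * x + t) ≤ (1 - t) * hf x := by
  have h1 := Real.convexOn_mul_log.2 (Set.mem_Ici.2 hx) (Set.mem_Ici.2 (zero_le_one' ℝ)) (by linarith : (0 : ℝ) ≤ 1 - t) ht0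
    (by ring)
  simp only [smul_eq_mul, mul_one, Real.log_one, mul_zero, add_zero] at h1
  unfold hf
  nlinarith

lemma hf_bdd {γ lam T x : ℝ} (hlam : 0 < lam) (hT1 : 1 ≤ T) (hT : γ + 1 ≤ lam * hf T) (h : lam * hf x ≤ γ + 1) : x ≤ T := by
  by_contra hcon
  rw [not_le] at hcon
  have h1 := hf_mono (Set.mem_Ici.2 hT1) (Set.mem_Ici.2 (hT1.trans hcon.le)) hcon
  have := mul_lt_mul_of_pos_left h1 hlam
  linarith

/-- **the limit shape** -/
theorem shape (γ lam ε K₀ : ℝ) (hγ : 0 < γ) (hlam : 0 < lam) (hε : 0 < ε) (hK0 : 0 ≤ K₀) :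
    ∃ c η : ℝ, 0 ≤ c ∧ 0 < η ∧ ∀ K₂ : ℝ, 0 ≤ K₂ → ∃ C : ℝ, 0 < C ∧ ∀ᶠ L : ℝ in atTop, ∀ (m : ℕ), |(m : ℝ) - lam * L ^ 2| ≤ L →
    ∀ {ι κ : Type} [DecidableEq ι] [DecidableEq κ] (Ω : Finset ι) (J : Finset κ) (A B : κ → Finset ι),
    Sys Ω J A L K₀ c K₂ → Sys Ω J B L K₀ c K₂ → Real.exp ((γ - η) * L) ≤ J.card → (J.card : ℝ) ≤ Real.exp (γ * L + 1) →
    ∀ (P : (Fin m → ι) × (Fin m → ι) → Prop) [DecidablePred P], (∀ p, P p → ¬ Shape J A B (lam * L) (Reg2 γ lam) ε p) →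
    (((Smp Ω m ×ˢ Smp Ω m).filter P).card : ℝ) ≤ C / L * ((Smp Ω m ×ˢ Smp Ω m).card : ℝ) := by
  classical
  obtain ⟨T, hT1, hT2⟩ := hf_large ((γ + 1) / lam)
  have hT : γ + 1 ≤ lam * hf T := by
    rw [div_le_iff₀ hlam] at hT2
    linarith
  obtain ⟨t, ht⟩ : ∃ t, t = min (1 / 2) (ε / (6 * T)) := ⟨_, rfl⟩
  have hT0 : 0 < T := by linarith
  have ht0 : 0 < t := by rw [ht]; exact lt_min (by norm_num) (by positivity)
  have ht1 : t ≤ 1 / 2 := by rw [ht]; exact min_le_left _ _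
  have htT : t * T ≤ ε / 6 := by
    have h1 : t ≤ ε / (6 * T) := by rw [ht]; exact min_le_right _ _
    rw [le_div_iff₀ (by positivity)] at h1
    linarith
  have hmove : ∀ x : ℝ, 0 ≤ x → x ≤ T → |x - ((1 - t) * x + t)| ≤ ε / 6 := by
    intro x hx0 hxT
    have e : x - ((1 - t) * x + t) = t * (x - 1) := by ring
    rw [e, abs_mul, abs_of_pos ht0]
    refine le_trans (mul_le_mul_of_nonneg_left ?_ ht0.le) htT
    rw [abs_le]
    constructor <;> linarith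
  obtain ⟨ε', hε'⟩ : ∃ ε', ε' = min 1 (t * γ) := ⟨_, rfl⟩
  have hε'0 : 0 < ε' := by rw [hε']; exact lt_min one_pos (by positivity)
  have hε'1 : ε' ≤ 1 := by rw [hε']; exact min_le_left _ _
  have hε't : ε' ≤ t * γ := by rw [hε']; exact min_le_right _ _
  obtain ⟨C₁, hC1, hout⟩ := outer γ lam ε' K₀ hγ hlam hε'0 hK0
  -- the finite net
  have hRc : IsCompact (Reg2 γ lam) := by
    refine IsCompact.of_isClosed_subset (isCompact_Icc.prod isCompact_Icc : IsCompact (Set.Icc (0 : ℝ) T ×ˢ Set.Icc (0 : ℝ) T))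
      ?_ ?_
    · have h1 : IsClosed {z : ℝ × ℝ | 0 ≤ z.1} := isClosed_le continuous_const continuous_fst
      have h2 : IsClosed {z : ℝ × ℝ | 0 ≤ z.2} := isClosed_le continuous_const continuous_snd
      have h3 : IsClosed {z : ℝ × ℝ | lam * (hf z.1 + hf z.2) ≤ γ} := isClosed_le
        (continuous_const.mul ((hf_continuous.comp continuous_fst).add (hf_continuous.comp continuous_snd))) continuous_const
      exact h1.inter (h2.inter h3)
    · rintro ⟨x, y⟩ ⟨hx, hy, hxy⟩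
      have gx := hf_nonneg hx
      have gy := hf_nonneg hy
      simp only at hx hy hxy gx gy
      exact ⟨⟨hx, hf_bdd hlam hT1 hT (by nlinarith)⟩, ⟨hy, hf_bdd hlam hT1 hT (by nlinarith)⟩⟩
  obtain ⟨F, hFR, hFfin, hFc⟩ := hRc.finite_cover_balls (e := ε / 6) (by positivity)
  have hnear : ∀ z ∈ F, ∃ c : ℝ, 0 ≤ c ∧ ∀ K₂ : ℝ, 0 ≤ K₂ → ∃ C : ℝ, 0 < C ∧
      ∀ᶠ L : ℝ in atTop, ∀ (m : ℕ), |(m : ℝ) - lam * L ^ 2| ≤ L →
      ∀ {ι κ : Type} [DecidableEq ι] [DecidableEq κ] (Ω : Finset ι) (J : Finset κ) (A B : κ → Finset ι),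
      Sys Ω J A L K₀ c K₂ → Sys Ω J B L K₀ c K₂ → Real.exp ((1 - t / 2) * γ * L) ≤ J.card →
      (((Smp Ω m ×ˢ Smp Ω m).filter fun p => ∀ j ∈ J,
        ε / 3 * (lam * L) < |(hits (A j) p.1 : ℝ) - ((1 - t) * z.1 + t) * lam * L| +
          |(hits (B j) p.2 : ℝ) - ((1 - t) * z.2 + t) * lam * L|).card : ℝ) ≤
        C / L * ((Smp Ω m ×ˢ Smp Ω m).card : ℝ) := by
    intro z hz
    obtain ⟨h1, h2, h3⟩ := hFR hz
    have g1 := hf_shrink ht0.le (by linarith) h1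
    have g2 := hf_shrink ht0.le (by linarith) h2
    refine near_pt ((1 - t / 2) * γ) lam _ _ (ε / 3) K₀ hlam (by nlinarith) (by nlinarith) (by positivity) hK0 ?_
    calc lam * (hf ((1 - t) * z.1 + t) + hf ((1 - t) * z.2 + t)) ≤ lam * ((1 - t) * hf z.1 + (1 - t) * hf z.2) := by
          gcongr
      _ = (1 - t) * (lam * (hf z.1 + hf z.2)) := by ring
      _ ≤ (1 - t) * γ := mul_le_mul_of_nonneg_left h3 (by linarith)
      _ < (1 - t / 2) * γ := by nlinarith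
  choose! cf hcf0 hcf using hnear
  obtain ⟨c, hc⟩ : ∃ c, c = ∑ z ∈ hFfin.toFinset, cf z := ⟨_, rfl⟩
  have hc0 : 0 ≤ c := by rw [hc]; exact sum_nonneg fun z hz => hcf0 z (hFfin.mem_toFinset.1 hz)
  have hcle : ∀ z ∈ F, cf z ≤ c := by
    intro z hz
    rw [hc]
    exact single_le_sum (f := cf) (fun z hz => hcf0 z (hFfin.mem_toFinset.1 hz)) (hFfin.mem_toFinset.2 hz)
  refine ⟨c, t / 2 * γ, hc0, by positivity, fun K₂ hK2 => ?_⟩
  have hnear2 : ∀ z ∈ F, ∃ C : ℝ, 0 < C ∧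
      ∀ᶠ L : ℝ in atTop, ∀ (m : ℕ), |(m : ℝ) - lam * L ^ 2| ≤ L →
      ∀ {ι κ : Type} [DecidableEq ι] [DecidableEq κ] (Ω : Finset ι) (J : Finset κ) (A B : κ → Finset ι),
      Sys Ω J A L K₀ (cf z) K₂ → Sys Ω J B L K₀ (cf z) K₂ → Real.exp ((1 - t / 2) * γ * L) ≤ J.card →
      (((Smp Ω m ×ˢ Smp Ω m).filter fun p => ∀ j ∈ J,
        ε / 3 * (lam * L) < |(hits (A j) p.1 : ℝ) - ((1 - t) * z.1 + t) * lam * L| +
          |(hits (B j) p.2 : ℝ) - ((1 - t) * z.2 + t) * lam * L|).card : ℝ) ≤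
        C / L * ((Smp Ω m ×ˢ Smp Ω m).card : ℝ) := fun z hz => hcf z hz K₂ hK2
  choose! Cf hCf0 hCf using hnear2
  refine ⟨C₁ + ∑ z ∈ hFfin.toFinset, Cf z, by
    have : 0 ≤ ∑ z ∈ hFfin.toFinset, Cf z := sum_nonneg fun z hz => (hCf0 z (hFfin.mem_toFinset.1 hz)).le
    linarith, ?_⟩
  have hall : ∀ᶠ L : ℝ in atTop, ∀ z ∈ hFfin.toFinset, ∀ (m : ℕ), |(m : ℝ) - lam * L ^ 2| ≤ L →
      ∀ {ι κ : Type} [DecidableEq ι] [DecidableEq κ] (Ω : Finset ι) (J : Finset κ) (A B : κ → Finset ι),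
      Sys Ω J A L K₀ (cf z) K₂ → Sys Ω J B L K₀ (cf z) K₂ → Real.exp ((1 - t / 2) * γ * L) ≤ J.card →
      (((Smp Ω m ×ˢ Smp Ω m).filter fun p => ∀ j ∈ J,
        ε / 3 * (lam * L) < |(hits (A j) p.1 : ℝ) - ((1 - t) * z.1 + t) * lam * L| +
          |(hits (B j) p.2 : ℝ) - ((1 - t) * z.2 + t) * lam * L|).card : ℝ) ≤
        Cf z / L * ((Smp Ω m ×ˢ Smp Ω m).card : ℝ) := by
    rw [Filter.eventually_all_finset]
    intro z hz
    exact hCf z (hFfin.mem_toFinset.1 hz)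
  filter_upwards [hout, hall, eventually_ge_atTop 1] with L k1 k2 l1 m hm ι κ _ _ Ω J A B hSA hSB hJ1 hJ2 P _ hP
  have hL0 : 0 < L := by linarith
  have hμ0 : 0 < lam * L := by positivity
  have t1 := k1 m hm Ω J A B c K₂ hSA hSB hJ2
  have t2 : ∀ z ∈ hFfin.toFinset, (((Smp Ω m ×ˢ Smp Ω m).filter fun p => ∀ j ∈ J,
        ε / 3 * (lam * L) < |(hits (A j) p.1 : ℝ) - ((1 - t) * z.1 + t) * lam * L| +
          |(hits (B j) p.2 : ℝ) - ((1 - t) * z.2 + t) * lam * L|).card : ℝ) ≤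
        Cf z / L * ((Smp Ω m ×ˢ Smp Ω m).card : ℝ) := by
    intro z hz
    have hle := hcle z (hFfin.mem_toFinset.1 hz)
    refine k2 z hz m hm Ω J A B (hSA.mono hle) (hSB.mono hle) ?_
    have e : (1 - t / 2) * γ * L = (γ - t / 2 * γ) * L := by ring
    rw [e]
    exact hJ1
  have hsub : (Smp Ω m ×ˢ Smp Ω m).filter P ⊆ ((Smp Ω m ×ˢ Smp Ω m).filter fun p => ∃ j ∈ J,
      γ + ε' < lam * (hf (hits (A j) p.1 / (lam * L)) + hf (hits (B j) p.2 / (lam * L)))) ∪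
      hFfin.toFinset.biUnion fun z => (Smp Ω m ×ˢ Smp Ω m).filter fun p => ∀ j ∈ J,
        ε / 3 * (lam * L) < |(hits (A j) p.1 : ℝ) - ((1 - t) * z.1 + t) * lam * L| +
          |(hits (B j) p.2 : ℝ) - ((1 - t) * z.2 + t) * lam * L| := by
    intro p hp
    obtain ⟨hp1, hp2⟩ := mem_filter.1 hp
    by_contra hcon
    rw [mem_union, not_or] at hcon
    obtain ⟨hn1, hn2⟩ := hcon
    refine hP p hp2 ⟨?_, ?_⟩
    · intro j hj
      have h1 : lam * (hf (hits (A j) p.1 / (lam * L)) + hf (hits (B j) p.2 / (lam * L))) ≤ γ + ε' := by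
        by_contra h
        exact hn1 (mem_filter.2 ⟨hp1, j, hj, not_le.1 h⟩)
      obtain ⟨X, hX⟩ : ∃ X : ℝ, X = (hits (A j) p.1 : ℝ) / (lam * L) := ⟨_, rfl⟩
      obtain ⟨Y, hY⟩ : ∃ Y : ℝ, Y = (hits (B j) p.2 : ℝ) / (lam * L) := ⟨_, rfl⟩
      have hX0 : 0 ≤ X := by rw [hX]; positivity
      have hY0 : 0 ≤ Y := by rw [hY]; positivity
      rw [← hX, ← hY] at h1 ⊢
      have gx := hf_nonneg hX0
      have gy := hf_nonneg hY0
      have g1 := hf_shrink ht0.le (by linarith) hX0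
      have g2 := hf_shrink ht0.le (by linarith) hY0
      have hXT : X ≤ T := hf_bdd hlam hT1 hT (by nlinarith)
      have hYT : Y ≤ T := hf_bdd hlam hT1 hT (by nlinarith)
      refine ⟨((1 - t) * X + t, (1 - t) * Y + t), ⟨by show 0 ≤ (1 - t) * X + t; nlinarith,
        by show 0 ≤ (1 - t) * Y + t; nlinarith, ?_⟩, ?_⟩
      · show lam * (hf ((1 - t) * X + t) + hf ((1 - t) * Y + t)) ≤ γ
        calc lam * (hf ((1 - t) * X + t) + hf ((1 - t) * Y + t)) ≤ lam * ((1 - t) * hf X + (1 - t) * hf Y) := by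
              gcongr
          _ = (1 - t) * (lam * (hf X + hf Y)) := by ring
          _ ≤ (1 - t) * (γ + t * γ) := mul_le_mul_of_nonneg_left (h1.trans (by linarith)) (by linarith)
          _ ≤ γ := by nlinarith [mul_pos ht0 (mul_pos ht0 hγ)]
      · have a1 := hmove X hX0 hXT
        have a2 := hmove Y hY0 hYT
        show |X - ((1 - t) * X + t)| + |Y - ((1 - t) * Y + t)| ≤ ε
        linarith
    · intro z hz
      have h1 := hFc hz
      rw [Set.mem_iUnion₂] at h1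
      obtain ⟨f, hf1, hf2⟩ := h1
      have h2 : p ∉ (Smp Ω m ×ˢ Smp Ω m).filter fun p => ∀ j ∈ J,
        ε / 3 * (lam * L) < |(hits (A j) p.1 : ℝ) - ((1 - t) * f.1 + t) * lam * L| +
          |(hits (B j) p.2 : ℝ) - ((1 - t) * f.2 + t) * lam * L| := by
        intro hmem
        exact hn2 (mem_biUnion.2 ⟨f, hFfin.mem_toFinset.2 hf1, hmem⟩)
      have h3 : ∃ j ∈ J, |(hits (A j) p.1 : ℝ) - ((1 - t) * f.1 + t) * lam * L| +
          |(hits (B j) p.2 : ℝ) - ((1 - t) * f.2 + t) * lam * L| ≤ ε / 3 * (lam * L) := by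
        by_contra hcon
        push Not at hcon
        exact h2 (mem_filter.2 ⟨hp1, hcon⟩)
      obtain ⟨j, hj, h4⟩ := h3
      refine ⟨j, hj, ?_⟩
      obtain ⟨X, hX⟩ : ∃ X : ℝ, X = (hits (A j) p.1 : ℝ) / (lam * L) := ⟨_, rfl⟩
      obtain ⟨Y, hY⟩ : ∃ Y : ℝ, Y = (hits (B j) p.2 : ℝ) / (lam * L) := ⟨_, rfl⟩
      have eX : (hits (A j) p.1 : ℝ) = X * (lam * L) := by rw [hX, div_mul_cancel₀ _ hμ0.ne']
      have eY : (hits (B j) p.2 : ℝ) = Y * (lam * L) := by rw [hY, div_mul_cancel₀ _ hμ0.ne']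
      rw [← hX, ← hY]
      rw [eX, eY] at h4
      have e1 : X * (lam * L) - ((1 - t) * f.1 + t) * lam * L = (X - ((1 - t) * f.1 + t)) * (lam * L) := by ring
      have e2 : Y * (lam * L) - ((1 - t) * f.2 + t) * lam * L = (Y - ((1 - t) * f.2 + t)) * (lam * L) := by ring
      rw [e1, e2, abs_mul (X - ((1 - t) * f.1 + t)), abs_mul (Y - ((1 - t) * f.2 + t)), abs_of_pos hμ0, ← add_mul] at h4
      have h5 := le_of_mul_le_mul_right h4 hμ0
      obtain ⟨f1, f2, f3⟩ := hFR hf1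
      have gx := hf_nonneg f1
      have gy := hf_nonneg f2
      have a1 := hmove f.1 f1 (hf_bdd hlam hT1 hT (by nlinarith))
      have a2 := hmove f.2 f2 (hf_bdd hlam hT1 hT (by nlinarith))
      rw [Metric.mem_ball, Prod.dist_eq, max_lt_iff, Real.dist_eq, Real.dist_eq] at hf2
      have b1 : |X - z.1| ≤ |X - ((1 - t) * f.1 + t)| + |f.1 - ((1 - t) * f.1 + t)| + |z.1 - f.1| := by
        have e : X - z.1 = (X - ((1 - t) * f.1 + t)) - (f.1 - ((1 - t) * f.1 + t)) - (z.1 - f.1) := by ring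
        rw [e]
        exact (abs_sub _ _).trans (add_le_add (abs_sub _ _) le_rfl)
      have b2 : |Y - z.2| ≤ |Y - ((1 - t) * f.2 + t)| + |f.2 - ((1 - t) * f.2 + t)| + |z.2 - f.2| := by
        have e : Y - z.2 = (Y - ((1 - t) * f.2 + t)) - (f.2 - ((1 - t) * f.2 + t)) - (z.2 - f.2) := by ring
        rw [e]
        exact (abs_sub _ _).trans (add_le_add (abs_sub _ _) le_rfl)
      linarith [hf2.1, hf2.2]
  have hcard := (card_le_card hsub).trans ((card_union_le _ _).trans (Nat.add_le_add_left card_biUnion_le _))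
  have hcard' : (((Smp Ω m ×ˢ Smp Ω m).filter P).card : ℝ) ≤ ((Smp Ω m ×ˢ Smp Ω m).filter fun p => ∃ j ∈ J,
      γ + ε' < lam * (hf (hits (A j) p.1 / (lam * L)) + hf (hits (B j) p.2 / (lam * L)))).card +
      ∑ z ∈ hFfin.toFinset, (((Smp Ω m ×ˢ Smp Ω m).filter fun p => ∀ j ∈ J,
        ε / 3 * (lam * L) < |(hits (A j) p.1 : ℝ) - ((1 - t) * z.1 + t) * lam * L| +
          |(hits (B j) p.2 : ℝ) - ((1 - t) * z.2 + t) * lam * L|).card : ℝ) := by exact_mod_cast hcard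
  refine hcard'.trans ((add_le_add t1 (sum_le_sum t2)).trans (le_of_eq ?_))
  rw [← sum_mul, ← sum_div]
  ring

end Pool.Agent.Run7.h880.RP
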