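import Mathlib
import Pool.Agent.Run7.h337.MK.Pow
import Pool.Agent.Run7.h794.MK.SiaAll

/-! Primes in the windows of a family, with a precise error term, from `S_SIA`. -/

set_option autoImplicit false

namespace Pool.Agent.Run7.h880.RP

open Finset Filter
open Pool.Agent.N384.MQ (ev_log_pow ev_log_ge)

/-- the von Mangoldt function -/
noncomputable def Lm (n : ℕ) : ℝ := ArithmeticFunction.vonMangoldt n

lemma Lm_nonneg (n : ℕ) : 0 ≤ Lm n := ArithmeticFunction.vonMangoldt_nonneg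

lemma Lm_le {n : ℕ} {Y : ℝ} (hn : (n : ℝ) ≤ Y) (hY : 1 ≤ Y) : Lm n ≤ Real.log Y := by
  rcases Nat.eq_zero_or_pos n with h | h
  · rw [h]
    unfold Lm
    simp
    exact Real.log_nonneg hY
  · refine (ArithmeticFunction.vonMangoldt_le_log).trans (Real.log_le_log (by exact_mod_cast h) hn)

/-- sums over windows -/
noncomputable def Q (a b : ℕ) : ℝ := ∑ n ∈ Ioc a b, Lm n

lemma Q_nonneg (a b : ℕ) : 0 ≤ Q a b := sum_nonneg fun n _ => Lm_nonneg n

lemma Q_le (a d : ℕ) {Y : ℝ} (h : ((a + d : ℕ) : ℝ) ≤ Y) (hY : 1 ≤ Y) : Q a (a + d) ≤ d * Real.log Y := by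
  unfold Q
  calc ∑ n ∈ Ioc a (a + d), Lm n ≤ ∑ _n ∈ Ioc a (a + d), Real.log Y := by
        refine sum_le_sum fun n hn => Lm_le ?_ hY
        rw [mem_Ioc] at hn
        have : (n : ℝ) ≤ ((a + d : ℕ) : ℝ) := by exact_mod_cast hn.2
        linarith
    _ = _ := by rw [sum_const, Nat.card_Ioc, nsmul_eq_mul]; congr 1; push_cast [Nat.add_sub_cancel_left]; rfl

lemma Q_add {a b c : ℕ} (h1 : a ≤ b) (h2 : b ≤ c) : Q a c = Q a b + Q b c := by
  unfold Q
  rw [← sum_union]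
  · congr 1
    ext n
    rw [mem_union, mem_Ioc, mem_Ioc, mem_Ioc]
    omega
  · rw [disjoint_left]
    intro n hn hn'
    rw [mem_Ioc] at hn hn'
    omega

lemma Q_shift (a d M : ℕ) {Y : ℝ} (h : ((a + M + d : ℕ) : ℝ) ≤ Y) (hY : 1 ≤ Y) :
    |Q (a + d) (a + d + M) - Q a (a + M)| ≤ d * Real.log Y := by
  have e1 : Q a (a + M + d) = Q a (a + M) + Q (a + M) (a + M + d) := Q_add (by omega) (by omega)
  have e2 : Q a (a + M + d) = Q a (a + d) + Q (a + d) (a + M + d) := Q_add (by omega) (by omega)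
  have e3 : a + d + M = a + M + d := by omega
  rw [e3]
  have h1 := Q_le (a + M) d h hY
  have h2 : Q a (a + d) ≤ d * Real.log Y := by
    refine Q_le a d ?_ hY
    refine le_trans ?_ h
    exact_mod_cast (by omega : a + d ≤ a + M + d)
  have h3 := Q_nonneg (a + M) (a + M + d)
  have h4 := Q_nonneg a (a + d)
  rw [abs_le]
  constructor <;> linarith

lemma Q_range (a B : ℕ) : Q a (a + B) = ∑ i ∈ range B, Lm (a + 1 + i) := by
  unfold Q
  have : Ioc a (a + B) = Ico (a + 1) (a + 1 + B) := by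
    ext n
    rw [mem_Ioc, mem_Ico]
    omega
  rw [this, sum_Ico_eq_sum_range]
  congr 2
  omega

/-- tiling -/
lemma tile (u M B : ℕ) {Y : ℝ} (h : ((u + M + B : ℕ) : ℝ) ≤ Y) (hY : 1 ≤ Y) :
    |∑ m ∈ Ioc u (u + M), Q m (m + B) - B * Q u (u + M)| ≤ B * (B * Real.log Y) := by
  have h1 : ∑ m ∈ Ioc u (u + M), Q m (m + B) = ∑ i ∈ range B, Q (u + (1 + i)) (u + (1 + i) + M) := by
    rw [sum_congr rfl fun m _ => Q_range m B, sum_comm]
    refine sum_congr rfl fun i _ => ?_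
    unfold Q
    refine sum_bij (fun m _ => m + 1 + i) ?_ ?_ ?_ ?_
    · intro m hm
      rw [mem_Ioc] at hm ⊢
      omega
    · intro m _ m' _ he
      omega
    · intro n hn
      rw [mem_Ioc] at hn
      exact ⟨n - 1 - i, by rw [mem_Ioc]; omega, by omega⟩
    · intro m _
      rfl
  have h2 : (B : ℝ) * Q u (u + M) = ∑ _i ∈ range B, Q u (u + M) := by rw [sum_const, card_range, nsmul_eq_mul]
  rw [h1, h2, ← sum_sub_distrib]
  refine (abs_sum_le_sum_abs _ _).trans ?_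
  calc ∑ i ∈ range B, |Q (u + (1 + i)) (u + (1 + i) + M) - Q u (u + M)| ≤ ∑ _i ∈ range B, B * Real.log Y := by
        refine sum_le_sum fun i hi => ?_
        rw [mem_range] at hi
        have h3 := Q_shift u (1 + i) M (Y := Y) (le_trans (by exact_mod_cast (by omega : u + M + (1 + i) ≤ u + M + B)) h) hY
        refine h3.trans (mul_le_mul_of_nonneg_right ?_ (Real.log_nonneg hY))
        exact_mod_cast (by omega : 1 + i ≤ B)
    _ = _ := by rw [sum_const, card_range, nsmul_eq_mul]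

open Pool.Agent.Q236.CR in
/-- `S_SIA` for the trivial character -/
lemma sia1 (U : ℕ) : ∃ C X₀ : ℕ, ∀ x : ℕ, X₀ ≤ x → ∀ Y : ℕ, (x : ℝ) ^ (1 / 3 : ℝ) * Real.log x ^ C ≤ Y → Y ≤ x →
    ∑ m ∈ Ioc x (2 * x), (Q m (m + Y) - Y) ^ 2 ≤ x * (Y : ℝ) ^ 2 / Real.log x ^ U := by
  obtain ⟨C, X₀, h⟩ := Pool.Agent.Run7.h794.MK.sia_all 0 U
  refine ⟨C, X₀, fun x hx Y h1 h2 => ?_⟩
  have h3 := (h x hx 1 le_rfl (by simp) 0 Y h1 h2).1
  refine le_trans (le_of_eq ?_) h3
  refine sum_congr rfl fun m _ => ?_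
  have e0 : ∀ t : ℝ, t = 0 → Pool.Agent.H469R2.NK.e t = 1 := by
    intro t ht
    rw [ht]
    simp [Pool.Agent.H469R2.NK.e]
  have e1 : cc 1 0 = 1 := by
    unfold cc
    simp [e0]
  have e2 : ∑ n ∈ Ioc m (m + Y), (ArithmeticFunction.vonMangoldt n : ℂ) * Pool.Agent.H469R2.NK.e (((0 : ℕ) : ℝ) * n / ((1 : ℕ) : ℝ)) =
      ((Q m (m + Y) : ℝ) : ℂ) := by
    unfold Q Lm
    push_cast
    refine sum_congr rfl fun n _ => ?_
    rw [e0 _ (by simp), mul_one]
  rw [e2, e1, one_mul, ← Complex.ofReal_natCast, ← Complex.ofReal_sub, Complex.norm_real, Real.norm_eq_abs, sq_abs]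

/-- double counting -/
lemma dc {κ : Type} (J : Finset κ) (u : κ → ℕ) (M T : ℕ) (S : Finset ℕ)
    (hS : ∀ j ∈ J, Ioc (u j) (u j + M) ⊆ S) (hT : ∀ n, ((J.filter fun j => u j < n ∧ n ≤ u j + M).card) ≤ T)
    (g : ℕ → ℝ) (hg : ∀ n, 0 ≤ g n) : ∑ j ∈ J, ∑ m ∈ Ioc (u j) (u j + M), g m ≤ T * ∑ m ∈ S, g m := by
  classical
  have h1 : ∀ j ∈ J, ∑ m ∈ Ioc (u j) (u j + M), g m = ∑ m ∈ S, (if u j < m ∧ m ≤ u j + M then 1 else 0) * g m := by
    intro j hj
    simp only [ite_mul, one_mul, zero_mul]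
    rw [← sum_filter]
    refine sum_congr ?_ fun _ _ => rfl
    ext m
    rw [mem_filter, mem_Ioc]
    exact ⟨fun h => ⟨hS j hj (mem_Ioc.2 h), h⟩, fun h => h.2⟩
  rw [sum_congr rfl h1, sum_comm, mul_sum]
  refine sum_le_sum fun m _ => ?_
  rw [← sum_mul, sum_boole]
  refine mul_le_mul_of_nonneg_right ?_ (hg m)
  exact_mod_cast hT m

lemma cheb {κ : Type} (J : Finset κ) (g : κ → ℝ) (hg : ∀ j ∈ J, 0 ≤ g j) (t S : ℝ) (hS : ∑ j ∈ J, g j ≤ S) :
    ((J.filter fun j => t < g j).card : ℝ) * t ≤ S := by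
  calc ((J.filter fun j => t < g j).card : ℝ) * t = ∑ _j ∈ J.filter (fun j => t < g j), t := by
        rw [sum_const, nsmul_eq_mul]
    _ ≤ ∑ j ∈ J.filter (fun j => t < g j), g j := sum_le_sum fun j hj => (mem_filter.1 hj).2.le
    _ ≤ ∑ j ∈ J, g j := sum_le_sum_of_subset_of_nonneg (filter_subset _ _) fun j hj _ => hg j hj
    _ ≤ S := hS

/-- **primes in the windows of a family** -/
theorem fam (U : ℕ) : ∃ C X₀ : ℕ, ∀ X : ℕ, X₀ ≤ X → ∀ {κ : Type} [DecidableEq κ] (J : Finset κ) (u : κ → ℕ) (M T : ℕ),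
    (X : ℝ) ^ (1 / 3 : ℝ) * Real.log X ^ C ≤ M → M ≤ X → (∀ j ∈ J, X ≤ u j ∧ u j + M ≤ 6 * X) →
    (∀ n, ((J.filter fun j => u j < n ∧ n ≤ u j + M).card) ≤ T) →
    ∃ Bad : Finset κ, Bad ⊆ J ∧ (Bad.card : ℝ) * M ≤ T * (X / Real.log X ^ U) ∧ ∀ j ∈ J, j ∉ Bad →
    |(((Ioc (u j) (u j + M)).filter Nat.Prime).card : ℝ) / M - 1 / Real.log X| ≤ 12 / Real.log X ^ 2 := by
  classical
  obtain ⟨C₁, X₁, h⟩ := sia1 (2 * (U + 3))
  obtain ⟨X₂, hev⟩ := eventually_atTop.1 ((ev_log_ge (24 * 2 ^ C₁ + 20)).and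
    (Run7.h337.MK.ev_pw (U + 3) 20))
  refine ⟨C₁ + 5, max X₁ (max X₂ 3), fun X hX κ _ J u M T hM1 hM2 hu hT => ?_⟩
  obtain ⟨l1, l2⟩ := hev X (le_trans (le_trans (le_max_left _ _) (le_max_right _ _)) hX)
  have hX1 : X₁ ≤ X := le_trans (le_max_left _ _) hX
  have hX3 : 3 ≤ X := le_trans (le_trans (le_max_right _ _) (le_max_right _ _)) hX
  have hX3r : (3 : ℝ) ≤ X := by exact_mod_cast hX3
  have hX0 : (0 : ℝ) < X := by linarith
  obtain ⟨L, hL⟩ : ∃ L, L = Real.log X := ⟨_, rfl⟩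
  rw [← hL] at l1 l2 hM1 ⊢
  have h2C : (0 : ℝ) < 2 ^ C₁ := by positivity
  have hL20 : 20 ≤ L := by linarith
  have hL0 : 0 < L := by linarith
  have hL1 : 1 ≤ L := by linarith
  obtain ⟨x3, hx3⟩ : ∃ x3 : ℝ, x3 = (X : ℝ) ^ (1 / 3 : ℝ) := ⟨_, rfl⟩
  rw [← hx3] at l2 hM1
  have hx31 : 1 ≤ x3 := by rw [hx3]; exact Real.one_le_rpow (by linarith) (by norm_num)
  have hlog8 : ∀ c : ℕ, 1 ≤ c → c ≤ 8 → Real.log ((c * X : ℕ) : ℝ) ≤ L + 3 := by
    intro c hc1 hc8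
    push_cast
    have hc : (0 : ℝ) < c := by exact_mod_cast hc1
    rw [Real.log_mul hc.ne' hX0.ne', ← hL]
    have h1 : Real.log (c : ℝ) ≤ 3 := by
      rw [Real.log_le_iff_le_exp hc]
      have h2 : (c : ℝ) ≤ 8 := by exact_mod_cast hc8
      have h3 : (2.7182818283 : ℝ) < Real.exp 1 := Real.exp_one_gt_d9
      have h4 : Real.exp 3 = Real.exp 1 * Real.exp 1 * Real.exp 1 := by rw [← Real.exp_add, ← Real.exp_add]; norm_num
      rw [h4]
      nlinarith [mul_pos (Real.exp_pos 1) (Real.exp_pos 1)]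
    linarith
  -- the length of the tiles
  obtain ⟨B, hB⟩ : ∃ B : ℕ, B = ⌊(M : ℝ) / (6 * L ^ 3)⌋₊ := ⟨_, rfl⟩
  have hMlo : x3 * L ^ (C₁ + 5) ≤ M := hM1
  have hMr : (0 : ℝ) < M := lt_of_lt_of_le (by positivity) hMlo
  have hM12 : 12 * L ^ 3 ≤ M := by
    have h1 : L ^ 3 * 20 ≤ L ^ 3 * L := mul_le_mul_of_nonneg_left hL20 (by positivity)
    have h2 : L ^ 3 * L ≤ L ^ (C₁ + 5) := by rw [← pow_succ]; exact pow_le_pow_right₀ hL1 (by omega)
    have h3 : 1 * L ^ (C₁ + 5) ≤ x3 * L ^ (C₁ + 5) := mul_le_mul_of_nonneg_right hx31 (by positivity)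
    have h4 : 0 < L ^ 3 := by positivity
    linarith
  have hBhi : (B : ℝ) * (6 * L ^ 3) ≤ M := by
    have h1 : (B : ℝ) ≤ M / (6 * L ^ 3) := by rw [hB]; exact Nat.floor_le (by positivity)
    rwa [le_div_iff₀ (by positivity)] at h1
  have hBlo : (M : ℝ) ≤ B * (12 * L ^ 3) := by
    have h1 : (M : ℝ) / (6 * L ^ 3) < B + 1 := by rw [hB]; exact Nat.lt_floor_add_one _
    rw [div_lt_iff₀ (by positivity)] at h1
    nlinarith
  have hB0 : (0 : ℝ) < B := by
    rcases (Nat.cast_nonneg (α := ℝ) B).eq_or_lt with h0 | h0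
    · rw [← h0, zero_mul] at hBlo
      linarith
    · exact h0
  have hBM : B ≤ M := by
    have h1 : (B : ℝ) * 1 ≤ B * (6 * L ^ 3) := by
      refine mul_le_mul_of_nonneg_left ?_ hB0.le
      have : 1 ≤ L ^ 3 := one_le_pow₀ hL1
      linarith
    have h2 : (B : ℝ) ≤ M := by linarith
    exact_mod_cast h2
  have hcond : ∀ c : ℕ, 1 ≤ c → c ≤ 4 → ((c * X : ℕ) : ℝ) ^ (1 / 3 : ℝ) * Real.log ((c * X : ℕ) : ℝ) ^ C₁ ≤ B := by
    intro c hc1 hc4
    have h1 : ((c * X : ℕ) : ℝ) ^ (1 / 3 : ℝ) ≤ 2 * x3 := by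
      push_cast
      rw [Real.mul_rpow (by positivity) hX0.le, ← hx3]
      refine mul_le_mul_of_nonneg_right ?_ (by linarith)
      have h2 : (c : ℝ) ≤ 8 := by exact_mod_cast (by omega : c ≤ 8)
      have h3 : (c : ℝ) ^ (1 / 3 : ℝ) ≤ (8 : ℝ) ^ (1 / 3 : ℝ) := Real.rpow_le_rpow (by positivity) h2 (by norm_num)
      have h4 : (8 : ℝ) ^ (1 / 3 : ℝ) = 2 := by
        have : (8 : ℝ) = 2 ^ (3 : ℝ) := by norm_num
        rw [this, ← Real.rpow_mul (by norm_num)]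
        norm_num
      linarith
    have h2 : Real.log ((c * X : ℕ) : ℝ) ≤ 2 * L := by
      have := hlog8 c hc1 (by omega)
      linarith
    have h20 : 0 ≤ Real.log ((c * X : ℕ) : ℝ) := Real.log_natCast_nonneg _
    have h3 : Real.log ((c * X : ℕ) : ℝ) ^ C₁ ≤ 2 ^ C₁ * L ^ C₁ := by
      rw [← mul_pow]
      exact pow_le_pow_left₀ h20 h2 _
    have h4 : ((c * X : ℕ) : ℝ) ^ (1 / 3 : ℝ) * Real.log ((c * X : ℕ) : ℝ) ^ C₁ ≤ 2 * x3 * (2 ^ C₁ * L ^ C₁) :=
      mul_le_mul h1 h3 (by positivity) (by linarith)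
    refine h4.trans ?_
    have h5 : 2 * x3 * (2 ^ C₁ * L ^ C₁) * (12 * L ^ 3) ≤ B * (12 * L ^ 3) := by
      calc 2 * x3 * (2 ^ C₁ * L ^ C₁) * (12 * L ^ 3) = (24 * 2 ^ C₁) * (x3 * L ^ (C₁ + 3)) := by
            rw [pow_add]; ring
        _ ≤ L * (x3 * L ^ (C₁ + 3)) := mul_le_mul_of_nonneg_right (by linarith) (by positivity)
        _ = x3 * L ^ (C₁ + 4) := by ring
        _ ≤ x3 * L ^ (C₁ + 5) := mul_le_mul_of_nonneg_left (pow_le_pow_right₀ hL1 (by omega)) (by positivity)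
        _ ≤ M := hMlo
        _ ≤ _ := hBlo
    exact le_of_mul_le_mul_right h5 (by positivity)
  -- the mean square
  obtain ⟨er, her⟩ : ∃ er : ℕ → ℝ, er = fun m => |Q m (m + B) - B| := ⟨_, rfl⟩
  have her0 : ∀ m, 0 ≤ er m := fun m => by rw [her]; exact abs_nonneg _
  have hone : ∀ c : ℕ, 1 ≤ c → c ≤ 4 → ∑ m ∈ Ioc (c * X) (2 * (c * X)), er m ^ 2 ≤ 4 * (X * (B : ℝ) ^ 2 / L ^ (2 * (U + 3))) := by
    intro c hc1 hc4
    have h1 : X ≤ c * X := Nat.le_mul_of_pos_left _ hc1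
    have h2 := h (c * X) (hX1.trans h1) B (hcond c hc1 hc4) (by omega)
    have h3 : ∑ m ∈ Ioc (c * X) (2 * (c * X)), er m ^ 2 = ∑ m ∈ Ioc (c * X) (2 * (c * X)), (Q m (m + B) - B) ^ 2 := by
      refine sum_congr rfl fun m _ => ?_
      rw [her]
      exact sq_abs _
    rw [h3]
    refine h2.trans ?_
    have h4 : L ≤ Real.log ((c * X : ℕ) : ℝ) := by
      rw [hL]
      exact Real.log_le_log hX0 (by exact_mod_cast h1)
    have h5 : ((c * X : ℕ) : ℝ) ≤ 4 * X := by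
      push_cast
      have : (c : ℝ) ≤ 4 := by exact_mod_cast hc4
      exact mul_le_mul_of_nonneg_right this hX0.le
    calc ((c * X : ℕ) : ℝ) * (B : ℝ) ^ 2 / Real.log ((c * X : ℕ) : ℝ) ^ (2 * (U + 3))
        ≤ (4 * X) * (B : ℝ) ^ 2 / L ^ (2 * (U + 3)) := by
          refine div_le_div₀ (by positivity) (mul_le_mul_of_nonneg_right h5 (by positivity)) (by positivity) ?_
          exact pow_le_pow_left₀ hL0.le h4 _
      _ = _ := by ring
  have hsq : ∑ m ∈ Ioc X (8 * X), er m ^ 2 ≤ 12 * (X * (B : ℝ) ^ 2 / L ^ (2 * (U + 3))) := by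
    have e : Ioc X (8 * X) = Ioc (1 * X) (2 * (1 * X)) ∪ (Ioc (2 * X) (2 * (2 * X)) ∪ Ioc (4 * X) (2 * (4 * X))) := by
      ext m
      rw [mem_union, mem_union, mem_Ioc, mem_Ioc, mem_Ioc, mem_Ioc]
      omega
    rw [e]
    have h1 := hone 1 le_rfl (by norm_num)
    have h2 := hone 2 (by norm_num) (by norm_num)
    have h3 := hone 4 (by norm_num) le_rfl
    have g0 : ∀ S S' : Finset ℕ, ∑ m ∈ S ∪ S', er m ^ 2 ≤ ∑ m ∈ S, er m ^ 2 + ∑ m ∈ S', er m ^ 2 := by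
      intro S S'
      rw [← sum_union_inter]
      have : 0 ≤ ∑ m ∈ S ∩ S', er m ^ 2 := sum_nonneg fun _ _ => sq_nonneg _
      linarith
    have h4 := g0 (Ioc (1 * X) (2 * (1 * X))) (Ioc (2 * X) (2 * (2 * X)) ∪ Ioc (4 * X) (2 * (4 * X)))
    have h5 := g0 (Ioc (2 * X) (2 * (2 * X))) (Ioc (4 * X) (2 * (4 * X)))
    linarith
  have hsum : ∑ m ∈ Ioc X (8 * X), er m ≤ 10 * (X * B / L ^ (U + 3)) := by
    have h1 : (∑ m ∈ Ioc X (8 * X), er m) ^ 2 ≤ (Ioc X (8 * X)).card * ∑ m ∈ Ioc X (8 * X), er m ^ 2 :=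
      sq_sum_le_card_mul_sum_sq
    have h2 : ((Ioc X (8 * X)).card : ℝ) = 7 * X := by
      rw [Nat.card_Ioc, Nat.cast_sub (by omega)]
      push_cast
      ring
    rw [h2] at h1
    have h3 : (∑ m ∈ Ioc X (8 * X), er m) ^ 2 ≤ (10 * (X * B / L ^ (U + 3))) ^ 2 := by
      refine h1.trans ((mul_le_mul_of_nonneg_left hsq (by positivity)).trans ?_)
      have e : (10 * (X * B / L ^ (U + 3))) ^ 2 = 100 * ((X : ℝ) ^ 2 * (B : ℝ) ^ 2 / L ^ (2 * (U + 3))) := by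
        rw [mul_pow, div_pow, mul_pow, ← pow_mul, mul_comm (U + 3) 2]
        norm_num
      rw [e]
      have h4 : 0 ≤ (X : ℝ) ^ 2 * (B : ℝ) ^ 2 / L ^ (2 * (U + 3)) := by positivity
      calc 7 * (X : ℝ) * (12 * (X * (B : ℝ) ^ 2 / L ^ (2 * (U + 3)))) = 84 * ((X : ℝ) ^ 2 * (B : ℝ) ^ 2 / L ^ (2 * (U + 3))) := by ring
        _ ≤ _ := by linarith
    exact le_of_sq_le_sq h3 (by positivity)
  -- the prime powers
  obtain ⟨pp, hpp⟩ : ∃ pp : ℕ → ℝ, pp = fun n => if n.Prime then 0 else Lm n := ⟨_, rfl⟩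
  have hpp0 : ∀ n, 0 ≤ pp n := fun n => by
    rw [hpp]
    show 0 ≤ if n.Prime then 0 else Lm n
    split_ifs
    · exact le_rfl
    · exact Lm_nonneg n
  have hpps : ∑ n ∈ Ioc 0 (6 * X), pp n ≤ X / L ^ (U + 2) := by
    have h1 : ∑ n ∈ Ioc 0 (6 * X), pp n = Chebyshev.psi ((6 * X : ℕ) : ℝ) - Chebyshev.theta ((6 * X : ℕ) : ℝ) := by
      rw [Chebyshev.psi_sub_theta_eq_sum_not_prime, Nat.floor_natCast, sum_filter, hpp]
      refine sum_congr rfl fun n _ => ?_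
      by_cases hp : n.Prime
      · simp [hp]
      · simp [hp, Lm]
    rw [h1]
    have h2 := Chebyshev.psi_sub_theta_le (x := ((6 * X : ℕ) : ℝ)) (by push_cast; linarith)
    refine h2.trans ?_
    have h3 := hlog8 6 (by norm_num) (by norm_num)
    have h4 : √((6 * X : ℕ) : ℝ) ≤ 3 * √(X : ℝ) := by
      rw [show (3 : ℝ) = √9 by rw [show (9 : ℝ) = 3 ^ 2 by norm_num, Real.sqrt_sq (by norm_num)], ← Real.sqrt_mul (by norm_num)]
      refine Real.sqrt_le_sqrt ?_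
      push_cast
      linarith
    have h5 : x3 ≤ √(X : ℝ) := by
      rw [hx3, Real.sqrt_eq_rpow]
      exact Real.rpow_le_rpow_of_exponent_le (by linarith) (by norm_num)
    have hs0 : 0 < √(X : ℝ) := Real.sqrt_pos.2 hX0
    have hss : √(X : ℝ) * √(X : ℝ) = X := Real.mul_self_sqrt hX0.le
    have h6 : 20 * L ^ (U + 3) ≤ √(X : ℝ) := l2.trans h5
    rw [le_div_iff₀ (by positivity)]
    have h7 : Real.log ((6 * X : ℕ) : ℝ) ≤ 2 * L := by linarith
    calc 2 * √((6 * X : ℕ) : ℝ) * Real.log ((6 * X : ℕ) : ℝ) * L ^ (U + 2)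
        ≤ 2 * (3 * √(X : ℝ)) * (2 * L) * L ^ (U + 2) := by gcongr
      _ = √(X : ℝ) * (12 * L ^ (U + 3)) := by ring
      _ ≤ √(X : ℝ) * √(X : ℝ) := by
          refine mul_le_mul_of_nonneg_left ?_ hs0.le
          have : 0 < L ^ (U + 3) := by positivity
          linarith
      _ = X := hss
  -- the bad indices
  have hwin : ∀ j ∈ J, Ioc (u j) (u j + M) ⊆ Ioc X (8 * X) := by
    intro j hj m hm
    rw [mem_Ioc] at hm ⊢
    have := hu j hj
    omega
  have hwin2 : ∀ j ∈ J, Ioc (u j) (u j + M) ⊆ Ioc 0 (6 * X) := by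
    intro j hj m hm
    rw [mem_Ioc] at hm ⊢
    have := hu j hj
    omega
  have hW := dc J u M T _ hwin hT er her0
  have hW2 := dc J u M T _ hwin2 hT pp hpp0
  obtain ⟨B1, hB1⟩ : ∃ B1, B1 = J.filter fun j => M * B / L < ∑ m ∈ Ioc (u j) (u j + M), er m := ⟨_, rfl⟩
  obtain ⟨B2, hB2⟩ : ∃ B2, B2 = J.filter fun j => M / L < ∑ m ∈ Ioc (u j) (u j + M), pp m := ⟨_, rfl⟩
  have hT0 : (0 : ℝ) ≤ T := Nat.cast_nonneg T
  have c1 := cheb J (fun j => ∑ m ∈ Ioc (u j) (u j + M), er m) (fun j _ => sum_nonneg fun m _ => her0 m) (M * B / L) _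
    (hW.trans (mul_le_mul_of_nonneg_left hsum hT0))
  have c2 := cheb J (fun j => ∑ m ∈ Ioc (u j) (u j + M), pp m) (fun j _ => sum_nonneg fun m _ => hpp0 m) (M / L) _
    (hW2.trans (mul_le_mul_of_nonneg_left hpps hT0))
  rw [← hB1] at c1
  rw [← hB2] at c2
  refine ⟨B1 ∪ B2, ?_, ?_, ?_⟩
  · rw [hB1, hB2]
    exact union_subset (filter_subset _ _) (filter_subset _ _)
  · have h1 : ((B1 ∪ B2).card : ℝ) ≤ B1.card + B2.card := by exact_mod_cast card_union_le _ _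
    have h2 : (B1.card : ℝ) * M ≤ T * (10 * (X / L ^ (U + 2))) := by
      have h3 : (B1.card : ℝ) * M * (B / L) ≤ T * (10 * (X / L ^ (U + 2))) * (B / L) := by
        calc (B1.card : ℝ) * M * (B / L) = B1.card * (M * B / L) := by ring
          _ ≤ _ := c1
          _ = _ := by rw [pow_succ L (U + 2)]; field_simp
      exact le_of_mul_le_mul_right h3 (by positivity)
    have h3 : (B2.card : ℝ) * M ≤ T * (X / L ^ (U + 1)) := by
      have h4 : (B2.card : ℝ) * M * (1 / L) ≤ T * (X / L ^ (U + 1)) * (1 / L) := by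
        calc (B2.card : ℝ) * M * (1 / L) = B2.card * (M / L) := by ring
          _ ≤ _ := c2
          _ = _ := by rw [pow_succ L (U + 1)]; field_simp
      exact le_of_mul_le_mul_right h4 (by positivity)
    have h4 : 10 * ((X : ℝ) / L ^ (U + 2)) ≤ 1 / 2 * (X / L ^ U) := by
      have e : (X : ℝ) / L ^ (U + 2) = X / L ^ U / L ^ 2 := by rw [pow_add]; field_simp
      rw [e]
      have h5 : (X : ℝ) / L ^ U / L ^ 2 ≤ X / L ^ U / 20 :=
        div_le_div_of_nonneg_left (by positivity) (by norm_num) (by nlinarith)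
      linarith
    have h5 : (X : ℝ) / L ^ (U + 1) ≤ 1 / 2 * (X / L ^ U) := by
      have e : (X : ℝ) / L ^ (U + 1) = X / L ^ U / L := by rw [pow_add]; field_simp
      rw [e]
      have h5 : (X : ℝ) / L ^ U / L ≤ X / L ^ U / 2 :=
        div_le_div_of_nonneg_left (by positivity) (by norm_num) (by linarith)
      linarith
    calc ((B1 ∪ B2).card : ℝ) * M ≤ (B1.card + B2.card) * M := mul_le_mul_of_nonneg_right h1 hMr.le
      _ ≤ T * (1 / 2 * (X / L ^ U)) + T * (1 / 2 * (X / L ^ U)) := by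
          have := mul_le_mul_of_nonneg_left h4 hT0
          have := mul_le_mul_of_nonneg_left h5 hT0
          linarith
      _ = _ := by ring
  · intro j hj hjB
    rw [mem_union, not_or, hB1, hB2, mem_filter, mem_filter, not_and, not_and] at hjB
    have a1 := not_lt.1 (hjB.1 hj)
    have a2 := not_lt.1 (hjB.2 hj)
    obtain ⟨hu1, hu2⟩ := hu j hj
    obtain ⟨Y, hY⟩ : ∃ Y : ℝ, Y = ((8 * X : ℕ) : ℝ) := ⟨_, rfl⟩
    have hY1 : 1 ≤ Y := by rw [hY]; push_cast; linarith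
    have hlY : Real.log Y ≤ 3 * L := by
      have := hlog8 8 (by norm_num) le_rfl
      rw [← hY] at this
      linarith
    have t1 := tile (u j) M B (Y := Y) (by rw [hY]; exact_mod_cast (by omega : u j + M + B ≤ 8 * X)) hY1
    have t2 : |∑ m ∈ Ioc (u j) (u j + M), Q m (m + B) - M * B| ≤ M * B / L := by
      have e : (M : ℝ) * B = ∑ _m ∈ Ioc (u j) (u j + M), (B : ℝ) := by
        rw [sum_const, Nat.card_Ioc, nsmul_eq_mul, Nat.add_sub_cancel_left]
      nth_rewrite 1 [e]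
      rw [← sum_sub_distrib]
      refine (abs_sum_le_sum_abs _ _).trans ?_
      rw [her] at a1
      exact a1
    obtain ⟨Ψ, hΨ⟩ : ∃ Ψ, Ψ = Q (u j) (u j + M) := ⟨_, rfl⟩
    rw [← hΨ] at t1
    have t3 : |Ψ - M| ≤ 2 * (M / L) := by
      have h1 : (B : ℝ) * |Ψ - M| ≤ B * (2 * (M / L)) := by
        have e : (B : ℝ) * |Ψ - M| = |B * Ψ - M * B| := by
          rw [← abs_of_pos hB0, ← abs_mul, abs_of_pos hB0]
          congr 1
          ring
        rw [e]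
        have h2 : |B * Ψ - M * B| ≤ M * B / L + B * (B * Real.log Y) := by
          have e2 : B * Ψ - M * B = (∑ m ∈ Ioc (u j) (u j + M), Q m (m + B) - M * B) -
              (∑ m ∈ Ioc (u j) (u j + M), Q m (m + B) - B * Ψ) := by ring
          rw [e2]
          refine (abs_sub _ _).trans (add_le_add t2 t1)
        refine h2.trans ?_
        have h3 : B * Real.log Y ≤ M / L := by
          rw [le_div_iff₀ hL0]
          calc (B : ℝ) * Real.log Y * L ≤ B * (3 * L) * L := by gcongr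
            _ = B * (3 * L ^ 2) := by ring
            _ ≤ B * (6 * L ^ 3) := by
                refine mul_le_mul_of_nonneg_left ?_ hB0.le
                nlinarith [pow_pos hL0 2]
            _ ≤ M := hBhi
        have h4 := mul_le_mul_of_nonneg_left h3 hB0.le
        calc M * B / L + B * (B * Real.log Y) ≤ M * B / L + B * (M / L) := by linarith
          _ = _ := by ring
      exact le_of_mul_le_mul_left h1 hB0
    -- theta
    obtain ⟨P, hP⟩ : ∃ P, P = (Ioc (u j) (u j + M)).filter Nat.Prime := ⟨_, rfl⟩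
    obtain ⟨Θ, hΘ⟩ : ∃ Θ, Θ = ∑ p ∈ P, Lm p := ⟨_, rfl⟩
    have t4 : Ψ = Θ + ∑ m ∈ Ioc (u j) (u j + M), pp m := by
      rw [hΨ, hΘ, hP, hpp]
      unfold Q
      rw [sum_filter, ← sum_add_distrib]
      refine sum_congr rfl fun n _ => ?_
      by_cases hp : n.Prime <;> simp [hp]
    have t5 : 0 ≤ ∑ m ∈ Ioc (u j) (u j + M), pp m := sum_nonneg fun m _ => hpp0 m
    have t6 : (P.card : ℝ) * L ≤ Θ := by
      rw [hΘ, ← nsmul_eq_mul, ← sum_const]
      refine sum_le_sum fun p hp => ?_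
      rw [hP, mem_filter, mem_Ioc] at hp
      unfold Lm
      rw [ArithmeticFunction.vonMangoldt_apply_prime hp.2, hL]
      exact Real.log_le_log hX0 (by exact_mod_cast (by omega : X ≤ p))
    have t7 : Θ ≤ P.card * (L + 3) := by
      rw [hΘ, ← nsmul_eq_mul, ← sum_const]
      refine sum_le_sum fun p hp => ?_
      rw [hP, mem_filter, mem_Ioc] at hp
      have h1 : Lm p ≤ Real.log Y := by
        refine Lm_le ?_ hY1
        rw [hY]
        exact_mod_cast (by omega : p ≤ 8 * X)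
      have := hlog8 8 (by norm_num) le_rfl
      rw [← hY] at this
      linarith
    rw [← hP]
    have t3' := abs_le.1 t3
    have hML : 0 < (M : ℝ) / L := by positivity
    have e1 : (P.card : ℝ) / M - 1 / L = (P.card * L - M) / (M * L) := by field_simp
    rw [e1, abs_div, abs_of_pos (show (0 : ℝ) < M * L by positivity), div_le_div_iff₀ (by positivity) (by positivity)]
    have t8 : |(P.card : ℝ) * L - M| ≤ 12 * (M / L) := by
      rw [abs_le]
      constructor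
      · -- P.card * L ≥ M - 12 M / L
        have h1 : (M : ℝ) - 3 * (M / L) ≤ P.card * (L + 3) := by linarith
        have h2 : (P.card : ℝ) * 3 ≤ 9 * (M / L) := by
          have h3 : (P.card : ℝ) * L ≤ 3 * M := by
            have : (M : ℝ) / L ≤ M := div_le_self hMr.le hL1
            linarith
          have h4 : (P.card : ℝ) ≤ 3 * M / L := by rwa [le_div_iff₀ hL0]
          calc (P.card : ℝ) * 3 ≤ 3 * M / L * 3 := mul_le_mul_of_nonneg_right h4 (by norm_num)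
            _ = _ := by ring
        linarith
      · linarith
    calc |(P.card : ℝ) * L - M| * L ^ 2 ≤ 12 * (M / L) * L ^ 2 := mul_le_mul_of_nonneg_right t8 (by positivity)
      _ = _ := by field_simp

end Pool.Agent.Run7.h880.RP
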