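import Mathlib
import Pool.Agent.Run7.h337.MK.Blk
import Pool.Agent.Run7.h337.MK.Pow
import Pool.Agent.Run7.h880.MK.Maj1
import Pool.Agent.Run7.h794.MK.SiaAll

/-! Random positions: primes after and before almost all squares, the base estimate -/

set_option autoImplicit false

namespace Pool.Agent.Run7.h880.RP

open Finset Filter
open Pool.Agent.N384.MQ (ev_log_pow ev_log_ge)

lemma maj1 : Pool.Agent.Run7.h794.MK.S_MAJ1 := Pool.Agent.Run7.h880.MK.t_MAJ1 Pool.Agent.Run7.h794.MK.sia_all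

/-- almost all blocks of a family contain the right number of primes -/
theorem blk (T U : ℕ) (ε : ℝ) (hε : 0 < ε) : ∃ C X₀ : ℕ, ∀ X : ℕ, X₀ ≤ X →
    ∀ {α : Type} (J : Finset α) (u ℓ : α → ℕ), (∀ j ∈ J, u j + ℓ j ≤ X) → (∀ j ∈ J, (X : ℝ) ≤ u j * Real.log X ^ T) →
    (∀ j ∈ J, (X : ℝ) ^ (1 / 3 : ℝ) * Real.log X ^ C ≤ ℓ j) →
    (∀ m : ℕ, ((J.filter fun j => u j < m ∧ m ≤ u j + ℓ j).card : ℝ) ≤ Real.log X ^ T) →
    ∃ Bad : Finset α, Bad ⊆ J ∧ ∑ j ∈ Bad, (ℓ j : ℝ) ≤ X / Real.log X ^ U ∧ ∀ j ∈ J, j ∉ Bad →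
    |(((Ioc (u j) (u j + ℓ j)).filter Nat.Prime).card : ℝ) - ℓ j / Real.log X| ≤ ε * (ℓ j / Real.log X) := by
  obtain ⟨V, C, W, X₀, h⟩ := Run7.h337.MK.loc_all maj1 T U ε hε
  refine ⟨C + W + 1, X₀, fun X hX α J u ℓ h1 h2 h3 h4 => ?_⟩
  obtain ⟨Bad, hB, hs, hg⟩ := h X hX J u ℓ h1 h2 h3 h4
  exact ⟨Bad, hB, hs, fun j hj hjB => (hg j hj hjB).1⟩

/-- the numbers `w` in `[1, M]` with `n ^ 2 + w` prime (`b = true`), `n ^ 2 - w` prime (`b = false`) -/
def sqA (n M : ℕ) (b : Bool) : Finset ℕ := (Icc 1 M).filter fun w => (if b then n ^ 2 + w else n ^ 2 - w).Prime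

lemma sqA_sub (n M : ℕ) (b : Bool) : sqA n M b ⊆ Icc 1 M := filter_subset _ _

/-- left ends of the blocks -/
def sqU (n M : ℕ) (b : Bool) : ℕ := if b then n ^ 2 else n ^ 2 - M - 1

lemma sqA_card (n M : ℕ) (b : Bool) (h : M + 1 ≤ n ^ 2) :
    (sqA n M b).card = ((Ioc (sqU n M b) (sqU n M b + M)).filter Nat.Prime).card := by
  cases b
  · refine card_bij (fun w _ => n ^ 2 - w) ?_ ?_ ?_
    · intro w hw
      unfold sqA at hw
      rw [mem_filter, mem_Icc] at hw
      rw [mem_filter, mem_Ioc]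
      simp only [sqU, Bool.false_eq_true, if_false] at hw ⊢
      exact ⟨by omega, hw.2⟩
    · intro w hw w' hw' he
      unfold sqA at hw hw'
      rw [mem_filter, mem_Icc] at hw hw'
      have he : n ^ 2 - w = n ^ 2 - w' := he
      omega
    · intro p hp
      rw [mem_filter, mem_Ioc] at hp
      simp only [sqU, Bool.false_eq_true, if_false] at hp
      refine ⟨n ^ 2 - p, ?_, by have := hp.1; show n ^ 2 - (n ^ 2 - p) = p; omega⟩
      unfold sqA
      rw [mem_filter, mem_Icc]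
      simp only [Bool.false_eq_true, if_false]
      have e : n ^ 2 - (n ^ 2 - p) = p := by omega
      rw [e]
      exact ⟨by omega, hp.2⟩
  · refine card_bij (fun w _ => n ^ 2 + w) ?_ ?_ ?_
    · intro w hw
      unfold sqA at hw
      rw [mem_filter, mem_Icc] at hw
      rw [mem_filter, mem_Ioc]
      simp only [sqU, if_true] at hw ⊢
      exact ⟨by omega, hw.2⟩
    · intro w hw w' hw' he
      have he : n ^ 2 + w = n ^ 2 + w' := he
      omega
    · intro p hp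
      rw [mem_filter, mem_Ioc] at hp
      simp only [sqU, if_true] at hp
      refine ⟨p - n ^ 2, ?_, by show n ^ 2 + (p - n ^ 2) = p; omega⟩
      unfold sqA
      rw [mem_filter, mem_Icc]
      simp only [if_true]
      have e : n ^ 2 + (p - n ^ 2) = p := by omega
      rw [e]
      exact ⟨by omega, hp.2⟩

lemma ev_sub2 (A : ℕ) (c : ℝ) : ∀ᶠ X : ℕ in atTop, c * Real.log X ^ A ≤ (X : ℝ) ^ (1 / 3 : ℝ) :=
  Run7.h337.MK.ev_pw A c

/-- **the base estimate for squares** -/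
theorem sq_base (a U : ℕ) (δ : ℝ) (hδ : 0 < δ) : ∃ N₀ : ℕ, ∀ N : ℕ, N₀ ≤ N → ∀ M : ℕ,
    (N : ℝ) ≤ M * Real.log N ^ a → M ≤ N → ∃ E : Finset ℕ, E ⊆ Ioc N (2 * N) ∧ (E.card : ℝ) ≤ N / Real.log N ^ U ∧
    ∀ n ∈ Ioc N (2 * N), n ∉ E → ∀ b : Bool,
    |((sqA n M b).card : ℝ) - M / (2 * Real.log N)| ≤ δ * (M / (2 * Real.log N)) := by
  classical
  obtain ⟨C, X₀, hb⟩ := blk 1 (U + a + 1) (δ / 2) (by positivity)
  obtain ⟨N₁, hev⟩ := eventually_atTop.1 ((ev_log_ge 5).and ((ev_log_ge (2 / δ)).and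
    (Run7.h337.MK.ev_pw (a + C + 1) (2 * 3 ^ C))))
  refine ⟨max X₀ (max N₁ 3), fun N hN M hNM hMN => ?_⟩
  obtain ⟨hl5, hld, hpw⟩ := hev N (le_trans (le_trans (le_max_left _ _) (le_max_right _ _)) hN)
  have hN3 : 3 ≤ N := le_trans (le_trans (le_max_right _ _) (le_max_right _ _)) hN
  have hN3r : (3 : ℝ) ≤ N := by exact_mod_cast hN3
  have hN0 : (0 : ℝ) < N := by linarith
  obtain ⟨L, hL⟩ : ∃ L, L = Real.log N := ⟨_, rfl⟩
  rw [← hL] at hl5 hld hpw hNM ⊢
  have hL0 : 0 < L := by linarith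
  have hL1 : 1 ≤ L := by linarith
  obtain ⟨X, hX⟩ : ∃ X : ℕ, X = 5 * N ^ 2 := ⟨_, rfl⟩
  have hXr : (X : ℝ) = 5 * (N : ℝ) ^ 2 := by rw [hX]; push_cast; ring
  have hXN : N ≤ X := by rw [hX]; nlinarith
  obtain ⟨K, hK⟩ : ∃ K, K = Real.log X := ⟨_, rfl⟩
  have hKe : K = Real.log 5 + 2 * L := by
    rw [hK, hXr, Real.log_mul (by norm_num) (by positivity), Real.log_pow, hL]
    push_cast
    ring
  have hlog5 : Real.log 5 ≤ 2 := by
    rw [Real.log_le_iff_le_exp (by norm_num)]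
    have h1 : (2.7182818283 : ℝ) < Real.exp 1 := Real.exp_one_gt_d9
    have h2 : Real.exp 2 = Real.exp 1 * Real.exp 1 := by rw [← Real.exp_add]; norm_num
    rw [h2]
    nlinarith
  have hlog5' : 0 ≤ Real.log 5 := Real.log_nonneg (by norm_num)
  have hKL : 2 * L ≤ K := by linarith
  have hK3 : K ≤ 3 * L := by linarith
  have hK0 : 0 < K := by linarith
  -- the blocks
  obtain ⟨J, hJ⟩ : ∃ J : Finset (ℕ × Bool), J = (Ioc N (2 * N)) ×ˢ univ := ⟨_, rfl⟩
  have hJm : ∀ j ∈ J, N < j.1 ∧ j.1 ≤ 2 * N := by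
    intro j hj
    rw [hJ, mem_product, mem_Ioc] at hj
    exact hj.1
  have hsq : ∀ n : ℕ, N < n → N ^ 2 + N + M + 1 ≤ n ^ 2 := by
    intro n hn
    nlinarith
  have hu1 : ∀ j ∈ J, N ^ 2 ≤ sqU j.1 M j.2 := by
    intro j hj
    have h1 := hsq j.1 (hJm j hj).1
    unfold sqU
    split_ifs <;> omega
  have hu2 : ∀ j ∈ J, sqU j.1 M j.2 + M ≤ X := by
    intro j hj
    have h1 := hsq j.1 (hJm j hj).1
    have h2 : j.1 ^ 2 ≤ 4 * N ^ 2 := by
      have := (hJm j hj).2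
      nlinarith
    have h3 : N ≤ N ^ 2 := by nlinarith
    rw [hX]
    unfold sqU
    split_ifs <;> omega
  have hXL : (X : ℝ) ≤ (N : ℝ) ^ 2 * K := by
    rw [hXr]
    have : (5 : ℝ) ≤ K := by linarith
    nlinarith [sq_nonneg (N : ℝ)]
  obtain ⟨Bad, hBJ, hBs, hgood⟩ := hb X (le_trans (le_trans (le_max_left _ _) hN) hXN) J (fun j => sqU j.1 M j.2)
    (fun _ => M) hu2 (by
      intro j hj
      rw [← hK, pow_one]
      refine hXL.trans (mul_le_mul_of_nonneg_right ?_ hK0.le)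
      exact_mod_cast hu1 j hj) (by
      intro j _
      rw [← hK]
      -- X^(1/3) K^C ≤ M
      have h1 : (X : ℝ) ^ (1 / 3 : ℝ) ≤ 2 * (N : ℝ) ^ (2 / 3 : ℝ) := by
        rw [hXr, Real.mul_rpow (by norm_num) (by positivity), ← Real.rpow_natCast, ← Real.rpow_mul hN0.le]
        have h2 : (5 : ℝ) ^ (1 / 3 : ℝ) ≤ 2 := by
          have h3 : (5 : ℝ) ^ (1 / 3 : ℝ) ≤ (8 : ℝ) ^ (1 / 3 : ℝ) :=
            Real.rpow_le_rpow (by norm_num) (by norm_num) (by norm_num)
          have h4 : (8 : ℝ) ^ (1 / 3 : ℝ) = 2 := by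
            have : (8 : ℝ) = 2 ^ (3 : ℝ) := by norm_num
            rw [this, ← Real.rpow_mul (by norm_num)]
            norm_num
          linarith
        have e : (((2 : ℕ) : ℝ) * (1 / 3)) = (2 / 3 : ℝ) := by norm_num
        rw [e]
        exact mul_le_mul_of_nonneg_right h2 (by positivity)
      have h5 : K ^ C ≤ 3 ^ C * L ^ C := by
        rw [← mul_pow]
        exact pow_le_pow_left₀ hK0.le hK3 C
      have h6 : (N : ℝ) ^ (2 / 3 : ℝ) * (N : ℝ) ^ (1 / 3 : ℝ) = N := by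
        rw [← Real.rpow_add hN0]
        norm_num
      have h7 : (N : ℝ) ^ (2 / 3 : ℝ) * (2 * 3 ^ C * L ^ (a + C + 1)) ≤ N :=
        (mul_le_mul_of_nonneg_left hpw (by positivity)).trans h6.le
      have h8 : L ^ a * ((X : ℝ) ^ (1 / 3 : ℝ) * K ^ C) ≤ L ^ a * M := by
        calc L ^ a * ((X : ℝ) ^ (1 / 3 : ℝ) * K ^ C) ≤ L ^ a * ((2 * (N : ℝ) ^ (2 / 3 : ℝ)) * (3 ^ C * L ^ C)) := by
              gcongr
          _ = (N : ℝ) ^ (2 / 3 : ℝ) * (2 * 3 ^ C * L ^ (a + C)) := by rw [pow_add]; ring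
          _ ≤ (N : ℝ) ^ (2 / 3 : ℝ) * (2 * 3 ^ C * L ^ (a + C + 1)) := by
              have : L ^ (a + C) ≤ L ^ (a + C + 1) := pow_le_pow_right₀ hL1 (by omega)
              gcongr
          _ ≤ N := h7
          _ ≤ M * L ^ a := hNM
          _ = L ^ a * M := mul_comm _ _
      exact le_of_mul_le_mul_left h8 (by positivity)) (by
      intro m
      rw [← hK, pow_one]
      have h1 : ((J.filter fun j : ℕ × Bool => sqU j.1 M j.2 < m ∧ m ≤ sqU j.1 M j.2 + M).card) ≤ 2 := by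
        have h2 : ∀ b : Bool, (((J.filter fun j : ℕ × Bool => sqU j.1 M j.2 < m ∧ m ≤ sqU j.1 M j.2 + M)).filter
            fun j => j.2 = b).card ≤ 1 := by
          intro b
          rw [card_le_one]
          intro j hj j' hj'
          rw [mem_filter, mem_filter] at hj hj'
          obtain ⟨⟨hj1, hj2, hj3⟩, hj4⟩ := hj
          obtain ⟨⟨hj1', hj2', hj3'⟩, hj4'⟩ := hj'
          have g1 := hsq j.1 (hJm j hj1).1
          have g1' := hsq j'.1 (hJm j' hj1').1
          have g2 := (hJm j hj1).1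
          have g2' := (hJm j' hj1').1
          have g3 : j.1 < j'.1 → j.1 ^ 2 + 2 * N + 2 ≤ j'.1 ^ 2 := by
            intro hlt
            have : (j.1 + 1) ^ 2 ≤ j'.1 ^ 2 := Nat.pow_le_pow_left hlt 2
            nlinarith
          have g3' : j'.1 < j.1 → j'.1 ^ 2 + 2 * N + 2 ≤ j.1 ^ 2 := by
            intro hlt
            have : (j'.1 + 1) ^ 2 ≤ j.1 ^ 2 := Nat.pow_le_pow_left hlt 2
            nlinarith
          rw [hj4] at hj2 hj3
          rw [hj4'] at hj2' hj3'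
          unfold sqU at hj2 hj3 hj2' hj3'
          have g4 : j.1 = j'.1 := by
            rcases lt_trichotomy j.1 j'.1 with hlt | he | hlt
            · have := g3 hlt
              split_ifs at hj2 hj3 hj2' hj3' <;> omega
            · exact he
            · have := g3' hlt
              split_ifs at hj2 hj3 hj2' hj3' <;> omega
          exact Prod.ext g4 (hj4.trans hj4'.symm)
        have h3 : (J.filter fun j : ℕ × Bool => sqU j.1 M j.2 < m ∧ m ≤ sqU j.1 M j.2 + M) ⊆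
            (((J.filter fun j : ℕ × Bool => sqU j.1 M j.2 < m ∧ m ≤ sqU j.1 M j.2 + M)).filter fun j => j.2 = true) ∪
            (((J.filter fun j : ℕ × Bool => sqU j.1 M j.2 < m ∧ m ≤ sqU j.1 M j.2 + M)).filter fun j => j.2 = false) := by
          intro j hj
          rw [mem_union]
          rcases Bool.eq_false_or_eq_true j.2 with hb | hb
          · exact Or.inl (mem_filter.2 ⟨hj, hb⟩)
          · exact Or.inr (mem_filter.2 ⟨hj, hb⟩)
        have h4 := (card_le_card h3).trans (card_union_le _ _)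
        have h5 := h2 true
        have h6 := h2 false
        omega
      have h2 : (((J.filter fun j : ℕ × Bool => sqU j.1 M j.2 < m ∧ m ≤ sqU j.1 M j.2 + M).card : ℕ) : ℝ) ≤ 2 := by
        exact_mod_cast h1
      linarith)
  rw [← hK] at hBs hgood
  have hM0 : (0 : ℝ) < M := by
    rcases Nat.eq_zero_or_pos M with h | h
    · rw [h, Nat.cast_zero, zero_mul] at hNM
      linarith
    · exact_mod_cast h
  refine ⟨Bad.image Prod.fst, ?_, ?_, ?_⟩
  · intro n hn
    rw [mem_image] at hn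
    obtain ⟨j, hj, rfl⟩ := hn
    rw [mem_Ioc]
    exact hJm j (hBJ hj)
  · have h1 : ((Bad.image Prod.fst).card : ℝ) ≤ Bad.card := by exact_mod_cast card_image_le
    rw [sum_const, nsmul_eq_mul] at hBs
    have h2 : (Bad.card : ℝ) * M * L ^ (U + a + 1) ≤ 5 * (N : ℝ) ^ 2 := by
      rw [le_div_iff₀ (by positivity), hXr] at hBs
      refine le_trans ?_ hBs
      gcongr
      linarith
    have h3 : (Bad.card : ℝ) * L ^ U * N ≤ N * N := by
      have h4 : (Bad.card : ℝ) * L ^ U * N * 5 ≤ (Bad.card : ℝ) * M * L ^ (U + a + 1) := by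
        calc (Bad.card : ℝ) * L ^ U * N * 5 ≤ (Bad.card : ℝ) * L ^ U * (M * L ^ a) * L := by gcongr
          _ = _ := by ring
      nlinarith
    have h4 : (Bad.card : ℝ) * L ^ U ≤ N := le_of_mul_le_mul_right h3 hN0
    rw [le_div_iff₀ (by positivity)]
    refine le_trans ?_ h4
    gcongr
  · intro n hn hnE b
    rw [mem_Ioc] at hn
    have hj : (n, b) ∈ J := by
      rw [hJ, mem_product, mem_Ioc]
      exact ⟨hn, mem_univ _⟩
    have hjB : (n, b) ∉ Bad := fun h => hnE (mem_image.2 ⟨(n, b), h, rfl⟩)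
    have h1 := hgood (n, b) hj hjB
    have h0 := hsq n hn.1
    rw [sqA_card n M b (by omega)]
    have h2 : |(M : ℝ) / K - M / (2 * L)| ≤ δ / 2 * (M / (2 * L)) := by
      have e : (M : ℝ) / K - M / (2 * L) = -(Real.log 5 / K * (M / (2 * L))) := by
        rw [hKe] at hK0 ⊢
        field_simp
        ring
      rw [e, abs_neg, abs_of_nonneg (by positivity)]
      refine mul_le_mul_of_nonneg_right ?_ (by positivity)
      rw [div_le_iff₀ hK0]
      rw [div_le_iff₀ hδ] at hld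
      nlinarith
    have h3 : (M : ℝ) / K ≤ M / (2 * L) := div_le_div_of_nonneg_left hM0.le (by positivity) hKL
    have h4 : δ / 2 * ((M : ℝ) / K) ≤ δ / 2 * (M / (2 * L)) := mul_le_mul_of_nonneg_left h3 (by positivity)
    rw [abs_le] at h1 h2 ⊢
    constructor <;> linarith [h1.1, h1.2, h2.1, h2.2]

end Pool.Agent.Run7.h880.RP
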