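import Mathlib
import Pool.Agent.Run7.h931.RS.Nt

/-! The sieve for two forms and the exponential moments of its constant. -/

set_option autoImplicit false

namespace Pool.Agent.Run7.h880.RP

open Finset Filter
open Pool.Agent.Run7.h931.RS (Fw one_le_Fw sg_le_Fw moments)

/-- the sieve, for windows of any length after `x`, `y` (`s = 1`) or before `x`, `y` (`s = -1`) -/
theorem sv : ∃ C₀ : ℕ, 1 ≤ C₀ ∧ ∃ Y₀ : ℝ, ∀ M : ℕ, Y₀ ≤ M → ∀ s : ℤ, (s = 1 ∨ s = -1) → ∀ x y : ℕ, x < y →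
    (((Icc 1 M).filter fun w : ℕ => ((x : ℤ) + s * w).toNat.Prime ∧ ((y : ℤ) + s * w).toNat.Prime).card : ℝ) ≤
      C₀ * Fw 0 (y - x) ^ C₀ * (M / Real.log M ^ 2) := by
  classical
  obtain ⟨C, hC1, hC⟩ := Pool.Agent.Y949.DK.t_SV 2
  obtain ⟨Y₀, hY₀⟩ := eventually_atTop.1 hC
  obtain ⟨C₀, hC₀⟩ : ∃ C₀ : ℕ, 4 * C ≤ C₀ := exists_nat_ge _
  refine ⟨C₀, ?_, Y₀, fun M hM s hs x y hxy => ?_⟩
  · have : (1 : ℝ) ≤ C₀ := by linarith
    exact_mod_cast this
  obtain ⟨h, hh⟩ : ∃ h, h = y - x := ⟨_, rfl⟩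
  obtain ⟨F, hF⟩ : ∃ F : Finset (ℤ × ℤ), F = {(s, (x : ℤ)), (s, (y : ℤ))} := ⟨_, rfl⟩
  have hne : (s, (x : ℤ)) ≠ (s, (y : ℤ)) := by
    intro he
    have := congrArg Prod.snd he
    simp only at this
    omega
  have hcard : F.card = 2 := by rw [hF]; exact card_pair hne
  have hs0 : s ≠ 0 := by rcases hs with rfl | rfl <;> norm_num
  have b1 := hY₀ M hM F hcard (by
    intro f hf
    rw [hF, mem_insert, mem_singleton] at hf
    rcases hf with rfl | rfl <;> exact hs0) (by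
    intro f hf g hg hfg
    rw [hF, mem_insert, mem_singleton] at hf hg
    rcases hf with rfl | rfl <;> rcases hg with rfl | rfl
    · exact absurd rfl hfg
    · simp only
      rcases hs with rfl | rfl <;> omega
    · simp only
      rcases hs with rfl | rfl <;> omega
    · exact absurd rfl hfg)
  rw [Nat.floor_natCast] at b1
  have b2 : ((Icc 1 M).filter fun w : ℕ => ((x : ℤ) + s * w).toNat.Prime ∧ ((y : ℤ) + s * w).toNat.Prime) ⊆
      (Icc 1 M).filter (fun n : ℕ => ∀ f ∈ F, (f.1 * (n : ℤ) + f.2).toNat.Prime) := by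
    intro w hw
    rw [mem_filter] at hw ⊢
    refine ⟨hw.1, fun f hf => ?_⟩
    rw [hF, mem_insert, mem_singleton] at hf
    rcases hf with rfl | rfl
    · simp only
      rw [add_comm]
      exact hw.2.1
    · simp only
      rw [add_comm]
      exact hw.2.2
  have hsg0 : Pool.Agent.Y851.DK.sg 0 = 0 := by simp [Pool.Agent.Y851.DK.sg]
  have hsg1 : Pool.Agent.Y851.DK.sg 1 = 0 := by simp [Pool.Agent.Y851.DK.sg]
  have hsa : s.natAbs = 1 := by rcases hs with rfl | rfl <;> rfl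
  have b3 : ∑ f ∈ F, Pool.Agent.Y851.DK.sg f.1.natAbs +
      ∑ f ∈ F, ∑ g ∈ F, Pool.Agent.Y851.DK.sg (f.1 * g.2 - g.1 * f.2).natAbs = 2 * Pool.Agent.Y851.DK.sg h := by
    rw [hF, sum_pair hne, sum_pair hne, sum_pair hne, sum_pair hne]
    have e1 : (s * (x : ℤ) - s * (x : ℤ)).natAbs = 0 := by rw [sub_self]; rfl
    have e4 : (s * (y : ℤ) - s * (y : ℤ)).natAbs = 0 := by rw [sub_self]; rfl
    have e2 : (s * (y : ℤ) - s * (x : ℤ)).natAbs = h := by
      rw [← mul_sub, Int.natAbs_mul, hsa, one_mul, hh]; omega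
    have e3 : (s * (x : ℤ) - s * (y : ℤ)).natAbs = h := by
      rw [← mul_sub, Int.natAbs_mul, hsa, one_mul, hh]; omega
    simp only [e1, e2, e3, e4, hsg0, hsa, hsg1]
    ring
  rw [b3] at b1
  rw [← hh]
  have b4 : Real.exp (C * (2 * Pool.Agent.Y851.DK.sg h)) ≤ Fw 0 h ^ C₀ := by
    have c1 : C * (2 * Pool.Agent.Y851.DK.sg h) ≤ C₀ * Pool.Agent.Y851.DK.sg h := by
      have : 0 ≤ Pool.Agent.Y851.DK.sg h := sum_nonneg fun _ _ => by positivity
      nlinarith
    calc Real.exp (C * (2 * Pool.Agent.Y851.DK.sg h)) ≤ Real.exp (C₀ * Pool.Agent.Y851.DK.sg h) := Real.exp_le_exp.2 c1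
      _ = Real.exp (Pool.Agent.Y851.DK.sg h) ^ C₀ := Real.exp_nat_mul _ _
      _ ≤ _ := pow_le_pow_left₀ (Real.exp_pos _).le (sg_le_Fw h) _
  have hr : (((Icc 1 M).filter fun w : ℕ => ((x : ℤ) + s * w).toNat.Prime ∧ ((y : ℤ) + s * w).toNat.Prime).card : ℝ) ≤
      (((Icc 1 M).filter (fun n : ℕ => ∀ f ∈ F, (f.1 * (n : ℤ) + f.2).toNat.Prime)).card : ℝ) := by
    exact_mod_cast card_le_card b2
  refine (hr.trans b1).trans ?_
  have hF1 := one_le_Fw 0 h
  calc C * Real.exp (C * (2 * Pool.Agent.Y851.DK.sg h)) * (M / Real.log M ^ 2) ≤ C * Fw 0 h ^ C₀ * (M / Real.log M ^ 2) := by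
        refine mul_le_mul_of_nonneg_right ?_ (by positivity)
        exact mul_le_mul_of_nonneg_left b4 (by linarith)
    _ ≤ C₀ * Fw 0 h ^ C₀ * (M / Real.log M ^ 2) := by
        refine mul_le_mul_of_nonneg_right (mul_le_mul_of_nonneg_right (by linarith) (by positivity)) (by positivity)

/-- the distance of two naturals -/
def dd (a b : ℕ) : ℕ := (a - b) + (b - a)

lemma sum_inj (S T : Finset ℕ) (φ : ℕ → ℕ) (g : ℕ → ℝ) (hg : ∀ n, 0 ≤ g n) (h1 : ∀ n ∈ S, φ n ∈ T)
    (h2 : Set.InjOn φ S) : ∑ n ∈ S, g (φ n) ≤ ∑ n ∈ T, g n := by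
  rw [← sum_image (f := g) h2]
  exact sum_le_sum_of_subset_of_nonneg (fun n hn => by
    obtain ⟨a, ha, rfl⟩ := mem_image.1 hn
    exact h1 a ha) fun _ _ _ => hg _

/-- pairs of distinct integers of `(N, 2 N]` -/
lemma avg_dd (g : ℕ → ℝ) (hg : ∀ n, 0 ≤ g n) (K : ℝ) (hK : ∀ H : ℕ, ∑ h ∈ Icc 1 H, g h ≤ K * H) (N : ℕ) :
    ∑ n ∈ Ioc N (2 * N), ∑ n' ∈ Ioc N (2 * N), (if n = n' then 0 else g (dd n n')) ≤ 2 * K * (N : ℝ) ^ 2 := by
  have h1 : ∀ n ∈ Ioc N (2 * N), ∑ n' ∈ Ioc N (2 * N), (if n = n' then 0 else g (dd n n')) ≤ 2 * (K * N) := by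
    intro n hn
    rw [mem_Ioc] at hn
    have h2 : ∑ n' ∈ Ioc N (2 * N), (if n = n' then 0 else g (dd n n')) ≤
        ∑ n' ∈ Ioc n (2 * N), g (dd n n') + ∑ n' ∈ Ioo N n, g (dd n n') := by
      have e : ∑ n' ∈ Ioc N (2 * N), (if n = n' then 0 else g (dd n n')) =
          ∑ n' ∈ (Ioc n (2 * N)) ∪ Ioo N n, g (dd n n') := by
        have e2 : (Ioc n (2 * N)) ∪ Ioo N n = (Ioc N (2 * N)).filter fun n' => ¬ n = n' := by
          ext k
          rw [mem_union, mem_Ioc, mem_Ioo, mem_filter, mem_Ioc]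
          omega
        rw [e2, sum_filter]
        refine sum_congr rfl fun k _ => ?_
        by_cases h : n = k <;> simp [h]
      rw [e, ← sum_union_inter]
      have : 0 ≤ ∑ n' ∈ (Ioc n (2 * N)) ∩ Ioo N n, g (dd n n') := sum_nonneg fun _ _ => hg _
      linarith
    have h3 := sum_inj (Ioc n (2 * N)) (Icc 1 N) (fun k => dd n k) g hg (by
      intro k hk
      rw [mem_Ioc] at hk
      rw [mem_Icc]
      unfold dd
      omega) (by
      intro k hk k' hk' he
      rw [mem_coe, mem_Ioc] at hk hk'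
      simp only [dd] at he
      omega)
    have h4 := sum_inj (Ioo N n) (Icc 1 N) (fun k => dd n k) g hg (by
      intro k hk
      rw [mem_Ioo] at hk
      rw [mem_Icc]
      unfold dd
      omega) (by
      intro k hk k' hk' he
      rw [mem_coe, mem_Ioo] at hk hk'
      simp only [dd] at he
      omega)
    have := hK N
    linarith
  refine (sum_le_sum h1).trans (le_of_eq ?_)
  rw [sum_const, Nat.card_Ioc, nsmul_eq_mul]
  have : 2 * N - N = N := by omega
  rw [this]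
  ring

lemma Fw_mul (a b : ℕ) (ha : 1 ≤ a) (hb : 1 ≤ b) : Fw 0 (a * b) ≤ Fw 0 a * Fw 0 b := by
  unfold Fw
  have e : ∀ h : ℕ, h.primeFactors.filter (fun p => 0 < p) = h.primeFactors := by
    intro h
    apply filter_true_of_mem
    intro p hp
    exact (Nat.prime_of_mem_primeFactors hp).pos
  rw [e, e, e, Nat.primeFactors_mul (by omega) (by omega), ← prod_union_inter]
  have h1 : ∀ p ∈ a.primeFactors ∩ b.primeFactors, 1 ≤ (p : ℝ) / ((p : ℝ) - 1) := fun p hp =>
    Pool.Agent.Run7.h931.RS.fac_ge (Nat.prime_of_mem_primeFactors (mem_inter.1 hp).1)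
  have h2 : 1 ≤ ∏ p ∈ a.primeFactors ∩ b.primeFactors, (p : ℝ) / ((p : ℝ) - 1) := one_le_prod h1
  have h3 : 0 ≤ ∏ p ∈ a.primeFactors ∪ b.primeFactors, (p : ℝ) / ((p : ℝ) - 1) := by
    refine prod_nonneg fun p hp => ?_
    have hp' : p.Prime := by
      rcases mem_union.1 hp with h | h <;> exact Nat.prime_of_mem_primeFactors h
    exact zero_le_one.trans (Pool.Agent.Run7.h931.RS.fac_ge hp')
  exact le_mul_of_one_le_right h3 h2

/-- pairs of squares -/
lemma avg_sq (c : ℝ) (hc : 0 ≤ c) (k : ℕ) : ∃ K : ℝ, 1 ≤ K ∧ ∀ N : ℕ,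
    ∑ n ∈ Ioc N (2 * N), ∑ n' ∈ Ioc N (2 * N), (if n = n' then 0 else Real.exp (c * Fw 0 (dd (n ^ 2) (n' ^ 2)) ^ k)) ≤
      K * (N : ℝ) ^ 2 := by
  obtain ⟨K, hK1, hK⟩ := moments c hc (2 * k)
  refine ⟨6 * K, by linarith, fun N => ?_⟩
  have hN : (0 : ℝ) ≤ N := Nat.cast_nonneg N
  have h1 : ∀ n ∈ Ioc N (2 * N), ∀ n' ∈ Ioc N (2 * N),
      (if n = n' then 0 else Real.exp (c * Fw 0 (dd (n ^ 2) (n' ^ 2)) ^ k)) ≤
      (if n = n' then 0 else Real.exp (c * Fw 0 (dd n n') ^ (2 * k))) + Real.exp (c * Fw 0 (n + n') ^ (2 * k)) := by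
    intro n hn n' hn'
    rw [mem_Ioc] at hn hn'
    by_cases h : n = n'
    · simp only [h, if_true, zero_add]
      exact (Real.exp_pos _).le
    · simp only [h, if_false]
      have e : dd (n ^ 2) (n' ^ 2) = dd n n' * (n + n') := by
        unfold dd
        rcases lt_or_gt_of_ne h with h | h
        · obtain ⟨t, rfl⟩ := Nat.exists_eq_add_of_lt h
          have e1 : n - (n + t + 1) = 0 := by omega
          have e2 : n + t + 1 - n = t + 1 := by omega
          have e3 : n ^ 2 - (n + t + 1) ^ 2 = 0 := Nat.sub_eq_zero_of_le (Nat.pow_le_pow_left (by omega) 2)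
          have e4 : (n + t + 1) ^ 2 - n ^ 2 = (t + 1) * (n + (n + t + 1)) := by
            have : (n + t + 1) ^ 2 = n ^ 2 + (t + 1) * (n + (n + t + 1)) := by ring
            omega
          rw [e1, e2, e3, e4]
          ring
        · obtain ⟨t, rfl⟩ := Nat.exists_eq_add_of_lt h
          have e1 : n' - (n' + t + 1) = 0 := by omega
          have e2 : n' + t + 1 - n' = t + 1 := by omega
          have e3 : n' ^ 2 - (n' + t + 1) ^ 2 = 0 := Nat.sub_eq_zero_of_le (Nat.pow_le_pow_left (by omega) 2)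
          have e4 : (n' + t + 1) ^ 2 - n' ^ 2 = (t + 1) * ((n' + t + 1) + n') := by
            have : (n' + t + 1) ^ 2 = n' ^ 2 + (t + 1) * ((n' + t + 1) + n') := by ring
            omega
          rw [e1, e2, e3, e4]
          ring
      rw [e]
      have hdd : 1 ≤ dd n n' := by unfold dd; omega
      have h2 := Fw_mul (dd n n') (n + n') hdd (by omega)
      have f1 := one_le_Fw 0 (dd n n')
      have f2 := one_le_Fw 0 (n + n')
      have f3 := one_le_Fw 0 (dd n n' * (n + n'))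
      have h3 : Fw 0 (dd n n' * (n + n')) ^ k ≤ Fw 0 (dd n n') ^ (2 * k) ∨
          Fw 0 (dd n n' * (n + n')) ^ k ≤ Fw 0 (n + n') ^ (2 * k) := by
        rcases le_total (Fw 0 (dd n n')) (Fw 0 (n + n')) with h4 | h4
        · right
          rw [pow_mul]
          refine pow_le_pow_left₀ (by linarith) (h2.trans ?_) k
          nlinarith
        · left
          rw [pow_mul]
          refine pow_le_pow_left₀ (by linarith) (h2.trans ?_) k
          nlinarith
      rcases h3 with h4 | h4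
      · have := Real.exp_le_exp.2 (mul_le_mul_of_nonneg_left h4 hc)
        have := Real.exp_pos (c * Fw 0 (n + n') ^ (2 * k))
        linarith
      · have := Real.exp_le_exp.2 (mul_le_mul_of_nonneg_left h4 hc)
        have := Real.exp_pos (c * Fw 0 (dd n n') ^ (2 * k))
        linarith
  refine (sum_le_sum fun n hn => sum_le_sum fun n' hn' => h1 n hn n' hn').trans ?_
  simp only [sum_add_distrib]
  have h2 := avg_dd (fun h => Real.exp (c * Fw 0 h ^ (2 * k))) (fun _ => (Real.exp_pos _).le) K hK N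
  have h3 : ∑ n ∈ Ioc N (2 * N), ∑ n' ∈ Ioc N (2 * N), Real.exp (c * Fw 0 (n + n') ^ (2 * k)) ≤ 4 * K * (N : ℝ) ^ 2 := by
    have h4 : ∀ n ∈ Ioc N (2 * N), ∑ n' ∈ Ioc N (2 * N), Real.exp (c * Fw 0 (n + n') ^ (2 * k)) ≤ K * (4 * N) := by
      intro n hn
      rw [mem_Ioc] at hn
      have h5 := sum_inj (Ioc N (2 * N)) (Icc 1 (4 * N)) (fun k => n + k) (fun h => Real.exp (c * Fw 0 h ^ (2 * k)))
        (fun _ => (Real.exp_pos _).le) (by
        intro k hk
        rw [mem_Ioc] at hk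
        rw [mem_Icc]
        omega) (by
        intro k _ k' _ he
        simp only at he
        omega)
      refine h5.trans ((hK (4 * N)).trans (le_of_eq ?_))
      push_cast
      ring
    refine (sum_le_sum h4).trans (le_of_eq ?_)
    rw [sum_const, Nat.card_Ioc, nsmul_eq_mul]
    have : 2 * N - N = N := by omega
    rw [this]
    ring
  linarith

end Pool.Agent.Run7.h880.RP
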