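import Mathlib
import Pool.Agent.Run7.h880.RP.Sq
import Pool.Agent.Run7.h880.RP.Sv
import Pool.Agent.Run7.h880.RP.Fam
import Pool.Agent.Run7.h880.RP.Ext2

/-! Random positions near the squares. -/

set_option autoImplicit false

namespace Pool.Agent.Run7.h880.RP

open Finset Filter
open Pool.Agent.N384.MQ (ev_log_pow ev_log_ge)
open Pool.Agent.Run7.h880.MK (Smp Smp_mem Smp_card hits hits_eq nohit)
open Pool.Agent.Run7.h931.RS (Fw one_le_Fw sg_le_Fw moments)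

/-- the densities of the primes of the windows `(n ^ 2, n ^ 2 + M]` and `[n ^ 2 - M, n ^ 2)` are near `1 / log (N ^ 2)` -/
def RegSq (N M n : ℕ) : Prop := ∀ b : Bool,
  |((sqA n M b).card : ℝ) / M - 1 / (2 * Real.log N)| ≤ 12 / (2 * Real.log N) ^ 2

open Classical in
/-- the regular integers of `(N, 2 N]` -/
noncomputable def GoodSq (N M : ℕ) : Finset ℕ := (Ioc N (2 * N)).filter fun n => RegSq N M n

/-- almost all integers are regular -/
theorem goodsq_card (a U : ℕ) : ∃ N₀ : ℕ, ∀ N : ℕ, N₀ ≤ N → ∀ M : ℕ, (N : ℝ) ≤ M * Real.log N ^ a → M ≤ N →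
    ((Ioc N (2 * N) \ GoodSq N M).card : ℝ) ≤ N / Real.log N ^ U := by
  classical
  obtain ⟨C, X₀, h⟩ := fam (U + a + 1)
  obtain ⟨N₁, hev⟩ := eventually_atTop.1 ((ev_log_ge 2).and (Run7.h337.MK.ev_pw (a + C) (2 ^ C)))
  refine ⟨max X₀ (max N₁ 3), fun N hN M hNM hMN => ?_⟩
  obtain ⟨hl2, hpw⟩ := hev N (le_trans (le_trans (le_max_left _ _) (le_max_right _ _)) hN)
  have hN3 : 3 ≤ N := le_trans (le_trans (le_max_right _ _) (le_max_right _ _)) hN
  have hN3r : (3 : ℝ) ≤ N := by exact_mod_cast hN3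
  have hN0 : (0 : ℝ) < N := by linarith
  have hlogX : Real.log ((N ^ 2 : ℕ) : ℝ) = 2 * Real.log N := by
    push_cast
    rw [Real.log_pow]
    push_cast
    ring
  obtain ⟨L, hL⟩ : ∃ L, L = Real.log N := ⟨_, rfl⟩
  have hM0 : (0 : ℝ) < M := by
    rcases Nat.eq_zero_or_pos M with h | h
    · rw [h, Nat.cast_zero, zero_mul] at hNM
      linarith
    · exact_mod_cast h
  rw [← hL] at hl2 hpw hNM
  have hL0 : 0 < L := by linarith
  have hL1 : 1 ≤ L := by linarith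
  -- the blocks
  obtain ⟨J, hJ⟩ : ∃ J : Finset (ℕ × Bool), J = (Ioc N (2 * N)) ×ˢ univ := ⟨_, rfl⟩
  have hJm : ∀ j ∈ J, N < j.1 ∧ j.1 ≤ 2 * N := by
    intro j hj
    rw [hJ, mem_product, mem_Ioc] at hj
    exact hj.1
  have hsq : ∀ n : ℕ, N < n → N ^ 2 + N + M + 1 ≤ n ^ 2 := by
    intro n hn
    nlinarith
  have hXN : N ≤ N ^ 2 := by nlinarith
  obtain ⟨Bad, hBJ, hBs, hgood⟩ := h (N ^ 2) (le_trans (le_trans (le_max_left _ _) hN) hXN) J (fun j => sqU j.1 M j.2)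
    M 2 (by
      rw [hlogX, ← hL]
      have h1 : (((N ^ 2 : ℕ) : ℝ)) ^ (1 / 3 : ℝ) = (N : ℝ) ^ (2 / 3 : ℝ) := by
        push_cast
        rw [← Real.rpow_natCast, ← Real.rpow_mul hN0.le]
        norm_num
      rw [h1]
      have h6 : (N : ℝ) ^ (2 / 3 : ℝ) * (N : ℝ) ^ (1 / 3 : ℝ) = N := by
        rw [← Real.rpow_add hN0]
        norm_num
      have h7 : (N : ℝ) ^ (2 / 3 : ℝ) * (2 ^ C * L ^ (a + C)) ≤ N :=
        (mul_le_mul_of_nonneg_left hpw (by positivity)).trans h6.le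
      have h8 : L ^ a * ((N : ℝ) ^ (2 / 3 : ℝ) * (2 * L) ^ C) ≤ L ^ a * M := by
        calc L ^ a * ((N : ℝ) ^ (2 / 3 : ℝ) * (2 * L) ^ C) = (N : ℝ) ^ (2 / 3 : ℝ) * (2 ^ C * L ^ (a + C)) := by
              rw [pow_add, mul_pow]; ring
          _ ≤ N := h7
          _ ≤ M * L ^ a := hNM
          _ = L ^ a * M := mul_comm _ _
      exact le_of_mul_le_mul_left h8 (by positivity)) (hMN.trans hXN) (by
      intro j hj
      have h1 := hsq j.1 (hJm j hj).1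
      have h2 : j.1 ^ 2 ≤ 4 * N ^ 2 := by
        have := (hJm j hj).2
        nlinarith
      show N ^ 2 ≤ sqU j.1 M j.2 ∧ sqU j.1 M j.2 + M ≤ 6 * N ^ 2
      unfold sqU
      split_ifs <;> constructor <;> omega) (by
      intro m
      have h2 : ∀ b : Bool, (((J.filter fun j : ℕ × Bool => sqU j.1 M j.2 < m ∧ m ≤ sqU j.1 M j.2 + M)).filter
          fun j => j.2 = b).card ≤ 1 := by
        intro b
        rw [card_le_one]
        intro j hj j' hj'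
        rw [mem_filter, mem_filter] at hj hj'
        obtain ⟨⟨hj1, hj2, hj3⟩, hj4⟩ := hj
        obtain ⟨⟨hj1', hj2', hj3'⟩, hj4'⟩ := hj'
        have g1 := hsq j.1 (hJm j hj1).1
        have g1' := hsq j'.1 (hJm j' hj1').1
        have g2 := (hJm j hj1).1
        have g2' := (hJm j' hj1').1
        have g3 : j.1 < j'.1 → j.1 ^ 2 + 2 * N + 2 ≤ j'.1 ^ 2 := by
          intro hlt
          have : (j.1 + 1) ^ 2 ≤ j'.1 ^ 2 := Nat.pow_le_pow_left hlt 2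
          nlinarith
        have g3' : j'.1 < j.1 → j'.1 ^ 2 + 2 * N + 2 ≤ j.1 ^ 2 := by
          intro hlt
          have : (j'.1 + 1) ^ 2 ≤ j.1 ^ 2 := Nat.pow_le_pow_left hlt 2
          nlinarith
        rw [hj4] at hj2 hj3
        rw [hj4'] at hj2' hj3'
        unfold sqU at hj2 hj3 hj2' hj3'
        have g4 : j.1 = j'.1 := by
          rcases lt_trichotomy j.1 j'.1 with hlt | he | hlt
          · have := g3 hlt
            split_ifs at hj2 hj3 hj2' hj3' <;> omega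
          · exact he
          · have := g3' hlt
            split_ifs at hj2 hj3 hj2' hj3' <;> omega
        exact Prod.ext g4 (hj4.trans hj4'.symm)
      have h3 : (J.filter fun j : ℕ × Bool => sqU j.1 M j.2 < m ∧ m ≤ sqU j.1 M j.2 + M) ⊆
          (((J.filter fun j : ℕ × Bool => sqU j.1 M j.2 < m ∧ m ≤ sqU j.1 M j.2 + M)).filter fun j => j.2 = true) ∪
          (((J.filter fun j : ℕ × Bool => sqU j.1 M j.2 < m ∧ m ≤ sqU j.1 M j.2 + M)).filter fun j => j.2 = false) := by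
        intro j hj
        rw [mem_union]
        rcases Bool.eq_false_or_eq_true j.2 with hb | hb
        · exact Or.inl (mem_filter.2 ⟨hj, hb⟩)
        · exact Or.inr (mem_filter.2 ⟨hj, hb⟩)
      have h4 := (card_le_card h3).trans (card_union_le _ _)
      have h5 := h2 true
      have h6 := h2 false
      omega)
  rw [hlogX, ← hL] at hBs hgood
  have hsub : Ioc N (2 * N) \ GoodSq N M ⊆ Bad.image Prod.fst := by
    intro n hn
    rw [Finset.mem_sdiff] at hn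
    by_contra hcon
    refine hn.2 ?_
    unfold GoodSq
    rw [mem_filter]
    refine ⟨hn.1, fun b => ?_⟩
    have hn1 := mem_Ioc.1 hn.1
    have hm : M + 1 ≤ n ^ 2 := by have := hsq n hn1.1; omega
    rw [sqA_card n M b hm, ← hL]
    refine hgood (n, b) (by rw [hJ, mem_product]; exact ⟨hn.1, mem_univ _⟩) fun hb => hcon ?_
    exact mem_image.2 ⟨(n, b), hb, rfl⟩
  have h1 : ((Ioc N (2 * N) \ GoodSq N M).card : ℝ) ≤ Bad.card := by
    exact_mod_cast (card_le_card hsub).trans card_image_le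
  refine h1.trans ?_
  rw [← hL]
  -- |Bad| M ≤ 2 N² / (2 L)^(U+a+1)
  have h2 : (Bad.card : ℝ) * M * L ^ (U + a + 1) ≤ 2 * (N : ℝ) ^ 2 / 2 := by
    have e : ((2 : ℕ) : ℝ) * (((N ^ 2 : ℕ) : ℝ) / (2 * L) ^ (U + a + 1)) = 2 * (N : ℝ) ^ 2 / (2 * L) ^ (U + a + 1) := by
      push_cast; ring
    rw [e, le_div_iff₀ (by positivity), mul_pow] at hBs
    have h3 : (2 : ℝ) ≤ 2 ^ (U + a + 1) := by
      calc (2 : ℝ) = 2 ^ 1 := by norm_num
        _ ≤ _ := pow_le_pow_right₀ (by norm_num) (by omega)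
    have h4 : 0 ≤ (Bad.card : ℝ) * M * L ^ (U + a + 1) := by positivity
    have h5 : (Bad.card : ℝ) * M * (2 ^ (U + a + 1) * L ^ (U + a + 1)) =
        2 ^ (U + a + 1) * ((Bad.card : ℝ) * M * L ^ (U + a + 1)) := by ring
    rw [h5] at hBs
    nlinarith
  have h3 : (Bad.card : ℝ) * L ^ U * N ≤ N * N := by
    calc (Bad.card : ℝ) * L ^ U * N ≤ (Bad.card : ℝ) * L ^ U * (M * L ^ a) := by gcongr
      _ = (Bad.card : ℝ) * M * L ^ (U + a) := by rw [pow_add]; ring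
      _ ≤ (Bad.card : ℝ) * M * L ^ (U + a + 1) := by
          have : L ^ (U + a) ≤ L ^ (U + a + 1) := pow_le_pow_right₀ hL1 (by omega)
          gcongr
      _ ≤ 2 * (N : ℝ) ^ 2 / 2 := h2
      _ = N * N := by ring
  rw [le_div_iff₀ (by positivity)]
  exact le_of_mul_le_mul_right h3 hN0

/-- the density of the pairs -/
lemma sqA_pair {C₀ : ℕ} {Y₀ : ℝ}
    (hsv : ∀ M : ℕ, Y₀ ≤ M → ∀ s : ℤ, (s = 1 ∨ s = -1) → ∀ x y : ℕ, x < y →
    (((Icc 1 M).filter fun w : ℕ => ((x : ℤ) + s * w).toNat.Prime ∧ ((y : ℤ) + s * w).toNat.Prime).card : ℝ) ≤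
      C₀ * Fw 0 (y - x) ^ C₀ * (M / Real.log M ^ 2)) {M : ℕ} (hMY : Y₀ ≤ M) (hM0 : (0 : ℝ) < M) {L : ℝ} (hL0 : 0 < L)
    (hlogM : L / 4 ≤ Real.log M) (b : Bool) (i j : ℕ) (hij : i ≠ j) :
    ((sqA i M b ∩ sqA j M b).card : ℝ) / (Icc 1 M).card ≤ 16 * C₀ * Fw 0 (dd (i ^ 2) (j ^ 2)) ^ C₀ / L ^ 2 := by
  classical
  have hcard : ((Icc 1 M).card : ℝ) = M := by rw [Nat.card_Icc]; push_cast; simp
  have key : ∀ x y : ℕ, x < y → ((sqA x M b ∩ sqA y M b).card : ℝ) / (Icc 1 M).card ≤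
      16 * C₀ * Fw 0 (y ^ 2 - x ^ 2) ^ C₀ / L ^ 2 := by
    intro x y hxy
    have hxy2 : x ^ 2 < y ^ 2 := Nat.pow_lt_pow_left hxy (by norm_num)
    have h12 : ∃ s : ℤ, (s = 1 ∨ s = -1) ∧ sqA x M b ∩ sqA y M b ⊆ ((Icc 1 M).filter fun w : ℕ =>
        (((x ^ 2 : ℕ) : ℤ) + s * w).toNat.Prime ∧ (((y ^ 2 : ℕ) : ℤ) + s * w).toNat.Prime) := by
      cases b
      · refine ⟨-1, Or.inr rfl, fun w hw => ?_⟩
        rw [mem_inter] at hw
        unfold sqA at hw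
        rw [mem_filter, mem_filter] at hw
        simp only [Bool.false_eq_true, if_false] at hw
        rw [mem_filter]
        have e1 : (((x ^ 2 : ℕ) : ℤ) + -1 * w).toNat = x ^ 2 - w := by omega
        have e2 : (((y ^ 2 : ℕ) : ℤ) + -1 * w).toNat = y ^ 2 - w := by omega
        rw [e1, e2]
        exact ⟨hw.1.1, hw.1.2, hw.2.2⟩
      · refine ⟨1, Or.inl rfl, fun w hw => ?_⟩
        rw [mem_inter] at hw
        unfold sqA at hw
        rw [mem_filter, mem_filter] at hw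
        simp only [if_true] at hw
        rw [mem_filter]
        have e1 : (((x ^ 2 : ℕ) : ℤ) + 1 * w).toNat = x ^ 2 + w := by omega
        have e2 : (((y ^ 2 : ℕ) : ℤ) + 1 * w).toNat = y ^ 2 + w := by omega
        rw [e1, e2]
        exact ⟨hw.1.1, hw.1.2, hw.2.2⟩
    obtain ⟨s, hs, hsub⟩ := h12
    have h1 := hsv M hMY s hs (x ^ 2) (y ^ 2) hxy2
    have h2 : ((sqA x M b ∩ sqA y M b).card : ℝ) ≤ ((Icc 1 M).filter fun w : ℕ =>
        (((x ^ 2 : ℕ) : ℤ) + s * w).toNat.Prime ∧ (((y ^ 2 : ℕ) : ℤ) + s * w).toNat.Prime).card :=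
      Nat.cast_le.2 (card_le_card hsub)
    rw [hcard, div_le_iff₀ hM0]
    refine (h2.trans h1).trans ?_
    have h3 : (M : ℝ) / Real.log M ^ 2 ≤ 16 / L ^ 2 * M := by
      rw [div_mul_eq_mul_div, div_le_div_iff₀ (by have : 0 < Real.log M := by linarith
                                                  positivity) (by positivity)]
      have h4 : L ^ 2 ≤ 16 * Real.log M ^ 2 := by nlinarith
      nlinarith
    have h5 := one_le_Fw 0 (y ^ 2 - x ^ 2)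
    calc C₀ * Fw 0 (y ^ 2 - x ^ 2) ^ C₀ * (M / Real.log M ^ 2) ≤ C₀ * Fw 0 (y ^ 2 - x ^ 2) ^ C₀ * (16 / L ^ 2 * M) :=
          mul_le_mul_of_nonneg_left h3 (by positivity)
      _ = _ := by ring
  rcases lt_or_gt_of_ne hij with h | h
  · have hh : i ^ 2 < j ^ 2 := Nat.pow_lt_pow_left h (by norm_num)
    have e : dd (i ^ 2) (j ^ 2) = j ^ 2 - i ^ 2 := by unfold dd; omega
    rw [e]
    exact key i j h
  · have hh : j ^ 2 < i ^ 2 := Nat.pow_lt_pow_left h (by norm_num)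
    have e : dd (i ^ 2) (j ^ 2) = i ^ 2 - j ^ 2 := by unfold dd; omega
    rw [e, inter_comm]
    exact key j i h

/-- the system of the regular squares, from a bound for the pairs -/
theorem sys_sq_of (c : ℝ) (hc : 0 ≤ c) : ∃ (k : ℕ) (c' : ℝ), 0 ≤ c' ∧ ∀ K : ℝ, 0 ≤ K → ∃ K₂ : ℝ, 0 ≤ K₂ ∧ ∃ N₀ : ℕ,
    ∀ N : ℕ, N₀ ≤ N → ∀ M : ℕ, (N : ℝ) ^ (1 / 2 : ℝ) ≤ M → M ≤ N → ∀ J : Finset ℕ, J ⊆ GoodSq N M →
    ∑ i ∈ J, ∑ j ∈ J, (if i = j then 0 else Real.exp (c' * Fw 0 (dd (i ^ 2) (j ^ 2)) ^ k)) ≤ K * (J.card : ℝ) ^ 2 →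
    ∀ b : Bool, Sys (Icc 1 M) J (fun n => sqA n M b) (2 * Real.log N) 12 c K₂ := by
  classical
  obtain ⟨C₀, hC0, Y₀, hsv⟩ := sv
  refine ⟨C₀, c * (16 * C₀), by positivity, fun K hK => ⟨Real.exp c * K, by positivity, ?_⟩⟩
  obtain ⟨N₁, hev⟩ := eventually_atTop.1 ((ev_log_ge 1).and (Run7.h337.MK.ev_pw 0 (max Y₀ 2)))
  refine ⟨N₁, fun N hN M hM1 hM2 J hJ hJs b => ?_⟩
  obtain ⟨l1, l2⟩ := hev N hN
  rw [pow_zero, mul_one] at l2
  have hNp : (0 : ℝ) < N := by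
    rcases (Nat.cast_nonneg (α := ℝ) N).eq_or_lt with h | h
    · rw [← h, Real.log_zero] at l1
      linarith
    · exact h
  have hN1 : (1 : ℝ) ≤ N := by
    have := Real.log_le_sub_one_of_pos hNp
    linarith
  have l3 : (N : ℝ) ^ (1 / 3 : ℝ) ≤ M := (Real.rpow_le_rpow_of_exponent_le hN1 (by norm_num)).trans hM1
  have hMY : Y₀ ≤ M := (le_max_left _ _).trans (l2.trans l3)
  have hM2r : (2 : ℝ) ≤ M := (le_max_right _ _).trans (l2.trans l3)
  have hM0 : (0 : ℝ) < M := by linarith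
  have hM1n : 1 ≤ M := by exact_mod_cast (by linarith : (1 : ℝ) ≤ M)
  have hcard : ((Icc 1 M).card : ℝ) = M := by rw [Nat.card_Icc]; push_cast; simp
  obtain ⟨L, hL⟩ : ∃ L, L = 2 * Real.log N := ⟨_, rfl⟩
  have hL0 : 0 < L := by linarith
  have hlogM : L / 4 ≤ Real.log M := by
    have h1 := Real.log_le_log (by positivity) hM1
    rw [Real.log_rpow hNp] at h1
    linarith
  rw [← hL]
  refine ⟨nonempty_Icc.2 hM1n, fun j _ => sqA_sub _ _ _, ?_, ?_⟩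
  · intro j hj
    have h1 := hJ hj
    unfold GoodSq at h1
    have h2 := (mem_filter.1 h1).2
    unfold RegSq at h2
    rw [hcard, hL]
    exact h2 b
  · refine ⟨fun i j => 16 * C₀ * Fw 0 (dd (i ^ 2) (j ^ 2)) ^ C₀,
      fun i j => by have := one_le_Fw 0 (dd (i ^ 2) (j ^ 2)); positivity, ?_, ?_⟩
    · intro i _ j _ hij
      exact sqA_pair hsv hMY hM0 hL0 hlogM b i j hij
    · have h4 : ∀ i j : ℕ, (if i = j then 0 else Real.exp (c * (1 + 16 * C₀ * Fw 0 (dd (i ^ 2) (j ^ 2)) ^ C₀))) =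
          Real.exp c * (if i = j then 0 else Real.exp (c * (16 * C₀) * Fw 0 (dd (i ^ 2) (j ^ 2)) ^ C₀)) := by
        intro i j
        split_ifs
        · rw [mul_zero]
        · rw [← Real.exp_add]
          congr 1
          ring
      simp only [h4, ← mul_sum]
      calc Real.exp c * ∑ i ∈ J, ∑ j ∈ J, (if i = j then 0 else Real.exp (c * (16 * C₀) * Fw 0 (dd (i ^ 2) (j ^ 2)) ^ C₀))
          ≤ Real.exp c * (K * (J.card : ℝ) ^ 2) := mul_le_mul_of_nonneg_left hJs (Real.exp_pos c).le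
        _ = _ := by ring

/-- the system of the regular squares -/
theorem sys_sq (c : ℝ) (hc : 0 ≤ c) : ∃ K₂ : ℝ, 0 ≤ K₂ ∧ ∃ N₀ : ℕ, ∀ N : ℕ, N₀ ≤ N → ∀ M : ℕ,
    (N : ℝ) ^ (1 / 2 : ℝ) ≤ M → M ≤ N → ∀ J : Finset ℕ, J ⊆ GoodSq N M → (N : ℝ) / 2 ≤ J.card →
    ∀ b : Bool, Sys (Icc 1 M) J (fun n => sqA n M b) (2 * Real.log N) 12 c K₂ := by
  classical
  obtain ⟨k, c', hc', h1⟩ := sys_sq_of c hc
  obtain ⟨K, hK1, hK⟩ := avg_sq c' hc' k
  obtain ⟨K₂, hK2, N₀, h2⟩ := h1 (4 * K) (by linarith)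
  refine ⟨K₂, hK2, N₀, fun N hN M hM1 hM2 J hJ hJc b => h2 N hN M hM1 hM2 J hJ ?_ b⟩
  have h3 : J ⊆ Ioc N (2 * N) := fun j hj => by
    have := hJ hj
    unfold GoodSq at this
    exact (mem_filter.1 this).1
  have hnn : ∀ i j : ℕ, (0 : ℝ) ≤ (if i = j then 0 else Real.exp (c' * Fw 0 (dd (i ^ 2) (j ^ 2)) ^ k)) := by
    intro i j
    split_ifs
    · exact le_rfl
    · exact (Real.exp_pos _).le
  have h4 : ∑ i ∈ J, ∑ j ∈ J, (if i = j then 0 else Real.exp (c' * Fw 0 (dd (i ^ 2) (j ^ 2)) ^ k)) ≤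
      ∑ i ∈ Ioc N (2 * N), ∑ j ∈ Ioc N (2 * N), (if i = j then 0 else Real.exp (c' * Fw 0 (dd (i ^ 2) (j ^ 2)) ^ k)) := by
    refine (sum_le_sum fun i _ => sum_le_sum_of_subset_of_nonneg h3 fun j _ _ => hnn i j).trans ?_
    exact sum_le_sum_of_subset_of_nonneg h3 fun i _ _ => sum_nonneg fun j _ => hnn i j
  refine (h4.trans (hK N)).trans ?_
  have h5 : (N : ℝ) ^ 2 ≤ 4 * (J.card : ℝ) ^ 2 := by
    have : (N : ℝ) ≤ 2 * J.card := by linarith
    have hN0 : (0 : ℝ) ≤ N := Nat.cast_nonneg N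
    nlinarith
  nlinarith

end Pool.Agent.Run7.h880.RP
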