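import Mathlib
import Pool.Agent.Run7.h880.RP.SqS
import Pool.Agent.Run7.h880.RP.Dim2d

/-! Random positions near the squares: the limit shape. -/

set_option autoImplicit false

namespace Pool.Agent.Run7.h880.RP

open Finset Filter
open Pool.Agent.N384.MQ (ev_log_pow ev_log_ge)
open Pool.Agent.Run7.h880.MK (Smp Smp_mem Smp_card hits hits_eq nohit)

/-- **the limit shape for squares** -/
theorem main_sq (κ ε : ℝ) (hκ : 0 < κ) (hε : 0 < ε) : ∃ K : ℝ, 0 < K ∧ ∃ N₀ : ℕ, ∀ N : ℕ, N₀ ≤ N → ∀ M : ℕ,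
    (N : ℝ) ^ (1 / 2 : ℝ) ≤ M → M ≤ N → ∀ J : Finset ℕ, J ⊆ GoodSq N M → (N : ℝ) / 2 ≤ J.card →
    ∀ m : ℕ, |(m : ℝ) - κ * Real.log N ^ 2| ≤ 1 →
    ∀ (P : (Fin m → ℕ) × (Fin m → ℕ) → Prop) [DecidablePred P],
    (∀ p, P p → ¬ Shape J (fun n => sqA n M false) (fun n => sqA n M true) (κ / 2 * Real.log N) (Reg2 (1 / 2) (κ / 4)) ε p) →
    (((Smp (Icc 1 M) m ×ˢ Smp (Icc 1 M) m).filter P).card : ℝ) ≤
      K / Real.log N * ((Smp (Icc 1 M) m ×ˢ Smp (Icc 1 M) m).card : ℝ) := by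
  classical
  obtain ⟨c, η, hc, hη, h1⟩ := shape (1 / 2) (κ / 4) ε 12 (by norm_num) (by positivity) hε (by norm_num)
  obtain ⟨K₂, hK2, N₁, h2⟩ := sys_sq c hc
  obtain ⟨K, hK, h3⟩ := h1 K₂ hK2
  refine ⟨K, hK, ?_⟩
  have hlim : Tendsto (fun N : ℕ => 2 * Real.log N) atTop atTop :=
    (Real.tendsto_log_atTop.comp (tendsto_natCast_atTop_atTop (R := ℝ))).const_mul_atTop (by norm_num)
  have h4 : ∀ᶠ N : ℕ in atTop, _ := hlim.eventually h3
  obtain ⟨N₂, h4⟩ := eventually_atTop.1 (h4.and ((ev_log_ge 1).and (ev_log_ge (1 / (2 * η)))))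
  refine ⟨max N₁ (max N₂ 1), fun N hN M hM1 hM2 J hJ hJc m hm P _ hP => ?_⟩
  have hN1 : 1 ≤ N := le_trans (le_trans (le_max_right _ _) (le_max_right _ _)) hN
  have hNr : (0 : ℝ) < N := by exact_mod_cast hN1
  obtain ⟨h5, l1, l2⟩ := h4 N (le_trans (le_trans (le_max_left _ _) (le_max_right _ _)) hN)
  rw [div_le_iff₀ (by positivity)] at l2
  have hL0 : 0 < Real.log N := by linarith
  have hS := h2 N (le_trans (le_max_left _ _) hN) M hM1 hM2 J hJ hJc
  have h6 := h5 m (by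
      have e : κ / 4 * (2 * Real.log N) ^ 2 = κ * Real.log N ^ 2 := by ring
      rw [e]
      linarith) (Icc 1 M) J (fun n => sqA n M false) (fun n => sqA n M true) (hS false) (hS true) (by
    show Real.exp ((1 / 2 - η) * (2 * Real.log N)) ≤ J.card
    have e : (1 / 2 - η) * (2 * Real.log N) = Real.log N - 2 * η * Real.log N := by ring
    rw [e, Real.exp_sub, Real.exp_log hNr]
    refine le_trans ?_ hJc
    refine div_le_div_of_nonneg_left hNr.le (by norm_num) ?_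
    have h7 := Real.add_one_le_exp (2 * η * Real.log N)
    linarith) (by
    show (J.card : ℝ) ≤ Real.exp (1 / 2 * (2 * Real.log N) + 1)
    have e : 1 / 2 * (2 * Real.log N) + 1 = Real.log N + 1 := by ring
    rw [e, Real.exp_add, Real.exp_log hNr]
    have h6 : J ⊆ Ioc N (2 * N) := fun j hj => by
      have := hJ hj
      unfold GoodSq at this
      exact (mem_filter.1 this).1
    have h7 : (J.card : ℝ) ≤ N := by
      have := card_le_card h6
      rw [Nat.card_Ioc] at this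
      exact_mod_cast (by omega : J.card ≤ N)
    have h8 := Real.exp_one_gt_d9
    nlinarith) P (by
    intro p hp
    have e : κ / 4 * (2 * Real.log N) = κ / 2 * Real.log N := by ring
    rw [e]
    exact hP p hp)
  refine h6.trans (mul_le_mul_of_nonneg_right ?_ (Nat.cast_nonneg _))
  exact div_le_div_of_nonneg_left hK.le hL0 (by linarith)

/-- the region shrinks to a point -/
theorem reg2_small (ε : ℝ) (hε : 0 < ε) : ∃ κ₀ : ℝ, 0 < κ₀ ∧ ∀ κ : ℝ, κ₀ ≤ κ → ∀ z ∈ Reg2 (1 / 2) (κ / 4),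
    |z.1 - 1| ≤ ε ∧ |z.2 - 1| ≤ ε := by
  obtain ⟨t, ht⟩ : ∃ t, t = min ε (1 / 2) := ⟨_, rfl⟩
  have ht0 : 0 < t := by rw [ht]; exact lt_min hε (by norm_num)
  have ht1 : t ≤ 1 / 2 := by rw [ht]; exact min_le_right _ _
  have htε : t ≤ ε := by rw [ht]; exact min_le_left _ _
  have h1 : 0 < hf (1 + t) := by
    have := hf_mono (Set.mem_Ici.2 le_rfl) (Set.mem_Ici.2 (by linarith : (1 : ℝ) ≤ 1 + t)) (by linarith)
    rwa [hf_one] at this
  have h2 : 0 < hf (1 - t) := by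
    have := hf_anti (a := 1 - t) (b := 1) ⟨by linarith, by linarith⟩ ⟨by norm_num, le_rfl⟩ (by linarith)
    rwa [hf_one] at this
  obtain ⟨δ, hδ⟩ : ∃ δ, δ = min (hf (1 + t)) (hf (1 - t)) := ⟨_, rfl⟩
  have hδ0 : 0 < δ := by rw [hδ]; exact lt_min h1 h2
  have hδ1 : δ ≤ hf (1 + t) := by rw [hδ]; exact min_le_left _ _
  have hδ2 : δ ≤ hf (1 - t) := by rw [hδ]; exact min_le_right _ _
  have key : ∀ x : ℝ, 0 ≤ x → hf x < δ → |x - 1| ≤ ε := by
    intro x hx hlt
    rw [abs_le]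
    constructor
    · by_contra hcon
      rw [not_le] at hcon
      have h3 := hf_anti (a := x) (b := 1 - t) ⟨hx, by linarith⟩ ⟨by linarith, by linarith⟩ (by linarith)
      linarith
    · by_contra hcon
      rw [not_le] at hcon
      have h3 := hf_mono (Set.mem_Ici.2 (by linarith : (1 : ℝ) ≤ 1 + t)) (Set.mem_Ici.2 (by linarith : (1 : ℝ) ≤ x))
        (by linarith)
      linarith
  refine ⟨3 / δ, by positivity, fun κ hκ z hz => ?_⟩
  rw [div_le_iff₀ hδ0] at hκ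
  obtain ⟨h3, h4, h5⟩ := hz
  have g1 := hf_nonneg h3
  have g2 := hf_nonneg h4
  have hκ0 : 0 < κ := by
    by_contra hcon
    nlinarith
  constructor
  · refine key _ h3 ?_
    by_contra hcon
    rw [not_lt] at hcon
    nlinarith [mul_le_mul_of_nonneg_left hcon hκ0.le, mul_nonneg hκ0.le g2]
  · refine key _ h4 ?_
    by_contra hcon
    rw [not_lt] at hcon
    nlinarith [mul_le_mul_of_nonneg_left hcon hκ0.le, mul_nonneg hκ0.le g1]

end Pool.Agent.Run7.h880.RP
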