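import Mathlib
import Pool.Agent.Run7.h880.RP.SqM

/-! Random positions prime to `P` near the squares of the multiples of `P`. -/

set_option autoImplicit false

namespace Pool.Agent.Run7.h880.RP

open Finset Filter
open Pool.Agent.N384.MQ (ev_log_pow ev_log_ge)
open Pool.Agent.Run7.h880.MK (Smp Smp_mem Smp_card hits hits_eq nohit)
open Pool.Agent.Run7.h931.RS (Fw one_le_Fw sg_le_Fw moments)

/-- the integers of `[1, M]` prime to `P` -/
def Om (P M : ℕ) : Finset ℕ := (Icc 1 M).filter fun w => P.Coprime w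

lemma Om_hi (P M : ℕ) (hP : 0 < P) : ((Om P M).card : ℝ) ≤ P.totient * ((M : ℝ) / P + 1) := by
  have h1 := Nat.Ico_filter_coprime_le 1 M hP.ne'
  have e : Om P M = (Ico 1 (1 + M)).filter P.Coprime := by
    unfold Om
    congr 1
    ext x
    rw [mem_Icc, mem_Ico]
    omega
  rw [e]
  have h2 : (((Ico 1 (1 + M)).filter P.Coprime).card : ℝ) ≤ P.totient * (((M / P : ℕ) : ℝ) + 1) := by exact_mod_cast h1
  refine h2.trans (mul_le_mul_of_nonneg_left ?_ (Nat.cast_nonneg _))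
  have := Nat.cast_div_le (α := ℝ) (m := M) (n := P)
  linarith

lemma Om_mul (P t : ℕ) : (((Ico 1 (1 + P * t)).filter P.Coprime).card) = P.totient * t := by
  induction t with
  | zero => simp
  | succ t ih =>
    have h1 := Nat.filter_coprime_Ico_eq_totient P (1 + P * t)
    have e : Ico 1 (1 + P * (t + 1)) = Ico 1 (1 + P * t) ∪ Ico (1 + P * t) (1 + P * t + P) := by
      ext x
      rw [mem_union, mem_Ico, mem_Ico, mem_Ico]
      have : P * (t + 1) = P * t + P := by ring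
      omega
    rw [e, filter_union, card_union_of_disjoint, ih, h1]
    · ring
    · rw [disjoint_left]
      intro x hx hx'
      rw [mem_filter, mem_Ico] at hx hx'
      omega

lemma Om_lo (P M : ℕ) (hP : 0 < P) : P.totient * ((M : ℝ) / P - 1) ≤ ((Om P M).card : ℝ) := by
  have h1 := Om_mul P (M / P)
  have h2 : (Ico 1 (1 + P * (M / P))).filter P.Coprime ⊆ Om P M := by
    intro x hx
    rw [mem_filter, mem_Ico] at hx
    unfold Om
    rw [mem_filter, mem_Icc]
    have := Nat.mul_div_le M P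
    exact ⟨by omega, hx.2⟩
  have h3 := card_le_card h2
  rw [h1] at h3
  have h4 : (P.totient : ℝ) * ((M / P : ℕ) : ℝ) ≤ ((Om P M).card : ℝ) := by exact_mod_cast h3
  refine le_trans (mul_le_mul_of_nonneg_left ?_ (Nat.cast_nonneg _)) h4
  have h5 : M < P * (M / P + 1) := Nat.lt_mul_div_succ M hP
  have h6 : (M : ℝ) < P * (((M / P : ℕ) : ℝ) + 1) := by exact_mod_cast h5
  have hPr : (0 : ℝ) < P := by exact_mod_cast hP
  have h7 : (M : ℝ) / P < ((M / P : ℕ) : ℝ) + 1 := by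
    rw [div_lt_iff₀ hPr]
    linarith
  linarith

/-- the positions of primes are prime to `P` -/
lemma sqA_Om {P N n M : ℕ} (hPN : P ≤ N) (hn : N < n) (hMN : M ≤ N) (hdvd : P ∣ n) (b : Bool) : sqA n M b ⊆ Om P M := by
  intro w hw
  unfold sqA at hw
  rw [mem_filter, mem_Icc] at hw
  unfold Om
  rw [mem_filter, mem_Icc]
  refine ⟨hw.1, ?_⟩
  rw [Nat.coprime_iff_gcd_eq_one]
  by_contra hcon
  obtain ⟨p, hp, hpd⟩ := Nat.exists_prime_and_dvd hcon
  have h1 : p ∣ P := hpd.trans (Nat.gcd_dvd_left _ _)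
  have h2 : p ∣ w := hpd.trans (Nat.gcd_dvd_right _ _)
  have h3 : p ∣ n ^ 2 := (h1.trans hdvd).trans (dvd_pow_self n (by norm_num))
  have h4 : p ≤ N := by
    rcases Nat.eq_zero_or_pos P with h | h
    · have : p ≤ w := Nat.le_of_dvd (by omega) h2
      omega
    · exact (Nat.le_of_dvd h h1).trans hPN
  have h5 : N + M < n ^ 2 := by nlinarith
  have h6 : p ∣ (if b then n ^ 2 + w else n ^ 2 - w) := by
    split_ifs
    · exact (Nat.dvd_add_right h3).2 h2
    · exact Nat.dvd_sub h3 h2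
  have h7 := (Nat.prime_dvd_prime_iff_eq hp hw.2).1 h6
  split_ifs at h7 <;> omega

/-- the regular multiples of `P` -/
noncomputable def GM (P N M : ℕ) : Finset ℕ := (GoodSq N M).filter fun n => P ∣ n

lemma mult_card (P N : ℕ) (hP : 0 < P) : (N : ℝ) / P - 1 ≤ (((Ioc N (2 * N)).filter fun n => P ∣ n).card : ℝ) := by
  have h1 : (Ioc (N / P) (2 * N / P)).image (fun k => P * k) ⊆ (Ioc N (2 * N)).filter fun n => P ∣ n := by
    intro n hn
    rw [mem_image] at hn
    obtain ⟨k, hk, rfl⟩ := hn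
    rw [mem_Ioc] at hk
    rw [mem_filter, mem_Ioc]
    refine ⟨⟨?_, ?_⟩, dvd_mul_right _ _⟩
    · have := (Nat.div_lt_iff_lt_mul hP).1 hk.1
      rw [mul_comm]
      exact this
    · have := (Nat.le_div_iff_mul_le hP).1 hk.2
      rw [mul_comm]
      exact this
  have h2 : ((Ioc (N / P) (2 * N / P)).image (fun k => P * k)).card = 2 * N / P - N / P := by
    rw [card_image_of_injective _ (fun a b h => Nat.eq_of_mul_eq_mul_left hP h), Nat.card_Ioc]
  have h3 := card_le_card h1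
  rw [h2] at h3
  have h4 : N / P ≤ 2 * N / P := Nat.div_le_div_right (by omega)
  have h5 : ((2 * N / P : ℕ) : ℝ) - ((N / P : ℕ) : ℝ) ≤ (((Ioc N (2 * N)).filter fun n => P ∣ n).card : ℝ) := by
    rw [← Nat.cast_sub h4]
    exact_mod_cast h3
  refine le_trans ?_ h5
  have hPr : (0 : ℝ) < P := by exact_mod_cast hP
  have h6 : ((N / P : ℕ) : ℝ) ≤ (N : ℝ) / P := Nat.cast_div_le
  have h7 : 2 * (N : ℝ) / P < ((2 * N / P : ℕ) : ℝ) + 1 := by
    rw [div_lt_iff₀ hPr]
    have := Nat.lt_mul_div_succ (2 * N) hP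
    have h8 : ((2 * N : ℕ) : ℝ) < P * (((2 * N / P : ℕ) : ℝ) + 1) := by exact_mod_cast this
    push_cast at h8
    linarith
  have h9 : 2 * (N : ℝ) / P = N / P + N / P := by ring
  linarith

lemma GM_big (P a : ℕ) (hP : 0 < P) : ∃ N₀ : ℕ, ∀ N : ℕ, N₀ ≤ N → ∀ M : ℕ, (N : ℝ) ≤ M * Real.log N ^ a → M ≤ N →
    (N : ℝ) / (4 * P) ≤ (GM P N M).card := by
  classical
  obtain ⟨N₁, h1⟩ := goodsq_card a 1
  obtain ⟨N₂, h2⟩ := eventually_atTop.1 (ev_log_ge (4 * P))
  refine ⟨max N₁ (max N₂ (4 * P)), fun N hN M hM1 hM2 => ?_⟩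
  have hN4 : 4 * P ≤ N := le_trans (le_trans (le_max_right _ _) (le_max_right _ _)) hN
  have l2 := h2 N (le_trans (le_trans (le_max_left _ _) (le_max_right _ _)) hN)
  have g1 := h1 N (le_trans (le_max_left _ _) hN) M hM1 hM2
  rw [pow_one] at g1
  have hPr : (0 : ℝ) < P := by exact_mod_cast hP
  have hNr : 4 * (P : ℝ) ≤ N := by exact_mod_cast hN4
  have hN0 : (0 : ℝ) < N := by linarith
  have g2 := mult_card P N hP
  have h3 : (Ioc N (2 * N)).filter (fun n => P ∣ n) ⊆ GM P N M ∪ (Ioc N (2 * N) \ GoodSq N M) := by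
    intro n hn
    rw [mem_filter] at hn
    rw [mem_union, Finset.mem_sdiff]
    by_cases h : n ∈ GoodSq N M
    · left
      unfold GM
      exact mem_filter.2 ⟨h, hn.2⟩
    · exact Or.inr ⟨hn.1, h⟩
  have h4 : (((Ioc N (2 * N)).filter fun n => P ∣ n).card : ℝ) ≤ (GM P N M).card + (Ioc N (2 * N) \ GoodSq N M).card := by
    exact_mod_cast (card_le_card h3).trans (card_union_le _ _)
  obtain ⟨t, ht⟩ : ∃ t, t = (N : ℝ) / P := ⟨_, rfl⟩
  have e2 : (N : ℝ) / (4 * P) = t / 4 := by rw [ht]; field_simp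
  have e3 : (N : ℝ) / Real.log N ≤ t / 4 := by
    rw [← e2]
    exact div_le_div_of_nonneg_left hN0.le (by positivity) l2
  have e4 : 4 ≤ t := by rw [ht, le_div_iff₀ hPr]; exact hNr
  rw [← ht] at g2
  rw [e2]
  linarith

/-- the system of the regular multiples of `P` -/
theorem sys_tot (P : ℕ) (hP : 0 < P) (r : ℝ) (hr : r = P.totient / P) (c : ℝ) (hc : 0 ≤ c) :
    ∃ K₂ : ℝ, 0 ≤ K₂ ∧ ∃ N₀ : ℕ, ∀ N : ℕ, N₀ ≤ N → ∀ M : ℕ,
    (N : ℝ) ^ (1 / 2 : ℝ) ≤ M → M ≤ N → (N : ℝ) / (4 * P) ≤ (GM P N M).card →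
    ∀ b : Bool, Sys (Om P M) (GM P N M) (fun n => sqA n M b) (2 * r * Real.log N) 28 c K₂ := by
  classical
  have hPr : (0 : ℝ) < P := by exact_mod_cast hP
  have htot : 0 < P.totient := Nat.totient_pos.2 hP
  have hr0 : 0 < r := by rw [hr]; positivity
  have hr1 : r ≤ 1 := by
    rw [hr, div_le_one hPr]
    exact_mod_cast Nat.totient_le P
  obtain ⟨C₀, hC0, Y₀, hsv⟩ := sv
  obtain ⟨K, hK1, hK⟩ := avg_sq (c * (32 * C₀)) (by positivity) C₀
  refine ⟨Real.exp c * (16 * P ^ 2 * K), by positivity, ?_⟩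
  obtain ⟨N₁, hev⟩ := eventually_atTop.1 ((ev_log_ge 1).and ((Run7.h337.MK.ev_pw 1 (2 * P)).and (Run7.h337.MK.ev_pw 0 (max Y₀ 2))))
  refine ⟨max N₁ P, fun N hN M hM1 hM2 hGc b => ?_⟩
  have hPN : P ≤ N := le_trans (le_max_right _ _) hN
  obtain ⟨l1, l4, l2⟩ := hev N (le_trans (le_max_left _ _) hN)
  rw [pow_zero, mul_one] at l2
  rw [pow_one] at l4
  have hNp : (0 : ℝ) < N := by
    rcases (Nat.cast_nonneg (α := ℝ) N).eq_or_lt with h | h
    · rw [← h, Real.log_zero] at l1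
      linarith
    · exact h
  have hN1 : (1 : ℝ) ≤ N := by
    have := Real.log_le_sub_one_of_pos hNp
    linarith
  have l3 : (N : ℝ) ^ (1 / 3 : ℝ) ≤ M := (Real.rpow_le_rpow_of_exponent_le hN1 (by norm_num)).trans hM1
  have hMY : Y₀ ≤ M := (le_max_left _ _).trans (l2.trans l3)
  have hM2r : (2 : ℝ) ≤ M := (le_max_right _ _).trans (l2.trans l3)
  have hM0 : (0 : ℝ) < M := by linarith
  have hML : 2 * P * Real.log N ≤ M := l4.trans l3
  obtain ⟨L, hL⟩ : ∃ L, L = 2 * Real.log N := ⟨_, rfl⟩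
  have hL0 : 0 < L := by linarith
  have hlogM : L / 4 ≤ Real.log M := by
    have h1 := Real.log_le_log (by positivity) hM1
    rw [Real.log_rpow hNp] at h1
    linarith
  obtain ⟨ω, hω⟩ : ∃ ω : ℝ, ω = (Om P M).card / M := ⟨_, rfl⟩
  have hωc : ((Om P M).card : ℝ) = ω * M := by rw [hω, div_mul_cancel₀ _ hM0.ne']
  have hω1 : |ω - r| ≤ r * P / M := by
    have g1 := Om_hi P M hP
    have g2 := Om_lo P M hP
    have e1 : (P.totient : ℝ) * ((M : ℝ) / P + 1) = (r + r * P / M) * M := by rw [hr]; field_simp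
    have e2 : (P.totient : ℝ) * ((M : ℝ) / P - 1) = (r - r * P / M) * M := by rw [hr]; field_simp
    rw [e1, hωc] at g1
    rw [e2, hωc] at g2
    have g3 := le_of_mul_le_mul_right g1 hM0
    have g4 := le_of_mul_le_mul_right g2 hM0
    rw [abs_le]
    constructor <;> linarith
  have hPM : (P : ℝ) / M ≤ 1 / (2 * Real.log N) := by
    rw [div_le_div_iff₀ hM0 (by linarith)]
    linarith
  have hω2 : |ω - r| ≤ r / (2 * Real.log N) := by
    refine hω1.trans ?_
    have : r * P / M = r * (P / M) := by ring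
    rw [this]
    calc r * (P / M) ≤ r * (1 / (2 * Real.log N)) := mul_le_mul_of_nonneg_left hPM hr0.le
      _ = _ := by ring
  have hωr : r / 2 ≤ ω := by
    have h1 := (abs_le.1 hω2).1
    have h2 : r / (2 * Real.log N) ≤ r / 2 := div_le_div_of_nonneg_left hr0.le (by norm_num) (by linarith)
    linarith
  have hω0 : 0 < ω := by linarith
  have hOne : (Om P M).Nonempty := by
    rw [← card_pos]
    have : (0 : ℝ) < (Om P M).card := by rw [hωc]; positivity
    exact_mod_cast this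
  have hGm : ∀ n ∈ GM P N M, n ∈ GoodSq N M ∧ P ∣ n ∧ N < n := by
    intro n hn
    unfold GM at hn
    rw [mem_filter] at hn
    have h1 := hn.1
    unfold GoodSq at h1
    rw [mem_filter, mem_Ioc] at h1
    exact ⟨hn.1, hn.2, h1.1.1⟩
  refine ⟨hOne, fun j hj => sqA_Om hPN (hGm j hj).2.2 hM2 (hGm j hj).2.1 b, ?_, ?_⟩
  · intro j hj
    have h1 := (hGm j hj).1
    unfold GoodSq at h1
    have h2 := (mem_filter.1 h1).2
    unfold RegSq at h2
    have h3 := h2 b
    obtain ⟨α, hα⟩ : ∃ α : ℝ, α = (sqA j M b).card / M := ⟨_, rfl⟩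
    rw [← hα] at h3
    have e1 : ((sqA j M b).card : ℝ) / (Om P M).card = α / ω := by
      rw [hωc, hα, div_div, mul_comm ω]
    show |((sqA j M b).card : ℝ) / (Om P M).card - 1 / (2 * r * Real.log N)| ≤ 28 / (2 * r * Real.log N) ^ 2
    rw [e1]
    obtain ⟨ℓ, hℓ⟩ : ∃ ℓ, ℓ = Real.log N := ⟨_, rfl⟩
    rw [← hℓ] at h3 hω2 l1 ⊢
    have hℓ0 : 0 < ℓ := by linarith
    have e2 : α / ω - 1 / (2 * r * ℓ) = (α - 1 / (2 * ℓ)) / ω + (r - ω) / (2 * ℓ * ω * r) := by field_simp; ring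
    have a1 : |(α - 1 / (2 * ℓ)) / ω| ≤ 6 / (r * ℓ ^ 2) := by
      rw [abs_div, abs_of_pos hω0, div_le_iff₀ hω0]
      refine h3.trans ?_
      have e3 : (12 : ℝ) / (2 * ℓ) ^ 2 = 6 / (r * ℓ ^ 2) * (r / 2) := by field_simp; norm_num
      rw [e3]
      exact mul_le_mul_of_nonneg_left hωr (by positivity)
    have a2 : |(r - ω) / (2 * ℓ * ω * r)| ≤ 1 / (2 * r * ℓ ^ 2) := by
      rw [abs_div, abs_of_pos (show 0 < 2 * ℓ * ω * r by positivity), abs_sub_comm, div_le_iff₀ (by positivity)]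
      refine hω2.trans ?_
      have e3 : r / (2 * ℓ) = 1 / (2 * r * ℓ ^ 2) * (2 * ℓ * (r / 2) * r) := by field_simp
      rw [e3]
      gcongr
    rw [e2]
    refine (abs_add_le _ _).trans ((add_le_add a1 a2).trans ?_)
    have e4 : 6 / (r * ℓ ^ 2) + 1 / (2 * r * ℓ ^ 2) = 26 * r / (2 * r * ℓ) ^ 2 := by field_simp; norm_num
    rw [e4]
    refine div_le_div_of_nonneg_right ?_ (by positivity)
    linarith
  · refine ⟨fun i j => 32 * C₀ * Fw 0 (dd (i ^ 2) (j ^ 2)) ^ C₀,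
      fun i j => by have := one_le_Fw 0 (dd (i ^ 2) (j ^ 2)); positivity, ?_, ?_⟩
    · intro i _ j _ hij
      have h1 := sqA_pair hsv hMY hM0 hL0 hlogM b i j hij
      have hcard : ((Icc 1 M).card : ℝ) = M := by rw [Nat.card_Icc]; push_cast; simp
      rw [hcard, div_le_iff₀ hM0] at h1
      show ((sqA i M b ∩ sqA j M b).card : ℝ) / (Om P M).card ≤ 32 * C₀ * Fw 0 (dd (i ^ 2) (j ^ 2)) ^ C₀ / (2 * r * Real.log N) ^ 2
      rw [hωc, div_le_iff₀ (by positivity)]
      refine h1.trans ?_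
      have hF := one_le_Fw 0 (dd (i ^ 2) (j ^ 2))
      have e1 : 32 * C₀ * Fw 0 (dd (i ^ 2) (j ^ 2)) ^ C₀ / (2 * r * Real.log N) ^ 2 * (ω * M) =
          16 * C₀ * Fw 0 (dd (i ^ 2) (j ^ 2)) ^ C₀ / L ^ 2 * M * (2 * ω / r ^ 2) := by
        rw [hL]
        have : Real.log N ≠ 0 := by linarith
        field_simp
        ring
      rw [e1]
      refine le_mul_of_one_le_right (by positivity) ?_
      rw [le_div_iff₀ (by positivity)]
      nlinarith
    · have h4 : ∀ i j : ℕ, (if i = j then 0 else Real.exp (c * (1 + 32 * C₀ * Fw 0 (dd (i ^ 2) (j ^ 2)) ^ C₀))) =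
          Real.exp c * (if i = j then 0 else Real.exp (c * (32 * C₀) * Fw 0 (dd (i ^ 2) (j ^ 2)) ^ C₀)) := by
        intro i j
        split_ifs
        · rw [mul_zero]
        · rw [← Real.exp_add]
          congr 1
          ring
      simp only [h4, ← mul_sum]
      have hJ : GM P N M ⊆ Ioc N (2 * N) := fun j hj => by
        have := (hGm j hj).1
        unfold GoodSq at this
        exact (mem_filter.1 this).1
      have hnn : ∀ i j : ℕ, (0 : ℝ) ≤ (if i = j then 0 else Real.exp (c * (32 * C₀) * Fw 0 (dd (i ^ 2) (j ^ 2)) ^ C₀)) := by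
        intro i j
        split_ifs
        · exact le_rfl
        · exact (Real.exp_pos _).le
      have h5 : ∑ i ∈ GM P N M, ∑ j ∈ GM P N M, (if i = j then 0 else Real.exp (c * (32 * C₀) * Fw 0 (dd (i ^ 2) (j ^ 2)) ^ C₀)) ≤
          ∑ i ∈ Ioc N (2 * N), ∑ j ∈ Ioc N (2 * N), (if i = j then 0 else Real.exp (c * (32 * C₀) * Fw 0 (dd (i ^ 2) (j ^ 2)) ^ C₀)) := by
        refine (sum_le_sum fun i _ => sum_le_sum_of_subset_of_nonneg hJ fun j _ _ => hnn i j).trans ?_
        exact sum_le_sum_of_subset_of_nonneg hJ fun i _ _ => sum_nonneg fun j _ => hnn i j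
      have h6 : (N : ℝ) ^ 2 ≤ 16 * P ^ 2 * ((GM P N M).card : ℝ) ^ 2 := by
        have h7 : (N : ℝ) ≤ (GM P N M).card * (4 * P) := by
          rwa [div_le_iff₀ (by positivity)] at hGc
        calc (N : ℝ) ^ 2 ≤ ((GM P N M).card * (4 * P)) ^ 2 := pow_le_pow_left₀ hNp.le h7 2
          _ = _ := by ring
      calc Real.exp c * ∑ i ∈ GM P N M, ∑ j ∈ GM P N M, (if i = j then 0 else Real.exp (c * (32 * C₀) * Fw 0 (dd (i ^ 2) (j ^ 2)) ^ C₀))
          ≤ Real.exp c * (K * (N : ℝ) ^ 2) := mul_le_mul_of_nonneg_left (h5.trans (hK N)) (Real.exp_pos c).le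
        _ ≤ Real.exp c * (K * (16 * P ^ 2 * ((GM P N M).card : ℝ) ^ 2)) := by gcongr
        _ = _ := by ring

/-- **the limit shape for the multiples of `P`** -/
theorem main_tot (P : ℕ) (hP : 0 < P) (r : ℝ) (hr : r = P.totient / P) (κ ε : ℝ) (hκ : 0 < κ) (hε : 0 < ε) (a : ℕ) :
    ∃ K : ℝ, 0 < K ∧ ∃ N₀ : ℕ, ∀ N : ℕ, N₀ ≤ N → ∀ M : ℕ,
    (N : ℝ) ≤ M * Real.log N ^ a → M ≤ N → ∀ m : ℕ, |(m : ℝ) - κ * Real.log N ^ 2| ≤ 1 →
    ∀ (Q : (Fin m → ℕ) × (Fin m → ℕ) → Prop) [DecidablePred Q],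
    (∀ p, Q p → ¬ Shape (GM P N M) (fun n => sqA n M false) (fun n => sqA n M true) (κ / (2 * r) * Real.log N)
      (Reg2 (1 / (2 * r)) (κ / (4 * r ^ 2))) ε p) →
    (((Smp (Om P M) m ×ˢ Smp (Om P M) m).filter Q).card : ℝ) ≤
      K / Real.log N * ((Smp (Om P M) m ×ˢ Smp (Om P M) m).card : ℝ) := by
  classical
  have hPr : (0 : ℝ) < P := by exact_mod_cast hP
  have htot : 0 < P.totient := Nat.totient_pos.2 hP
  have hr0 : 0 < r := by rw [hr]; positivity
  have hr1 : r ≤ 1 := by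
    rw [hr, div_le_one hPr]
    exact_mod_cast Nat.totient_le P
  obtain ⟨c, η, hc, hη, h1⟩ := shape (1 / (2 * r)) (κ / (4 * r ^ 2)) ε 28 (by positivity) (by positivity) hε (by norm_num)
  obtain ⟨K₂, hK2, N₁, h2⟩ := sys_tot P hP r hr c hc
  obtain ⟨K, hK, h3⟩ := h1 K₂ hK2
  obtain ⟨N₄, h7⟩ := GM_big P a hP
  refine ⟨K / (2 * r), by positivity, ?_⟩
  have hlim : Tendsto (fun N : ℕ => 2 * r * Real.log N) atTop atTop :=
    (Real.tendsto_log_atTop.comp (tendsto_natCast_atTop_atTop (R := ℝ))).const_mul_atTop (by positivity)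
  have h4 : ∀ᶠ N : ℕ in atTop, _ := hlim.eventually h3
  obtain ⟨N₂, h4⟩ := eventually_atTop.1 (h4.and ((ev_log_ge 1).and ((ev_log_ge (4 * P / (2 * r * η))).and
    ((Run7.h337.MK.ev_pw a 1).and (ev_log_ge (1 / (2 * r)))))))
  refine ⟨max N₁ (max N₂ (max N₄ 1)), fun N hN M hM1 hM2 m hm Q _ hQ => ?_⟩
  have hN1 : 1 ≤ N := le_trans (le_trans (le_trans (le_max_right _ _) (le_max_right _ _)) (le_max_right _ _)) hN
  have hN1r : (1 : ℝ) ≤ N := by exact_mod_cast hN1
  have hNr : (0 : ℝ) < N := by linarith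
  obtain ⟨h5, l1, l2, l3, l5⟩ := h4 N (le_trans (le_trans (le_max_left _ _) (le_max_right _ _)) hN)
  have hBc := h7 N (le_trans (le_trans (le_trans (le_max_left _ _) (le_max_right _ _)) (le_max_right _ _)) hN) M hM1 hM2
  rw [div_le_iff₀ (by positivity)] at l2 l5
  have hL0 : 0 < Real.log N := by linarith
  have hle : (N : ℝ) ^ (1 / 2 : ℝ) ≤ M := by
    have g1 : (N : ℝ) ^ (1 / 2 : ℝ) * (N : ℝ) ^ (1 / 2 : ℝ) = N := by
      rw [← Real.rpow_add hNr]
      norm_num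
    have g2 : (N : ℝ) ^ (1 / 3 : ℝ) ≤ (N : ℝ) ^ (1 / 2 : ℝ) := Real.rpow_le_rpow_of_exponent_le hN1r (by norm_num)
    have g3 : Real.log N ^ a ≤ (N : ℝ) ^ (1 / 2 : ℝ) := by linarith
    have g4 : (N : ℝ) ^ (1 / 2 : ℝ) * (N : ℝ) ^ (1 / 2 : ℝ) ≤ M * (N : ℝ) ^ (1 / 2 : ℝ) := by
      rw [g1]
      exact hM1.trans (mul_le_mul_of_nonneg_left g3 (Nat.cast_nonneg M))
    exact le_of_mul_le_mul_right g4 (by positivity)
  have hS := h2 N (le_trans (le_max_left _ _) hN) M hle hM2 hBc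
  have h6 := h5 m (by
      have e : κ / (4 * r ^ 2) * (2 * r * Real.log N) ^ 2 = κ * Real.log N ^ 2 := by field_simp; norm_num
      rw [e]
      linarith) (Om P M) (GM P N M) (fun n => sqA n M false) (fun n => sqA n M true) (hS false) (hS true) (by
    show Real.exp ((1 / (2 * r) - η) * (2 * r * Real.log N)) ≤ (GM P N M).card
    have e : (1 / (2 * r) - η) * (2 * r * Real.log N) = Real.log N - 2 * r * η * Real.log N := by field_simp
    rw [e, Real.exp_sub, Real.exp_log hNr]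
    refine le_trans ?_ hBc
    refine div_le_div_of_nonneg_left hNr.le (by positivity) ?_
    have h7 := Real.add_one_le_exp (2 * r * η * Real.log N)
    linarith) (by
    show ((GM P N M).card : ℝ) ≤ Real.exp (1 / (2 * r) * (2 * r * Real.log N) + 1)
    have e : 1 / (2 * r) * (2 * r * Real.log N) + 1 = Real.log N + 1 := by field_simp
    rw [e, Real.exp_add, Real.exp_log hNr]
    have h7 : ((GM P N M).card : ℝ) ≤ N := by
      have h6 : GM P N M ⊆ Ioc N (2 * N) := fun n hn => by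
        unfold GM GoodSq at hn
        exact (mem_filter.1 (mem_filter.1 hn).1).1
      have := card_le_card h6
      rw [Nat.card_Ioc] at this
      exact_mod_cast (by omega : (GM P N M).card ≤ N)
    have h8 := Real.exp_one_gt_d9
    nlinarith) Q (by
    intro p hp
    have e : κ / (4 * r ^ 2) * (2 * r * Real.log N) = κ / (2 * r) * Real.log N := by field_simp; norm_num
    rw [e]
    exact hQ p hp)
  refine h6.trans (le_of_eq ?_)
  show K / (2 * r * Real.log N) * _ = K / (2 * r) / Real.log N * _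
  rw [div_div]

end Pool.Agent.Run7.h880.RP
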