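import Mathlib
import Pool.Agent.Run7.h880.RP.Sv
import Pool.Agent.Run7.h880.RP.Fam
import Pool.Agent.Run7.h880.RP.Ext

/-! Random positions after all the integers of `(N, 2 N]`. -/

set_option autoImplicit false

namespace Pool.Agent.Run7.h880.RP

open Finset Filter
open Pool.Agent.N384.MQ (ev_log_pow ev_log_ge)
open Pool.Agent.Run7.h880.MK (Smp Smp_mem Smp_card hits hits_eq nohit)
open Pool.Agent.Run7.h931.RS (Fw one_le_Fw sg_le_Fw moments th_win)

/-- the `w ∈ [1, M]` with `n + w` prime -/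
def Aw (M n : ℕ) : Finset ℕ := (Icc 1 M).filter fun w => (n + w).Prime

lemma Aw_card (M n : ℕ) : (Aw M n).card = ((Ioc n (n + M)).filter Nat.Prime).card := by
  refine card_bij (fun w _ => n + w) ?_ ?_ ?_
  · intro w hw
    unfold Aw at hw
    rw [mem_filter, mem_Icc] at hw
    rw [mem_filter, mem_Ioc]
    exact ⟨by omega, hw.2⟩
  · intro w _ w' _ he
    have he : n + w = n + w' := he
    omega
  · intro p hp
    rw [mem_filter, mem_Ioc] at hp
    refine ⟨p - n, ?_, by show n + (p - n) = p; omega⟩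
    unfold Aw
    rw [mem_filter, mem_Icc]
    have e : n + (p - n) = p := by omega
    rw [e]
    exact ⟨by omega, hp.2⟩

/-- the density of the primes of the window `(n, n + M]` is near `1 / log N` -/
def Reg (N M n : ℕ) : Prop := |((Aw M n).card : ℝ) / M - 1 / Real.log N| ≤ 12 / Real.log N ^ 2

open Classical in
/-- the regular integers of `(N, 2 N]` -/
noncomputable def Good (N M : ℕ) : Finset ℕ := (Ioc N (2 * N)).filter fun n => Reg N M n

/-- almost all integers are regular -/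
theorem good_card (U : ℕ) : ∃ C N₀ : ℕ, ∀ N : ℕ, N₀ ≤ N → ∀ M : ℕ, (N : ℝ) ^ (1 / 3 : ℝ) * Real.log N ^ C ≤ M → M ≤ N →
    ((Ioc N (2 * N) \ Good N M).card : ℝ) ≤ N / Real.log N ^ U := by
  classical
  obtain ⟨C, N₀, h⟩ := fam U
  refine ⟨C, max N₀ 3, fun N hN M hM1 hM2 => ?_⟩
  have hN3 : 3 ≤ N := le_trans (le_max_right _ _) hN
  have hN3r : (3 : ℝ) ≤ N := by exact_mod_cast hN3
  have hlog : 0 < Real.log N := Real.log_pos (by linarith)
  have hM0 : (0 : ℝ) < M := lt_of_lt_of_le (by positivity) hM1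
  obtain ⟨Bad, hB1, hB2, hB3⟩ := h N (le_trans (le_max_left _ _) hN) (Ioc N (2 * N)) (fun n => n) M M hM1 hM2 (by
    intro n hn
    rw [mem_Ioc] at hn
    omega) (by
    intro k
    have : ((Ioc N (2 * N)).filter fun n => n < k ∧ k ≤ n + M) ⊆ Ico (k - M) k := by
      intro n hn
      rw [mem_filter, mem_Ioc] at hn
      rw [mem_Ico]
      omega
    refine (card_le_card this).trans ?_
    rw [Nat.card_Ico]
    omega)
  have hsub : Ioc N (2 * N) \ Good N M ⊆ Bad := by
    intro n hn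
    rw [Finset.mem_sdiff] at hn
    by_contra hcon
    refine hn.2 ?_
    unfold Good
    rw [mem_filter]
    refine ⟨hn.1, ?_⟩
    unfold Reg
    rw [Aw_card]
    exact hB3 n hn.1 hcon
  have h1 : ((Ioc N (2 * N) \ Good N M).card : ℝ) ≤ Bad.card := by exact_mod_cast card_le_card hsub
  refine h1.trans ?_
  have h2 : (Bad.card : ℝ) * M ≤ N / Real.log N ^ U * M := by linarith
  exact le_of_mul_le_mul_right h2 hM0

/-- counting primes from the Chebyshev function -/
lemma cnt_of_th {X x M : ℕ} (hX : 3 ≤ X) (hL : 20 ≤ Real.log X) (hM : 1 ≤ M) (h1 : X ≤ x) (h2 : x + M ≤ 8 * X)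
    (h3 : |Pool.Agent.Run7.h931.RS.th x M - M| ≤ 3 * (M / Real.log X)) :
    |(((Ioc x (x + M)).filter Nat.Prime).card : ℝ) / M - 1 / Real.log X| ≤ 12 / Real.log X ^ 2 := by
  obtain ⟨L, hLe⟩ : ∃ L, L = Real.log X := ⟨_, rfl⟩
  rw [← hLe] at hL h3 ⊢
  have hL0 : 0 < L := by linarith
  have hMr : (0 : ℝ) < M := by exact_mod_cast hM
  have hX0 : (0 : ℝ) < X := by exact_mod_cast (by omega : 0 < X)
  obtain ⟨P, hP⟩ : ∃ P, P = (Ioc x (x + M)).filter Nat.Prime := ⟨_, rfl⟩
  have hΘ : Pool.Agent.Run7.h931.RS.th x M = ∑ p ∈ P, Real.log p := by rw [hP]; rfl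
  rw [hΘ] at h3
  rw [← hP]
  have h3' := abs_le.1 h3
  have t6 : (P.card : ℝ) * L ≤ ∑ p ∈ P, Real.log p := by
    rw [← nsmul_eq_mul, ← sum_const]
    refine sum_le_sum fun p hp => ?_
    rw [hP, mem_filter, mem_Ioc] at hp
    rw [hLe]
    exact Real.log_le_log hX0 (by exact_mod_cast (by omega : X ≤ p))
  have t7 : ∑ p ∈ P, Real.log p ≤ P.card * (L + 3) := by
    rw [← nsmul_eq_mul, ← sum_const]
    refine sum_le_sum fun p hp => ?_
    rw [hP, mem_filter, mem_Ioc] at hp
    have hp0 : (0 : ℝ) < p := by exact_mod_cast hp.2.pos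
    have h1 : Real.log p ≤ Real.log (8 * X) := Real.log_le_log hp0 (by
      have : p ≤ 8 * X := by omega
      exact_mod_cast this)
    rw [Real.log_mul (by norm_num) hX0.ne', ← hLe] at h1
    have h8 : Real.log 8 ≤ 3 := by
      rw [Real.log_le_iff_le_exp (by norm_num)]
      have h3 : (2.7182818283 : ℝ) < Real.exp 1 := Real.exp_one_gt_d9
      have h4 : Real.exp 3 = Real.exp 1 * Real.exp 1 * Real.exp 1 := by rw [← Real.exp_add, ← Real.exp_add]; norm_num
      rw [h4]
      nlinarith [mul_pos (Real.exp_pos 1) (Real.exp_pos 1)]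
    linarith
  have hML : 0 < (M : ℝ) / L := by positivity
  have e1 : (P.card : ℝ) / M - 1 / L = (P.card * L - M) / (M * L) := by field_simp
  rw [e1, abs_div, abs_of_pos (show (0 : ℝ) < M * L by positivity), div_le_div_iff₀ (by positivity) (by positivity)]
  have t8 : |(P.card : ℝ) * L - M| ≤ 12 * (M / L) := by
    rw [abs_le]
    constructor
    · have h1 : (M : ℝ) - 3 * (M / L) ≤ P.card * (L + 3) := by linarith
      have h2 : (P.card : ℝ) * 3 ≤ 9 * (M / L) := by
        have h3 : (P.card : ℝ) * L ≤ 3 * M := by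
          have : (M : ℝ) / L ≤ M / 20 := div_le_div_of_nonneg_left hMr.le (by norm_num) hL
          linarith
        have h4 : (P.card : ℝ) ≤ 3 * M / L := by rwa [le_div_iff₀ hL0]
        calc (P.card : ℝ) * 3 ≤ 3 * M / L * 3 := mul_le_mul_of_nonneg_right h4 (by norm_num)
          _ = _ := by ring
      linarith
    · linarith
  calc |(P.card : ℝ) * L - M| * L ^ 2 ≤ 12 * (M / L) * L ^ 2 := mul_le_mul_of_nonneg_right t8 (by positivity)
    _ = _ := by field_simp

/-- for long windows all integers are regular -/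
theorem good_all (a : ℕ) : ∃ N₀ : ℕ, ∀ N : ℕ, N₀ ≤ N → ∀ M : ℕ, (N : ℝ) ≤ M * Real.log N ^ a → M ≤ N →
    Good N M = Ioc N (2 * N) := by
  classical
  obtain ⟨N₀, h⟩ := eventually_atTop.1 (((th_win 1 (a + 1)).and (ev_log_ge 20)).and (eventually_ge_atTop 3))
  refine ⟨N₀, fun N hN M hM1 hM2 => ?_⟩
  obtain ⟨⟨h1, h2⟩, h3⟩ := h N hN
  have hN3r : (3 : ℝ) ≤ N := by exact_mod_cast h3
  unfold Good
  refine filter_true_of_mem fun n hn => ?_
  rw [mem_Ioc] at hn
  have hL0 : 0 < Real.log N := by linarith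
  have hM0 : 1 ≤ M := by
    rcases Nat.eq_zero_or_pos M with h | h
    · rw [h, Nat.cast_zero, zero_mul] at hM1
      linarith
    · exact h
  unfold Reg
  rw [Aw_card]
  refine cnt_of_th h3 h2 hM0 hn.1.le (by omega) ?_
  refine (h1 n M (by omega) hM2).trans ?_
  have h4 : (N : ℝ) / Real.log N ^ (a + 1) ≤ M / Real.log N := by
    rw [div_le_div_iff₀ (by positivity) hL0, pow_succ]
    nlinarith
  have h5 : 0 ≤ (M : ℝ) / Real.log N := by positivity
  linarith

/-- the system of the regular integers -/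
theorem sys_win (c : ℝ) (hc : 0 ≤ c) : ∃ K₂ : ℝ, 0 ≤ K₂ ∧ ∃ N₀ : ℕ, ∀ N : ℕ, N₀ ≤ N → ∀ M : ℕ,
    (N : ℝ) ^ (1 / 3 : ℝ) ≤ M → M ≤ N → ∀ J : Finset ℕ, J ⊆ Good N M → (N : ℝ) / 2 ≤ J.card →
    Sys (Icc 1 M) J (Aw M) (Real.log N) 12 c K₂ := by
  classical
  obtain ⟨C₀, hC0, Y₀, hsv⟩ := sv
  obtain ⟨K, hK1, hK⟩ := moments (c * (9 * C₀)) (by positivity) C₀
  refine ⟨Real.exp c * (8 * K), by positivity, ?_⟩
  obtain ⟨N₁, hev⟩ := eventually_atTop.1 ((ev_log_ge 1).and (Run7.h337.MK.ev_pw 0 (max Y₀ 2)))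
  refine ⟨N₁, fun N hN M hM1 hM2 J hJ hJc => ?_⟩
  obtain ⟨l1, l2⟩ := hev N hN
  rw [pow_zero, mul_one] at l2
  have hNp : (0 : ℝ) < N := by
    rcases (Nat.cast_nonneg (α := ℝ) N).eq_or_lt with h | h
    · rw [← h, Real.log_zero] at l1
      linarith
    · exact h
  have hMY : Y₀ ≤ M := (le_max_left _ _).trans (l2.trans hM1)
  have hM2r : (2 : ℝ) ≤ M := (le_max_right _ _).trans (l2.trans hM1)
  have hM0 : (0 : ℝ) < M := by linarith
  have hM1n : 1 ≤ M := by exact_mod_cast (by linarith : (1 : ℝ) ≤ M)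
  have hcard : ((Icc 1 M).card : ℝ) = M := by rw [Nat.card_Icc]; push_cast; simp
  obtain ⟨L, hL⟩ : ∃ L, L = Real.log N := ⟨_, rfl⟩
  rw [← hL] at l1 ⊢
  have hL0 : 0 < L := by linarith
  have hlogM : L / 3 ≤ Real.log M := by
    have h1 := Real.log_le_log (by positivity) hM1
    rw [Real.log_rpow hNp, ← hL] at h1
    linarith
  refine ⟨nonempty_Icc.2 hM1n, fun j _ => filter_subset _ _, ?_, ?_⟩
  · intro j hj
    have h1 := hJ hj
    unfold Good at h1
    have h2 := (mem_filter.1 h1).2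
    unfold Reg at h2
    rw [hcard, hL]
    exact h2
  · refine ⟨fun i j => 9 * C₀ * Fw 0 (dd i j) ^ C₀, fun i j => by have := one_le_Fw 0 (dd i j); positivity, ?_, ?_⟩
    · intro i hi j hj hij
      have key : ∀ x y : ℕ, x < y → ((Aw M x ∩ Aw M y).card : ℝ) / (Icc 1 M).card ≤ 9 * C₀ * Fw 0 (y - x) ^ C₀ / L ^ 2 := by
        intro x y hxy
        have h1 := hsv M hMY 1 (Or.inl rfl) x y hxy
        have h2 : ((Aw M x ∩ Aw M y).card : ℝ) ≤
            (((Icc 1 M).filter fun w : ℕ => ((x : ℤ) + 1 * w).toNat.Prime ∧ ((y : ℤ) + 1 * w).toNat.Prime).card : ℝ) := by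
          refine Nat.cast_le.2 (card_le_card fun w hw => ?_)
          rw [mem_inter] at hw
          unfold Aw at hw
          rw [mem_filter, mem_filter] at hw
          rw [mem_filter]
          have e1 : ((x : ℤ) + 1 * w).toNat = x + w := by omega
          have e2 : ((y : ℤ) + 1 * w).toNat = y + w := by omega
          rw [e1, e2]
          exact ⟨hw.1.1, hw.1.2, hw.2.2⟩
        rw [hcard, div_le_iff₀ hM0]
        refine (h2.trans h1).trans ?_
        have h3 : (M : ℝ) / Real.log M ^ 2 ≤ 9 / L ^ 2 * M := by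
          rw [div_mul_eq_mul_div, div_le_div_iff₀ (by have : 0 < Real.log M := by linarith
                                                      positivity) (by positivity)]
          have h4 : L ^ 2 ≤ 9 * Real.log M ^ 2 := by nlinarith
          nlinarith
        have h5 := one_le_Fw 0 (y - x)
        calc C₀ * Fw 0 (y - x) ^ C₀ * (M / Real.log M ^ 2) ≤ C₀ * Fw 0 (y - x) ^ C₀ * (9 / L ^ 2 * M) :=
              mul_le_mul_of_nonneg_left h3 (by positivity)
          _ = _ := by ring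
      show ((Aw M i ∩ Aw M j).card : ℝ) / (Icc 1 M).card ≤ 9 * C₀ * Fw 0 (dd i j) ^ C₀ / L ^ 2
      rcases lt_or_gt_of_ne hij with h | h
      · have e : dd i j = j - i := by unfold dd; omega
        rw [e]
        exact key i j h
      · have e : dd i j = i - j := by unfold dd; omega
        rw [e, inter_comm]
        exact key j i h
    · have h1 : J ⊆ Ioc N (2 * N) := fun j hj => by
        have := hJ hj
        unfold Good at this
        exact (mem_filter.1 this).1
      have h2 := avg_dd (fun h => Real.exp (c * (9 * C₀) * Fw 0 h ^ C₀)) (fun _ => (Real.exp_pos _).le) K hK N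
      have h3 : ∑ i ∈ J, ∑ j ∈ J, (if i = j then 0 else Real.exp (c * (1 + 9 * C₀ * Fw 0 (dd i j) ^ C₀))) ≤
          Real.exp c * ∑ i ∈ Ioc N (2 * N), ∑ j ∈ Ioc N (2 * N),
            (if i = j then 0 else Real.exp (c * (9 * C₀) * Fw 0 (dd i j) ^ C₀)) := by
        have h4 : ∀ i j : ℕ, (if i = j then 0 else Real.exp (c * (1 + 9 * C₀ * Fw 0 (dd i j) ^ C₀))) =
            Real.exp c * (if i = j then 0 else Real.exp (c * (9 * C₀) * Fw 0 (dd i j) ^ C₀)) := by
          intro i j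
          split_ifs
          · rw [mul_zero]
          · rw [← Real.exp_add]
            congr 1
            ring
        simp only [h4, ← mul_sum]
        refine mul_le_mul_of_nonneg_left ?_ (Real.exp_pos c).le
        have hnn : ∀ i j : ℕ, (0 : ℝ) ≤ (if i = j then 0 else Real.exp (c * (9 * C₀) * Fw 0 (dd i j) ^ C₀)) := by
          intro i j
          split_ifs
          · exact le_rfl
          · exact (Real.exp_pos _).le
        refine (sum_le_sum fun i _ => sum_le_sum_of_subset_of_nonneg h1 fun j _ _ => hnn i j).trans ?_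
        exact sum_le_sum_of_subset_of_nonneg h1 fun i _ _ => sum_nonneg fun j _ => hnn i j
      refine h3.trans ?_
      have h5 : (N : ℝ) ^ 2 ≤ 4 * (J.card : ℝ) ^ 2 := by
        have : (N : ℝ) ≤ 2 * J.card := by linarith
        nlinarith
      calc Real.exp c * ∑ i ∈ Ioc N (2 * N), ∑ j ∈ Ioc N (2 * N),
            (if i = j then 0 else Real.exp (c * (9 * C₀) * Fw 0 (dd i j) ^ C₀))
          ≤ Real.exp c * (2 * K * (N : ℝ) ^ 2) := mul_le_mul_of_nonneg_left h2 (Real.exp_pos c).le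
        _ ≤ Real.exp c * (2 * K * (4 * (J.card : ℝ) ^ 2)) := by gcongr
        _ = _ := by ring

/-- **the extreme numbers of primes among random positions** -/
theorem main_win (lam ε : ℝ) (hlam : 0 < lam) (hε : 0 < ε) : ∃ K : ℝ, 0 < K ∧ ∃ N₀ : ℕ, ∀ N : ℕ, N₀ ≤ N → ∀ M : ℕ,
    (N : ℝ) ^ (1 / 3 : ℝ) ≤ M → M ≤ N → ∀ J : Finset ℕ, J ⊆ Good N M → (N : ℝ) / 2 ≤ J.card →
    ∀ m : ℕ, |(m : ℝ) - lam * Real.log N ^ 2| ≤ Real.log N → ∀ (P : (Fin m → ℕ) → Prop) [DecidablePred P],
    (∀ w, P w → ¬ Extreme J (Aw M) (lam * Real.log N) (cp lam) (cm lam) ε w) →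
    (((Smp (Icc 1 M) m).filter P).card : ℝ) ≤ K / Real.log N * (M : ℝ) ^ m := by
  classical
  obtain ⟨c, h1⟩ := extremes 1 lam ε 12 one_pos hlam hε (by norm_num)
  obtain ⟨K₂, hK2, N₁, h2⟩ := sys_win (max c 0) (le_max_right _ _)
  obtain ⟨K, hK, h3⟩ := h1 K₂ hK2
  refine ⟨K, hK, ?_⟩
  have h4 : ∀ᶠ N : ℕ in atTop, _ := (Real.tendsto_log_atTop.comp (tendsto_natCast_atTop_atTop (R := ℝ))).eventually h3
  obtain ⟨N₂, h4⟩ := eventually_atTop.1 h4
  refine ⟨max N₁ (max N₂ 1), fun N hN M hM1 hM2 J hJ hJc m hm P _ hP => ?_⟩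
  have hN1 : 1 ≤ N := le_trans (le_trans (le_max_right _ _) (le_max_right _ _)) hN
  have hNr : (0 : ℝ) < N := by exact_mod_cast hN1
  have hS := h2 N (le_trans (le_max_left _ _) hN) M hM1 hM2 J hJ hJc
  have hS' : Sys (Icc 1 M) J (Aw M) (Real.log N) 12 c K₂ := by
    obtain ⟨ρ, hρ0, hρ, hρs⟩ := hS.two
    refine ⟨hS.ne, hS.sub, hS.dens, ρ, hρ0, hρ, le_trans ?_ hρs⟩
    refine sum_le_sum fun i _ => sum_le_sum fun j _ => ?_
    split_ifs
    · exact le_rfl
    · refine Real.exp_le_exp.2 (mul_le_mul_of_nonneg_right (le_max_left _ _) ?_)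
      linarith [hρ0 i j]
  have h5 := h4 N (le_trans (le_trans (le_max_left _ _) (le_max_right _ _)) hN) m hm (Icc 1 M) J (Aw M) hS' (by
    show Real.exp (1 * Real.log N - 1) ≤ J.card
    rw [one_mul, Real.exp_sub, Real.exp_log hNr]
    refine le_trans ?_ hJc
    refine div_le_div_of_nonneg_left hNr.le (by norm_num) ?_
    have := Real.exp_one_gt_d9
    linarith) (by
    show (J.card : ℝ) ≤ Real.exp (1 * Real.log N + 1)
    rw [one_mul, Real.exp_add, Real.exp_log hNr]
    have h6 : J ⊆ Ioc N (2 * N) := fun j hj => by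
      have := hJ hj
      unfold Good at this
      exact (mem_filter.1 this).1
    have h7 : (J.card : ℝ) ≤ N := by
      have := card_le_card h6
      rw [Nat.card_Ioc] at this
      exact_mod_cast (by omega : J.card ≤ N)
    have h8 := Real.exp_one_gt_d9
    nlinarith) P (by
    intro w hw
    rw [div_one]
    exact hP w hw)
  have hcard : ((Icc 1 M).card : ℝ) = M := by rw [Nat.card_Icc]; push_cast; simp
  rw [hcard] at h5
  exact h5

end Pool.Agent.Run7.h880.RP
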