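import Mathlib
import Pool.Agent.Run7.h880.RP.SqS
import Pool.Agent.Run7.h880.RP.Wd

/-! Pairs of primes. -/

set_option autoImplicit false

namespace Pool.Agent.Run7.h880.RP

open Finset Filter
open Pool.Agent.N384.MQ (ev_log_pow ev_log_ge)
open Pool.Agent.Run7.h880.MK (Smp Smp_mem Smp_card hits hits_eq nohit)
open Pool.Agent.Run7.h931.RS (Fw one_le_Fw sg_le_Fw moments)

/-- the sieve for `x + w`, `y - w` -/
theorem sv2 : ∃ C₀ : ℕ, 1 ≤ C₀ ∧ ∃ Y₀ : ℝ, ∀ M : ℕ, Y₀ ≤ M → ∀ x y : ℕ, 0 < x →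
    (((Icc 1 M).filter fun w : ℕ => (x + w).Prime ∧ (y - w).Prime).card : ℝ) ≤
      C₀ * Fw 0 (x + y) ^ C₀ * (M / Real.log M ^ 2) := by
  classical
  obtain ⟨C, hC1, hC⟩ := Pool.Agent.Y949.DK.t_SV 2
  obtain ⟨Y₀, hY₀⟩ := eventually_atTop.1 hC
  obtain ⟨C₀, hC₀⟩ : ∃ C₀ : ℕ, 4 * C ≤ C₀ := exists_nat_ge _
  refine ⟨C₀, ?_, Y₀, fun M hM x y hxy => ?_⟩
  · have : (1 : ℝ) ≤ C₀ := by linarith
    exact_mod_cast this
  obtain ⟨h, hh⟩ : ∃ h, h = x + y := ⟨_, rfl⟩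
  obtain ⟨F, hF⟩ : ∃ F : Finset (ℤ × ℤ), F = {((1 : ℤ), (x : ℤ)), ((-1 : ℤ), (y : ℤ))} := ⟨_, rfl⟩
  have hne : ((1 : ℤ), (x : ℤ)) ≠ ((-1 : ℤ), (y : ℤ)) := by
    intro he
    have := congrArg Prod.fst he
    simp only at this
    omega
  have hcard : F.card = 2 := by rw [hF]; exact card_pair hne
  have b1 := hY₀ M hM F hcard (by
    intro f hf
    rw [hF, mem_insert, mem_singleton] at hf
    rcases hf with rfl | rfl <;> norm_num) (by
    intro f hf g hg hfg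
    rw [hF, mem_insert, mem_singleton] at hf hg
    rcases hf with rfl | rfl <;> rcases hg with rfl | rfl
    · exact absurd rfl hfg
    · simp only
      omega
    · simp only
      omega
    · exact absurd rfl hfg)
  rw [Nat.floor_natCast] at b1
  have b2 : ((Icc 1 M).filter fun w : ℕ => (x + w).Prime ∧ (y - w).Prime) ⊆
      (Icc 1 M).filter (fun n : ℕ => ∀ f ∈ F, (f.1 * (n : ℤ) + f.2).toNat.Prime) := by
    intro w hw
    rw [mem_filter] at hw ⊢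
    refine ⟨hw.1, fun f hf => ?_⟩
    rw [hF, mem_insert, mem_singleton] at hf
    rcases hf with rfl | rfl
    · simp only
      have e : (1 * (w : ℤ) + (x : ℤ)).toNat = x + w := by omega
      rw [e]
      exact hw.2.1
    · simp only
      have e : (-1 * (w : ℤ) + (y : ℤ)).toNat = y - w := by omega
      rw [e]
      exact hw.2.2
  have hsg0 : Pool.Agent.Y851.DK.sg 0 = 0 := by simp [Pool.Agent.Y851.DK.sg]
  have hsg1 : Pool.Agent.Y851.DK.sg 1 = 0 := by simp [Pool.Agent.Y851.DK.sg]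
  have b3 : ∑ f ∈ F, Pool.Agent.Y851.DK.sg f.1.natAbs +
      ∑ f ∈ F, ∑ g ∈ F, Pool.Agent.Y851.DK.sg (f.1 * g.2 - g.1 * f.2).natAbs = 2 * Pool.Agent.Y851.DK.sg h := by
    rw [hF, sum_pair hne, sum_pair hne, sum_pair hne, sum_pair hne]
    have e1 : ((1 : ℤ) * (x : ℤ) - 1 * (x : ℤ)).natAbs = 0 := by rw [sub_self]; rfl
    have e4 : ((-1 : ℤ) * (y : ℤ) - (-1) * (y : ℤ)).natAbs = 0 := by rw [sub_self]; rfl
    have e2 : ((1 : ℤ) * (y : ℤ) - (-1) * (x : ℤ)).natAbs = h := by rw [hh]; omega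
    have e3 : ((-1 : ℤ) * (x : ℤ) - 1 * (y : ℤ)).natAbs = h := by rw [hh]; omega
    have e5 : (1 : ℤ).natAbs = 1 := rfl
    have e6 : (-1 : ℤ).natAbs = 1 := rfl
    simp only [e1, e2, e3, e4, e5, e6, hsg0, hsg1]
    ring
  rw [b3] at b1
  rw [← hh]
  have b4 : Real.exp (C * (2 * Pool.Agent.Y851.DK.sg h)) ≤ Fw 0 h ^ C₀ := by
    have c1 : C * (2 * Pool.Agent.Y851.DK.sg h) ≤ C₀ * Pool.Agent.Y851.DK.sg h := by
      have : 0 ≤ Pool.Agent.Y851.DK.sg h := sum_nonneg fun _ _ => by positivity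
      nlinarith
    calc Real.exp (C * (2 * Pool.Agent.Y851.DK.sg h)) ≤ Real.exp (C₀ * Pool.Agent.Y851.DK.sg h) := Real.exp_le_exp.2 c1
      _ = Real.exp (Pool.Agent.Y851.DK.sg h) ^ C₀ := Real.exp_nat_mul _ _
      _ ≤ _ := pow_le_pow_left₀ (Real.exp_pos _).le (sg_le_Fw h) _
  have hr : (((Icc 1 M).filter fun w : ℕ => (x + w).Prime ∧ (y - w).Prime).card : ℝ) ≤
      (((Icc 1 M).filter (fun n : ℕ => ∀ f ∈ F, (f.1 * (n : ℤ) + f.2).toNat.Prime)).card : ℝ) := by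
    exact_mod_cast card_le_card b2
  refine (hr.trans b1).trans ?_
  have hF1 := one_le_Fw 0 h
  calc C * Real.exp (C * (2 * Pool.Agent.Y851.DK.sg h)) * (M / Real.log M ^ 2) ≤ C * Fw 0 h ^ C₀ * (M / Real.log M ^ 2) := by
        refine mul_le_mul_of_nonneg_right ?_ (by positivity)
        exact mul_le_mul_of_nonneg_left b4 (by linarith)
    _ ≤ C₀ * Fw 0 h ^ C₀ * (M / Real.log M ^ 2) := by
        refine mul_le_mul_of_nonneg_right (mul_le_mul_of_nonneg_right (by linarith) (by positivity)) (by positivity)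

/-- moments with a power -/
lemma mom_pow (c : ℝ) (hc : 0 ≤ c) (k C₀ : ℕ) : ∃ K : ℝ, 1 ≤ K ∧ ∀ H : ℕ,
    ∑ h ∈ Icc 1 H, Real.exp (c * Fw 0 h ^ k) * Fw 0 h ^ C₀ ≤ K * H := by
  obtain ⟨K, hK1, hK⟩ := moments (c + C₀) (by positivity) (k + 1)
  refine ⟨K, hK1, fun H => le_trans (sum_le_sum fun h _ => ?_) (hK H)⟩
  have f1 := one_le_Fw 0 h
  have h1 : Fw 0 h ^ C₀ ≤ Real.exp (C₀ * Fw 0 h) := by
    rw [Real.exp_nat_mul]
    refine pow_le_pow_left₀ (by linarith) ?_ _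
    have := Real.add_one_le_exp (Fw 0 h)
    linarith
  have h2 : Fw 0 h ^ k ≤ Fw 0 h ^ (k + 1) := pow_le_pow_right₀ f1 (by omega)
  have h3 : Fw 0 h ≤ Fw 0 h ^ (k + 1) := by
    calc Fw 0 h = Fw 0 h ^ 1 := (pow_one _).symm
      _ ≤ _ := pow_le_pow_right₀ f1 (by omega)
  calc Real.exp (c * Fw 0 h ^ k) * Fw 0 h ^ C₀ ≤ Real.exp (c * Fw 0 h ^ k) * Real.exp (C₀ * Fw 0 h) :=
        mul_le_mul_of_nonneg_left h1 (Real.exp_pos _).le
    _ = Real.exp (c * Fw 0 h ^ k + C₀ * Fw 0 h) := (Real.exp_add _ _).symm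
    _ ≤ _ := Real.exp_le_exp.2 (by
        have := mul_le_mul_of_nonneg_left h2 hc
        have := mul_le_mul_of_nonneg_left h3 (Nat.cast_nonneg (α := ℝ) C₀)
        linarith)

/-- the primes of `(N, 2 N]` -/
def PN (N : ℕ) : Finset ℕ := (Ioc N (2 * N)).filter Nat.Prime

/-- pairs of primes, by the difference -/
lemma pr_dd (c : ℝ) (hc : 0 ≤ c) (k : ℕ) : ∃ K : ℝ, 1 ≤ K ∧ ∃ N₀ : ℕ, ∀ N : ℕ, N₀ ≤ N →
    ∑ p ∈ PN N, ∑ p' ∈ PN N, (if p = p' then 0 else Real.exp (c * Fw 0 (dd p p') ^ k)) ≤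
      K * (N / Real.log N) ^ 2 := by
  classical
  obtain ⟨C₀, hC0, Y₀, hsv⟩ := sv
  obtain ⟨K, hK1, hK⟩ := mom_pow c hc k C₀
  have hC0r : (1 : ℝ) ≤ C₀ := by exact_mod_cast hC0
  refine ⟨2 * C₀ * K, by nlinarith, ?_⟩
  obtain ⟨N₁, hN₁⟩ := exists_nat_ge Y₀
  refine ⟨max N₁ 1, fun N hN => ?_⟩
  have hY : Y₀ ≤ N := hN₁.trans (by exact_mod_cast (le_trans (le_max_left _ _) hN))
  obtain ⟨g, hg⟩ : ∃ g : ℕ → ℝ, g = fun h => Real.exp (c * Fw 0 h ^ k) := ⟨_, rfl⟩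
  have hg0 : ∀ h, 0 ≤ g h := fun h => by rw [hg]; exact (Real.exp_pos _).le
  obtain ⟨W, hW⟩ : ∃ W : ℕ → Finset ℕ, W = fun h => (Icc 1 N).filter fun w : ℕ => (N + w).Prime ∧ (N + h + w).Prime :=
    ⟨_, rfl⟩
  have hWc : ∀ h ∈ Icc 1 N, ((W h).card : ℝ) ≤ C₀ * Fw 0 h ^ C₀ * (N / Real.log N ^ 2) := by
    intro h hh
    rw [mem_Icc] at hh
    have h1 := hsv N hY 1 (Or.inl rfl) N (N + h) (by omega)
    have e : N + h - N = h := by omega
    rw [e] at h1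
    refine le_trans (Nat.cast_le.2 (card_le_card fun w hw => ?_)) h1
    rw [hW, mem_filter] at hw
    rw [mem_filter]
    have e1 : ((N : ℤ) + 1 * w).toNat = N + w := by omega
    have e2 : (((N + h : ℕ) : ℤ) + 1 * w).toNat = N + h + w := by omega
    rw [e1, e2]
    exact hw
  -- fibers
  obtain ⟨S, hS⟩ : ∃ S : Finset (ℕ × ℕ), S = (PN N ×ˢ PN N).filter fun r => r.1 ≠ r.2 := ⟨_, rfl⟩
  have h1 : ∑ p ∈ PN N, ∑ p' ∈ PN N, (if p = p' then 0 else g (dd p p')) = ∑ r ∈ S, g (dd r.1 r.2) := by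
    rw [hS, sum_filter, sum_product]
    refine sum_congr rfl fun p _ => sum_congr rfl fun p' _ => ?_
    by_cases h : p = p' <;> simp [h]
  have hmaps : ∀ r ∈ S, dd r.1 r.2 ∈ Icc 1 N := by
    intro r hr
    rw [hS, mem_filter, mem_product] at hr
    unfold PN at hr
    rw [mem_filter, mem_filter, mem_Ioc, mem_Ioc] at hr
    rw [mem_Icc]
    unfold dd
    omega
  have h2 : ∑ r ∈ S, g (dd r.1 r.2) = ∑ h ∈ Icc 1 N, ∑ r ∈ S.filter (fun r => dd r.1 r.2 = h), g (dd r.1 r.2) :=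
    (sum_fiberwise_of_maps_to hmaps _).symm
  have h3 : ∀ h ∈ Icc 1 N, ∑ r ∈ S.filter (fun r => dd r.1 r.2 = h), g (dd r.1 r.2) ≤ 2 * g h * (W h).card := by
    intro h hh
    have e : ∑ r ∈ S.filter (fun r => dd r.1 r.2 = h), g (dd r.1 r.2) =
        ∑ r ∈ S.filter (fun r => dd r.1 r.2 = h), g h := sum_congr rfl fun r hr => by rw [(mem_filter.1 hr).2]
    rw [e, sum_const, nsmul_eq_mul]
    have hsub : S.filter (fun r => dd r.1 r.2 = h) ⊆ (W h).image (fun w => (N + w, N + h + w)) ∪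
        (W h).image (fun w => (N + h + w, N + w)) := by
      rintro ⟨p, p'⟩ hr
      rw [mem_filter, hS, mem_filter, mem_product] at hr
      unfold PN at hr
      rw [mem_filter, mem_filter, mem_Ioc, mem_Ioc] at hr
      obtain ⟨⟨⟨⟨p1, p2⟩, ⟨p3, p4⟩⟩, hne⟩, hd⟩ := hr
      simp only at p1 p2 p3 p4 hne hd
      unfold dd at hd
      rw [mem_union, mem_image, mem_image, hW]
      rcases lt_or_gt_of_ne hne with hlt | hlt
      · left
        refine ⟨p - N, mem_filter.2 ⟨mem_Icc.2 ⟨by omega, by omega⟩, ?_⟩, ?_⟩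
        · have e1 : N + (p - N) = p := by omega
          have e2 : N + h + (p - N) = p' := by omega
          rw [e1, e2]
          exact ⟨p2, p4⟩
        · have e1 : N + (p - N) = p := by omega
          have e2 : N + h + (p - N) = p' := by omega
          rw [e1, e2]
      · right
        refine ⟨p' - N, mem_filter.2 ⟨mem_Icc.2 ⟨by omega, by omega⟩, ?_⟩, ?_⟩
        · have e1 : N + (p' - N) = p' := by omega
          have e2 : N + h + (p' - N) = p := by omega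
          rw [e1, e2]
          exact ⟨p4, p2⟩
        · have e1 : N + (p' - N) = p' := by omega
          have e2 : N + h + (p' - N) = p := by omega
          rw [e1, e2]
    have h4 : (S.filter (fun r => dd r.1 r.2 = h)).card ≤ (W h).card + (W h).card :=
      (card_le_card hsub).trans ((card_union_le _ _).trans (Nat.add_le_add card_image_le card_image_le))
    have h5 : ((S.filter (fun r => dd r.1 r.2 = h)).card : ℝ) ≤ (W h).card + (W h).card := by exact_mod_cast h4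
    have := mul_le_mul_of_nonneg_right h5 (hg0 h)
    nlinarith
  have h0 : ∑ p ∈ PN N, ∑ p' ∈ PN N, (if p = p' then 0 else Real.exp (c * Fw 0 (dd p p') ^ k)) =
      ∑ p ∈ PN N, ∑ p' ∈ PN N, (if p = p' then 0 else g (dd p p')) := by rw [hg]
  rw [h0, h1, h2]
  refine (sum_le_sum h3).trans ?_
  have h6 : ∀ h ∈ Icc 1 N, 2 * g h * (W h).card ≤ 2 * C₀ * (N / Real.log N ^ 2) * (g h * Fw 0 h ^ C₀) := by
    intro h hh
    have := mul_le_mul_of_nonneg_left (hWc h hh) (hg0 h)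
    nlinarith
  refine (sum_le_sum h6).trans ?_
  rw [← mul_sum]
  have h7 : ∑ h ∈ Icc 1 N, g h * Fw 0 h ^ C₀ ≤ K * N := by rw [hg]; exact hK N
  calc 2 * C₀ * (N / Real.log N ^ 2) * ∑ h ∈ Icc 1 N, g h * Fw 0 h ^ C₀ ≤ 2 * C₀ * (N / Real.log N ^ 2) * (K * N) :=
        mul_le_mul_of_nonneg_left h7 (by positivity)
    _ = _ := by rw [div_pow]; ring

/-- pairs of primes, by the sum -/
lemma pr_sum (c : ℝ) (hc : 0 ≤ c) (k : ℕ) : ∃ K : ℝ, 1 ≤ K ∧ ∃ N₀ : ℕ, ∀ N : ℕ, N₀ ≤ N →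
    ∑ p ∈ PN N, ∑ p' ∈ PN N, Real.exp (c * Fw 0 (p + p') ^ k) ≤ K * (N / Real.log N) ^ 2 := by
  classical
  obtain ⟨C₀, hC0, Y₀, hsv⟩ := sv2
  obtain ⟨K, hK1, hK⟩ := mom_pow c hc k C₀
  have hC0r : (1 : ℝ) ≤ C₀ := by exact_mod_cast hC0
  refine ⟨4 * C₀ * K, by nlinarith, ?_⟩
  obtain ⟨N₁, hN₁⟩ := exists_nat_ge Y₀
  refine ⟨max N₁ 1, fun N hN => ?_⟩
  have hN1 : 1 ≤ N := le_trans (le_max_right _ _) hN
  have hY : Y₀ ≤ N := hN₁.trans (by exact_mod_cast (le_trans (le_max_left _ _) hN))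
  obtain ⟨g, hg⟩ : ∃ g : ℕ → ℝ, g = fun h => Real.exp (c * Fw 0 h ^ k) := ⟨_, rfl⟩
  have hg0 : ∀ h, 0 ≤ g h := fun h => by rw [hg]; exact (Real.exp_pos _).le
  obtain ⟨W, hW⟩ : ∃ W : ℕ → Finset ℕ, W = fun h => (Icc 1 N).filter fun w : ℕ => (N + w).Prime ∧ (h - N - w).Prime :=
    ⟨_, rfl⟩
  have hWc : ∀ h ∈ Icc 1 (4 * N), 2 * N < h → ((W h).card : ℝ) ≤ C₀ * Fw 0 h ^ C₀ * (N / Real.log N ^ 2) := by
    intro h hh hh2
    have h1 := hsv N hY N (h - N) (by omega)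
    have e : N + (h - N) = h := by omega
    rw [e] at h1
    rw [hW]
    exact h1
  obtain ⟨S, hS⟩ : ∃ S : Finset (ℕ × ℕ), S = (PN N ×ˢ PN N) := ⟨_, rfl⟩
  have h1 : ∑ p ∈ PN N, ∑ p' ∈ PN N, g (p + p') = ∑ r ∈ S, g (r.1 + r.2) := by
    rw [hS, sum_product]
  have hmaps : ∀ r ∈ S, r.1 + r.2 ∈ Icc 1 (4 * N) := by
    intro r hr
    rw [hS, mem_product] at hr
    unfold PN at hr
    rw [mem_filter, mem_filter, mem_Ioc, mem_Ioc] at hr
    rw [mem_Icc]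
    omega
  have h2 : ∑ r ∈ S, g (r.1 + r.2) = ∑ h ∈ Icc 1 (4 * N), ∑ r ∈ S.filter (fun r => r.1 + r.2 = h), g (r.1 + r.2) :=
    (sum_fiberwise_of_maps_to hmaps _).symm
  have h3 : ∀ h ∈ Icc 1 (4 * N), ∑ r ∈ S.filter (fun r => r.1 + r.2 = h), g (r.1 + r.2) ≤
      C₀ * (N / Real.log N ^ 2) * (g h * Fw 0 h ^ C₀) := by
    intro h hh
    have e : ∑ r ∈ S.filter (fun r => r.1 + r.2 = h), g (r.1 + r.2) =
        ∑ r ∈ S.filter (fun r => r.1 + r.2 = h), g h := sum_congr rfl fun r hr => by rw [(mem_filter.1 hr).2]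
    rw [e, sum_const, nsmul_eq_mul]
    rcases Nat.lt_or_ge (2 * N) h with hlt | hge
    · have hsub : S.filter (fun r => r.1 + r.2 = h) ⊆ (W h).image (fun w => (N + w, h - N - w)) := by
        rintro ⟨p, p'⟩ hr
        rw [mem_filter, hS, mem_product] at hr
        unfold PN at hr
        rw [mem_filter, mem_filter, mem_Ioc, mem_Ioc] at hr
        obtain ⟨⟨⟨p1, p2⟩, ⟨p3, p4⟩⟩, hd⟩ := hr
        simp only at p1 p2 p3 p4 hd
        rw [mem_image, hW]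
        have e1 : N + (p - N) = p := by omega
        have e2 : h - N - (p - N) = p' := by omega
        refine ⟨p - N, mem_filter.2 ⟨mem_Icc.2 ⟨by omega, by omega⟩, ?_⟩, ?_⟩
        · rw [e1, e2]
          exact ⟨p2, p4⟩
        · rw [e1, e2]
      have h4 : (S.filter (fun r => r.1 + r.2 = h)).card ≤ (W h).card := (card_le_card hsub).trans card_image_le
      have h5 : ((S.filter (fun r => r.1 + r.2 = h)).card : ℝ) ≤ (W h).card := by exact_mod_cast h4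
      have := mul_le_mul_of_nonneg_right (h5.trans (hWc h hh hlt)) (hg0 h)
      nlinarith
    · have e : S.filter (fun r => r.1 + r.2 = h) = ∅ := by
        rw [filter_eq_empty_iff]
        intro r hr he
        rw [hS, mem_product] at hr
        unfold PN at hr
        rw [mem_filter, mem_filter, mem_Ioc, mem_Ioc] at hr
        omega
      rw [e, card_empty, Nat.cast_zero, zero_mul]
      have := one_le_Fw 0 h
      have := hg0 h
      positivity
  have h0 : ∑ p ∈ PN N, ∑ p' ∈ PN N, Real.exp (c * Fw 0 (p + p') ^ k) =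
      ∑ p ∈ PN N, ∑ p' ∈ PN N, g (p + p') := by rw [hg]
  rw [h0, h1, h2]
  refine (sum_le_sum h3).trans ?_
  rw [← mul_sum]
  have h7 : ∑ h ∈ Icc 1 (4 * N), g h * Fw 0 h ^ C₀ ≤ K * (4 * N : ℕ) := by rw [hg]; exact hK (4 * N)
  calc C₀ * (N / Real.log N ^ 2) * ∑ h ∈ Icc 1 (4 * N), g h * Fw 0 h ^ C₀ ≤ C₀ * (N / Real.log N ^ 2) * (K * (4 * N : ℕ)) :=
        mul_le_mul_of_nonneg_left h7 (by positivity)
    _ = _ := by rw [div_pow]; push_cast; ring

/-- one pair of squares -/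
lemma sq_point (c : ℝ) (hc : 0 ≤ c) (k : ℕ) {n n' : ℕ} (hn : 1 ≤ n) (hn' : 1 ≤ n') :
    (if n = n' then 0 else Real.exp (c * Fw 0 (dd (n ^ 2) (n' ^ 2)) ^ k)) ≤
      (if n = n' then 0 else Real.exp (c * Fw 0 (dd n n') ^ (2 * k))) + Real.exp (c * Fw 0 (n + n') ^ (2 * k)) := by
  by_cases h : n = n'
  · simp only [h, if_true, zero_add]
    exact (Real.exp_pos _).le
  · simp only [h, if_false]
    have e : dd (n ^ 2) (n' ^ 2) = dd n n' * (n + n') := by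
      unfold dd
      rcases lt_or_gt_of_ne h with h | h
      · obtain ⟨t, rfl⟩ := Nat.exists_eq_add_of_lt h
        have e1 : n - (n + t + 1) = 0 := by omega
        have e2 : n + t + 1 - n = t + 1 := by omega
        have e3 : n ^ 2 - (n + t + 1) ^ 2 = 0 := Nat.sub_eq_zero_of_le (Nat.pow_le_pow_left (by omega) 2)
        have e4 : (n + t + 1) ^ 2 - n ^ 2 = (t + 1) * (n + (n + t + 1)) := by
          have : (n + t + 1) ^ 2 = n ^ 2 + (t + 1) * (n + (n + t + 1)) := by ring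
          omega
        rw [e1, e2, e3, e4]
        ring
      · obtain ⟨t, rfl⟩ := Nat.exists_eq_add_of_lt h
        have e1 : n' - (n' + t + 1) = 0 := by omega
        have e2 : n' + t + 1 - n' = t + 1 := by omega
        have e3 : n' ^ 2 - (n' + t + 1) ^ 2 = 0 := Nat.sub_eq_zero_of_le (Nat.pow_le_pow_left (by omega) 2)
        have e4 : (n' + t + 1) ^ 2 - n' ^ 2 = (t + 1) * ((n' + t + 1) + n') := by
          have : (n' + t + 1) ^ 2 = n' ^ 2 + (t + 1) * ((n' + t + 1) + n') := by ring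
          omega
        rw [e1, e2, e3, e4]
        ring
    rw [e]
    have hdd : 1 ≤ dd n n' := by unfold dd; omega
    have h2 := Fw_mul (dd n n') (n + n') hdd (by omega)
    have f1 := one_le_Fw 0 (dd n n')
    have f2 := one_le_Fw 0 (n + n')
    have f3 := one_le_Fw 0 (dd n n' * (n + n'))
    have h3 : Fw 0 (dd n n' * (n + n')) ^ k ≤ Fw 0 (dd n n') ^ (2 * k) ∨
        Fw 0 (dd n n' * (n + n')) ^ k ≤ Fw 0 (n + n') ^ (2 * k) := by
      rcases le_total (Fw 0 (dd n n')) (Fw 0 (n + n')) with h4 | h4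
      · right
        rw [pow_mul]
        refine pow_le_pow_left₀ (by linarith) (h2.trans ?_) k
        nlinarith
      · left
        rw [pow_mul]
        refine pow_le_pow_left₀ (by linarith) (h2.trans ?_) k
        nlinarith
    rcases h3 with h4 | h4
    · have := Real.exp_le_exp.2 (mul_le_mul_of_nonneg_left h4 hc)
      have := Real.exp_pos (c * Fw 0 (n + n') ^ (2 * k))
      linarith
    · have := Real.exp_le_exp.2 (mul_le_mul_of_nonneg_left h4 hc)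
      have := Real.exp_pos (c * Fw 0 (dd n n') ^ (2 * k))
      linarith

/-- pairs of squares of primes -/
lemma pr_sq (c : ℝ) (hc : 0 ≤ c) (k : ℕ) : ∃ K : ℝ, 1 ≤ K ∧ ∃ N₀ : ℕ, ∀ N : ℕ, N₀ ≤ N →
    ∑ p ∈ PN N, ∑ p' ∈ PN N, (if p = p' then 0 else Real.exp (c * Fw 0 (dd (p ^ 2) (p' ^ 2)) ^ k)) ≤
      K * (N / Real.log N) ^ 2 := by
  obtain ⟨K₁, hK1, N₁, h1⟩ := pr_dd c hc (2 * k)
  obtain ⟨K₂, hK2, N₂, h2⟩ := pr_sum c hc (2 * k)
  refine ⟨K₁ + K₂, by linarith, max N₁ N₂, fun N hN => ?_⟩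
  have g1 := h1 N (le_trans (le_max_left _ _) hN)
  have g2 := h2 N (le_trans (le_max_right _ _) hN)
  have hp : ∀ p ∈ PN N, 1 ≤ p := fun p hp => (mem_filter.1 hp).2.one_le
  refine (sum_le_sum fun p hpp => sum_le_sum fun p' hpp' => sq_point c hc k (hp p hpp) (hp p' hpp')).trans ?_
  simp only [sum_add_distrib]
  linarith

end Pool.Agent.Run7.h880.RP
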