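import Mathlib
import Pool.Agent.Run7.h880.RP.Pr
import Pool.Agent.Run7.h880.RP.Dim2d

/-! Random positions at both ends of the intervals between the squares of consecutive primes. -/

set_option autoImplicit false

namespace Pool.Agent.Run7.h880.RP

open Finset Filter
open Pool.Agent.N384.MQ (ev_log_pow ev_log_ge)
open Pool.Agent.Run7.h880.MK (Smp Smp_mem Smp_card hits hits_eq nohit)
open Pool.Agent.Run7.h931.RS (Fw one_le_Fw sg_le_Fw moments th_win)

lemma PN_card : ∃ N₀ : ℕ, ∀ N : ℕ, N₀ ≤ N → (N : ℝ) / (2 * Real.log N) ≤ (PN N).card := by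
  classical
  obtain ⟨N₀, h⟩ := eventually_atTop.1 (((th_win 1 1).and (ev_log_ge 24)).and (eventually_ge_atTop 3))
  refine ⟨N₀, fun N hN => ?_⟩
  obtain ⟨⟨h1, h2⟩, h3⟩ := h N hN
  have hN3r : (3 : ℝ) ≤ N := by exact_mod_cast h3
  have hN0 : (0 : ℝ) < N := by linarith
  have hL0 : 0 < Real.log N := by linarith
  have h4 := cnt_of_th (X := N) (x := N) (M := N) h3 (by linarith) (by omega) le_rfl (by omega) (by
    refine (h1 N N (by omega) le_rfl).trans ?_
    rw [pow_one]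
    have : 0 ≤ (N : ℝ) / Real.log N := by positivity
    linarith)
  have h5 := (abs_le.1 h4).1
  have h6 : (12 : ℝ) / Real.log N ^ 2 ≤ 1 / (2 * Real.log N) := by
    rw [div_le_div_iff₀ (by positivity) (by positivity)]
    nlinarith
  have h7 : 1 / (2 * Real.log N) ≤ (((Ioc N (N + N)).filter Nat.Prime).card : ℝ) / N := by
    have e : 1 / Real.log N = 1 / (2 * Real.log N) + 1 / (2 * Real.log N) := by field_simp; norm_num
    linarith
  rw [le_div_iff₀ hN0] at h7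
  have e : (PN N) = (Ioc N (N + N)).filter Nat.Prime := by unfold PN; rw [two_mul]
  rw [e]
  calc (N : ℝ) / (2 * Real.log N) = 1 / (2 * Real.log N) * N := by ring
    _ ≤ _ := h7

/-- systems along an injection -/
lemma Sys.comp {ι κ κ' : Type} [DecidableEq ι] [DecidableEq κ] [DecidableEq κ'] {Ω : Finset ι} {J : Finset κ'}
    {A : κ → Finset ι} {L K₀ c K₂ : ℝ} (φ : κ' → κ) (hφ : Set.InjOn φ J) (hS : Sys Ω (J.image φ) A L K₀ c K₂) :
    Sys Ω J (fun j => A (φ j)) L K₀ c K₂ := by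
  obtain ⟨ρ, hρ0, hρ, hρs⟩ := hS.two
  refine ⟨hS.ne, fun j hj => hS.sub _ (mem_image_of_mem φ hj), fun j hj => hS.dens _ (mem_image_of_mem φ hj),
    fun i j => ρ (φ i) (φ j), fun i j => hρ0 _ _, ?_, ?_⟩
  · intro i hi j hj hij
    exact hρ _ (mem_image_of_mem φ hi) _ (mem_image_of_mem φ hj) fun h => hij (hφ hi hj h)
  · rw [card_image_of_injOn hφ, sum_image hφ] at hρs
    refine le_trans (le_of_eq (sum_congr rfl fun i hi => ?_)) hρs
    rw [sum_image hφ]
    refine sum_congr rfl fun j hj => ?_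
    by_cases h : i = j
    · simp [h]
    · have h' : φ i ≠ φ j := fun he => h (hφ hi hj he)
      simp [h, h']

/-- the system of the regular squares of primes -/
theorem sys_pr (c : ℝ) (hc : 0 ≤ c) : ∃ K₂ : ℝ, 0 ≤ K₂ ∧ ∃ N₀ : ℕ, ∀ N : ℕ, N₀ ≤ N → ∀ M : ℕ,
    (N : ℝ) ^ (1 / 2 : ℝ) ≤ M → M ≤ N → ∀ J : Finset ℕ, J ⊆ GoodSq N M → J ⊆ PN N → (N : ℝ) / (4 * Real.log N) ≤ J.card →
    ∀ b : Bool, Sys (Icc 1 M) J (fun n => sqA n M b) (2 * Real.log N) 12 c K₂ := by
  classical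
  obtain ⟨k, c', hc', h1⟩ := sys_sq_of c hc
  obtain ⟨K, hK1, N₁, hK⟩ := pr_sq c' hc' k
  obtain ⟨K₂, hK2, N₀, h2⟩ := h1 (16 * K) (by linarith)
  obtain ⟨N₂, hN₂⟩ := eventually_atTop.1 (ev_log_ge 1)
  refine ⟨K₂, hK2, max N₀ (max N₁ N₂), fun N hN M hM1 hM2 J hJ hJP hJc b =>
    h2 N (le_trans (le_max_left _ _) hN) M hM1 hM2 J hJ ?_ b⟩
  have l1 := hN₂ N (le_trans (le_trans (le_max_right _ _) (le_max_right _ _)) hN)
  have hL0 : 0 < Real.log N := by linarith
  have hnn : ∀ i j : ℕ, (0 : ℝ) ≤ (if i = j then 0 else Real.exp (c' * Fw 0 (dd (i ^ 2) (j ^ 2)) ^ k)) := by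
    intro i j
    split_ifs
    · exact le_rfl
    · exact (Real.exp_pos _).le
  have h4 : ∑ i ∈ J, ∑ j ∈ J, (if i = j then 0 else Real.exp (c' * Fw 0 (dd (i ^ 2) (j ^ 2)) ^ k)) ≤
      ∑ i ∈ PN N, ∑ j ∈ PN N, (if i = j then 0 else Real.exp (c' * Fw 0 (dd (i ^ 2) (j ^ 2)) ^ k)) := by
    refine (sum_le_sum fun i _ => sum_le_sum_of_subset_of_nonneg hJP fun j _ _ => hnn i j).trans ?_
    exact sum_le_sum_of_subset_of_nonneg hJP fun i _ _ => sum_nonneg fun j _ => hnn i j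
  refine (h4.trans (hK N (le_trans (le_trans (le_max_left _ _) (le_max_right _ _)) hN))).trans ?_
  have h5 : (N : ℝ) / Real.log N ≤ 4 * J.card := by
    have e : (N : ℝ) / Real.log N = 4 * (N / (4 * Real.log N)) := by field_simp
    linarith
  have h6 : 0 ≤ (N : ℝ) / Real.log N := by positivity
  have h7 : ((N : ℝ) / Real.log N) ^ 2 ≤ 16 * (J.card : ℝ) ^ 2 := by nlinarith
  nlinarith

/-- `r` is a pair of consecutive primes -/
def Consec (r : ℕ × ℕ) : Prop := r.1.Prime ∧ r.2.Prime ∧ r.1 < r.2 ∧ ∀ s, r.1 < s → s < r.2 → ¬ s.Prime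

open Classical in
/-- the pairs of consecutive primes of `(N, 2 N]`, both regular -/
noncomputable def BP (N M : ℕ) : Finset (ℕ × ℕ) :=
  (Ioc N (2 * N) ×ˢ Ioc N (2 * N)).filter fun r => Consec r ∧ RegSq N M r.1 ∧ RegSq N M r.2

lemma BP_fst (N M : ℕ) : Set.InjOn (Prod.fst : ℕ × ℕ → ℕ) (BP N M) := by
  classical
  rintro ⟨p, q⟩ h ⟨p', q'⟩ h' (he : p = p')
  subst he
  unfold BP at h h'
  rw [mem_coe, mem_filter] at h h'
  obtain ⟨_, ⟨_, h2, h3, h4⟩, _⟩ := h
  obtain ⟨_, ⟨_, h2', h3', h4'⟩, _⟩ := h'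
  simp only at h2 h3 h4 h2' h3' h4'
  have : q = q' := by
    rcases lt_trichotomy q q' with h | h | h
    · exact absurd h2 (h4' q h3 h)
    · exact h
    · exact absurd h2' (h4 q' h3' h)
  rw [this]

lemma BP_snd (N M : ℕ) : Set.InjOn (Prod.snd : ℕ × ℕ → ℕ) (BP N M) := by
  classical
  rintro ⟨p, q⟩ h ⟨p', q'⟩ h' (he : q = q')
  subst he
  unfold BP at h h'
  rw [mem_coe, mem_filter] at h h'
  obtain ⟨_, ⟨h1, _, h3, h4⟩, _⟩ := h
  obtain ⟨_, ⟨h1', _, h3', h4'⟩, _⟩ := h'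
  simp only at h1 h3 h4 h1' h3' h4'
  have : p = p' := by
    rcases lt_trichotomy p p' with h | h | h
    · exact absurd h1' (h4 p' h h3')
    · exact h
    · exact absurd h1 (h4' p h h3)
  rw [this]

lemma BP_card (N M : ℕ) : (PN N).card ≤ (BP N M).card + 2 * (Ioc N (2 * N) \ GoodSq N M).card + 1 := by
  classical
  obtain ⟨E, hE⟩ : ∃ E, E = Ioc N (2 * N) \ GoodSq N M := ⟨_, rfl⟩
  have hex : ∀ p : ℕ, ∃ q, p + 1 ≤ q ∧ q.Prime := fun p => Nat.exists_infinite_primes (p + 1)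
  obtain ⟨np, hnp⟩ : ∃ np : ℕ → ℕ, np = fun p => Nat.find (hex p) := ⟨_, rfl⟩
  have n1 : ∀ p, p < np p := fun p => by rw [hnp]; exact (Nat.find_spec (hex p)).1
  have n2 : ∀ p, (np p).Prime := fun p => by rw [hnp]; exact (Nat.find_spec (hex p)).2
  have n3 : ∀ p q, p < q → q.Prime → np p ≤ q := fun p q h hq => by rw [hnp]; exact Nat.find_min' (hex p) ⟨h, hq⟩
  have hsub : PN N ⊆ (BP N M).image Prod.fst ∪ (E ∪ ((PN N).filter (fun p => np p ∈ E) ∪
      (PN N).filter fun p => 2 * N < np p)) := by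
    intro p hp
    rw [mem_union, mem_union, mem_union]
    by_cases g1 : p ∈ E
    · exact Or.inr (Or.inl g1)
    by_cases g2 : np p ∈ E
    · exact Or.inr (Or.inr (Or.inl (mem_filter.2 ⟨hp, g2⟩)))
    by_cases g3 : 2 * N < np p
    · exact Or.inr (Or.inr (Or.inr (mem_filter.2 ⟨hp, g3⟩)))
    left
    have hp' := hp
    unfold PN at hp'
    rw [mem_filter] at hp'
    have g4 : np p ∈ Ioc N (2 * N) := by
      have := n1 p
      have := (mem_Ioc.1 hp'.1).1
      rw [mem_Ioc]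
      omega
    have r : ∀ n, n ∈ Ioc N (2 * N) → n ∉ E → RegSq N M n := by
      intro n hn hnE
      by_contra hcon
      refine hnE ?_
      rw [hE, Finset.mem_sdiff]
      refine ⟨hn, fun hg => hcon ?_⟩
      unfold GoodSq at hg
      exact (mem_filter.1 hg).2
    rw [mem_image]
    refine ⟨(p, np p), ?_, rfl⟩
    unfold BP
    rw [mem_filter, mem_product]
    refine ⟨⟨hp'.1, g4⟩, ⟨hp'.2, n2 p, n1 p, fun s hs1 hs2 hs3 => ?_⟩, r p hp'.1 g1, r _ g4 g2⟩
    have := n3 p s hs1 hs3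
    simp only at hs2
    omega
  have c1 : ((BP N M).image Prod.fst).card ≤ (BP N M).card := card_image_le
  have c2 : ((PN N).filter (fun p => np p ∈ E)).card ≤ E.card := by
    refine card_le_card_of_injOn np (fun p hp => (mem_filter.1 hp).2) ?_
    intro p hp p' hp' he
    rw [mem_coe, mem_filter] at hp hp'
    unfold PN at hp hp'
    have q1 := (mem_filter.1 hp.1).2
    have q2 := (mem_filter.1 hp'.1).2
    rcases lt_trichotomy p p' with h | h | h
    · have := n3 p p' h q2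
      have := n1 p'
      omega
    · exact h
    · have := n3 p' p h q1
      have := n1 p
      omega
  have c3 : ((PN N).filter fun p => 2 * N < np p).card ≤ 1 := by
    rw [card_le_one]
    intro p hp p' hp'
    rw [mem_filter] at hp hp'
    unfold PN at hp hp'
    have q1 := mem_filter.1 hp.1
    have q2 := mem_filter.1 hp'.1
    rw [mem_Ioc] at q1 q2
    rcases lt_trichotomy p p' with h | h | h
    · have := n3 p p' h q2.2
      omega
    · exact h
    · have := n3 p' p h q1.2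
      omega
  have c4 := (card_le_card hsub).trans ((card_union_le _ _).trans (Nat.add_le_add_left ((card_union_le _ _).trans
    (Nat.add_le_add_left (card_union_le _ _) _)) _))
  rw [← hE]
  omega

/-- almost all of the pairs are regular -/
lemma BP_big (a : ℕ) : ∃ N₀ : ℕ, ∀ N : ℕ, N₀ ≤ N → ∀ M : ℕ, (N : ℝ) ≤ M * Real.log N ^ a → M ≤ N →
    (N : ℝ) / (4 * Real.log N) ≤ (BP N M).card := by
  obtain ⟨N₁, h1⟩ := PN_card
  obtain ⟨N₂, h2⟩ := goodsq_card a 2
  obtain ⟨N₃, h3⟩ := eventually_atTop.1 ((ev_log_ge 16).and (Run7.h337.MK.ev_pw 1 16))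
  refine ⟨max N₁ (max N₂ (max N₃ 1)), fun N hN M hM1 hM2 => ?_⟩
  have hN1 : 1 ≤ N := le_trans (le_trans (le_trans (le_max_right _ _) (le_max_right _ _)) (le_max_right _ _)) hN
  have hNr : (1 : ℝ) ≤ N := by exact_mod_cast hN1
  have g1 := h1 N (le_trans (le_max_left _ _) hN)
  have g2 := h2 N (le_trans (le_trans (le_max_left _ _) (le_max_right _ _)) hN) M hM1 hM2
  obtain ⟨l1, l2⟩ := h3 N (le_trans (le_trans (le_trans (le_max_left _ _) (le_max_right _ _)) (le_max_right _ _)) hN)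
  rw [pow_one] at l2
  have hL0 : 0 < Real.log N := by linarith
  have l3 : 16 * Real.log N ≤ N := by
    refine l2.trans ?_
    calc (N : ℝ) ^ (1 / 3 : ℝ) ≤ (N : ℝ) ^ (1 : ℝ) := Real.rpow_le_rpow_of_exponent_le hNr (by norm_num)
      _ = N := Real.rpow_one _
  have g3 : ((PN N).card : ℝ) ≤ (BP N M).card + 2 * (Ioc N (2 * N) \ GoodSq N M).card + 1 := by
    exact_mod_cast BP_card N M
  obtain ⟨t, ht⟩ : ∃ t, t = (N : ℝ) / Real.log N := ⟨_, rfl⟩
  have e1 : (N : ℝ) / (2 * Real.log N) = t / 2 := by rw [ht]; field_simp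
  have e2 : (N : ℝ) / (4 * Real.log N) = t / 4 := by rw [ht]; field_simp
  have e3 : (N : ℝ) / Real.log N ^ 2 ≤ t / 16 := by
    rw [ht, div_div, div_le_div_iff₀ (by positivity) (by positivity)]
    nlinarith [mul_nonneg hL0.le (by linarith : 0 ≤ Real.log N - 16)]
  have e4 : 16 ≤ t := by rw [ht, le_div_iff₀ hL0]; exact l3
  rw [e1] at g1
  rw [e2]
  linarith

/-- **the limit shape for the ends of the intervals between squares of consecutive primes** -/
theorem main_br (κ ε : ℝ) (hκ : 0 < κ) (hε : 0 < ε) (a : ℕ) : ∃ K : ℝ, 0 < K ∧ ∃ N₀ : ℕ, ∀ N : ℕ, N₀ ≤ N → ∀ M : ℕ,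
    (N : ℝ) ≤ M * Real.log N ^ a → M ≤ N → ∀ m : ℕ, |(m : ℝ) - κ * Real.log N ^ 2| ≤ 1 →
    ∀ (P : (Fin m → ℕ) × (Fin m → ℕ) → Prop) [DecidablePred P],
    (∀ p, P p → ¬ Shape (BP N M) (fun r => sqA r.1 M true) (fun r => sqA r.2 M false) (κ / 2 * Real.log N)
      (Reg2 (1 / 2) (κ / 4)) ε p) →
    (((Smp (Icc 1 M) m ×ˢ Smp (Icc 1 M) m).filter P).card : ℝ) ≤
      K / Real.log N * ((Smp (Icc 1 M) m ×ˢ Smp (Icc 1 M) m).card : ℝ) := by
  classical
  obtain ⟨c, η, hc, hη, h1⟩ := shape (1 / 2) (κ / 4) ε 12 (by norm_num) (by positivity) hε (by norm_num)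
  obtain ⟨K₂, hK2, N₁, h2⟩ := sys_pr c hc
  obtain ⟨K, hK, h3⟩ := h1 K₂ hK2
  obtain ⟨N₄, h7⟩ := BP_big a
  refine ⟨K, hK, ?_⟩
  have hlim : Tendsto (fun N : ℕ => 2 * Real.log N) atTop atTop :=
    (Real.tendsto_log_atTop.comp (tendsto_natCast_atTop_atTop (R := ℝ))).const_mul_atTop (by norm_num)
  have h4 : ∀ᶠ N : ℕ in atTop, _ := hlim.eventually h3
  obtain ⟨N₂, h4⟩ := eventually_atTop.1 (h4.and ((ev_log_ge 1).and ((ev_log_ge (2 / η ^ 2)).and
    (Run7.h337.MK.ev_pw a 1))))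
  refine ⟨max N₁ (max N₂ (max N₄ 1)), fun N hN M hM1 hM2 m hm P _ hP => ?_⟩
  have hN1 : 1 ≤ N := le_trans (le_trans (le_trans (le_max_right _ _) (le_max_right _ _)) (le_max_right _ _)) hN
  have hN1r : (1 : ℝ) ≤ N := by exact_mod_cast hN1
  have hNr : (0 : ℝ) < N := by linarith
  obtain ⟨h5, l1, l2, l3⟩ := h4 N (le_trans (le_trans (le_max_left _ _) (le_max_right _ _)) hN)
  have hBc := h7 N (le_trans (le_trans (le_trans (le_max_left _ _) (le_max_right _ _)) (le_max_right _ _)) hN) M hM1 hM2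
  rw [div_le_iff₀ (by positivity)] at l2
  have hL0 : 0 < Real.log N := by linarith
  have hle : (N : ℝ) ^ (1 / 2 : ℝ) ≤ M := by
    have g1 : (N : ℝ) ^ (1 / 2 : ℝ) * (N : ℝ) ^ (1 / 2 : ℝ) = N := by
      rw [← Real.rpow_add hNr]
      norm_num
    have g2 : (N : ℝ) ^ (1 / 3 : ℝ) ≤ (N : ℝ) ^ (1 / 2 : ℝ) := Real.rpow_le_rpow_of_exponent_le hN1r (by norm_num)
    have g3 : Real.log N ^ a ≤ (N : ℝ) ^ (1 / 2 : ℝ) := by linarith
    have g4 : (N : ℝ) ^ (1 / 2 : ℝ) * (N : ℝ) ^ (1 / 2 : ℝ) ≤ M * (N : ℝ) ^ (1 / 2 : ℝ) := by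
      rw [g1]
      exact hM1.trans (mul_le_mul_of_nonneg_left g3 (Nat.cast_nonneg M))
    exact le_of_mul_le_mul_right g4 (by positivity)
  have hS := h2 N (le_trans (le_max_left _ _) hN) M hle hM2
  have hmem : ∀ r ∈ BP N M, r.1 ∈ GoodSq N M ∧ r.2 ∈ GoodSq N M ∧ r.1 ∈ PN N ∧ r.2 ∈ PN N := by
    intro r hr
    unfold BP at hr
    rw [mem_filter, mem_product] at hr
    obtain ⟨⟨a1, a2⟩, ⟨a3, a4, _⟩, a5, a6⟩ := hr
    unfold GoodSq PN
    simp only [mem_filter]
    exact ⟨⟨a1, a5⟩, ⟨a2, a6⟩, ⟨a1, a3⟩, ⟨a2, a4⟩⟩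
  have sA : Sys (Icc 1 M) (BP N M) (fun r => sqA r.1 M true) (2 * Real.log N) 12 c K₂ := by
    refine Sys.comp (A := fun n => sqA n M true) Prod.fst (BP_fst N M) (hS _ ?_ ?_ ?_ true)
    · intro n hn
      obtain ⟨r, hr, rfl⟩ := mem_image.1 hn
      exact (hmem r hr).1
    · intro n hn
      obtain ⟨r, hr, rfl⟩ := mem_image.1 hn
      exact (hmem r hr).2.2.1
    · rw [card_image_of_injOn (BP_fst N M)]
      exact hBc
  have sB : Sys (Icc 1 M) (BP N M) (fun r => sqA r.2 M false) (2 * Real.log N) 12 c K₂ := by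
    refine Sys.comp (A := fun n => sqA n M false) Prod.snd (BP_snd N M) (hS _ ?_ ?_ ?_ false)
    · intro n hn
      obtain ⟨r, hr, rfl⟩ := mem_image.1 hn
      exact (hmem r hr).2.1
    · intro n hn
      obtain ⟨r, hr, rfl⟩ := mem_image.1 hn
      exact (hmem r hr).2.2.2
    · rw [card_image_of_injOn (BP_snd N M)]
      exact hBc
  have h6 := h5 m (by
      have e : κ / 4 * (2 * Real.log N) ^ 2 = κ * Real.log N ^ 2 := by ring
      rw [e]
      linarith) (Icc 1 M) (BP N M) (fun r => sqA r.1 M true) (fun r => sqA r.2 M false) sA sB (by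
    show Real.exp ((1 / 2 - η) * (2 * Real.log N)) ≤ (BP N M).card
    have e : (1 / 2 - η) * (2 * Real.log N) = Real.log N - 2 * η * Real.log N := by ring
    rw [e, Real.exp_sub, Real.exp_log hNr]
    refine le_trans ?_ hBc
    refine div_le_div_of_nonneg_left hNr.le (by positivity) ?_
    have h7 : (2 * η * Real.log N) ^ 2 / 2 ≤ Real.exp (2 * η * Real.log N) := by
      have h8 := Real.quadratic_le_exp_of_nonneg (show 0 ≤ 2 * η * Real.log N by positivity)
      have : 0 ≤ 2 * η * Real.log N := by positivity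
      linarith
    refine le_trans ?_ h7
    have h8 : (2 * η * Real.log N) ^ 2 / 2 = 2 * (Real.log N * η ^ 2) * Real.log N := by ring
    rw [h8]
    have := mul_le_mul_of_nonneg_right l2 hL0.le
    nlinarith) (by
    show ((BP N M).card : ℝ) ≤ Real.exp (1 / 2 * (2 * Real.log N) + 1)
    have e : 1 / 2 * (2 * Real.log N) + 1 = Real.log N + 1 := by ring
    rw [e, Real.exp_add, Real.exp_log hNr]
    have h7 : ((BP N M).card : ℝ) ≤ N := by
      have h6 : (BP N M).image Prod.fst ⊆ Ioc N (2 * N) := fun n hn => by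
        obtain ⟨r, hr, rfl⟩ := mem_image.1 hn
        have := (hmem r hr).1
        unfold GoodSq at this
        exact (mem_filter.1 this).1
      have := card_le_card h6
      rw [card_image_of_injOn (BP_fst N M), Nat.card_Ioc] at this
      exact_mod_cast (by omega : (BP N M).card ≤ N)
    have h8 := Real.exp_one_gt_d9
    nlinarith) P (by
    intro p hp
    have e : κ / 4 * (2 * Real.log N) = κ / 2 * Real.log N := by ring
    rw [e]
    exact hP p hp)
  refine h6.trans (mul_le_mul_of_nonneg_right ?_ (Nat.cast_nonneg _))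
  exact div_le_div_of_nonneg_left hK.le hL0 (by linarith)

end Pool.Agent.Run7.h880.RP
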