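import Mathlib
import Pool.Agent.Run7.h880.RP.PrS

/-! Random positions on both sides of the primes. -/

set_option autoImplicit false

namespace Pool.Agent.Run7.h880.RP

open Finset Filter
open Pool.Agent.N384.MQ (ev_log_pow ev_log_ge)
open Pool.Agent.Run7.h880.MK (Smp Smp_mem Smp_card hits hits_eq nohit)
open Pool.Agent.Run7.h931.RS (Fw one_le_Fw sg_le_Fw moments th_win)

/-- the numbers `w` in `[1, M]` with `n + w` prime (`b = true`), `n - w` prime (`b = false`) -/
def wA (n M : ℕ) (b : Bool) : Finset ℕ := (Icc 1 M).filter fun w => (if b then n + w else n - w).Prime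

/-- left ends of the blocks -/
def wU (n M : ℕ) (b : Bool) : ℕ := if b then n else n - M - 1

lemma wA_card (n M : ℕ) (b : Bool) (h : M + 1 ≤ n) :
    (wA n M b).card = ((Ioc (wU n M b) (wU n M b + M)).filter Nat.Prime).card := by
  cases b
  · refine card_bij (fun w _ => n - w) ?_ ?_ ?_
    · intro w hw
      unfold wA at hw
      rw [mem_filter, mem_Icc] at hw
      rw [mem_filter, mem_Ioc]
      simp only [wU, Bool.false_eq_true, if_false] at hw ⊢
      exact ⟨by omega, hw.2⟩
    · intro w hw w' hw' he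
      unfold wA at hw hw'
      rw [mem_filter, mem_Icc] at hw hw'
      have he : n - w = n - w' := he
      omega
    · intro p hp
      rw [mem_filter, mem_Ioc] at hp
      simp only [wU, Bool.false_eq_true, if_false] at hp
      refine ⟨n - p, ?_, by have := hp.1; show n - (n - p) = p; omega⟩
      unfold wA
      rw [mem_filter, mem_Icc]
      simp only [Bool.false_eq_true, if_false]
      have e : n - (n - p) = p := by omega
      rw [e]
      exact ⟨by omega, hp.2⟩
  · refine card_bij (fun w _ => n + w) ?_ ?_ ?_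
    · intro w hw
      unfold wA at hw
      rw [mem_filter, mem_Icc] at hw
      rw [mem_filter, mem_Ioc]
      simp only [wU, if_true] at hw ⊢
      exact ⟨by omega, hw.2⟩
    · intro w hw w' hw' he
      have he : n + w = n + w' := he
      omega
    · intro p hp
      rw [mem_filter, mem_Ioc] at hp
      simp only [wU, if_true] at hp
      refine ⟨p - n, ?_, by show n + (p - n) = p; omega⟩
      unfold wA
      rw [mem_filter, mem_Icc]
      simp only [if_true]
      have e : n + (p - n) = p := by omega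
      rw [e]
      exact ⟨by omega, hp.2⟩

/-- the densities of the primes of the windows `(n, n + M]` and `[n - M, n)` are near `1 / log N` -/
def RegW (N M n : ℕ) : Prop := ∀ b : Bool, |((wA n M b).card : ℝ) / M - 1 / Real.log N| ≤ 20 / Real.log N ^ 2

open Classical in
/-- the regular integers of `(N, 2 N]` -/
noncomputable def GoodW (N M : ℕ) : Finset ℕ := (Ioc N (2 * N)).filter fun n => RegW N M n

/-- almost all integers are regular -/
theorem goodw_card (U : ℕ) : ∃ C N₀ : ℕ, ∀ N : ℕ, N₀ ≤ N → ∀ M : ℕ, (N : ℝ) ^ (1 / 3 : ℝ) * Real.log N ^ C ≤ M →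
    2 * M ≤ N → ((Ioc N (2 * N) \ GoodW N M).card : ℝ) ≤ N / Real.log N ^ U := by
  classical
  obtain ⟨C, X₀, h⟩ := fam (U + 1)
  obtain ⟨N₁, hev⟩ := eventually_atTop.1 ((ev_log_ge 20).and (ev_log_ge (2 ^ (U + 2))))
  refine ⟨C, max (2 * X₀ + 2) (max N₁ 8), fun N hN M hNM hMN => ?_⟩
  obtain ⟨hl2, hl3⟩ := hev N (le_trans (le_trans (le_max_left _ _) (le_max_right _ _)) hN)
  have hN8 : 8 ≤ N := le_trans (le_trans (le_max_right _ _) (le_max_right _ _)) hN
  have hNX : 2 * X₀ + 2 ≤ N := le_trans (le_max_left _ _) hN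
  have hN8r : (8 : ℝ) ≤ N := by exact_mod_cast hN8
  have hN0 : (0 : ℝ) < N := by linarith
  obtain ⟨X, hX⟩ : ∃ X : ℕ, X = N / 2 := ⟨_, rfl⟩
  have hX1 : 2 * X ≤ N := by omega
  have hX2 : N ≤ 3 * X := by omega
  have hX0 : X₀ ≤ X := by omega
  have hXr : (0 : ℝ) < X := by exact_mod_cast (by omega : 0 < X)
  have hX1r : 2 * (X : ℝ) ≤ N := by exact_mod_cast hX1
  have hX2r : (N : ℝ) ≤ 3 * X := by exact_mod_cast hX2
  obtain ⟨L, hL⟩ : ∃ L, L = Real.log N := ⟨_, rfl⟩
  obtain ⟨l, hl⟩ : ∃ l, l = Real.log X := ⟨_, rfl⟩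
  rw [← hL] at hl2 hl3 hNM
  have hlL : l ≤ L := by rw [hl, hL]; exact Real.log_le_log hXr (by linarith)
  have hLl : L ≤ l + 2 := by
    have h1 : Real.log N ≤ Real.log (3 * X) := Real.log_le_log hN0 hX2r
    rw [Real.log_mul (by norm_num) hXr.ne', ← hL, ← hl] at h1
    have h3 : Real.log 3 ≤ 2 := by
      have := Real.log_le_sub_one_of_pos (show (0 : ℝ) < 3 by norm_num)
      linarith
    linarith
  have hL0 : 0 < L := by linarith
  have hl0 : 0 < l := by linarith
  have hl9 : 9 / 10 * L ≤ l := by linarith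
  have hM0 : (0 : ℝ) < M := lt_of_lt_of_le (by positivity) hNM
  -- the blocks
  obtain ⟨J, hJ⟩ : ∃ J : Finset (ℕ × Bool), J = (Ioc N (2 * N)) ×ˢ univ := ⟨_, rfl⟩
  have hJm : ∀ j ∈ J, N < j.1 ∧ j.1 ≤ 2 * N := by
    intro j hj
    rw [hJ, mem_product, mem_Ioc] at hj
    exact hj.1
  obtain ⟨Bad, hBJ, hBs, hgood⟩ := h X hX0 J (fun j => wU j.1 M j.2)
    M (2 * M) (by
      rw [← hl]
      refine le_trans ?_ hNM
      have h1 : (X : ℝ) ^ (1 / 3 : ℝ) ≤ (N : ℝ) ^ (1 / 3 : ℝ) :=
        Real.rpow_le_rpow hXr.le (by linarith) (by norm_num)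
      have h2 : l ^ C ≤ L ^ C := pow_le_pow_left₀ hl0.le hlL C
      exact mul_le_mul h1 h2 (by positivity) (by positivity)) (by omega) (by
      intro j hj
      have h1 := hJm j hj
      show X ≤ wU j.1 M j.2 ∧ wU j.1 M j.2 + M ≤ 6 * X
      unfold wU
      split_ifs <;> constructor <;> omega) (by
      intro m
      have h2 : ∀ b : Bool, (((J.filter fun j : ℕ × Bool => wU j.1 M j.2 < m ∧ m ≤ wU j.1 M j.2 + M)).filter
          fun j => j.2 = b).card ≤ M := by
        intro b
        have h3 : Set.InjOn (fun j : ℕ × Bool => wU j.1 M j.2) (((J.filter fun j : ℕ × Bool => wU j.1 M j.2 < m ∧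
            m ≤ wU j.1 M j.2 + M)).filter fun j => j.2 = b) := by
          rintro ⟨j, c⟩ hj ⟨j', c'⟩ hj' he
          rw [mem_coe, mem_filter, mem_filter] at hj hj'
          have a1 := hJm _ hj.1.1
          have a2 := hJm _ hj'.1.1
          have b1 := hj.2
          have b2 := hj'.2
          simp only at he a1 a2 b1 b2
          subst b1
          subst b2
          unfold wU at he
          have : j = j' := by split_ifs at he <;> omega
          rw [this]
        have h4 : (((J.filter fun j : ℕ × Bool => wU j.1 M j.2 < m ∧ m ≤ wU j.1 M j.2 + M)).filter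
            fun j => j.2 = b).card ≤ (Ico (m - M) m).card := by
          refine card_le_card_of_injOn (fun j : ℕ × Bool => wU j.1 M j.2) ?_ h3
          intro j hj
          rw [mem_coe, mem_filter, mem_filter] at hj
          rw [mem_coe, mem_Ico]
          have := hj.1.2
          simp only
          omega
        refine h4.trans ?_
        rw [Nat.card_Ico]
        omega
      have h3 : (J.filter fun j : ℕ × Bool => wU j.1 M j.2 < m ∧ m ≤ wU j.1 M j.2 + M) ⊆
          (((J.filter fun j : ℕ × Bool => wU j.1 M j.2 < m ∧ m ≤ wU j.1 M j.2 + M)).filter fun j => j.2 = true) ∪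
          (((J.filter fun j : ℕ × Bool => wU j.1 M j.2 < m ∧ m ≤ wU j.1 M j.2 + M)).filter fun j => j.2 = false) := by
        intro j hj
        rw [mem_union]
        rcases Bool.eq_false_or_eq_true j.2 with hb | hb
        · exact Or.inl (mem_filter.2 ⟨hj, hb⟩)
        · exact Or.inr (mem_filter.2 ⟨hj, hb⟩)
      have h4 := (card_le_card h3).trans (card_union_le _ _)
      have h5 := h2 true
      have h6 := h2 false
      omega)
  rw [← hl] at hBs hgood
  have hsub : Ioc N (2 * N) \ GoodW N M ⊆ Bad.image Prod.fst := by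
    intro n hn
    rw [Finset.mem_sdiff] at hn
    by_contra hcon
    refine hn.2 ?_
    unfold GoodW
    rw [mem_filter]
    refine ⟨hn.1, fun b => ?_⟩
    have hn1 := mem_Ioc.1 hn.1
    have hm : M + 1 ≤ n := by omega
    have h1 := hgood (n, b) (by rw [hJ, mem_product]; exact ⟨hn.1, mem_univ _⟩) fun hb => hcon (mem_image.2 ⟨(n, b), hb, rfl⟩)
    simp only at h1
    rw [wA_card n M b hm, ← hL]
    have h2 : |1 / l - 1 / L| ≤ 3 / L ^ 2 := by
      have e : 1 / l - 1 / L = (L - l) / (l * L) := by field_simp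
      rw [e, abs_of_nonneg (div_nonneg (by linarith) (by positivity)), div_le_div_iff₀ (by positivity) (by positivity)]
      nlinarith [mul_pos hL0 hL0]
    have h3 : 12 / l ^ 2 ≤ 15 / L ^ 2 := by
      rw [div_le_div_iff₀ (by positivity) (by positivity)]
      nlinarith
    have h4 : ∀ x : ℝ, |x - 1 / l| ≤ 12 / l ^ 2 → |x - 1 / L| ≤ 20 / L ^ 2 := by
      intro x hx
      have e : x - 1 / L = (x - 1 / l) + (1 / l - 1 / L) := by ring
      rw [e]
      refine (abs_add_le _ _).trans ((add_le_add (hx.trans h3) h2).trans ?_)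
      rw [← add_div]
      exact div_le_div_of_nonneg_right (by norm_num) (by positivity)
    exact h4 _ h1
  have h1 : ((Ioc N (2 * N) \ GoodW N M).card : ℝ) ≤ Bad.card := by
    exact_mod_cast (card_le_card hsub).trans card_image_le
  refine h1.trans ?_
  rw [← hL]
  have h2 : (Bad.card : ℝ) ≤ 2 * (X / l ^ (U + 1)) := by
    have e : ((2 * M : ℕ) : ℝ) * (X / l ^ (U + 1)) = 2 * (X / l ^ (U + 1)) * M := by push_cast; ring
    rw [e] at hBs
    exact le_of_mul_le_mul_right hBs hM0
  refine h2.trans ?_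
  have h3 : L ^ (U + 1) ≤ 2 ^ (U + 1) * l ^ (U + 1) := by
    rw [← mul_pow]
    exact pow_le_pow_left₀ hL0.le (by linarith) _
  have h4 : 2 * ((X : ℝ) / l ^ (U + 1)) ≤ N / l ^ (U + 1) := by
    rw [← mul_div_assoc]
    exact div_le_div_of_nonneg_right hX1r (by positivity)
  refine h4.trans ?_
  rw [div_le_div_iff₀ (by positivity) (by positivity)]
  refine mul_le_mul_of_nonneg_left ?_ hN0.le
  have h5 : L ^ (U + 1) = L ^ U * L := pow_succ L U
  have h6 : (2 : ℝ) ^ (U + 2) = 2 ^ (U + 1) * 2 := pow_succ 2 (U + 1)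
  have h7 : (0 : ℝ) < 2 ^ (U + 1) := by positivity
  have h8 : L ^ U * 2 ^ (U + 1) ≤ 2 ^ (U + 1) * l ^ (U + 1) := by
    refine le_trans ?_ h3
    rw [h5]
    refine mul_le_mul_of_nonneg_left ?_ (by positivity)
    linarith
  exact le_of_mul_le_mul_right (by linarith : L ^ U * 2 ^ (U + 1) ≤ l ^ (U + 1) * 2 ^ (U + 1)) h7

/-- the system of the regular primes -/
theorem sys_prw (c : ℝ) (hc : 0 ≤ c) : ∃ K₂ : ℝ, 0 ≤ K₂ ∧ ∃ N₀ : ℕ, ∀ N : ℕ, N₀ ≤ N → ∀ M : ℕ,
    (N : ℝ) ^ (1 / 3 : ℝ) ≤ M → ∀ J : Finset ℕ, J ⊆ GoodW N M → J ⊆ PN N → (N : ℝ) / (4 * Real.log N) ≤ J.card →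
    ∀ b : Bool, Sys (Icc 1 M) J (fun n => wA n M b) (Real.log N) 20 c K₂ := by
  classical
  obtain ⟨C₀, hC0, Y₀, hsv⟩ := sv
  obtain ⟨K, hK1, N₁, hK⟩ := pr_dd (c * (9 * C₀)) (by positivity) C₀
  refine ⟨Real.exp c * (16 * K), by positivity, ?_⟩
  obtain ⟨N₂, hev⟩ := eventually_atTop.1 ((ev_log_ge 1).and (Run7.h337.MK.ev_pw 0 (max Y₀ 2)))
  refine ⟨max N₁ N₂, fun N hN M hM1 J hJ hJP hJc b => ?_⟩
  obtain ⟨l1, l2⟩ := hev N (le_trans (le_max_right _ _) hN)
  rw [pow_zero, mul_one] at l2
  have hNp : (0 : ℝ) < N := by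
    rcases (Nat.cast_nonneg (α := ℝ) N).eq_or_lt with h | h
    · rw [← h, Real.log_zero] at l1
      linarith
    · exact h
  have hMY : Y₀ ≤ M := (le_max_left _ _).trans (l2.trans hM1)
  have hM2r : (2 : ℝ) ≤ M := (le_max_right _ _).trans (l2.trans hM1)
  have hM0 : (0 : ℝ) < M := by linarith
  have hM1n : 1 ≤ M := by exact_mod_cast (by linarith : (1 : ℝ) ≤ M)
  have hcard : ((Icc 1 M).card : ℝ) = M := by rw [Nat.card_Icc]; push_cast; simp
  obtain ⟨L, hL⟩ : ∃ L, L = Real.log N := ⟨_, rfl⟩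
  have hL0 : 0 < L := by linarith
  have hlogM : L / 3 ≤ Real.log M := by
    have h1 := Real.log_le_log (by positivity) hM1
    rw [Real.log_rpow hNp] at h1
    linarith
  have hnn : ∀ i j : ℕ, (0 : ℝ) ≤ (if i = j then 0 else Real.exp (c * (9 * C₀) * Fw 0 (dd i j) ^ C₀)) := by
    intro i j
    split_ifs
    · exact le_rfl
    · exact (Real.exp_pos _).le
  have h4 : ∑ i ∈ J, ∑ j ∈ J, (if i = j then 0 else Real.exp (c * (9 * C₀) * Fw 0 (dd i j) ^ C₀)) ≤
      16 * K * (J.card : ℝ) ^ 2 := by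
    have h5 : ∑ i ∈ J, ∑ j ∈ J, (if i = j then 0 else Real.exp (c * (9 * C₀) * Fw 0 (dd i j) ^ C₀)) ≤
        ∑ i ∈ PN N, ∑ j ∈ PN N, (if i = j then 0 else Real.exp (c * (9 * C₀) * Fw 0 (dd i j) ^ C₀)) := by
      refine (sum_le_sum fun i _ => sum_le_sum_of_subset_of_nonneg hJP fun j _ _ => hnn i j).trans ?_
      exact sum_le_sum_of_subset_of_nonneg hJP fun i _ _ => sum_nonneg fun j _ => hnn i j
    refine (h5.trans (hK N (le_trans (le_max_left _ _) hN))).trans ?_
    have h6 : (N : ℝ) / Real.log N ≤ 4 * J.card := by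
      have e : (N : ℝ) / Real.log N = 4 * (N / (4 * Real.log N)) := by
        have : 0 < Real.log N := by linarith
        field_simp
      linarith
    have h7 : 0 ≤ (N : ℝ) / Real.log N := by
      have : 0 < Real.log N := by linarith
      positivity
    have h8 : ((N : ℝ) / Real.log N) ^ 2 ≤ 16 * (J.card : ℝ) ^ 2 := by nlinarith
    nlinarith
  rw [← hL]
  refine ⟨nonempty_Icc.2 hM1n, fun j _ => filter_subset _ _, ?_, ?_⟩
  · intro j hj
    have h1 := hJ hj
    unfold GoodW at h1
    have h2 := (mem_filter.1 h1).2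
    unfold RegW at h2
    rw [hcard, hL]
    exact h2 b
  · refine ⟨fun i j => 9 * C₀ * Fw 0 (dd i j) ^ C₀, fun i j => by have := one_le_Fw 0 (dd i j); positivity, ?_, ?_⟩
    · intro i hi j hj hij
      have key : ∀ x y : ℕ, x < y → ((wA x M b ∩ wA y M b).card : ℝ) / (Icc 1 M).card ≤
          9 * C₀ * Fw 0 (y - x) ^ C₀ / L ^ 2 := by
        intro x y hxy
        have h12 : ∃ s : ℤ, (s = 1 ∨ s = -1) ∧ wA x M b ∩ wA y M b ⊆ ((Icc 1 M).filter fun w : ℕ =>
            ((x : ℤ) + s * w).toNat.Prime ∧ ((y : ℤ) + s * w).toNat.Prime) := by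
          cases b
          · refine ⟨-1, Or.inr rfl, fun w hw => ?_⟩
            rw [mem_inter] at hw
            unfold wA at hw
            rw [mem_filter, mem_filter] at hw
            simp only [Bool.false_eq_true, if_false] at hw
            rw [mem_filter]
            have e1 : ((x : ℤ) + -1 * w).toNat = x - w := by omega
            have e2 : ((y : ℤ) + -1 * w).toNat = y - w := by omega
            rw [e1, e2]
            exact ⟨hw.1.1, hw.1.2, hw.2.2⟩
          · refine ⟨1, Or.inl rfl, fun w hw => ?_⟩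
            rw [mem_inter] at hw
            unfold wA at hw
            rw [mem_filter, mem_filter] at hw
            simp only [if_true] at hw
            rw [mem_filter]
            have e1 : ((x : ℤ) + 1 * w).toNat = x + w := by omega
            have e2 : ((y : ℤ) + 1 * w).toNat = y + w := by omega
            rw [e1, e2]
            exact ⟨hw.1.1, hw.1.2, hw.2.2⟩
        obtain ⟨s, hs, hsub⟩ := h12
        have h1 := hsv M hMY s hs x y hxy
        have h2 : ((wA x M b ∩ wA y M b).card : ℝ) ≤ ((Icc 1 M).filter fun w : ℕ =>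
            ((x : ℤ) + s * w).toNat.Prime ∧ ((y : ℤ) + s * w).toNat.Prime).card := Nat.cast_le.2 (card_le_card hsub)
        rw [hcard, div_le_iff₀ hM0]
        refine (h2.trans h1).trans ?_
        have h3 : (M : ℝ) / Real.log M ^ 2 ≤ 9 / L ^ 2 * M := by
          rw [div_mul_eq_mul_div, div_le_div_iff₀ (by have : 0 < Real.log M := by linarith
                                                      positivity) (by positivity)]
          have h4 : L ^ 2 ≤ 9 * Real.log M ^ 2 := by nlinarith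
          nlinarith
        have h5 := one_le_Fw 0 (y - x)
        calc C₀ * Fw 0 (y - x) ^ C₀ * (M / Real.log M ^ 2) ≤ C₀ * Fw 0 (y - x) ^ C₀ * (9 / L ^ 2 * M) :=
              mul_le_mul_of_nonneg_left h3 (by positivity)
          _ = _ := by ring
      show ((wA i M b ∩ wA j M b).card : ℝ) / (Icc 1 M).card ≤ 9 * C₀ * Fw 0 (dd i j) ^ C₀ / L ^ 2
      rcases lt_or_gt_of_ne hij with h | h
      · have e : dd i j = j - i := by unfold dd; omega
        rw [e]
        exact key i j h
      · have e : dd i j = i - j := by unfold dd; omega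
        rw [e, inter_comm]
        exact key j i h
    · have h5 : ∀ i j : ℕ, (if i = j then 0 else Real.exp (c * (1 + 9 * C₀ * Fw 0 (dd i j) ^ C₀))) =
          Real.exp c * (if i = j then 0 else Real.exp (c * (9 * C₀) * Fw 0 (dd i j) ^ C₀)) := by
        intro i j
        split_ifs
        · rw [mul_zero]
        · rw [← Real.exp_add]
          congr 1
          ring
      simp only [h5, ← mul_sum]
      calc Real.exp c * ∑ i ∈ J, ∑ j ∈ J, (if i = j then 0 else Real.exp (c * (9 * C₀) * Fw 0 (dd i j) ^ C₀))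
          ≤ Real.exp c * (16 * K * (J.card : ℝ) ^ 2) := mul_le_mul_of_nonneg_left h4 (Real.exp_pos c).le
        _ = _ := by ring

open Classical in
/-- the regular primes of `(N, 2 N]` -/
noncomputable def GP (N M : ℕ) : Finset ℕ := (Ioc N (2 * N)).filter fun p => p.Prime ∧ RegW N M p

/-- **the limit shape on both sides of the primes** -/
theorem main_prw (lam ε : ℝ) (hlam : 0 < lam) (hε : 0 < ε) : ∃ (C : ℕ) (K : ℝ), 0 < K ∧ ∃ N₀ : ℕ, ∀ N : ℕ, N₀ ≤ N →
    ∀ M : ℕ, (N : ℝ) ^ (1 / 3 : ℝ) * Real.log N ^ C ≤ M → 2 * M ≤ N → ∀ m : ℕ, |(m : ℝ) - lam * Real.log N ^ 2| ≤ 1 →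
    ∀ (P : (Fin m → ℕ) × (Fin m → ℕ) → Prop) [DecidablePred P],
    (∀ p, P p → ¬ Shape (GP N M) (fun p => wA p M false) (fun p => wA p M true) (lam * Real.log N) (Reg2 1 lam) ε p) →
    (((Smp (Icc 1 M) m ×ˢ Smp (Icc 1 M) m).filter P).card : ℝ) ≤
      K / Real.log N * ((Smp (Icc 1 M) m ×ˢ Smp (Icc 1 M) m).card : ℝ) := by
  classical
  obtain ⟨c, η, hc, hη, h1⟩ := shape 1 lam ε 20 one_pos hlam hε (by norm_num)
  obtain ⟨K₂, hK2, N₁, h2⟩ := sys_prw c hc
  obtain ⟨K, hK, h3⟩ := h1 K₂ hK2
  obtain ⟨C, N₄, h7⟩ := goodw_card 2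
  obtain ⟨N₅, h8⟩ := PN_card
  refine ⟨C, K, hK, ?_⟩
  have h4 : ∀ᶠ N : ℕ in atTop, _ := (Real.tendsto_log_atTop.comp (tendsto_natCast_atTop_atTop (R := ℝ))).eventually h3
  obtain ⟨N₂, h4⟩ := eventually_atTop.1 (h4.and ((ev_log_ge 4).and (ev_log_ge (8 / η ^ 2))))
  refine ⟨max N₁ (max N₂ (max N₄ (max N₅ 1))), fun N hN M hM1 hM2 m hm P _ hP => ?_⟩
  have hN' := le_trans (le_trans (le_max_right _ _) (le_max_right _ _)) hN
  have hN1 : 1 ≤ N := le_trans (le_trans (le_max_right _ _) (le_max_right _ _)) hN'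
  have hN1r : (1 : ℝ) ≤ N := by exact_mod_cast hN1
  have hNr : (0 : ℝ) < N := by linarith
  obtain ⟨h5, l1, l2⟩ := h4 N (le_trans (le_trans (le_max_left _ _) (le_max_right _ _)) hN)
  have g1 := h7 N (le_trans (le_max_left _ _) hN') M hM1 hM2
  have g2 := h8 N (le_trans (le_trans (le_max_left _ _) (le_max_right _ _)) hN')
  rw [div_le_iff₀ (by positivity)] at l2
  have hL0 : 0 < Real.log N := by linarith
  have hle : (N : ℝ) ^ (1 / 3 : ℝ) ≤ M := by
    refine le_trans ?_ hM1
    exact le_mul_of_one_le_right (by positivity) (one_le_pow₀ (by linarith))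
  have hGG : GP N M ⊆ GoodW N M := by
    intro p hp
    unfold GP at hp
    unfold GoodW
    rw [mem_filter] at hp ⊢
    exact ⟨hp.1, hp.2.2⟩
  have hGP : GP N M ⊆ PN N := by
    intro p hp
    unfold GP at hp
    unfold PN
    rw [mem_filter] at hp ⊢
    exact ⟨hp.1, hp.2.1⟩
  have hc1 : (N : ℝ) / (4 * Real.log N) ≤ (GP N M).card := by
    have h9 : PN N ⊆ GP N M ∪ (Ioc N (2 * N) \ GoodW N M) := by
      intro p hp
      unfold PN at hp
      rw [mem_filter] at hp
      rw [mem_union, Finset.mem_sdiff]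
      by_cases h : p ∈ GoodW N M
      · left
        unfold GoodW at h
        unfold GP
        rw [mem_filter] at h ⊢
        exact ⟨hp.1, hp.2, h.2⟩
      · exact Or.inr ⟨hp.1, h⟩
    have h10 : ((PN N).card : ℝ) ≤ (GP N M).card + (Ioc N (2 * N) \ GoodW N M).card := by
      exact_mod_cast (card_le_card h9).trans (card_union_le _ _)
    obtain ⟨t, ht⟩ : ∃ t, t = (N : ℝ) / Real.log N := ⟨_, rfl⟩
    have e1 : (N : ℝ) / (2 * Real.log N) = t / 2 := by rw [ht]; field_simp
    have e2 : (N : ℝ) / (4 * Real.log N) = t / 4 := by rw [ht]; field_simp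
    have e3 : (N : ℝ) / Real.log N ^ 2 ≤ t / 4 := by
      rw [ht, div_div, div_le_div_iff₀ (by positivity) (by positivity)]
      nlinarith [mul_nonneg hL0.le (by linarith : 0 ≤ Real.log N - 4)]
    rw [e1] at g2
    rw [e2]
    linarith
  have hS := h2 N (le_trans (le_max_left _ _) hN) M hle (GP N M) hGG hGP hc1
  have h6 := h5 m (by
      show |(m : ℝ) - lam * Real.log N ^ 2| ≤ Real.log N
      linarith) (Icc 1 M) (GP N M) (fun p => wA p M false) (fun p => wA p M true) (hS false) (hS true) (by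
    show Real.exp ((1 - η) * Real.log N) ≤ (GP N M).card
    have e : (1 - η) * Real.log N = Real.log N - η * Real.log N := by ring
    rw [e, Real.exp_sub, Real.exp_log hNr]
    refine le_trans ?_ hc1
    refine div_le_div_of_nonneg_left hNr.le (by positivity) ?_
    have h7 : (η * Real.log N) ^ 2 / 2 ≤ Real.exp (η * Real.log N) := by
      have h8 := Real.quadratic_le_exp_of_nonneg (show 0 ≤ η * Real.log N by positivity)
      have : 0 ≤ η * Real.log N := by positivity
      linarith
    refine le_trans ?_ h7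
    have h8 : (η * Real.log N) ^ 2 / 2 = (Real.log N * η ^ 2) * Real.log N / 2 := by ring
    rw [h8]
    have := mul_le_mul_of_nonneg_right l2 hL0.le
    linarith) (by
    show ((GP N M).card : ℝ) ≤ Real.exp (1 * Real.log N + 1)
    rw [one_mul, Real.exp_add, Real.exp_log hNr]
    have h7 : ((GP N M).card : ℝ) ≤ N := by
      have h6 : GP N M ⊆ Ioc N (2 * N) := filter_subset _ _
      have := card_le_card h6
      rw [Nat.card_Ioc] at this
      exact_mod_cast (by omega : (GP N M).card ≤ N)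
    have h8 := Real.exp_one_gt_d9
    nlinarith) P hP
  exact h6

end Pool.Agent.Run7.h880.RP
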