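import Mathlib
import Pool.Agent.Run7.h880.RP.SqM

/-! Random samples on two sides: the waiting times. -/

set_option autoImplicit false

namespace Pool.Agent.Run7.h880.RP

open Finset Filter
open Pool.Agent.N384.MQ (ev_log_pow ev_log_ge)
open Pool.Agent.Run7.h880.MK (Smp Smp_mem Smp_card hits hits_eq nohit)

/-- the first `i` members of the sample are not in `A` -/
def Fail {ι : Type} (A : Finset ι) {m : ℕ} (i : ℕ) (w : Fin m → ι) : Prop := ∀ l : Fin m, l.1 < i → w l ∉ A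

lemma fail_card {ι : Type} [DecidableEq ι] (Ω A : Finset ι) (hA : A ⊆ Ω) (m i : ℕ) (hi : i ≤ m) (hΩ : Ω.Nonempty)
    [DecidablePred (Fail A (m := m) i)] :
    (((Smp Ω m).filter (Fail A i)).card : ℝ) = (Ω.card : ℝ) ^ m * (1 - (A.card : ℝ) / Ω.card) ^ i := by
  classical
  have hq0 : (0 : ℝ) < Ω.card := by exact_mod_cast card_pos.2 hΩ
  have h1 : (Smp Ω m).filter (Fail A i) = Fintype.piFinset fun l : Fin m => if l.1 < i then Ω \ A else Ω := by
    ext w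
    rw [mem_filter, Smp_mem, Fintype.mem_piFinset]
    unfold Fail
    constructor
    · rintro ⟨h1, h2⟩ l
      split_ifs with h
      · exact Finset.mem_sdiff.2 ⟨h1 l, h2 l h⟩
      · exact h1 l
    · intro h
      refine ⟨fun l => ?_, fun l hl => ?_⟩
      · have := h l
        split_ifs at this with h'
        · exact (Finset.mem_sdiff.1 this).1
        · exact this
      · have := h l
        rw [if_pos hl] at this
        exact (Finset.mem_sdiff.1 this).2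
  rw [h1, Fintype.card_piFinset]
  have h2 : ∀ l : Fin m, (if l.1 < i then Ω \ A else Ω).card = if l.1 < i then (Ω \ A).card else Ω.card := by
    intro l
    split_ifs <;> rfl
  simp only [h2]
  rw [prod_ite, prod_const, prod_const]
  have h3 : (univ.filter fun l : Fin m => l.1 < i).card = i := by
    have : (univ.filter fun l : Fin m => l.1 < i) = (univ : Finset (Fin i)).image (Fin.castLE hi) := by
      ext l
      rw [mem_filter, mem_image]
      constructor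
      · rintro ⟨_, h⟩
        exact ⟨⟨l.1, h⟩, mem_univ _, by ext; rfl⟩
      · rintro ⟨k, _, rfl⟩
        exact ⟨mem_univ _, k.2⟩
    rw [this, card_image_of_injective _ (Fin.castLE_injective hi), card_univ, Fintype.card_fin]
  have h4 : (univ.filter fun l : Fin m => ¬ l.1 < i).card = m - i := by
    have := card_filter_add_card_filter_not (s := (univ : Finset (Fin m))) (p := fun l => l.1 < i)
    rw [h3, card_univ, Fintype.card_fin] at this
    omega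
  rw [h3, h4]
  have h5 : ((Ω \ A).card : ℝ) = Ω.card * (1 - (A.card : ℝ) / Ω.card) := by
    rw [card_sdiff_of_subset hA, Nat.cast_sub (card_le_card hA)]
    field_simp
  push_cast
  rw [h5, mul_pow]
  have h6 : (Ω.card : ℝ) ^ m = (Ω.card : ℝ) ^ i * (Ω.card : ℝ) ^ (m - i) := by rw [← pow_add]; congr 1; omega
  rw [h6]
  ring

lemma one_sub_pow_ge {a : ℝ} (h0 : 0 ≤ a) (h1 : a ≤ 1 / 2) (i : ℕ) : Real.exp (-(i * (a + 2 * a ^ 2))) ≤ (1 - a) ^ i := by
  have h2 : Real.exp (-(a + 2 * a ^ 2)) ≤ 1 - a := by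
    have h3 : 0 < 1 - a := by linarith
    rw [← Real.le_log_iff_exp_le h3]
    have h4 := Real.one_sub_inv_le_log_of_pos h3
    refine le_trans ?_ h4
    have e : 1 - (1 - a)⁻¹ = -(a / (1 - a)) := by field_simp; ring
    rw [e, neg_le_neg_iff, div_le_iff₀ h3]
    nlinarith [mul_nonneg (mul_nonneg h0 h0) (by linarith : 0 ≤ 1 - 2 * a)]
  calc Real.exp (-(i * (a + 2 * a ^ 2))) = Real.exp (-(a + 2 * a ^ 2)) ^ i := by rw [← Real.exp_nat_mul]; congr 1; ring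
    _ ≤ (1 - a) ^ i := pow_le_pow_left₀ (Real.exp_pos _).le h2 i

lemma one_sub_pow_le {a : ℝ} (h1 : a ≤ 1) (i : ℕ) : (1 - a) ^ i ≤ Real.exp (-(i * a)) := by
  have h2 : 1 - a ≤ Real.exp (-a) := by
    have := Real.add_one_le_exp (-a)
    linarith
  calc (1 - a) ^ i ≤ Real.exp (-a) ^ i := pow_le_pow_left₀ (by linarith) h2 i
    _ = _ := by rw [← Real.exp_nat_mul]; congr 1; ring

/-- the failures of one index and of two indices -/
theorem fail_all {ι κ : Type} [DecidableEq ι] [DecidableEq κ] {Ω : Finset ι} {J : Finset κ} {A : κ → Finset ι}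
    {L K₀ c K₂ σ : ℝ} (hS : Sys Ω J A L K₀ c K₂) (hL : 4 ≤ L) (hK0 : 0 ≤ K₀) (hLK : 2 * K₀ ≤ L) (hσ : 0 ≤ σ)
    {m i : ℕ} (hi : i ≤ m) (hiσ : (i : ℝ) ≤ σ * L ^ 2) {c₁ : ℝ} (hc₁ : c₁ = σ * (K₀ + 5)) (hc : 4 * c₁ ≤ c)
    [∀ j, DecidablePred (Fail (A j) (m := m) i)] :
    (∀ j ∈ J, (Ω.card : ℝ) ^ m * (Real.exp (-(i / L)) * Real.exp (-c₁)) ≤ ((Smp Ω m).filter (Fail (A j) i)).card) ∧
    (∀ j ∈ J, (((Smp Ω m).filter (Fail (A j) i)).card : ℝ) ≤ (Ω.card : ℝ) ^ m * (Real.exp (-(i / L)) * Real.exp c₁)) ∧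
    ∃ ρ : κ → κ → ℝ, (∀ i j, 0 ≤ ρ i j) ∧
      ∑ i ∈ J, ∑ j ∈ J, (if i = j then 0 else Real.exp (4 * c₁ * (1 + ρ i j))) ≤ K₂ * (J.card : ℝ) ^ 2 ∧
      ∀ x ∈ J, ∀ y ∈ J, x ≠ y → (((Smp Ω m).filter fun w => Fail (A x) i w ∧ Fail (A y) i w).card : ℝ) ≤
        (Ω.card : ℝ) ^ m * (Real.exp (-(i / L)) ^ 2 * Real.exp (2 * c₁ * (1 + ρ x y))) := by
  classical
  have hL0 : 0 < L := by linarith
  have hq0 : (0 : ℝ) < Ω.card := by exact_mod_cast card_pos.2 hS.ne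
  have hQ0 : 0 < (Ω.card : ℝ) ^ m := pow_pos hq0 m
  have hi0 : (0 : ℝ) ≤ i := Nat.cast_nonneg i
  have hc0 : 0 ≤ c₁ := by rw [hc₁]; positivity
  have hdens : ∀ j ∈ J, ∃ a : ℝ, a = (A j).card / Ω.card ∧ 0 ≤ a ∧ a ≤ 1 / 2 ∧ |a - 1 / L| ≤ K₀ / L ^ 2 ∧
      i * (a + 2 * a ^ 2) ≤ i / L + c₁ ∧ i / L - σ * K₀ ≤ i * a := by
    intro j hj
    obtain ⟨a, ha⟩ : ∃ a : ℝ, a = (A j).card / Ω.card := ⟨_, rfl⟩
    have h1 := hS.dens j hj
    rw [← ha] at h1
    have h2 := (a_half (K := 1) hL hK0 le_rfl hLK (hS.dens j hj)).2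
    rw [← ha] at h2
    have ha0 : 0 ≤ a := by rw [ha]; exact div_nonneg (Nat.cast_nonneg _) hq0.le
    have h1' := abs_le.1 h1
    have h3 : a ≤ 1 / 2 := by
      refine h2.trans ?_
      rw [div_le_div_iff₀ (by positivity) (by norm_num)]
      linarith
    have hiL : (i : ℝ) / L ^ 2 ≤ σ := by rw [div_le_iff₀ (by positivity)]; exact hiσ
    refine ⟨a, ha, ha0, h3, h1, ?_, ?_⟩
    · have h4 : a + 2 * a ^ 2 ≤ 1 / L + (K₀ + 5) / L ^ 2 := by
        have h5 : a ^ 2 ≤ (3 / (2 * L)) ^ 2 := pow_le_pow_left₀ ha0 h2 2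
        have e : (3 / (2 * L)) ^ 2 = (9 / 4) / L ^ 2 := by field_simp; norm_num
        rw [e] at h5
        have e2 : (K₀ + 5) / L ^ 2 = K₀ / L ^ 2 + 5 / L ^ 2 := by ring
        have e3 : 2 * ((9 / 4) / L ^ 2) ≤ 5 / L ^ 2 := by
          rw [← mul_div_assoc]
          exact div_le_div_of_nonneg_right (by norm_num) (by positivity)
        linarith
      calc (i : ℝ) * (a + 2 * a ^ 2) ≤ i * (1 / L + (K₀ + 5) / L ^ 2) := mul_le_mul_of_nonneg_left h4 hi0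
        _ = i / L + (i / L ^ 2) * (K₀ + 5) := by ring
        _ ≤ i / L + c₁ := by
            rw [hc₁]
            have := mul_le_mul_of_nonneg_right hiL (by linarith : 0 ≤ K₀ + 5)
            linarith
    · have h4 : 1 / L - K₀ / L ^ 2 ≤ a := by linarith
      have h5 := mul_le_mul_of_nonneg_left h4 hi0
      have h6 := mul_le_mul_of_nonneg_right hiL hK0
      have e : (i : ℝ) * (1 / L - K₀ / L ^ 2) = i / L - (i / L ^ 2) * K₀ := by ring
      linarith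
  have hσc : σ * K₀ ≤ c₁ := by rw [hc₁]; nlinarith
  have hσc1 : σ ≤ c₁ := by rw [hc₁]; nlinarith
  refine ⟨?_, ?_, ?_⟩
  · intro j hj
    obtain ⟨a, ha, ha0, ha1, ha2, ha3, ha4⟩ := hdens j hj
    rw [fail_card Ω (A j) (hS.sub j hj) m i hi hS.ne, ← ha]
    refine mul_le_mul_of_nonneg_left ?_ hQ0.le
    refine le_trans ?_ (one_sub_pow_ge ha0 ha1 i)
    rw [← Real.exp_add]
    exact Real.exp_le_exp.2 (by linarith)
  · intro j hj
    obtain ⟨a, ha, ha0, ha1, ha2, ha3, ha4⟩ := hdens j hj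
    rw [fail_card Ω (A j) (hS.sub j hj) m i hi hS.ne, ← ha]
    refine mul_le_mul_of_nonneg_left ?_ hQ0.le
    refine (one_sub_pow_le (by linarith) i).trans ?_
    rw [← Real.exp_add]
    exact Real.exp_le_exp.2 (by linarith)
  · obtain ⟨ρ, hρ0, hρ, hρs⟩ := hS.two
    refine ⟨ρ, hρ0, le_trans ?_ hρs, ?_⟩
    · refine sum_le_sum fun x _ => sum_le_sum fun y _ => ?_
      split_ifs
      · exact le_rfl
      · refine Real.exp_le_exp.2 (mul_le_mul_of_nonneg_right hc ?_)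
        linarith [hρ0 x y]
    · intro x hx y hy hxy
      obtain ⟨a, ha, ha0, ha1, ha2, ha3, ha4⟩ := hdens x hx
      obtain ⟨b, hb, hb0, hb1, hb2, hb3, hb4⟩ := hdens y hy
      have e : (Smp Ω m).filter (fun w => Fail (A x) i w ∧ Fail (A y) i w) = (Smp Ω m).filter (Fail (A x ∪ A y) i) := by
        refine filter_congr fun w _ => ?_
        unfold Fail
        constructor
        · rintro ⟨h1, h2⟩ l hl
          rw [mem_union, not_or]
          exact ⟨h1 l hl, h2 l hl⟩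
        · intro h
          exact ⟨fun l hl => (not_or.1 (mem_union.not.1 (h l hl))).1, fun l hl => (not_or.1 (mem_union.not.1 (h l hl))).2⟩
      rw [e, fail_card Ω (A x ∪ A y) (union_subset (hS.sub x hx) (hS.sub y hy)) m i hi hS.ne]
      refine mul_le_mul_of_nonneg_left ?_ hQ0.le
      have h1 : ((A x ∪ A y).card : ℝ) / Ω.card = a + b - ((A x ∩ A y).card : ℝ) / Ω.card := by
        have := card_union_add_card_inter (A x) (A y)
        have h2 : ((A x ∪ A y).card : ℝ) + (A x ∩ A y).card = (A x).card + (A y).card := by exact_mod_cast this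
        rw [ha, hb, ← add_div, ← sub_div]
        congr 1
        linarith
      have h2 := hρ x hx y hy hxy
      have h3 : ((A x ∪ A y).card : ℝ) / Ω.card ≤ 1 := by
        rw [div_le_one hq0]
        exact_mod_cast card_le_card (union_subset (hS.sub x hx) (hS.sub y hy))
      refine (one_sub_pow_le h3 i).trans ?_
      rw [← Real.exp_nat_mul, ← Real.exp_add]
      refine Real.exp_le_exp.2 ?_
      rw [h1]
      have h4 : (i : ℝ) * (((A x ∩ A y).card : ℝ) / Ω.card) ≤ σ * ρ x y := by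
        calc (i : ℝ) * (((A x ∩ A y).card : ℝ) / Ω.card) ≤ i * (ρ x y / L ^ 2) := mul_le_mul_of_nonneg_left h2 hi0
          _ = (i / L ^ 2) * ρ x y := by ring
          _ ≤ σ * ρ x y := by
              refine mul_le_mul_of_nonneg_right ?_ (hρ0 x y)
              rw [div_le_iff₀ (by positivity)]
              exact hiσ
      have h5 : σ * ρ x y ≤ c₁ * ρ x y := mul_le_mul_of_nonneg_right hσc1 (hρ0 x y)
      have h6 := mul_nonneg hc0 (hρ0 x y)
      push_cast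
      nlinarith

/-- **long failures on both sides** -/
theorem wait_lo (γ σ K₀ : ℝ) (hσ : 0 ≤ σ) (hγ : σ < γ) (hK0 : 0 ≤ K₀) : ∃ c : ℝ, 0 ≤ c ∧ ∀ K₂ : ℝ, 0 ≤ K₂ →
    ∃ c₀ : ℝ, 0 < c₀ ∧ ∀ᶠ L : ℝ in atTop, ∀ (m i j : ℕ), i ≤ m → j ≤ m → (i : ℝ) + j ≤ σ * L ^ 2 →
    ∀ {ι κ : Type} [DecidableEq ι] [DecidableEq κ] (Ω : Finset ι) (J : Finset κ) (A B : κ → Finset ι),
    Sys Ω J A L K₀ c K₂ → Sys Ω J B L K₀ c K₂ → Real.exp (γ * L - 1) ≤ J.card →
    ∀ (P : (Fin m → ι) × (Fin m → ι) → Prop) [DecidablePred P],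
    (∀ p, (∃ x ∈ J, Fail (A x) i p.1 ∧ Fail (B x) j p.2) → P p) →
    c₀ * ((Smp Ω m ×ˢ Smp Ω m).card : ℝ) ≤ (((Smp Ω m ×ˢ Smp Ω m).filter P).card : ℝ) := by
  classical
  obtain ⟨c₁, hc₁⟩ : ∃ c₁, c₁ = σ * (K₀ + 5) := ⟨_, rfl⟩
  have hc10 : 0 ≤ c₁ := by rw [hc₁]; positivity
  refine ⟨4 * c₁, by positivity, fun K₂ hK2 => ?_⟩
  refine ⟨Real.exp (-(2 * (2 * c₁))) / (Real.exp (2 * c₁) + 2 * K₂), by positivity, ?_⟩
  filter_upwards [eventually_ge_atTop 4, eventually_ge_atTop (2 * K₀), eventually_ge_atTop (1 / (γ - σ))]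
    with L l4 lK l3 m i j hi hj hij ι κ _ _ Ω J A B hSA hSB hJ P _ hP
  have hL0 : 0 < L := by linarith
  rw [div_le_iff₀ (by linarith)] at l3
  have hi0 : (0 : ℝ) ≤ i := Nat.cast_nonneg i
  have hj0 : (0 : ℝ) ≤ j := Nat.cast_nonneg j
  obtain ⟨e1, e2, ρ, hρ0, hρs, hρ⟩ := fail_all hSA l4 hK0 lK hσ hi (by linarith) hc₁ le_rfl
  obtain ⟨f1, f2, ρ', hρ0', hρs', hρ'⟩ := fail_all hSB l4 hK0 lK hσ hj (by linarith) hc₁ le_rfl
  have hQ : ((Smp Ω m ×ˢ Smp Ω m).card : ℝ) = (Ω.card : ℝ) ^ m * (Ω.card : ℝ) ^ m := by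
    rw [card_product, Smp_card]
    push_cast
    rfl
  have hne : (Smp Ω m ×ˢ Smp Ω m).Nonempty := by
    obtain ⟨o, ho⟩ := hSA.ne
    exact ⟨(fun _ => o, fun _ => o), mem_product.2 ⟨Smp_mem.2 fun _ => ho, Smp_mem.2 fun _ => ho⟩⟩
  have hq0 : (0 : ℝ) < Ω.card := by exact_mod_cast card_pos.2 hSA.ne
  have hQ0 : 0 < (Ω.card : ℝ) ^ m := pow_pos hq0 m
  obtain ⟨Q, hQe⟩ : ∃ Q : ℝ, Q = (Ω.card : ℝ) ^ m := ⟨_, rfl⟩
  rw [← hQe] at hQ e1 e2 hρ f1 f2 hρ' hQ0
  obtain ⟨PA, hPA⟩ : ∃ PA, PA = Real.exp (-((i : ℝ) / L)) := ⟨_, rfl⟩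
  obtain ⟨PB, hPB⟩ : ∃ PB, PB = Real.exp (-((j : ℝ) / L)) := ⟨_, rfl⟩
  have hPA0 : 0 < PA := by rw [hPA]; exact Real.exp_pos _
  have hPB0 : 0 < PB := by rw [hPB]; exact Real.exp_pos _
  rw [← hPA] at e1 e2 hρ
  rw [← hPB] at f1 f2 hρ'
  have hfil : ∀ x, (Smp Ω m ×ˢ Smp Ω m).filter (fun p => Fail (A x) i p.1 ∧ Fail (B x) j p.2) =
      (Smp Ω m).filter (Fail (A x) i) ×ˢ (Smp Ω m).filter (Fail (B x) j) := fun x =>
    filter_product (fun w => Fail (A x) i w) (fun w => Fail (B x) j w)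
  have hfil2 : ∀ x y, (Smp Ω m ×ˢ Smp Ω m).filter (fun p => (Fail (A x) i p.1 ∧ Fail (B x) j p.2) ∧
      (Fail (A y) i p.1 ∧ Fail (B y) j p.2)) =
      (Smp Ω m).filter (fun w => Fail (A x) i w ∧ Fail (A y) i w) ×ˢ
      (Smp Ω m).filter (fun w => Fail (B x) j w ∧ Fail (B y) j w) := by
    intro x y
    ext p
    simp only [mem_filter, mem_product]
    tauto
  have hec : Real.exp (-(2 * c₁)) = Real.exp (-c₁) * Real.exp (-c₁) := by rw [← Real.exp_add]; congr 1; ring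
  have hec' : Real.exp (2 * c₁) = Real.exp c₁ * Real.exp c₁ := by rw [← Real.exp_add]; congr 1; ring
  have main := csz (Smp Ω m ×ˢ Smp Ω m) J (fun x p => Fail (A x) i p.1 ∧ Fail (B x) j p.2)
    (PA * PB) (2 * c₁) (2 * K₂) (fun x y => Real.exp (2 * c₁ * (1 + ρ x y)) * Real.exp (2 * c₁ * (1 + ρ' x y)))
    (by positivity) (by
      intro x hx
      rw [hQ, hfil, card_product, Nat.cast_mul, hec]
      calc Q * Q * (PA * PB * (Real.exp (-c₁) * Real.exp (-c₁))) =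
            (Q * (PA * Real.exp (-c₁))) * (Q * (PB * Real.exp (-c₁))) := by ring
        _ ≤ _ := mul_le_mul (e1 x hx) (f1 x hx) (by positivity) (Nat.cast_nonneg _)) (by
      intro x hx
      rw [hQ, hfil, card_product, Nat.cast_mul, hec']
      calc _ ≤ (Q * (PA * Real.exp c₁)) * (Q * (PB * Real.exp c₁)) :=
            mul_le_mul (e2 x hx) (f2 x hx) (Nat.cast_nonneg _) (by positivity)
        _ = _ := by ring) (by
      intro x hx y hy hxy
      rw [hQ, hfil2, card_product, Nat.cast_mul]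
      calc _ ≤ (Q * (PA ^ 2 * Real.exp (2 * c₁ * (1 + ρ x y)))) * (Q * (PB ^ 2 * Real.exp (2 * c₁ * (1 + ρ' x y)))) :=
            mul_le_mul (hρ x hx y hy hxy) (hρ' x hx y hy hxy) (Nat.cast_nonneg _) (by positivity)
        _ = _ := by ring) (by
      have h1 : ∀ x ∈ J, ∀ y ∈ J, (if x = y then 0 else Real.exp (2 * c₁ * (1 + ρ x y)) * Real.exp (2 * c₁ * (1 + ρ' x y))) ≤
          (if x = y then 0 else Real.exp (4 * c₁ * (1 + ρ x y))) + (if x = y then 0 else Real.exp (4 * c₁ * (1 + ρ' x y))) := by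
        intro x _ y _
        split_ifs
        · simp
        · obtain ⟨u, hu⟩ : ∃ u, u = Real.exp (2 * c₁ * (1 + ρ x y)) := ⟨_, rfl⟩
          obtain ⟨v, hv⟩ : ∃ v, v = Real.exp (2 * c₁ * (1 + ρ' x y)) := ⟨_, rfl⟩
          have e3 : Real.exp (4 * c₁ * (1 + ρ x y)) = u * u := by rw [hu, ← Real.exp_add]; congr 1; ring
          have e4 : Real.exp (4 * c₁ * (1 + ρ' x y)) = v * v := by rw [hv, ← Real.exp_add]; congr 1; ring
          rw [e3, e4, ← hu, ← hv]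
          nlinarith [sq_nonneg (u - v), sq_nonneg (u + v)]
      refine (sum_le_sum fun x hx => sum_le_sum fun y hy => h1 x hx y hy).trans ?_
      simp only [sum_add_distrib]
      linarith) (by positivity) (by
      have h1 : PA * PB = Real.exp (-(((i : ℝ) + j) / L)) := by
        rw [hPA, hPB, ← Real.exp_add]
        congr 1
        ring
      rw [h1]
      have h2 : ((i : ℝ) + j) / L ≤ σ * L := by
        rw [div_le_iff₀ hL0]
        linarith
      have h3 : Real.exp (((i : ℝ) + j) / L) ≤ J.card := by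
        refine le_trans (Real.exp_le_exp.2 ?_) hJ
        nlinarith
      have h4 := mul_le_mul_of_nonneg_right h3 (Real.exp_pos (-(((i : ℝ) + j) / L))).le
      rw [← Real.exp_add, add_neg_cancel, Real.exp_zero] at h4
      exact h4) hne
  have hfin : ((Smp Ω m ×ˢ Smp Ω m).filter fun p => ∃ x ∈ J, Fail (A x) i p.1 ∧ Fail (B x) j p.2).card ≤
      ((Smp Ω m ×ˢ Smp Ω m).filter P).card := by
    refine card_le_card fun p hp => ?_
    rw [mem_filter] at hp ⊢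
    exact ⟨hp.1, hP p hp.2⟩
  refine le_trans (le_of_eq ?_) (main.trans (Nat.cast_le.2 hfin))
  ring

/-- **no long failures on both sides** -/
theorem wait_up (γ ε K₀ : ℝ) (hγ : 0 < γ) (hε : 0 < ε) (hK0 : 0 ≤ K₀) :
    ∀ᶠ L : ℝ in atTop, ∀ (m S : ℕ), S ≤ m → (γ + ε) * L ^ 2 ≤ S + 1 → (S : ℝ) ≤ (γ + ε) * L ^ 2 →
    ∀ {ι κ : Type} [DecidableEq ι] [DecidableEq κ] (Ω : Finset ι) (J : Finset κ) (A B : κ → Finset ι) (c c' K₂ K₂' : ℝ),
    Sys Ω J A L K₀ c K₂ → Sys Ω J B L K₀ c' K₂' → (J.card : ℝ) ≤ Real.exp (γ * L + 1) →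
    ∀ (P : (Fin m → ι) × (Fin m → ι) → Prop) [DecidablePred P],
    (∀ p, P p → ∃ x ∈ J, ∃ i ≤ S, Fail (A x) i p.1 ∧ Fail (B x) (S - i) p.2) →
    (((Smp Ω m ×ˢ Smp Ω m).filter P).card : ℝ) ≤ 1 / L * ((Smp Ω m ×ˢ Smp Ω m).card : ℝ) := by
  classical
  obtain ⟨D, hD⟩ : ∃ D, D = Real.exp (2 + (γ + ε) * K₀) * (γ + ε + 1) := ⟨_, rfl⟩
  have hD0 : 0 < D := by rw [hD]; positivity
  have hexp3 : ∀ᶠ L : ℝ in atTop, D * L ^ 3 ≤ Real.exp (ε * L) := by
    have h1 := ((Real.isLittleO_pow_exp_atTop (n := 3)).bound (show (0 : ℝ) < ε ^ 3 / D by positivity))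
    have h2 : Tendsto (fun L : ℝ => ε * L) atTop atTop := tendsto_id.const_mul_atTop hε
    filter_upwards [h2.eventually h1, eventually_ge_atTop 0] with L h3 h4
    rw [Real.norm_of_nonneg (by positivity), Real.norm_of_nonneg (Real.exp_pos _).le, mul_pow, div_mul_eq_mul_div,
      le_div_iff₀ hD0] at h3
    have h5 : ε ^ 3 * (D * L ^ 3) ≤ ε ^ 3 * Real.exp (ε * L) := by linarith
    exact le_of_mul_le_mul_left h5 (by positivity)
  filter_upwards [hexp3, eventually_ge_atTop 1] with L l3 l1 m S hSm hS1 hS2 ι κ _ _ Ω J A B c c' K₂ K₂' hSA hSB hJ P _ hP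
  have hL0 : 0 < L := by linarith
  have hq0 : (0 : ℝ) < Ω.card := by exact_mod_cast card_pos.2 hSA.ne
  obtain ⟨Q, hQe⟩ : ∃ Q : ℝ, Q = (Ω.card : ℝ) ^ m := ⟨_, rfl⟩
  have hQ0 : 0 < Q := by rw [hQe]; exact pow_pos hq0 m
  have hQ : ((Smp Ω m ×ˢ Smp Ω m).card : ℝ) = Q * Q := by
    rw [card_product, Smp_card, hQe]
    push_cast
    rfl
  have hone : ∀ (A : κ → Finset ι) (c K₂ : ℝ), Sys Ω J A L K₀ c K₂ → ∀ x ∈ J, ∀ i : ℕ, i ≤ m →
      (((Smp Ω m).filter (Fail (A x) i)).card : ℝ) ≤ Q * Real.exp (-(i * (1 / L - K₀ / L ^ 2))) := by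
    intro A c K₂ hSA x hx i hi
    rw [fail_card Ω (A x) (hSA.sub x hx) m i hi hSA.ne, ← hQe]
    refine mul_le_mul_of_nonneg_left ?_ hQ0.le
    have h1 := (abs_le.1 (hSA.dens x hx)).1
    have h3 : ((A x).card : ℝ) / Ω.card ≤ 1 := by
      rw [div_le_one hq0]
      exact_mod_cast card_le_card (hSA.sub x hx)
    refine (one_sub_pow_le h3 i).trans (Real.exp_le_exp.2 ?_)
    have := mul_le_mul_of_nonneg_left (show 1 / L - K₀ / L ^ 2 ≤ ((A x).card : ℝ) / Ω.card by linarith)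
      (Nat.cast_nonneg (α := ℝ) i)
    linarith
  have hsub : (Smp Ω m ×ˢ Smp Ω m).filter P ⊆ J.biUnion fun x => (range (S + 1)).biUnion fun i =>
      (Smp Ω m).filter (Fail (A x) i) ×ˢ (Smp Ω m).filter (Fail (B x) (S - i)) := by
    intro p hp
    rw [mem_filter, mem_product] at hp
    obtain ⟨x, hx, i, hi, h1, h2⟩ := hP p hp.2
    refine mem_biUnion.2 ⟨x, hx, mem_biUnion.2 ⟨i, mem_range.2 (by omega), mem_product.2 ⟨mem_filter.2 ⟨hp.1.1, h1⟩,
      mem_filter.2 ⟨hp.1.2, h2⟩⟩⟩⟩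
  have hcard : (((Smp Ω m ×ˢ Smp Ω m).filter P).card : ℝ) ≤ ∑ x ∈ J, ∑ i ∈ range (S + 1),
      (((Smp Ω m).filter (Fail (A x) i) ×ˢ (Smp Ω m).filter (Fail (B x) (S - i))).card : ℝ) := by
    have h3 := (card_le_card hsub).trans ((card_biUnion_le (s := J)).trans (sum_le_sum fun j _ => card_biUnion_le))
    exact_mod_cast h3
  refine hcard.trans ?_
  have hterm : ∀ x ∈ J, ∀ i ∈ range (S + 1),
      (((Smp Ω m).filter (Fail (A x) i) ×ˢ (Smp Ω m).filter (Fail (B x) (S - i))).card : ℝ) ≤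
      Q * Q * Real.exp (-(S * (1 / L - K₀ / L ^ 2))) := by
    intro x hx i hi
    rw [mem_range] at hi
    have h1 := hone A c K₂ hSA x hx i (by omega)
    have h2 := hone B c' K₂' hSB x hx (S - i) (by omega)
    rw [card_product, Nat.cast_mul]
    refine (mul_le_mul h1 h2 (Nat.cast_nonneg _) (by positivity)).trans (le_of_eq ?_)
    have e : ((S - i : ℕ) : ℝ) = S - i := by rw [Nat.cast_sub (by omega)]
    rw [e]
    have e2 : Real.exp (-(S * (1 / L - K₀ / L ^ 2))) =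
        Real.exp (-(i * (1 / L - K₀ / L ^ 2))) * Real.exp (-((S - i) * (1 / L - K₀ / L ^ 2))) := by
      rw [← Real.exp_add]; congr 1; ring
    rw [e2]
    ring
  refine (sum_le_sum fun x hx => sum_le_sum fun i hi => hterm x hx i hi).trans ?_
  rw [sum_const, sum_const, card_range, nsmul_eq_mul, nsmul_eq_mul, hQ]
  have h1 : Real.exp (-(S * (1 / L - K₀ / L ^ 2))) ≤ Real.exp (-((γ + ε) * L) + 1 + (γ + ε) * K₀) := by
    refine Real.exp_le_exp.2 ?_
    have h2 : (S : ℝ) / L ^ 2 ≤ γ + ε := by rw [div_le_iff₀ (by positivity)]; exact hS2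
    have h3 : (γ + ε) * L - 1 ≤ S / L := by
      rw [le_div_iff₀ hL0]
      nlinarith
    have h4 := mul_le_mul_of_nonneg_right h2 hK0
    have e : (S : ℝ) * (1 / L - K₀ / L ^ 2) = S / L - S / L ^ 2 * K₀ := by ring
    rw [e]
    linarith
  have h2 : ((S + 1 : ℕ) : ℝ) ≤ (γ + ε + 1) * L ^ 2 := by
    push_cast
    nlinarith
  have h3 : (J.card : ℝ) * (((S + 1 : ℕ) : ℝ) * (Q * Q * Real.exp (-(S * (1 / L - K₀ / L ^ 2))))) ≤
      Real.exp (γ * L + 1) * ((γ + ε + 1) * L ^ 2 * (Q * Q * Real.exp (-((γ + ε) * L) + 1 + (γ + ε) * K₀))) := by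
    gcongr
  refine h3.trans ?_
  have e1 : Real.exp (γ * L + 1) * ((γ + ε + 1) * L ^ 2 * (Q * Q * Real.exp (-((γ + ε) * L) + 1 + (γ + ε) * K₀))) =
      (D * L ^ 3) * Real.exp (-(ε * L)) / L * (Q * Q) := by
    have e2 : Real.exp (γ * L + 1) * Real.exp (-((γ + ε) * L) + 1 + (γ + ε) * K₀) =
        Real.exp (2 + (γ + ε) * K₀) * Real.exp (-(ε * L)) := by
      rw [← Real.exp_add, ← Real.exp_add]; congr 1; ring
    calc _ = (Real.exp (γ * L + 1) * Real.exp (-((γ + ε) * L) + 1 + (γ + ε) * K₀)) * ((γ + ε + 1) * L ^ 2 * (Q * Q)) := by ring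
      _ = _ := by rw [e2, hD]; field_simp
  rw [e1]
  refine mul_le_mul_of_nonneg_right (div_le_div_of_nonneg_right ?_ hL0.le) (by positivity)
  calc D * L ^ 3 * Real.exp (-(ε * L)) ≤ Real.exp (ε * L) * Real.exp (-(ε * L)) :=
        mul_le_mul_of_nonneg_right l3 (Real.exp_pos _).le
    _ = 1 := by rw [← Real.exp_add, add_neg_cancel, Real.exp_zero]

end Pool.Agent.Run7.h880.RP
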