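import Mathlib
import Pool.Agent.Run7.h880.RP.Wait

/-! The fluctuations of the waiting times: a logarithmic functional and the inequality of Efron and Stein. -/

set_option autoImplicit false

namespace Pool.Agent.Run7.h880.RP

open Finset Filter
open Pool.Agent.Run7.h880.MK (Smp Smp_mem Smp_card hits hits_eq nohit)

/-- the truncated logarithm -/
noncomputable def psi (c : ℝ) (N : ℕ) : ℝ := min 1 (Real.log N / c)

lemma psi_nonneg {c : ℝ} (hc : 0 < c) (N : ℕ) : 0 ≤ psi c N :=
  le_min zero_le_one (div_nonneg (Real.log_natCast_nonneg N) hc.le)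

lemma psi_le_one (c : ℝ) (N : ℕ) : psi c N ≤ 1 := min_le_left _ _

lemma psi_mono {c : ℝ} (hc : 0 < c) {N N' : ℕ} (h : N ≤ N') : psi c N ≤ psi c N' := by
  unfold psi
  refine min_le_min le_rfl (div_le_div_of_nonneg_right ?_ hc.le)
  rcases Nat.eq_zero_or_pos N with h0 | h0
  · rw [h0, Nat.cast_zero, Real.log_zero]
    exact Real.log_natCast_nonneg N'
  · exact Real.log_le_log (by exact_mod_cast h0) (by exact_mod_cast h)

lemma psi_drop {c : ℝ} (hc : 0 < c) {N h N' : ℕ} (h1 : 2 * h ≤ N) (h2 : N - h ≤ N') :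
    psi c N - psi c N' ≤ 2 * ((h : ℝ) / N) / c := by
  have h3 := psi_mono hc h2
  rcases Nat.eq_zero_or_pos N with h0 | h0
  · have : psi c N = 0 := by unfold psi; rw [h0]; simp
    have := psi_nonneg hc N'
    have : 0 ≤ 2 * ((h : ℝ) / N) / c := by positivity
    linarith
  have hN : (0 : ℝ) < N := by exact_mod_cast h0
  have h4 : 0 < N - h := by omega
  have h5 : ((N - h : ℕ) : ℝ) = N - h := Nat.cast_sub (by omega)
  have h6 : (0 : ℝ) < (N : ℝ) - h := by rw [← h5]; exact_mod_cast h4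
  have h7 : 2 * (h : ℝ) ≤ N := by exact_mod_cast h1
  have h8 : Real.log N - Real.log ((N - h : ℕ) : ℝ) ≤ 2 * ((h : ℝ) / N) := by
    rw [h5, ← Real.log_div hN.ne' h6.ne']
    have h9 := Real.log_le_sub_one_of_pos (show (0 : ℝ) < N / (N - h) by positivity)
    refine h9.trans ?_
    rw [div_sub_one h6.ne', div_le_iff₀ h6]
    have e : 2 * ((h : ℝ) / N) * (N - h) = 2 * h - 2 * h * h / N := by field_simp
    rw [e]
    have h10 : 2 * (h : ℝ) * h / N ≤ h := by
      rw [div_le_iff₀ hN]
      nlinarith [Nat.cast_nonneg (α := ℝ) h]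
    linarith
  have h9 : psi c N - psi c (N - h) ≤ (Real.log N - Real.log ((N - h : ℕ) : ℝ)) / c := by
    unfold psi
    rcases le_total 1 (Real.log ((N - h : ℕ) : ℝ) / c) with h10 | h10
    · rw [min_eq_left h10]
      have : min 1 (Real.log N / c) ≤ 1 := min_le_left _ _
      have h11 : 0 ≤ (Real.log N - Real.log ((N - h : ℕ) : ℝ)) / c := by
        refine div_nonneg ?_ hc.le
        have : Real.log ((N - h : ℕ) : ℝ) ≤ Real.log N := Real.log_le_log (by exact_mod_cast h4) (by
          rw [h5]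
          linarith [Nat.cast_nonneg (α := ℝ) h])
        linarith
      linarith
    · rw [min_eq_right h10, sub_div]
      have : min 1 (Real.log N / c) ≤ Real.log N / c := min_le_right _ _
      linarith
  have h10 := div_le_div_of_nonneg_right h8 hc.le
  linarith

/-- the square of the drop -/
lemma drop_sq {c : ℝ} (hc : 0 < c) {N h N' : ℕ} (h2 : N - h ≤ N') :
    (max (psi c N - psi c N') 0) ^ 2 ≤ 4 * ((h : ℝ) / N) ^ 2 / c ^ 2 + (if N < 2 * h then psi c N ^ 2 else 0) := by
  have h0 : 0 ≤ 4 * ((h : ℝ) / N) ^ 2 / c ^ 2 := by positivity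
  split_ifs with h1
  · have h3 : max (psi c N - psi c N') 0 ≤ psi c N := by
      refine max_le ?_ (psi_nonneg hc N)
      have := psi_nonneg hc N'
      linarith
    have h4 := pow_le_pow_left₀ (le_max_right _ _) h3 2
    linarith
  · have h3 : max (psi c N - psi c N') 0 ≤ 2 * ((h : ℝ) / N) / c := by
      refine max_le (psi_drop hc (by omega) h2) (by positivity)
    have h4 := pow_le_pow_left₀ (le_max_right _ _) h3 2
    have e : (2 * ((h : ℝ) / N) / c) ^ 2 = 4 * ((h : ℝ) / N) ^ 2 / c ^ 2 := by ring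
    rw [e] at h4
    linarith

/-- the average of the squared drops over the new value `x` -/
lemma avg_drop {ι κ : Type} [DecidableEq ι] [DecidableEq κ] (Ω : Finset ι) (S : Finset κ) (A : κ → Finset ι)
    (hA : ∀ n ∈ S, A n ⊆ Ω) {c β τ T : ℝ} (hc : 0 < c) (hβ : ∀ n ∈ S, ((A n).card : ℝ) ≤ β * Ω.card) (hβ0 : 0 ≤ β)
    (hτ0 : 0 ≤ τ) (hT : 1 ≤ T)
    (hτ : ∀ x ∈ S, ∀ y ∈ S, ∀ z ∈ S, x ≠ y → y ≠ z → x ≠ z → ((A x ∩ (A y ∩ A z)).card : ℝ) ≤ τ * Ω.card) :
    ∑ x ∈ Ω, (4 * (((S.filter fun n => x ∈ A n).card : ℝ) / S.card) ^ 2 / c ^ 2 +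
      (if S.card < 2 * (S.filter fun n => x ∈ A n).card then psi c S.card ^ 2 else 0)) ≤
    Ω.card * (4 * β / c ^ 2 + 2 * β * Real.log T ^ 2 / c ^ 2 + 8 * (τ + 3 / T)) := by
  classical
  obtain ⟨q, hq⟩ : ∃ q : ℝ, q = Ω.card := ⟨_, rfl⟩
  have hq0 : 0 ≤ q := by rw [hq]; positivity
  obtain ⟨h, hh⟩ : ∃ h : ι → ℕ, h = fun x => (S.filter fun n => x ∈ A n).card := ⟨_, rfl⟩
  have hlogT : 0 ≤ Real.log T := Real.log_nonneg hT
  rcases S.eq_empty_or_nonempty with hS | hS
  · rw [hS]
    simp only [filter_empty, card_empty, Nat.cast_zero, div_zero]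
    have : 0 ≤ (Ω.card : ℝ) * (4 * β / c ^ 2 + 2 * β * Real.log T ^ 2 / c ^ 2 + 8 * (τ + 3 / T)) := by positivity
    simpa using this
  have hN : (0 : ℝ) < S.card := by exact_mod_cast card_pos.2 hS
  obtain ⟨N, hNe⟩ : ∃ N : ℝ, N = S.card := ⟨_, rfl⟩
  rw [← hNe] at hN
  have hhN : ∀ x, (h x : ℝ) ≤ N := by
    intro x
    rw [hh, hNe]
    exact_mod_cast card_filter_le _ _
  have hsum1 : ∑ x ∈ Ω, (h x : ℝ) / N ≤ β * q := by
    rw [← sum_div, div_le_iff₀ hN]
    have e : ∑ x ∈ Ω, (h x : ℝ) = ∑ n ∈ S, ((A n).card : ℝ) := by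
      have e1 : ∀ x, (h x : ℝ) = ∑ n ∈ S, (if x ∈ A n then (1 : ℝ) else 0) := by
        intro x
        rw [hh, sum_boole]
      simp only [e1]
      rw [sum_comm]
      refine sum_congr rfl fun n hn => ?_
      rw [sum_boole]
      congr 2
      ext x
      rw [mem_filter]
      exact ⟨fun h => h.2, fun h => ⟨hA n hn h, h⟩⟩
    rw [e]
    calc ∑ n ∈ S, ((A n).card : ℝ) ≤ ∑ n ∈ S, β * q := sum_le_sum fun n hn => by rw [hq]; exact hβ n hn
      _ = _ := by rw [sum_const, nsmul_eq_mul, hNe]; ring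
  have hsum2 : ∑ x ∈ Ω, ((h x : ℝ) / N) ^ 2 ≤ β * q := by
    refine le_trans (sum_le_sum fun x _ => ?_) hsum1
    have h1 : (h x : ℝ) / N ≤ 1 := by rw [div_le_one hN]; exact hhN x
    have h2 : 0 ≤ (h x : ℝ) / N := by positivity
    nlinarith
  have hind : ∑ x ∈ Ω, (if S.card < 2 * h x then psi c S.card ^ 2 else 0) ≤
      q * (2 * β * Real.log T ^ 2 / c ^ 2 + 8 * (τ + 3 / T)) := by
    rcases lt_or_ge N T with hlt | hge
    · have h1 : psi c S.card ^ 2 ≤ Real.log T ^ 2 / c ^ 2 := by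
        rw [← div_pow]
        refine pow_le_pow_left₀ (psi_nonneg hc _) ?_ 2
        refine (min_le_right _ _).trans (div_le_div_of_nonneg_right ?_ hc.le)
        rw [← hNe]
        exact Real.log_le_log hN hlt.le
      have h2 : ∑ x ∈ Ω, (if S.card < 2 * h x then psi c S.card ^ 2 else 0) ≤
          ∑ x ∈ Ω, 2 * (Real.log T ^ 2 / c ^ 2) * ((h x : ℝ) / N) := by
        refine sum_le_sum fun x _ => ?_
        split_ifs with h3
        · have h4 : N ≤ 2 * h x := by rw [hNe]; exact_mod_cast h3.le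
          have h5 : 1 ≤ 2 * ((h x : ℝ) / N) := by
            rw [← mul_div_assoc, le_div_iff₀ hN]
            linarith
          have h6 : 0 ≤ Real.log T ^ 2 / c ^ 2 := by positivity
          nlinarith
        · positivity
      refine h2.trans ?_
      rw [← mul_sum]
      have h3 : 2 * (Real.log T ^ 2 / c ^ 2) * ∑ x ∈ Ω, (h x : ℝ) / N ≤ 2 * (Real.log T ^ 2 / c ^ 2) * (β * q) :=
        mul_le_mul_of_nonneg_left hsum1 (by positivity)
      refine h3.trans ?_
      have h4 : 0 ≤ q * (8 * (τ + 3 / T)) := by positivity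
      have e : 2 * (Real.log T ^ 2 / c ^ 2) * (β * q) = q * (2 * β * Real.log T ^ 2 / c ^ 2) := by ring
      rw [e, mul_add]
      linarith
    · have hcube : ∑ x ∈ Ω, (h x : ℝ) ^ 3 ≤ q * (τ * N ^ 3 + 3 * N ^ 2) := by
        have e1 : ∀ x, (h x : ℝ) ^ 3 = ∑ a ∈ S, ∑ b ∈ S, ∑ d ∈ S,
            (if x ∈ A a ∩ (A b ∩ A d) then (1 : ℝ) else 0) := by
          intro x
          have e2 : (h x : ℝ) = ∑ n ∈ S, (if x ∈ A n then (1 : ℝ) else 0) := by rw [hh, sum_boole]
          rw [e2]
          calc (∑ n ∈ S, (if x ∈ A n then (1 : ℝ) else 0)) ^ 3 =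
                (∑ a ∈ S, (if x ∈ A a then (1 : ℝ) else 0)) * ((∑ b ∈ S, (if x ∈ A b then (1 : ℝ) else 0)) *
                  (∑ d ∈ S, (if x ∈ A d then (1 : ℝ) else 0))) := by ring
            _ = ∑ a ∈ S, ∑ b ∈ S, ∑ d ∈ S, (if x ∈ A a then (1 : ℝ) else 0) * ((if x ∈ A b then (1 : ℝ) else 0) *
                  (if x ∈ A d then (1 : ℝ) else 0)) := by
                rw [sum_mul]
                refine sum_congr rfl fun a _ => ?_
                rw [sum_mul_sum, mul_sum]
                refine sum_congr rfl fun b _ => ?_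
                rw [mul_sum]
            _ = _ := by
                refine sum_congr rfl fun a _ => sum_congr rfl fun b _ => sum_congr rfl fun d _ => ?_
                by_cases g1 : x ∈ A a <;> by_cases g2 : x ∈ A b <;> by_cases g3 : x ∈ A d <;> simp [g1, g2, g3]
        simp only [e1]
        have e3 : ∑ x ∈ Ω, ∑ a ∈ S, ∑ b ∈ S, ∑ d ∈ S, (if x ∈ A a ∩ (A b ∩ A d) then (1 : ℝ) else 0) =
            ∑ a ∈ S, ∑ b ∈ S, ∑ d ∈ S, ((A a ∩ (A b ∩ A d)).card : ℝ) := by
          rw [sum_comm]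
          refine sum_congr rfl fun a ha => ?_
          rw [sum_comm]
          refine sum_congr rfl fun b _ => ?_
          rw [sum_comm]
          refine sum_congr rfl fun d _ => ?_
          rw [sum_boole]
          congr 2
          ext x
          rw [mem_filter]
          exact ⟨fun h => h.2, fun h => ⟨hA a ha (mem_inter.1 h).1, h⟩⟩
        rw [e3]
        have h3 : ∀ a ∈ S, ∀ b ∈ S, ∀ d ∈ S, ((A a ∩ (A b ∩ A d)).card : ℝ) ≤
            τ * q + (if a = b then q else 0) + (if b = d then q else 0) + (if a = d then q else 0) := by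
          intro a ha b hb d hd
          have h4 : ((A a ∩ (A b ∩ A d)).card : ℝ) ≤ q := by
            rw [hq]
            exact_mod_cast card_le_card (inter_subset_left.trans (hA a ha))
          have h5 : 0 ≤ τ * q := by positivity
          by_cases g1 : a = b
          · simp only [g1, if_true]
            rw [g1] at h4
            split_ifs <;> linarith
          by_cases g2 : b = d
          · simp only [g2, if_true]
            rw [g2] at h4
            split_ifs <;> linarith
          by_cases g3 : a = d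
          · simp only [g3, if_true]
            rw [g3] at h4
            split_ifs <;> linarith
          rw [if_neg g1, if_neg g2, if_neg g3, hq]
          have := hτ a ha b hb d hd g1 g2 g3
          linarith
        refine (sum_le_sum fun a ha => sum_le_sum fun b hb => sum_le_sum fun d hd => h3 a ha b hb d hd).trans ?_
        refine le_of_eq ?_
        simp only [sum_add_distrib, sum_const, nsmul_eq_mul, sum_ite_eq, ← hNe]
        have e5 : ∀ a ∈ S, ∑ b ∈ S, (N * if a = b then q else 0) = N * q := by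
          intro a ha
          rw [← mul_sum, sum_ite_eq, if_pos ha]
        have e6 : ∀ b ∈ S, (if b ∈ S then q else 0) = q := fun b hb => if_pos hb
        have e7 : ∑ b ∈ S, (N * if b ∈ S then q else 0) = N * (N * q) := by
          rw [← mul_sum, sum_congr rfl e6, sum_const, nsmul_eq_mul, ← hNe]
        rw [sum_congr rfl e5, sum_congr rfl e6, sum_const, sum_const, nsmul_eq_mul, nsmul_eq_mul, ← hNe, e7]
        ring
      have h1 : ∑ x ∈ Ω, (if S.card < 2 * h x then psi c S.card ^ 2 else 0) ≤ ∑ x ∈ Ω, 8 * (h x : ℝ) ^ 3 / N ^ 3 := by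
        refine sum_le_sum fun x _ => ?_
        split_ifs with h3
        · have h4 : N ≤ 2 * h x := by rw [hNe]; exact_mod_cast h3.le
          have h5 : N ^ 3 ≤ 8 * (h x : ℝ) ^ 3 := by
            calc N ^ 3 ≤ (2 * (h x : ℝ)) ^ 3 := pow_le_pow_left₀ hN.le h4 3
              _ = _ := by ring
          have h6 : psi c S.card ^ 2 ≤ 1 := by
            have := psi_le_one c S.card
            have := psi_nonneg hc S.card
            nlinarith
          refine h6.trans ?_
          rw [le_div_iff₀ (by positivity)]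
          linarith
        · positivity
      refine h1.trans ?_
      rw [← sum_div, ← mul_sum, div_le_iff₀ (by positivity)]
      have h2 := mul_le_mul_of_nonneg_left hcube (by norm_num : (0 : ℝ) ≤ 8)
      refine h2.trans ?_
      have h3 : 3 * N ^ 2 ≤ 3 / T * N ^ 3 := by
        have : 1 ≤ N / T := by rw [le_div_iff₀ (by linarith)]; linarith
        calc 3 * N ^ 2 = 3 * N ^ 2 * 1 := by ring
          _ ≤ 3 * N ^ 2 * (N / T) := mul_le_mul_of_nonneg_left this (by positivity)
          _ = _ := by ring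
      have h4 : 0 ≤ 2 * β * Real.log T ^ 2 / c ^ 2 := by positivity
      calc 8 * (q * (τ * N ^ 3 + 3 * N ^ 2)) ≤ 8 * (q * (τ * N ^ 3 + 3 / T * N ^ 3)) := by gcongr
        _ = q * (8 * (τ + 3 / T)) * N ^ 3 := by ring
        _ ≤ q * (2 * β * Real.log T ^ 2 / c ^ 2 + 8 * (τ + 3 / T)) * N ^ 3 := by
            refine mul_le_mul_of_nonneg_right (mul_le_mul_of_nonneg_left ?_ hq0) (by positivity)
            linarith
  have e0 : ∑ x ∈ Ω, (4 * (((S.filter fun n => x ∈ A n).card : ℝ) / S.card) ^ 2 / c ^ 2 +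
      (if S.card < 2 * (S.filter fun n => x ∈ A n).card then psi c S.card ^ 2 else 0)) =
      4 / c ^ 2 * ∑ x ∈ Ω, ((h x : ℝ) / N) ^ 2 + ∑ x ∈ Ω, (if S.card < 2 * h x then psi c S.card ^ 2 else 0) := by
    rw [sum_add_distrib, mul_sum, hh, hNe]
    congr 1
    refine sum_congr rfl fun x _ => ?_
    ring
  rw [e0, ← hq]
  have h1 : 4 / c ^ 2 * ∑ x ∈ Ω, ((h x : ℝ) / N) ^ 2 ≤ 4 / c ^ 2 * (β * q) := mul_le_mul_of_nonneg_left hsum2 (by positivity)
  have e1 : 4 / c ^ 2 * (β * q) = q * (4 * β / c ^ 2) := by ring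
  rw [e1] at h1
  calc _ ≤ q * (4 * β / c ^ 2) + q * (2 * β * Real.log T ^ 2 / c ^ 2 + 8 * (τ + 3 / T)) := add_le_add h1 hind
    _ = _ := by ring

end Pool.Agent.Run7.h880.RP
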