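import Mathlib
import Pool.Agent.Run7.h880.RP.EsW

/-! The number of the indices without hits, from below, in probability. -/

set_option autoImplicit false

namespace Pool.Agent.Run7.h880.RP

open Finset Filter
open Pool.Agent.Run7.h880.MK (Smp Smp_mem Smp_card hits hits_eq nohit)

/-- the inequality of Paley and Zygmund for the number of events -/
theorem pz {α κ : Type} [DecidableEq κ] (S : Finset α) (J : Finset κ) (E : κ → α → Prop) [∀ j, DecidablePred (E j)]
    [∀ w, DecidablePred fun j => E j w]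
    (P c K₂ : ℝ) (R : κ → κ → ℝ) (hP0 : 0 ≤ P)
    (h1 : ∀ j ∈ J, (S.card : ℝ) * (P * Real.exp (-c)) ≤ (S.filter (E j)).card)
    (h2 : ∀ j ∈ J, ((S.filter (E j)).card : ℝ) ≤ S.card * (P * Real.exp c))
    (h3 : ∀ i ∈ J, ∀ j ∈ J, i ≠ j → ((S.filter fun w => E i w ∧ E j w).card : ℝ) ≤ S.card * (P ^ 2 * R i j))
    (hR : ∑ i ∈ J, ∑ j ∈ J, (if i = j then 0 else R i j) ≤ K₂ * (J.card : ℝ) ^ 2) (hK2 : 0 ≤ K₂) (hT : 1 ≤ J.card * P)
    (hS : S.Nonempty) :
    (S.card : ℝ) * (Real.exp (-(2 * c)) / (4 * (Real.exp c + K₂))) ≤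
      (S.filter fun w => (J.card * P) * Real.exp (-c) / 2 ≤ ((J.filter fun j => E j w).card : ℝ)).card := by
  classical
  obtain ⟨q, hq⟩ : ∃ q : ℝ, q = S.card := ⟨_, rfl⟩
  have hq0 : 0 < q := by rw [hq]; exact_mod_cast card_pos.2 hS
  rw [← hq] at h1 h2 h3 ⊢
  obtain ⟨T, hTe⟩ : ∃ T, T = J.card * P := ⟨_, rfl⟩
  rw [← hTe] at hT ⊢
  obtain ⟨Z, hZ⟩ : ∃ Z : α → ℝ, Z = fun w => ∑ j ∈ J, (if E j w then (1 : ℝ) else 0) := ⟨_, rfl⟩
  have hZc : ∀ w, Z w = ((J.filter fun j => E j w).card : ℝ) := by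
    intro w
    rw [hZ]
    simp only [sum_boole]
  obtain ⟨B, hB⟩ : ∃ B, B = S.filter fun w => T * Real.exp (-c) / 2 ≤ Z w := ⟨_, rfl⟩
  have hBe : S.filter (fun w => T * Real.exp (-c) / 2 ≤ ((J.filter fun j => E j w).card : ℝ)) = B := by
    rw [hB]
    refine filter_congr fun w _ => ?_
    rw [hZc]
  have hgoal : q * (Real.exp (-(2 * c)) / (4 * (Real.exp c + K₂))) ≤ B.card := by
    have hS1 : q * (T * Real.exp (-c)) ≤ ∑ w ∈ S, Z w := by
      rw [hZ, sum_comm]
      have h4 : ∀ j ∈ J, q * (P * Real.exp (-c)) ≤ ∑ w ∈ S, (if E j w then (1 : ℝ) else 0) := by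
        intro j hj
        rw [sum_boole]
        exact h1 j hj
      refine le_trans (le_of_eq ?_) (sum_le_sum h4)
      rw [sum_const, nsmul_eq_mul, hTe]
      ring
    have hS2 : ∑ w ∈ S, Z w ^ 2 ≤ q * (T * Real.exp c + K₂ * T ^ 2) := by
      have h4 : ∑ w ∈ S, Z w ^ 2 = ∑ i ∈ J, ∑ j ∈ J, (((S.filter fun w => E i w ∧ E j w).card : ℕ) : ℝ) := by
        rw [hZ]
        have h5 : ∀ w ∈ S, (∑ j ∈ J, (if E j w then (1 : ℝ) else 0)) ^ 2 =
            ∑ i ∈ J, ∑ j ∈ J, (if E i w ∧ E j w then (1 : ℝ) else 0) := by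
          intro w _
          rw [sq, sum_mul_sum]
          refine sum_congr rfl fun i _ => sum_congr rfl fun j _ => ?_
          by_cases h3 : E i w <;> by_cases h4 : E j w <;> simp [h3, h4]
        rw [sum_congr rfl h5, sum_comm]
        refine sum_congr rfl fun i _ => ?_
        rw [sum_comm]
        refine sum_congr rfl fun j _ => ?_
        rw [sum_boole]
      rw [h4]
      have h5 : ∀ i ∈ J, ∀ j ∈ J, (((S.filter fun w => E i w ∧ E j w).card : ℕ) : ℝ) ≤
          q * (P ^ 2 * (if i = j then 0 else R i j)) + (if i = j then q * (P * Real.exp c) else 0) := by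
        intro i hi j hj
        by_cases hij : i = j
        · subst hij
          simp only [if_true, mul_zero, zero_add, and_self]
          exact h2 i hi
        · simp only [hij, if_false, add_zero]
          exact h3 i hi j hj hij
      refine (sum_le_sum fun i hi => sum_le_sum fun j hj => h5 i hi j hj).trans ?_
      have h6 : ∀ i ∈ J, ∑ j ∈ J, (q * (P ^ 2 * (if i = j then 0 else R i j)) + (if i = j then q * (P * Real.exp c) else 0)) =
          q * (P ^ 2 * ∑ j ∈ J, (if i = j then 0 else R i j)) + q * (P * Real.exp c) := by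
        intro i hi
        rw [sum_add_distrib, ← mul_sum, ← mul_sum, sum_ite_eq, if_pos hi]
      rw [sum_congr rfl h6, sum_add_distrib, ← mul_sum, ← mul_sum, sum_const, nsmul_eq_mul]
      have h7 : P ^ 2 * ∑ i ∈ J, ∑ j ∈ J, (if i = j then 0 else R i j) ≤ P ^ 2 * (K₂ * (J.card : ℝ) ^ 2) :=
        mul_le_mul_of_nonneg_left hR (by positivity)
      calc q * (P ^ 2 * ∑ i ∈ J, ∑ j ∈ J, (if i = j then 0 else R i j)) + J.card * (q * (P * Real.exp c))
          ≤ q * (P ^ 2 * (K₂ * (J.card : ℝ) ^ 2)) + J.card * (q * (P * Real.exp c)) := by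
            have := mul_le_mul_of_nonneg_left h7 hq0.le
            linarith
        _ = _ := by rw [hTe]; ring
    have hZ0 : ∀ w, 0 ≤ Z w := fun w => by rw [hZc]; exact Nat.cast_nonneg _
    have h4 : ∑ w ∈ S, Z w ≤ ∑ w ∈ B, Z w + q * (T * Real.exp (-c) / 2) := by
      rw [← sum_filter_add_sum_filter_not S (fun w => T * Real.exp (-c) / 2 ≤ Z w), ← hB]
      refine add_le_add le_rfl ?_
      have h5 : ∀ w ∈ S.filter (fun w => ¬ T * Real.exp (-c) / 2 ≤ Z w), Z w ≤ T * Real.exp (-c) / 2 :=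
        fun w hw => (not_le.1 (mem_filter.1 hw).2).le
      refine (sum_le_sum h5).trans ?_
      rw [sum_const, nsmul_eq_mul, hq]
      refine mul_le_mul_of_nonneg_right ?_ (by positivity)
      exact_mod_cast card_filter_le _ _
    have hhalf : q * (T * Real.exp (-c)) / 2 ≤ ∑ w ∈ B, Z w := by linarith
    have h5 : (∑ w ∈ B, Z w) ^ 2 ≤ B.card * ∑ w ∈ B, Z w ^ 2 := sq_sum_le_card_mul_sum_sq
    have h6 : ∑ w ∈ B, Z w ^ 2 ≤ ∑ w ∈ S, Z w ^ 2 := by
      rw [hB]
      exact sum_le_sum_of_subset_of_nonneg (filter_subset _ _) fun _ _ _ => sq_nonneg _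
    have hT0 : 0 < T := by linarith
    have h7 : (q * (T * Real.exp (-c)) / 2) ^ 2 ≤ B.card * (q * (T ^ 2 * (Real.exp c + K₂))) := by
      calc (q * (T * Real.exp (-c)) / 2) ^ 2 ≤ (∑ w ∈ B, Z w) ^ 2 := pow_le_pow_left₀ (by positivity) hhalf 2
        _ ≤ B.card * (q * (T * Real.exp c + K₂ * T ^ 2)) :=
            h5.trans (mul_le_mul_of_nonneg_left (h6.trans hS2) (Nat.cast_nonneg _))
        _ ≤ B.card * (q * (T ^ 2 * (Real.exp c + K₂))) := by
            refine mul_le_mul_of_nonneg_left (mul_le_mul_of_nonneg_left ?_ hq0.le) (Nat.cast_nonneg _)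
            have h5 : T ≤ T ^ 2 := by nlinarith
            have h6 := mul_le_mul_of_nonneg_right h5 (Real.exp_pos c).le
            linarith
    have h8 : q * T ^ 2 * (q * Real.exp (-(2 * c))) ≤ q * T ^ 2 * (B.card * (4 * (Real.exp c + K₂))) := by
      have e : Real.exp (-(2 * c)) = Real.exp (-c) ^ 2 := by
        rw [← Real.exp_nat_mul]; congr 1; push_cast; ring
      rw [e]
      calc _ = 4 * (q * (T * Real.exp (-c)) / 2) ^ 2 := by ring
        _ ≤ 4 * (B.card * (q * (T ^ 2 * (Real.exp c + K₂)))) := by linarith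
        _ = _ := by ring
    have h9 := le_of_mul_le_mul_left h8 (by positivity)
    rw [mul_div_assoc', div_le_iff₀ (by positivity)]
    exact h9
  refine hgoal.trans ?_
  rw [← hBe]

open Classical in
/-- the indices without hits in the first `i` members of the sample -/
noncomputable def surv {ι κ : Type} (J : Finset κ) (A : κ → Finset ι) {m : ℕ} (i : ℕ) (w : Fin m → ι) : Finset κ :=
  J.filter fun n => Fail (A n) i w

lemma mem_surv {ι κ : Type} {J : Finset κ} {A : κ → Finset ι} {m i : ℕ} {w : Fin m → ι} {n : κ} :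
    n ∈ surv J A i w ↔ n ∈ J ∧ Fail (A n) i w := by
  classical
  unfold surv
  rw [mem_filter]

/-- the variance of the logarithm of the number of the indices without hits -/
theorem es_wait {ι κ : Type} [DecidableEq ι] [DecidableEq κ] (Ω : Finset ι) (hΩ : Ω.Nonempty) (J : Finset κ)
    (A : κ → Finset ι) (hA : ∀ n ∈ J, A n ⊆ Ω) {c β τ T : ℝ} (hc : 0 < c)
    (hβ : ∀ n ∈ J, ((A n).card : ℝ) ≤ β * Ω.card) (hβ0 : 0 ≤ β) (hτ0 : 0 ≤ τ) (hT : 1 ≤ T)
    (hτ : ∀ x ∈ J, ∀ y ∈ J, ∀ z ∈ J, x ≠ y → y ≠ z → x ≠ z → ((A x ∩ (A y ∩ A z)).card : ℝ) ≤ τ * Ω.card)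
    (m i : ℕ) (hi : i ≤ m) :
    ∑ w ∈ Smp Ω m, (psi c (surv J A i w).card) ^ 2 -
      (∑ w ∈ Smp Ω m, psi c (surv J A i w).card) ^ 2 / (Smp Ω m).card ≤
    (Smp Ω m).card * (i * (4 * β / c ^ 2 + 2 * β * Real.log T ^ 2 / c ^ 2 + 8 * (τ + 3 / T))) := by
  classical
  obtain ⟨B, hB⟩ : ∃ B, B = 4 * β / c ^ 2 + 2 * β * Real.log T ^ 2 / c ^ 2 + 8 * (τ + 3 / T) := ⟨_, rfl⟩
  have hB0 : 0 ≤ B := by rw [hB]; positivity
  have hq0 : (0 : ℝ) < Ω.card := by exact_mod_cast card_pos.2 hΩ
  have hsm : ((Smp Ω m).card : ℝ) = (Ω.card : ℝ) ^ m := by rw [Smp_card]; push_cast; rfl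
  have h1 := es_pos Ω hΩ m fun w => psi c (surv J A i w).card
  rw [hsm, ← hB]
  refine h1.trans ?_
  have h2 : ∀ w ∈ Smp Ω m, ∑ l : Fin m, ∑ x ∈ Ω, (max (psi c (surv J A i w).card -
      psi c (surv J A i (Function.update w l x)).card) 0) ^ 2 ≤ i * (Ω.card * B) := by
    intro w _
    have h3 : ∀ l : Fin m, ∑ x ∈ Ω, (max (psi c (surv J A i w).card -
        psi c (surv J A i (Function.update w l x)).card) 0) ^ 2 ≤ (if l.1 < i then Ω.card * B else 0) := by
      intro l
      split_ifs with hl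
      · refine le_trans (sum_le_sum fun x _ => ?_) (le_trans (avg_drop Ω (surv J A i w) A
          (fun n hn => hA n (mem_surv.1 hn).1) hc (fun n hn => hβ n (mem_surv.1 hn).1) hβ0 hτ0 hT
          (fun x hx y hy z hz => hτ x (mem_surv.1 hx).1 y (mem_surv.1 hy).1 z (mem_surv.1 hz).1)) (le_of_eq (by rw [hB])))
        refine drop_sq hc ?_
        have h4 : (surv J A i w).filter (fun n => ¬ x ∈ A n) ⊆ surv J A i (Function.update w l x) := by
          intro n hn
          rw [mem_filter, mem_surv] at hn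
          rw [mem_surv]
          refine ⟨hn.1.1, fun k hk => ?_⟩
          by_cases hkl : k = l
          · subst hkl
            rw [Function.update_self]
            exact hn.2
          · rw [Function.update_of_ne hkl]
            exact hn.1.2 k hk
        have h5 := card_le_card h4
        have h6 := card_filter_add_card_filter_not (s := surv J A i w) (p := fun n => x ∈ A n)
        omega
      · refine le_of_eq (sum_eq_zero fun x _ => ?_)
        have h4 : surv J A i (Function.update w l x) = surv J A i w := by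
          ext n
          rw [mem_surv, mem_surv]
          refine and_congr_right fun _ => ?_
          unfold Fail
          refine forall_congr' fun k => ?_
          constructor
          · intro h hk
            have := h hk
            rwa [Function.update_of_ne (fun hkl => hl (by rw [← hkl]; exact hk))] at this
          · intro h hk
            rw [Function.update_of_ne (fun hkl => hl (by rw [← hkl]; exact hk))]
            exact h hk
        rw [h4, sub_self, max_self]
        norm_num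
    refine (sum_le_sum fun l _ => h3 l).trans ?_
    rw [← sum_filter, sum_const, nsmul_eq_mul]
    refine mul_le_mul_of_nonneg_right ?_ (by positivity)
    have h4 : (univ.filter fun l : Fin m => l.1 < i).card = i := by
      have : (univ.filter fun l : Fin m => l.1 < i) = (univ : Finset (Fin i)).image (Fin.castLE hi) := by
        ext l
        rw [mem_filter, mem_image]
        constructor
        · rintro ⟨_, h⟩
          exact ⟨⟨l.1, h⟩, mem_univ _, by ext; rfl⟩
        · rintro ⟨k, _, rfl⟩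
          exact ⟨mem_univ _, k.2⟩
      rw [this, card_image_of_injective _ (Fin.castLE_injective hi), card_univ, Fintype.card_fin]
    rw [h4]
  have h5 := sum_le_sum h2
  rw [sum_const, nsmul_eq_mul, hsm] at h5
  refine (mul_le_mul_of_nonneg_left h5 (by positivity)).trans (le_of_eq ?_)
  field_simp

end Pool.Agent.Run7.h880.RP
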