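import Mathlib
import Pool.Agent.Run7.h880.RP.EsW2

/-! The number of the indices without hits on both sides: the first moment. -/

set_option autoImplicit false

namespace Pool.Agent.Run7.h880.RP

open Finset Filter
open Pool.Agent.Run7.h880.MK (Smp Smp_mem Smp_card hits hits_eq nohit)

/-- **not too many indices without hits** -/
theorem count_up (γ σ ε τ K₀ : ℝ) (hε : 0 < ε) (hτ : 0 ≤ τ) (hK0 : 0 ≤ K₀) :
    ∀ᶠ L : ℝ in atTop, ∀ (m i j : ℕ), i ≤ m → j ≤ m → (i : ℝ) ≤ τ * L ^ 2 → (j : ℝ) ≤ τ * L ^ 2 →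
    σ * L ^ 2 ≤ (i : ℝ) + j →
    ∀ {ι κ : Type} [DecidableEq ι] [DecidableEq κ] (Ω : Finset ι) (J : Finset κ) (A B : κ → Finset ι) (K₂ : ℝ),
    Sys Ω J A L K₀ (4 * (τ * (K₀ + 5))) K₂ → Sys Ω J B L K₀ (4 * (τ * (K₀ + 5))) K₂ →
    (J.card : ℝ) ≤ Real.exp (γ * L + 1) →
    ∀ (P : (Fin m → ι) × (Fin m → ι) → Prop) [DecidablePred P],
    (∀ p, P p → Real.exp ((γ - σ + ε) * L) ≤ ((surv (surv J B j p.2) A i p.1).card : ℝ)) →
    (((Smp Ω m ×ˢ Smp Ω m).filter P).card : ℝ) ≤ 1 / L * ((Smp Ω m ×ˢ Smp Ω m).card : ℝ) := by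
  classical
  obtain ⟨c₁, hc₁⟩ : ∃ c₁, c₁ = τ * (K₀ + 5) := ⟨_, rfl⟩
  have hc10 : 0 ≤ c₁ := by rw [hc₁]; positivity
  have hexp : ∀ᶠ L : ℝ in atTop, Real.exp (1 + 2 * c₁) * L ≤ Real.exp (ε * L) := by
    have h1 := ((Real.isLittleO_pow_exp_atTop (n := 1)).bound (show (0 : ℝ) < ε / Real.exp (1 + 2 * c₁) by positivity))
    have h2 : Tendsto (fun L : ℝ => ε * L) atTop atTop := tendsto_id.const_mul_atTop hε
    filter_upwards [h2.eventually h1, eventually_ge_atTop 0] with L h3 h4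
    rw [Real.norm_of_nonneg (by positivity), Real.norm_of_nonneg (Real.exp_pos _).le, pow_one, div_mul_eq_mul_div,
      le_div_iff₀ (Real.exp_pos _)] at h3
    have h5 : ε * (Real.exp (1 + 2 * c₁) * L) ≤ ε * Real.exp (ε * L) := by linarith
    exact le_of_mul_le_mul_left h5 hε
  filter_upwards [eventually_ge_atTop 4, eventually_ge_atTop (2 * K₀), hexp] with L l4 lK lE m i j hi hj hiτ hjτ hij ι κ _ _
    Ω J A B K₂ hSA hSB hJ P _ hP
  have hL0 : 0 < L := by linarith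
  rw [← hc₁] at hSA hSB
  obtain ⟨-, e2, -⟩ := fail_all hSA l4 hK0 lK hτ hi hiτ hc₁ le_rfl
  obtain ⟨-, f2, -⟩ := fail_all hSB l4 hK0 lK hτ hj hjτ hc₁ le_rfl
  have hq0 : (0 : ℝ) < Ω.card := by exact_mod_cast card_pos.2 hSA.ne
  have hQ0 : 0 < (Ω.card : ℝ) ^ m := pow_pos hq0 m
  have hsm : ((Smp Ω m).card : ℝ) = (Ω.card : ℝ) ^ m := by rw [Smp_card]; push_cast; rfl
  obtain ⟨Q, hQe⟩ : ∃ Q : ℝ, Q = (Ω.card : ℝ) ^ m := ⟨_, rfl⟩
  rw [← hQe] at e2 f2 hQ0 hsm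
  have hQ : ((Smp Ω m ×ˢ Smp Ω m).card : ℝ) = Q * Q := by rw [card_product, Nat.cast_mul, hsm]
  have hfil : ∀ x, (Smp Ω m ×ˢ Smp Ω m).filter (fun p => Fail (A x) i p.1 ∧ Fail (B x) j p.2) =
      (Smp Ω m).filter (Fail (A x) i) ×ˢ (Smp Ω m).filter (Fail (B x) j) := fun x =>
    filter_product (fun w => Fail (A x) i w) (fun w => Fail (B x) j w)
  have hsurv : ∀ p : (Fin m → ι) × (Fin m → ι), surv (surv J B j p.2) A i p.1 =
      (J.filter fun x => Fail (A x) i p.1 ∧ Fail (B x) j p.2) := by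
    intro p
    ext x
    rw [mem_filter, mem_surv, mem_surv]
    tauto
  obtain ⟨cnt, hcnt⟩ : ∃ cnt : (Fin m → ι) × (Fin m → ι) → ℝ, ∀ p, cnt p =
      ((J.filter fun x => Fail (A x) i p.1 ∧ Fail (B x) j p.2).card : ℝ) := ⟨_, fun _ => rfl⟩
  have h1 : (((Smp Ω m ×ˢ Smp Ω m).filter P).card : ℝ) * Real.exp ((γ - σ + ε) * L) ≤
      ∑ p ∈ Smp Ω m ×ˢ Smp Ω m, cnt p := by
    have g1 : ∀ p ∈ (Smp Ω m ×ˢ Smp Ω m).filter P, Real.exp ((γ - σ + ε) * L) ≤ cnt p := by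
      intro p hp
      have := hP p (mem_filter.1 hp).2
      rw [hsurv] at this
      rw [hcnt]
      exact this
    have g2 : ∑ p ∈ (Smp Ω m ×ˢ Smp Ω m).filter P, cnt p ≤ ∑ p ∈ Smp Ω m ×ˢ Smp Ω m, cnt p :=
      sum_le_sum_of_subset_of_nonneg (filter_subset _ _) fun p _ _ => by rw [hcnt]; exact Nat.cast_nonneg _
    have g3 := sum_le_sum g1
    rw [sum_const, nsmul_eq_mul] at g3
    exact g3.trans g2
  have h2 : ∑ p ∈ Smp Ω m ×ˢ Smp Ω m, cnt p =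
      ∑ x ∈ J, (((Smp Ω m ×ˢ Smp Ω m).filter (fun p => Fail (A x) i p.1 ∧ Fail (B x) j p.2)).card : ℝ) := by
    simp only [hcnt, card_filter, Nat.cast_sum]
    exact sum_comm
  have h3 : ∀ x ∈ J, (((Smp Ω m ×ˢ Smp Ω m).filter (fun p => Fail (A x) i p.1 ∧ Fail (B x) j p.2)).card : ℝ) ≤
      Q * Q * Real.exp (2 * c₁ - σ * L) := by
    intro x hx
    rw [hfil, card_product, Nat.cast_mul]
    have g1 := mul_le_mul (e2 x hx) (f2 x hx) (Nat.cast_nonneg _) (by positivity)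
    refine g1.trans ?_
    have e : Q * (Real.exp (-((i : ℝ) / L)) * Real.exp c₁) * (Q * (Real.exp (-((j : ℝ) / L)) * Real.exp c₁)) =
        Q * Q * Real.exp (2 * c₁ - ((i : ℝ) + j) / L) := by
      have : Real.exp (2 * c₁ - ((i : ℝ) + j) / L) = Real.exp (-((i : ℝ) / L)) * Real.exp c₁ *
          (Real.exp (-((j : ℝ) / L)) * Real.exp c₁) := by
        rw [← Real.exp_add, ← Real.exp_add, ← Real.exp_add]
        congr 1
        ring
      rw [this]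
      ring
    rw [e]
    refine mul_le_mul_of_nonneg_left (Real.exp_le_exp.2 ?_) (by positivity)
    have : σ * L ≤ ((i : ℝ) + j) / L := by
      rw [le_div_iff₀ hL0]
      linarith
    linarith
  have h4 : (((Smp Ω m ×ˢ Smp Ω m).filter P).card : ℝ) * Real.exp ((γ - σ + ε) * L) ≤
      Real.exp (γ * L + 1) * (Q * Q * Real.exp (2 * c₁ - σ * L)) := by
    rw [h2] at h1
    refine h1.trans ((sum_le_sum h3).trans ?_)
    rw [sum_const, nsmul_eq_mul]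
    exact mul_le_mul_of_nonneg_right hJ (by positivity)
  have e : Real.exp (γ * L + 1) * (Q * Q * Real.exp (2 * c₁ - σ * L)) =
      Q * Q * Real.exp (1 + 2 * c₁) * Real.exp ((γ - σ) * L) := by
    have : Real.exp (γ * L + 1) * Real.exp (2 * c₁ - σ * L) = Real.exp (1 + 2 * c₁) * Real.exp ((γ - σ) * L) := by
      rw [← Real.exp_add, ← Real.exp_add]
      congr 1
      ring
    calc _ = Q * Q * (Real.exp (γ * L + 1) * Real.exp (2 * c₁ - σ * L)) := by ring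
      _ = _ := by rw [this]; ring
  have e' : Real.exp ((γ - σ + ε) * L) = Real.exp ((γ - σ) * L) * Real.exp (ε * L) := by
    rw [← Real.exp_add]
    congr 1
    ring
  rw [e, e'] at h4
  have h5 : (((Smp Ω m ×ˢ Smp Ω m).filter P).card : ℝ) * Real.exp (ε * L) ≤ Q * Q * Real.exp (1 + 2 * c₁) := by
    have h6 : (((Smp Ω m ×ˢ Smp Ω m).filter P).card : ℝ) * Real.exp (ε * L) * Real.exp ((γ - σ) * L) ≤
        Q * Q * Real.exp (1 + 2 * c₁) * Real.exp ((γ - σ) * L) := by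
      linarith
    exact le_of_mul_le_mul_right h6 (Real.exp_pos _)
  rw [hQ]
  have h7 : (((Smp Ω m ×ˢ Smp Ω m).filter P).card : ℝ) * (Real.exp (1 + 2 * c₁) * L) ≤ Q * Q * Real.exp (1 + 2 * c₁) :=
    (mul_le_mul_of_nonneg_left lE (Nat.cast_nonneg _)).trans h5
  have h8 : (((Smp Ω m ×ˢ Smp Ω m).filter P).card : ℝ) * L * Real.exp (1 + 2 * c₁) ≤ Q * Q * Real.exp (1 + 2 * c₁) := by
    linarith
  have h9 := le_of_mul_le_mul_right h8 (Real.exp_pos _)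
  rw [div_mul_eq_mul_div, le_div_iff₀ hL0]
  linarith

end Pool.Agent.Run7.h880.RP
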