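import Mathlib
import Pool.Agent.Run7.h880.RP.SqS

/-! Three squares at a time. -/

set_option autoImplicit false

namespace Pool.Agent.Run7.h880.RP

open Finset Filter
open Pool.Agent.N384.MQ (ev_log_pow ev_log_ge)
open Pool.Agent.Run7.h931.RS (Fw one_le_Fw sg_le_Fw moments Fw_split Pw_le fac_ge)

/-- the sieve for three forms -/
theorem sv3 : ∃ C₀ : ℕ, 1 ≤ C₀ ∧ ∃ Y₀ : ℝ, ∀ M : ℕ, Y₀ ≤ M → ∀ s : ℤ, (s = 1 ∨ s = -1) → ∀ x y z : ℕ, x ≠ y → y ≠ z → x ≠ z →
    (((Icc 1 M).filter fun w : ℕ => ((x : ℤ) + s * w).toNat.Prime ∧ ((y : ℤ) + s * w).toNat.Prime ∧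
      ((z : ℤ) + s * w).toNat.Prime).card : ℝ) ≤
      C₀ * (Fw 0 (dd x y) * Fw 0 (dd y z) * Fw 0 (dd x z)) ^ C₀ * (M / Real.log M ^ 3) := by
  classical
  obtain ⟨C, hC1, hC⟩ := Pool.Agent.Y949.DK.t_SV 3
  obtain ⟨Y₀, hY₀⟩ := eventually_atTop.1 hC
  obtain ⟨C₀, hC₀⟩ : ∃ C₀ : ℕ, 4 * C ≤ C₀ := exists_nat_ge _
  refine ⟨C₀, ?_, max Y₀ 1, fun M hM s hs x y z hxy hyz hxz => ?_⟩
  · have : (1 : ℝ) ≤ C₀ := by linarith
    exact_mod_cast this
  obtain ⟨F, hF⟩ : ∃ F : Finset (ℤ × ℤ), F = {(s, (x : ℤ)), (s, (y : ℤ)), (s, (z : ℤ))} := ⟨_, rfl⟩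
  have hne : ∀ a b : ℕ, a ≠ b → (s, (a : ℤ)) ≠ (s, (b : ℤ)) := by
    intro a b hab he
    have := congrArg Prod.snd he
    simp only at this
    omega
  have hn1 : (s, (x : ℤ)) ∉ ({(s, (y : ℤ)), (s, (z : ℤ))} : Finset (ℤ × ℤ)) := by
    rw [mem_insert, mem_singleton, not_or]
    exact ⟨hne x y hxy, hne x z hxz⟩
  have hn2 : (s, (y : ℤ)) ∉ ({(s, (z : ℤ))} : Finset (ℤ × ℤ)) := by
    rw [mem_singleton]
    exact hne y z hyz
  have hcard : F.card = 3 := by
    rw [hF, card_insert_of_notMem hn1, card_insert_of_notMem hn2, card_singleton]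
  have hs0 : s ≠ 0 := by rcases hs with rfl | rfl <;> norm_num
  have hmem : ∀ f ∈ F, f = (s, (x : ℤ)) ∨ f = (s, (y : ℤ)) ∨ f = (s, (z : ℤ)) := by
    intro f hf
    rw [hF, mem_insert, mem_insert, mem_singleton] at hf
    exact hf
  have b1 := hY₀ M ((le_max_left _ _).trans hM) F hcard (by
    intro f hf
    rcases hmem f hf with rfl | rfl | rfl <;> exact hs0) (by
    intro f hf g hg hfg
    rcases hmem f hf with rfl | rfl | rfl <;> rcases hmem g hg with rfl | rfl | rfl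
    all_goals first
      | exact absurd rfl hfg
      | (simp only; rcases hs with rfl | rfl <;> omega))
  rw [Nat.floor_natCast] at b1
  have b2 : ((Icc 1 M).filter fun w : ℕ => ((x : ℤ) + s * w).toNat.Prime ∧ ((y : ℤ) + s * w).toNat.Prime ∧
      ((z : ℤ) + s * w).toNat.Prime) ⊆
      (Icc 1 M).filter (fun n : ℕ => ∀ f ∈ F, (f.1 * (n : ℤ) + f.2).toNat.Prime) := by
    intro w hw
    rw [mem_filter] at hw ⊢
    refine ⟨hw.1, fun f hf => ?_⟩
    rcases hmem f hf with rfl | rfl | rfl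
    · simp only
      rw [add_comm]
      exact hw.2.1
    · simp only
      rw [add_comm]
      exact hw.2.2.1
    · simp only
      rw [add_comm]
      exact hw.2.2.2
  have hsg0 : Pool.Agent.Y851.DK.sg 0 = 0 := by simp [Pool.Agent.Y851.DK.sg]
  have hsg1 : Pool.Agent.Y851.DK.sg 1 = 0 := by simp [Pool.Agent.Y851.DK.sg]
  have hsa : s.natAbs = 1 := by rcases hs with rfl | rfl <;> rfl
  have b3 : ∑ f ∈ F, Pool.Agent.Y851.DK.sg f.1.natAbs +
      ∑ f ∈ F, ∑ g ∈ F, Pool.Agent.Y851.DK.sg (f.1 * g.2 - g.1 * f.2).natAbs =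
      2 * (Pool.Agent.Y851.DK.sg (dd x y) + Pool.Agent.Y851.DK.sg (dd y z) + Pool.Agent.Y851.DK.sg (dd x z)) := by
    have e0 : ∀ a b : ℕ, (s * (b : ℤ) - s * (a : ℤ)).natAbs = dd a b := by
      intro a b
      rw [← mul_sub, Int.natAbs_mul, hsa, one_mul]
      unfold dd
      omega
    have e1 : ∀ a b : ℕ, dd a b = dd b a := by
      intro a b
      unfold dd
      omega
    have e2 : ∀ a : ℕ, dd a a = 0 := by
      intro a
      unfold dd
      omega
    rw [hF]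
    simp only [sum_insert hn1, sum_insert hn2, sum_singleton, e0, hsa, hsg1, e2, hsg0]
    rw [e1 y x, e1 z x, e1 z y]
    ring
  rw [b3] at b1
  have b4 : Real.exp (C * (2 * (Pool.Agent.Y851.DK.sg (dd x y) + Pool.Agent.Y851.DK.sg (dd y z) +
      Pool.Agent.Y851.DK.sg (dd x z)))) ≤ (Fw 0 (dd x y) * Fw 0 (dd y z) * Fw 0 (dd x z)) ^ C₀ := by
    have g0 : ∀ h : ℕ, 0 ≤ Pool.Agent.Y851.DK.sg h := fun h => sum_nonneg fun _ _ => by positivity
    have c1 : C * (2 * (Pool.Agent.Y851.DK.sg (dd x y) + Pool.Agent.Y851.DK.sg (dd y z) + Pool.Agent.Y851.DK.sg (dd x z))) ≤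
        C₀ * (Pool.Agent.Y851.DK.sg (dd x y) + Pool.Agent.Y851.DK.sg (dd y z) + Pool.Agent.Y851.DK.sg (dd x z)) := by
      have := g0 (dd x y)
      have := g0 (dd y z)
      have := g0 (dd x z)
      nlinarith
    refine (Real.exp_le_exp.2 c1).trans ?_
    rw [Real.exp_nat_mul]
    refine pow_le_pow_left₀ (Real.exp_pos _).le ?_ _
    rw [Real.exp_add, Real.exp_add]
    have f1 := sg_le_Fw (dd x y)
    have f2 := sg_le_Fw (dd y z)
    have f3 := sg_le_Fw (dd x z)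
    have p1 : 0 ≤ Fw 0 (dd x y) := zero_le_one.trans (one_le_Fw _ _)
    have p2 : 0 ≤ Fw 0 (dd y z) := zero_le_one.trans (one_le_Fw _ _)
    exact mul_le_mul (mul_le_mul f1 f2 (Real.exp_pos _).le p1) f3 (Real.exp_pos _).le (mul_nonneg p1 p2)
  have hr : (((Icc 1 M).filter fun w : ℕ => ((x : ℤ) + s * w).toNat.Prime ∧ ((y : ℤ) + s * w).toNat.Prime ∧
      ((z : ℤ) + s * w).toNat.Prime).card : ℝ) ≤
      (((Icc 1 M).filter (fun n : ℕ => ∀ f ∈ F, (f.1 * (n : ℤ) + f.2).toNat.Prime)).card : ℝ) := by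
    exact_mod_cast card_le_card b2
  refine (hr.trans b1).trans ?_
  have hlog : 0 ≤ Real.log M := Real.log_natCast_nonneg M
  have hF1 : 0 ≤ (Fw 0 (dd x y) * Fw 0 (dd y z) * Fw 0 (dd x z)) ^ C₀ := by
    have := one_le_Fw 0 (dd x y)
    have := one_le_Fw 0 (dd y z)
    have := one_le_Fw 0 (dd x z)
    positivity
  calc _ ≤ C * (Fw 0 (dd x y) * Fw 0 (dd y z) * Fw 0 (dd x z)) ^ C₀ * (M / Real.log M ^ 3) := by
        refine mul_le_mul_of_nonneg_right ?_ (by positivity)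
        exact mul_le_mul_of_nonneg_left b4 (by linarith)
    _ ≤ _ := by
        refine mul_le_mul_of_nonneg_right (mul_le_mul_of_nonneg_right (by linarith) hF1) (by positivity)

/-- the pointwise bound -/
lemma Fw_ptw : ∃ C₂ : ℝ, 1 ≤ C₂ ∧ ∀ y : ℕ, 3 ≤ y → ∀ h : ℕ, h ≤ 2 ^ y → Fw 0 h ≤ C₂ * Real.log y := by
  classical
  obtain ⟨C₁, hC1, hP⟩ := Pw_le
  refine ⟨C₁ * Real.exp 1, ?_, fun y hy h hh => ?_⟩
  · have := Real.one_le_exp (zero_le_one' ℝ)
    nlinarith
  have hy0 : (0 : ℝ) < y := by exact_mod_cast (by omega : 0 < y)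
  refine (Fw_split 0 y h (Nat.zero_le _)).trans ?_
  have h1 : Fw y h ≤ Real.exp 1 := by
    have hω : h.primeFactors.card ≤ y := by
      rcases Nat.eq_zero_or_pos h with h0 | h0
      · rw [h0]; simp
      have h2 : 2 ^ h.primeFactors.card ≤ ∏ p ∈ h.primeFactors, p :=
        Finset.pow_card_le_prod _ _ _ fun p hp => (Nat.prime_of_mem_primeFactors hp).two_le
      have h3 : ∏ p ∈ h.primeFactors, p ≤ h := Nat.le_of_dvd h0 (Nat.prod_primeFactors_dvd h)
      have h4 : 2 ^ h.primeFactors.card ≤ 2 ^ y := h2.trans (h3.trans hh)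
      exact (Nat.pow_le_pow_iff_right (by norm_num)).1 h4
    unfold Fw
    have h2 : ∏ p ∈ h.primeFactors.filter (fun p => y < p), ((p : ℝ) / ((p : ℝ) - 1)) ≤
        ∏ p ∈ h.primeFactors.filter (fun p => y < p), Real.exp (1 / y) := by
      refine prod_le_prod ?_ ?_
      · intro p hp
        exact zero_le_one.trans (fac_ge (Nat.prime_of_mem_primeFactors (mem_filter.1 hp).1))
      · intro p hp
        have h3 : (y : ℝ) + 1 ≤ p := by exact_mod_cast (mem_filter.1 hp).2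
        have h4 : (0 : ℝ) < (p : ℝ) - 1 := by linarith
        have h5 : (p : ℝ) / ((p : ℝ) - 1) ≤ 1 / y + 1 := by
          rw [div_le_iff₀ h4]
          have e : (1 / (y : ℝ) + 1) * (p - 1) = p - 1 + (p - 1) / y := by ring
          rw [e]
          have : 1 ≤ ((p : ℝ) - 1) / y := by rw [le_div_iff₀ hy0]; linarith
          linarith
        exact h5.trans (Real.add_one_le_exp _)
    refine h2.trans ?_
    rw [prod_const, ← Real.exp_nat_mul]
    refine Real.exp_le_exp.2 ?_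
    have h3 : ((h.primeFactors.filter (fun p => y < p)).card : ℝ) ≤ y := by
      exact_mod_cast (card_filter_le _ _).trans hω
    calc ((h.primeFactors.filter (fun p => y < p)).card : ℝ) * (1 / y) ≤ y * (1 / y) :=
          mul_le_mul_of_nonneg_right h3 (by positivity)
      _ = 1 := by field_simp
  have h2 := hP y hy
  have h3 : 0 ≤ C₁ * Real.log y := by
    have : 0 ≤ Real.log (y : ℝ) := Real.log_natCast_nonneg y
    positivity
  calc _ ≤ C₁ * Real.log y * Real.exp 1 := mul_le_mul h2 h1 (zero_le_one.trans (one_le_Fw y h)) h3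
    _ = _ := by ring

end Pool.Agent.Run7.h880.RP
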