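import Mathlib
import Pool.Agent.Run7.h880.RP.EsW2
import Pool.Agent.Run7.h880.RP.Tri

/-! The number of the indices without hits on both sides, in probability. -/

set_option autoImplicit false

namespace Pool.Agent.Run7.h880.RP

open Finset Filter
open Pool.Agent.N384.MQ (ev_log_pow ev_log_ge)
open Pool.Agent.Run7.h880.MK (Smp Smp_mem Smp_card hits hits_eq nohit)
open Pool.Agent.Run7.h931.RS (Fw one_le_Fw)

/-- triples of sets -/
def Three {ι κ : Type} [DecidableEq ι] (Ω : Finset ι) (J : Finset κ) (A : κ → Finset ι) (τ : ℝ) : Prop :=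
  ∀ x ∈ J, ∀ y ∈ J, ∀ z ∈ J, x ≠ y → y ≠ z → x ≠ z → ((A x ∩ (A y ∩ A z)).card : ℝ) ≤ τ * Ω.card

/-- **many indices without hits** -/
theorem count_lo (γ σ ε K₀ : ℝ) (hσ : 0 ≤ σ) (hε : 0 < ε) (hγ : σ + ε < γ) (hK0 : 0 ≤ K₀) : ∃ c : ℝ, 0 ≤ c ∧
    ∀ K₂ : ℝ, 0 ≤ K₂ → ∃ C : ℝ, 0 < C ∧ ∀ᶠ L : ℝ in atTop, ∀ (m i j : ℕ), i ≤ m → j ≤ m → (i : ℝ) + j ≤ σ * L ^ 2 →
    ∀ {ι κ : Type} [DecidableEq ι] [DecidableEq κ] (Ω : Finset ι) (J : Finset κ) (A B : κ → Finset ι),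
    Sys Ω J A L K₀ c K₂ → Sys Ω J B L K₀ c K₂ → Real.exp (γ * L - 1) ≤ J.card →
    Three Ω J A (Real.sqrt L / L ^ 3) → Three Ω J B (Real.sqrt L / L ^ 3) →
    ∀ (P : (Fin m → ι) × (Fin m → ι) → Prop) [DecidablePred P],
    (∀ p, P p → ((surv (surv J B j p.2) A i p.1).card : ℝ) < Real.exp ((γ - σ - ε) * L)) →
    (((Smp Ω m ×ˢ Smp Ω m).filter P).card : ℝ) ≤ C / Real.sqrt L * ((Smp Ω m ×ˢ Smp Ω m).card : ℝ) := by
  classical
  obtain ⟨η, hη⟩ : ∃ η, η = γ - σ - ε / 2 := ⟨_, rfl⟩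
  have hη0 : 0 < η := by rw [hη]; linarith
  obtain ⟨δ, hδ⟩ : ∃ δ, δ = ε / (8 * η) := ⟨_, rfl⟩
  have hδ0 : 0 < δ := by rw [hδ]; positivity
  have hδη : δ * η = ε / 8 := by rw [hδ]; field_simp
  obtain ⟨c₁, hc₁⟩ : ∃ c₁, c₁ = σ * (K₀ + 5) := ⟨_, rfl⟩
  have hc10 : 0 ≤ c₁ := by rw [hc₁]; positivity
  refine ⟨4 * c₁, by positivity, fun K₂ hK2 => ?_⟩
  obtain ⟨c₀, hc₀⟩ : ∃ c₀, c₀ = Real.exp (-(2 * (2 * c₁))) / (4 * (Real.exp (2 * c₁) + 2 * K₂)) := ⟨_, rfl⟩
  have hc00 : 0 < c₀ := by rw [hc₀]; positivity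
  -- the variance
  obtain ⟨D, hD⟩ : ∃ D, D = (σ + 1) * (33 / η ^ 2 + 32) := ⟨_, rfl⟩
  have hD0 : 0 < D := by rw [hD]; positivity
  refine ⟨D / δ ^ 2, by positivity, ?_⟩
  have hlogev : ∀ᶠ L : ℝ in atTop, Real.log (L ^ 3) ^ 2 ≤ 9 * Real.sqrt L := by
    have h1 := (isLittleO_log_rpow_atTop (r := 1 / 4) (by norm_num)).bound (show (0 : ℝ) < 1 by norm_num)
    filter_upwards [h1, eventually_ge_atTop 1] with L h2 h3
    have hl : 0 ≤ Real.log L := Real.log_nonneg h3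
    rw [Real.norm_of_nonneg hl, Real.norm_of_nonneg (by positivity), one_mul] at h2
    have h4 : Real.log (L ^ 3) = 3 * Real.log L := by rw [Real.log_pow]; push_cast; ring
    have h5 : (L ^ (1 / 4 : ℝ)) ^ 2 = Real.sqrt L := by
      rw [← Real.rpow_natCast, ← Real.rpow_mul (by linarith), Real.sqrt_eq_rpow]
      norm_num
    rw [h4, mul_pow, ← h5]
    have := pow_le_pow_left₀ hl h2 2
    linarith
  filter_upwards [eventually_ge_atTop 4, eventually_ge_atTop (2 * K₀), eventually_ge_atTop ((2 + 2 * c₁) / (ε / 2)),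
    hlogev, eventually_gt_atTop ((D / (c₀ * δ ^ 2)) ^ 2), eventually_ge_atTop (1 / (γ - σ))]
    with L l4 lK l3 llog lD l7 m i j hi hj hij ι κ _ _ Ω J A B hSA hSB hJ h3A h3B P _ hP
  have hL0 : 0 < L := by linarith
  rw [div_le_iff₀ (by positivity)] at l3
  rw [div_le_iff₀ (by linarith)] at l7
  have hsq0 : 0 < Real.sqrt L := Real.sqrt_pos.2 hL0
  have hsq1 : Real.sqrt L * Real.sqrt L = L := Real.mul_self_sqrt hL0.le
  have hsq2 : 1 ≤ Real.sqrt L := by rw [Real.one_le_sqrt]; linarith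
  have lD' : D / (c₀ * δ ^ 2) < Real.sqrt L := by
    rw [Real.lt_sqrt (by positivity)]
    exact lD
  have hi0 : (0 : ℝ) ≤ i := Nat.cast_nonneg i
  have hj0 : (0 : ℝ) ≤ j := Nat.cast_nonneg j
  obtain ⟨e1, e2, ρ, hρ0, hρs, hρ⟩ := fail_all hSA l4 hK0 lK hσ hi (by linarith) hc₁ le_rfl
  obtain ⟨f1, f2, ρ', hρ0', hρs', hρ'⟩ := fail_all hSB l4 hK0 lK hσ hj (by linarith) hc₁ le_rfl
  have hne1 : (Smp Ω m).Nonempty := by
    obtain ⟨o, ho⟩ := hSA.ne
    exact ⟨fun _ => o, Smp_mem.2 fun _ => ho⟩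
  have hne : (Smp Ω m ×ˢ Smp Ω m).Nonempty := hne1.product hne1
  have hq0 : (0 : ℝ) < Ω.card := by exact_mod_cast card_pos.2 hSA.ne
  have hQ0 : 0 < (Ω.card : ℝ) ^ m := pow_pos hq0 m
  have hsm : ((Smp Ω m).card : ℝ) = (Ω.card : ℝ) ^ m := by rw [Smp_card]; push_cast; rfl
  obtain ⟨Q, hQe⟩ : ∃ Q : ℝ, Q = (Ω.card : ℝ) ^ m := ⟨_, rfl⟩
  rw [← hQe] at e1 e2 hρ f1 f2 hρ' hQ0 hsm
  have hQ : ((Smp Ω m ×ˢ Smp Ω m).card : ℝ) = Q * Q := by rw [card_product, Nat.cast_mul, hsm]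
  obtain ⟨PA, hPA⟩ : ∃ PA, PA = Real.exp (-((i : ℝ) / L)) := ⟨_, rfl⟩
  obtain ⟨PB, hPB⟩ : ∃ PB, PB = Real.exp (-((j : ℝ) / L)) := ⟨_, rfl⟩
  have hPA0 : 0 < PA := by rw [hPA]; exact Real.exp_pos _
  have hPB0 : 0 < PB := by rw [hPB]; exact Real.exp_pos _
  rw [← hPA] at e1 e2 hρ
  rw [← hPB] at f1 f2 hρ'
  have hfil : ∀ x, (Smp Ω m ×ˢ Smp Ω m).filter (fun p => Fail (A x) i p.1 ∧ Fail (B x) j p.2) =
      (Smp Ω m).filter (Fail (A x) i) ×ˢ (Smp Ω m).filter (Fail (B x) j) := fun x =>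
    filter_product (fun w => Fail (A x) i w) (fun w => Fail (B x) j w)
  have hfil2 : ∀ x y, (Smp Ω m ×ˢ Smp Ω m).filter (fun p => (Fail (A x) i p.1 ∧ Fail (B x) j p.2) ∧
      (Fail (A y) i p.1 ∧ Fail (B y) j p.2)) =
      (Smp Ω m).filter (fun w => Fail (A x) i w ∧ Fail (A y) i w) ×ˢ
      (Smp Ω m).filter (fun w => Fail (B x) j w ∧ Fail (B y) j w) := by
    intro x y
    ext p
    simp only [mem_filter, mem_product]
    tauto
  have hec : Real.exp (-(2 * c₁)) = Real.exp (-c₁) * Real.exp (-c₁) := by rw [← Real.exp_add]; congr 1; ring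
  have hec' : Real.exp (2 * c₁) = Real.exp c₁ * Real.exp c₁ := by rw [← Real.exp_add]; congr 1; ring
  have hPP : PA * PB = Real.exp (-(((i : ℝ) + j) / L)) := by
    rw [hPA, hPB, ← Real.exp_add]
    congr 1
    ring
  have hPσ : Real.exp (-(σ * L)) ≤ PA * PB := by
    rw [hPP]
    refine Real.exp_le_exp.2 (neg_le_neg ?_)
    rw [div_le_iff₀ hL0]
    linarith
  have hT : Real.exp ((γ - σ) * L - 1) ≤ J.card * (PA * PB) := by
    have e : Real.exp ((γ - σ) * L - 1) = Real.exp (γ * L - 1) * Real.exp (-(σ * L)) := by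
      rw [← Real.exp_add]; congr 1; ring
    rw [e]
    exact mul_le_mul hJ hPσ (Real.exp_pos _).le (Nat.cast_nonneg _)
  have hpz := pz (Smp Ω m ×ˢ Smp Ω m) J (fun x p => Fail (A x) i p.1 ∧ Fail (B x) j p.2)
    (PA * PB) (2 * c₁) (2 * K₂) (fun x y => Real.exp (2 * c₁ * (1 + ρ x y)) * Real.exp (2 * c₁ * (1 + ρ' x y)))
    (by positivity) (by
      intro x hx
      rw [hQ, hfil, card_product, Nat.cast_mul, hec]
      calc Q * Q * (PA * PB * (Real.exp (-c₁) * Real.exp (-c₁))) =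
            (Q * (PA * Real.exp (-c₁))) * (Q * (PB * Real.exp (-c₁))) := by ring
        _ ≤ _ := mul_le_mul (e1 x hx) (f1 x hx) (by positivity) (Nat.cast_nonneg _)) (by
      intro x hx
      rw [hQ, hfil, card_product, Nat.cast_mul, hec']
      calc _ ≤ (Q * (PA * Real.exp c₁)) * (Q * (PB * Real.exp c₁)) :=
            mul_le_mul (e2 x hx) (f2 x hx) (Nat.cast_nonneg _) (by positivity)
        _ = _ := by ring) (by
      intro x hx y hy hxy
      rw [hQ, hfil2, card_product, Nat.cast_mul]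
      calc _ ≤ (Q * (PA ^ 2 * Real.exp (2 * c₁ * (1 + ρ x y)))) * (Q * (PB ^ 2 * Real.exp (2 * c₁ * (1 + ρ' x y)))) :=
            mul_le_mul (hρ x hx y hy hxy) (hρ' x hx y hy hxy) (Nat.cast_nonneg _) (by positivity)
        _ = _ := by ring) (by
      have h1 : ∀ x ∈ J, ∀ y ∈ J, (if x = y then 0 else Real.exp (2 * c₁ * (1 + ρ x y)) * Real.exp (2 * c₁ * (1 + ρ' x y))) ≤
          (if x = y then 0 else Real.exp (4 * c₁ * (1 + ρ x y))) + (if x = y then 0 else Real.exp (4 * c₁ * (1 + ρ' x y))) := by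
        intro x _ y _
        split_ifs
        · simp
        · obtain ⟨u, hu⟩ : ∃ u, u = Real.exp (2 * c₁ * (1 + ρ x y)) := ⟨_, rfl⟩
          obtain ⟨v, hv⟩ : ∃ v, v = Real.exp (2 * c₁ * (1 + ρ' x y)) := ⟨_, rfl⟩
          have e3 : Real.exp (4 * c₁ * (1 + ρ x y)) = u * u := by rw [hu, ← Real.exp_add]; congr 1; ring
          have e4 : Real.exp (4 * c₁ * (1 + ρ' x y)) = v * v := by rw [hv, ← Real.exp_add]; congr 1; ring
          rw [e3, e4, ← hu, ← hv]
          nlinarith [sq_nonneg (u - v), sq_nonneg (u + v)]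
      refine (sum_le_sum fun x hx => sum_le_sum fun y hy => h1 x hx y hy).trans ?_
      simp only [sum_add_distrib]
      linarith) (by positivity) (by
      refine le_trans (Real.one_le_exp ?_) hT
      linarith) hne
  rw [← hc₀] at hpz
  -- the functional
  have hsurv : ∀ p : (Fin m → ι) × (Fin m → ι), (J.filter fun x => Fail (A x) i p.1 ∧ Fail (B x) j p.2) =
      surv (surv J B j p.2) A i p.1 := by
    intro p
    ext x
    rw [mem_filter, mem_surv, mem_surv]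
    tauto
  have hsurv2 : ∀ w v : Fin m → ι, surv (surv J B j v) A i w = surv (surv J A i w) B j v := by
    intro w v
    ext x
    simp only [mem_surv]
    tauto
  obtain ⟨f, hf⟩ : ∃ f : (Fin m → ι) → (Fin m → ι) → ℝ, f = fun w v => psi (η * L) (surv (surv J B j v) A i w).card :=
    ⟨_, rfl⟩
  have hηL : 0 < η * L := by positivity
  have hhalfA : ∀ n ∈ J, ((A n).card : ℝ) ≤ 3 / (2 * L) * Ω.card := by
    intro n hn
    have h2 := (a_half (K := 1) l4 hK0 le_rfl lK (hSA.dens n hn)).2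
    rwa [div_le_iff₀ hq0] at h2
  have hhalfB : ∀ n ∈ J, ((B n).card : ℝ) ≤ 3 / (2 * L) * Ω.card := by
    intro n hn
    have h2 := (a_half (K := 1) l4 hK0 le_rfl lK (hSB.dens n hn)).2
    rwa [div_le_iff₀ hq0] at h2
  obtain ⟨Bd, hBd⟩ : ∃ Bd, Bd = 4 * (3 / (2 * L)) / (η * L) ^ 2 + 2 * (3 / (2 * L)) * Real.log (L ^ 3) ^ 2 / (η * L) ^ 2 +
      8 * (Real.sqrt L / L ^ 3 + 3 / L ^ 3) := ⟨_, rfl⟩
  have hBd0 : 0 ≤ Bd := by rw [hBd]; positivity
  have hL3 : 1 ≤ L ^ 3 := one_le_pow₀ (by linarith)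
  have hBd1 : σ * L ^ 2 * Bd ≤ D / Real.sqrt L := by
    have h1 : Bd ≤ (33 / η ^ 2 + 32) * Real.sqrt L / L ^ 3 := by
      have e1 : 4 * (3 / (2 * L)) / (η * L) ^ 2 = 6 / η ^ 2 / L ^ 3 := by field_simp; norm_num
      have e2 : 2 * (3 / (2 * L)) * Real.log (L ^ 3) ^ 2 / (η * L) ^ 2 = 3 / η ^ 2 * Real.log (L ^ 3) ^ 2 / L ^ 3 := by
        field_simp
      have e3 : 8 * (Real.sqrt L / L ^ 3 + 3 / L ^ 3) = (8 * Real.sqrt L + 24) / L ^ 3 := by ring
      rw [hBd, e1, e2, e3, ← add_div, ← add_div]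
      refine div_le_div_of_nonneg_right ?_ (by positivity)
      have h2 : 3 / η ^ 2 * Real.log (L ^ 3) ^ 2 ≤ 3 / η ^ 2 * (9 * Real.sqrt L) :=
        mul_le_mul_of_nonneg_left llog (by positivity)
      have h3 : 6 / η ^ 2 ≤ 6 / η ^ 2 * Real.sqrt L := le_mul_of_one_le_right (by positivity) hsq2
      have e4 : (33 / η ^ 2 + 32) * Real.sqrt L = 6 / η ^ 2 * Real.sqrt L + 3 / η ^ 2 * (9 * Real.sqrt L) +
          32 * Real.sqrt L := by ring
      rw [e4]
      linarith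
    calc σ * L ^ 2 * Bd ≤ σ * L ^ 2 * ((33 / η ^ 2 + 32) * Real.sqrt L / L ^ 3) :=
          mul_le_mul_of_nonneg_left h1 (by positivity)
      _ = σ * (33 / η ^ 2 + 32) * (Real.sqrt L / L) := by field_simp
      _ = σ * (33 / η ^ 2 + 32) * (1 / Real.sqrt L) := by
          congr 1
          rw [div_eq_div_iff hL0.ne' hsq0.ne', one_mul, hsq1]
      _ ≤ (σ + 1) * (33 / η ^ 2 + 32) * (1 / Real.sqrt L) := by
          refine mul_le_mul_of_nonneg_right (mul_le_mul_of_nonneg_right (by linarith) (by positivity)) (by positivity)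
      _ = D / Real.sqrt L := by rw [hD]; ring
  have hvar : ∑ w ∈ Smp Ω m, ∑ v ∈ Smp Ω m, f w v ^ 2 -
      (∑ w ∈ Smp Ω m, ∑ v ∈ Smp Ω m, f w v) ^ 2 / ((Smp Ω m).card * (Smp Ω m).card) ≤ D / Real.sqrt L * (Q * Q) := by
    refine (es_prod (Smp Ω m) (Smp Ω m) hne1 hne1 f).trans ?_
    have g1 : ∀ v ∈ Smp Ω m, ∑ w ∈ Smp Ω m, f w v ^ 2 - (∑ w ∈ Smp Ω m, f w v) ^ 2 / (Smp Ω m).card ≤ Q * (i * Bd) := by
      intro v _
      have hss : ∀ n ∈ surv J B j v, n ∈ J := fun n hn => (mem_surv.1 hn).1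
      have := es_wait Ω hSA.ne (surv J B j v) A (fun n hn => hSA.sub n (hss n hn)) hηL (fun n hn => hhalfA n (hss n hn))
        (by positivity) (τ := Real.sqrt L / L ^ 3) (by positivity) hL3
        (fun x hx y hy z hz => h3A x (hss x hx) y (hss y hy) z (hss z hz)) m i hi
      rw [hf, hBd]
      rw [hsm] at this ⊢
      exact this
    have g2 : ∀ w ∈ Smp Ω m, ∑ v ∈ Smp Ω m, f w v ^ 2 - (∑ v ∈ Smp Ω m, f w v) ^ 2 / (Smp Ω m).card ≤ Q * (j * Bd) := by
      intro w _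
      have hss : ∀ n ∈ surv J A i w, n ∈ J := fun n hn => (mem_surv.1 hn).1
      have := es_wait Ω hSA.ne (surv J A i w) B (fun n hn => hSB.sub n (hss n hn)) hηL (fun n hn => hhalfB n (hss n hn))
        (by positivity) (τ := Real.sqrt L / L ^ 3) (by positivity) hL3
        (fun x hx y hy z hz => h3B x (hss x hx) y (hss y hy) z (hss z hz)) m j hj
      rw [hf, hBd]
      simp only [hsurv2]
      rw [hsm] at this ⊢
      exact this
    refine (add_le_add (sum_le_sum g1) (sum_le_sum g2)).trans ?_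
    rw [sum_const, sum_const, nsmul_eq_mul, nsmul_eq_mul, hsm]
    have h1 : ((i : ℝ) + j) * Bd ≤ D / Real.sqrt L := (mul_le_mul_of_nonneg_right hij hBd0).trans hBd1
    calc Q * (Q * (i * Bd)) + Q * (Q * (j * Bd)) = Q * Q * (((i : ℝ) + j) * Bd) := by ring
      _ ≤ Q * Q * (D / Real.sqrt L) := mul_le_mul_of_nonneg_left h1 (by positivity)
      _ = _ := by ring
  have hb := boostS (Smp Ω m ×ˢ Smp Ω m) hne (fun p => f p.1 p.2) (D / Real.sqrt L) c₀ 1 δ δ (by
      rw [sum_product, sum_product]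
      rw [card_product, Nat.cast_mul]
      refine hvar.trans (le_of_eq ?_)
      rw [hsm]) hδ0 hδ0 (by
      rw [div_lt_iff₀ hsq0]
      rw [div_lt_iff₀ (by positivity)] at lD'
      linarith) (by
      refine le_trans (le_of_eq ?_) (hpz.trans (Nat.cast_le.2 (card_le_card fun p hp => ?_)))
      · ring
      · rw [mem_filter] at hp ⊢
        refine ⟨hp.1, ?_⟩
        have h1 := hp.2
        rw [hsurv] at h1
        have h2 : Real.exp (η * L) ≤ ((surv (surv J B j p.2) A i p.1).card : ℝ) := by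
          refine le_trans ?_ h1
          have h3 : Real.exp ((γ - σ) * L - 1) * Real.exp (-(2 * c₁)) / 2 ≤
              J.card * (PA * PB) * Real.exp (-(2 * c₁)) / 2 :=
            div_le_div_of_nonneg_right (mul_le_mul_of_nonneg_right hT (Real.exp_pos _).le) (by norm_num)
          refine le_trans ?_ h3
          have h4 : (2 : ℝ) ≤ Real.exp 1 := by
            have := Real.exp_one_gt_d9
            linarith
          have h5 : Real.exp (η * L) * Real.exp 1 ≤ Real.exp ((γ - σ) * L - 1) * Real.exp (-(2 * c₁)) := by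
            rw [← Real.exp_add, ← Real.exp_add]
            refine Real.exp_le_exp.2 ?_
            rw [hη]
            linarith
          have h6 := Real.exp_pos (η * L)
          rw [le_div_iff₀ (by norm_num)]
          nlinarith
        rw [hf]
        show 1 ≤ psi (η * L) (surv (surv J B j p.2) A i p.1).card
        unfold psi
        refine le_min le_rfl ?_
        rw [le_div_iff₀ hηL, one_mul, Real.le_log_iff_exp_le (lt_of_lt_of_le (Real.exp_pos _) h2)]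
        exact h2)
  have hsub : (Smp Ω m ×ˢ Smp Ω m).filter P ⊆ (Smp Ω m ×ˢ Smp Ω m).filter fun p => f p.1 p.2 < 1 - δ - δ := by
    intro p hp
    rw [mem_filter] at hp ⊢
    refine ⟨hp.1, ?_⟩
    have h1 := hP p hp.2
    rw [hf]
    show psi (η * L) (surv (surv J B j p.2) A i p.1).card < 1 - δ - δ
    have h2 : δ < 1 / 4 := by
      have : δ * η < 1 / 4 * η := by rw [hδη, hη]; linarith
      exact lt_of_mul_lt_mul_right this hη0.le
    rcases Nat.eq_zero_or_pos (surv (surv J B j p.2) A i p.1).card with h0 | h0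
    · rw [h0]
      have : psi (η * L) 0 = 0 := by unfold psi; simp
      rw [this]
      linarith
    · have h3 : (0 : ℝ) < (surv (surv J B j p.2) A i p.1).card := by exact_mod_cast h0
      refine lt_of_le_of_lt (min_le_right _ _) ?_
      rw [div_lt_iff₀ hηL]
      have h4 : Real.log ((surv (surv J B j p.2) A i p.1).card : ℝ) < (γ - σ - ε) * L := by
        rw [Real.log_lt_iff_lt_exp h3]
        exact h1
      refine lt_of_lt_of_le h4 ?_
      have e : (1 - δ - δ) * (η * L) = (η - 2 * (δ * η)) * L := by ring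
      rw [e, hδη, hη]
      refine mul_le_mul_of_nonneg_right ?_ hL0.le
      linarith
  refine (Nat.cast_le.2 (card_le_card hsub)).trans (hb.trans (le_of_eq ?_))
  rw [hQ]
  field_simp

end Pool.Agent.Run7.h880.RP
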