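import Mathlib
import Pool.Agent.Run7.h880.RP.EsW3

/-! Three windows near the squares. -/

set_option autoImplicit false

namespace Pool.Agent.Run7.h880.RP

open Finset Filter
open Pool.Agent.N384.MQ (ev_log_pow ev_log_ge)
open Pool.Agent.Run7.h880.MK (Smp Smp_mem Smp_card hits hits_eq nohit)
open Pool.Agent.Run7.h931.RS (Fw one_le_Fw)

/-- three windows near the squares -/
theorem tri_sq : ∃ N₀ : ℕ, ∀ N : ℕ, N₀ ≤ N → ∀ M : ℕ, (N : ℝ) ^ (1 / 2 : ℝ) ≤ M → ∀ J : Finset ℕ, J ⊆ Ioc N (2 * N) →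
    ∀ b : Bool, Three (Icc 1 M) J (fun n => sqA n M b) (Real.sqrt (2 * Real.log N) / (2 * Real.log N) ^ 3) := by
  classical
  obtain ⟨C₀, hC0, Y₀, hsv⟩ := sv3
  obtain ⟨C₂, hC2, hF⟩ := Fw_ptw
  obtain ⟨E, hE⟩ : ∃ E : ℝ, E = 64 * C₀ * (C₂ ^ 3) ^ C₀ := ⟨_, rfl⟩
  have hE0 : 0 < E := by
    have : (0 : ℝ) < C₀ := by exact_mod_cast hC0
    rw [hE]; positivity
  have hev : ∀ᶠ L : ℝ in atTop, E * (Real.log (2 * L) ^ 3) ^ C₀ ≤ Real.sqrt L := by
    have h1 := (Real.isLittleO_pow_log_id_atTop (n := 2 * (3 * C₀))).bound (show (0 : ℝ) < 1 / (2 * E ^ 2) by positivity)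
    have h2 : Tendsto (fun L : ℝ => 2 * L) atTop atTop := tendsto_id.const_mul_atTop (by norm_num)
    filter_upwards [h2.eventually h1, eventually_ge_atTop 1] with L h3 h4
    have hl : 0 ≤ Real.log (2 * L) := Real.log_nonneg (by linarith)
    rw [Real.norm_of_nonneg (by positivity), id_eq, Real.norm_of_nonneg (by positivity)] at h3
    refine Real.le_sqrt_of_sq_le ?_
    have e : (E * (Real.log (2 * L) ^ 3) ^ C₀) ^ 2 = E ^ 2 * Real.log (2 * L) ^ (2 * (3 * C₀)) := by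
      rw [mul_pow, ← pow_mul, ← pow_mul]
      congr 2
      ring
    rw [e]
    calc E ^ 2 * Real.log (2 * L) ^ (2 * (3 * C₀)) ≤ E ^ 2 * (1 / (2 * E ^ 2) * (2 * L)) :=
          mul_le_mul_of_nonneg_left h3 (by positivity)
      _ = L := by field_simp
  have hlim : Tendsto (fun N : ℕ => 2 * Real.log N) atTop atTop :=
    (Real.tendsto_log_atTop.comp (tendsto_natCast_atTop_atTop (R := ℝ))).const_mul_atTop (by norm_num)
  obtain ⟨N₁, hN1⟩ := eventually_atTop.1 ((hlim.eventually (hev.and (eventually_ge_atTop 6))).and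
    ((Run7.h337.MK.ev_pw 0 (max Y₀ 2)).and (eventually_ge_atTop 1)))
  refine ⟨N₁, fun N hN M hM J hJ b => ?_⟩
  obtain ⟨⟨h1, h6⟩, l2, hN1'⟩ := hN1 N hN
  rw [pow_zero, mul_one] at l2
  have hN1r : (1 : ℝ) ≤ N := by exact_mod_cast hN1'
  have hNp : (0 : ℝ) < N := by linarith
  have l3 : (N : ℝ) ^ (1 / 3 : ℝ) ≤ M := (Real.rpow_le_rpow_of_exponent_le hN1r (by norm_num)).trans hM
  have hMY : Y₀ ≤ M := (le_max_left _ _).trans (l2.trans l3)
  have hM2r : (2 : ℝ) ≤ M := (le_max_right _ _).trans (l2.trans l3)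
  have hM0 : (0 : ℝ) < M := by linarith
  have hcard : ((Icc 1 M).card : ℝ) = M := by rw [Nat.card_Icc]; push_cast; simp
  obtain ⟨L, hL⟩ : ∃ L, L = 2 * Real.log N := ⟨_, rfl⟩
  rw [← hL] at h1 h6
  have hL0 : 0 < L := by linarith
  have hlogM : L / 4 ≤ Real.log M := by
    have h1 := Real.log_le_log (by positivity) hM
    rw [Real.log_rpow hNp] at h1
    linarith
  -- the differences of the squares
  obtain ⟨y, hy⟩ : ∃ y : ℕ, y = ⌈3 * Real.log N⌉₊ + 2 := ⟨_, rfl⟩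
  have hy1 : 3 * Real.log N ≤ (⌈3 * Real.log N⌉₊ : ℕ) := Nat.le_ceil _
  have hy2 : ((⌈3 * Real.log N⌉₊ : ℕ) : ℝ) < 3 * Real.log N + 1 := Nat.ceil_lt_add_one (by linarith)
  have hy3 : (y : ℝ) ≤ 2 * L := by
    rw [hy]
    push_cast
    linarith
  have hy4 : 3 ≤ y := by
    have : 1 ≤ ⌈3 * Real.log N⌉₊ := Nat.one_le_ceil_iff.2 (by linarith)
    omega
  have hpow : 4 * N ^ 2 ≤ 2 ^ y := by
    have h2 : ((4 * N ^ 2 : ℕ) : ℝ) ≤ ((2 ^ y : ℕ) : ℝ) := by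
      push_cast
      rw [hy, pow_add]
      have h3 : (N : ℝ) ^ 2 ≤ 2 ^ ⌈3 * Real.log N⌉₊ := by
        have e1 : (N : ℝ) ^ 2 = Real.exp (2 * Real.log N) := by
          rw [mul_comm, Real.exp_mul, Real.exp_log hNp]
          norm_num
        have e2 : (2 : ℝ) ^ ⌈3 * Real.log N⌉₊ = Real.exp (⌈3 * Real.log N⌉₊ * Real.log 2) := by
          rw [Real.exp_nat_mul, Real.exp_log (by norm_num)]
        rw [e1, e2]
        refine Real.exp_le_exp.2 ?_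
        have h4 := Real.log_two_gt_d9
        have h5 : 2 * Real.log N ≤ 3 * Real.log N * Real.log 2 := by nlinarith
        refine h5.trans (mul_le_mul_of_nonneg_right hy1 (by linarith))
      linarith
    exact_mod_cast h2
  have hdd : ∀ x ∈ J, ∀ z ∈ J, dd (x ^ 2) (z ^ 2) ≤ 2 ^ y := by
    intro x hx z hz
    have h2 := (mem_Ioc.1 (hJ hx)).2
    have h3 := (mem_Ioc.1 (hJ hz)).2
    have h4 : x ^ 2 ≤ (2 * N) ^ 2 := Nat.pow_le_pow_left h2 2
    have h5 : z ^ 2 ≤ (2 * N) ^ 2 := Nat.pow_le_pow_left h3 2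
    have h6 : (2 * N) ^ 2 = 4 * N ^ 2 := by ring
    unfold dd
    omega
  have hFy : ∀ x ∈ J, ∀ z ∈ J, Fw 0 (dd (x ^ 2) (z ^ 2)) ≤ C₂ * Real.log (2 * L) := by
    intro x hx z hz
    refine (hF y hy4 _ (hdd x hx z hz)).trans (mul_le_mul_of_nonneg_left ?_ (by linarith))
    exact Real.log_le_log (by exact_mod_cast (by omega : 0 < y)) hy3
  rw [← hL]
  intro x hx u hu z hz hxu huz hxz
  have hne : ∀ a c : ℕ, a ≠ c → a ^ 2 ≠ c ^ 2 := fun a c hac h => hac (Nat.pow_left_injective (by norm_num) h)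
  have h12 : ∃ s : ℤ, (s = 1 ∨ s = -1) ∧ sqA x M b ∩ (sqA u M b ∩ sqA z M b) ⊆ ((Icc 1 M).filter fun w : ℕ =>
      (((x ^ 2 : ℕ) : ℤ) + s * w).toNat.Prime ∧ (((u ^ 2 : ℕ) : ℤ) + s * w).toNat.Prime ∧
      (((z ^ 2 : ℕ) : ℤ) + s * w).toNat.Prime) := by
    cases b
    · refine ⟨-1, Or.inr rfl, fun w hw => ?_⟩
      rw [mem_inter, mem_inter] at hw
      unfold sqA at hw
      rw [mem_filter, mem_filter, mem_filter] at hw
      simp only [Bool.false_eq_true, if_false] at hw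
      rw [mem_filter]
      have e1 : ∀ a : ℕ, ((a : ℤ) + -1 * w).toNat = a - w := by intro a; omega
      rw [e1, e1, e1]
      exact ⟨hw.1.1, hw.1.2, hw.2.1.2, hw.2.2.2⟩
    · refine ⟨1, Or.inl rfl, fun w hw => ?_⟩
      rw [mem_inter, mem_inter] at hw
      unfold sqA at hw
      rw [mem_filter, mem_filter, mem_filter] at hw
      simp only [if_true] at hw
      rw [mem_filter]
      have e1 : ∀ a : ℕ, ((a : ℤ) + 1 * w).toNat = a + w := by intro a; omega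
      rw [e1, e1, e1]
      exact ⟨hw.1.1, hw.1.2, hw.2.1.2, hw.2.2.2⟩
  obtain ⟨s, hs, hsub⟩ := h12
  have h2 := hsv M hMY s hs (x ^ 2) (u ^ 2) (z ^ 2) (hne _ _ hxu) (hne _ _ huz) (hne _ _ hxz)
  have h3 : ((sqA x M b ∩ (sqA u M b ∩ sqA z M b)).card : ℝ) ≤ ((Icc 1 M).filter fun w : ℕ =>
      (((x ^ 2 : ℕ) : ℤ) + s * w).toNat.Prime ∧ (((u ^ 2 : ℕ) : ℤ) + s * w).toNat.Prime ∧
      (((z ^ 2 : ℕ) : ℤ) + s * w).toNat.Prime).card := Nat.cast_le.2 (card_le_card hsub)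
  rw [hcard]
  refine (h3.trans h2).trans ?_
  have hl0 : 0 ≤ Real.log (2 * L) := Real.log_nonneg (by linarith)
  have g1 : Fw 0 (dd (x ^ 2) (u ^ 2)) * Fw 0 (dd (u ^ 2) (z ^ 2)) * Fw 0 (dd (x ^ 2) (z ^ 2)) ≤
      C₂ ^ 3 * Real.log (2 * L) ^ 3 := by
    have p1 := one_le_Fw 0 (dd (x ^ 2) (u ^ 2))
    have p2 := one_le_Fw 0 (dd (u ^ 2) (z ^ 2))
    have p3 := one_le_Fw 0 (dd (x ^ 2) (z ^ 2))
    have q1 := hFy x hx u hu
    have q2 := hFy u hu z hz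
    have q3 := hFy x hx z hz
    have e : C₂ ^ 3 * Real.log (2 * L) ^ 3 = (C₂ * Real.log (2 * L)) * (C₂ * Real.log (2 * L)) * (C₂ * Real.log (2 * L)) := by
      ring
    rw [e]
    exact mul_le_mul (mul_le_mul q1 q2 (by linarith) (by positivity)) q3 (by linarith) (by positivity)
  have g2 : (Fw 0 (dd (x ^ 2) (u ^ 2)) * Fw 0 (dd (u ^ 2) (z ^ 2)) * Fw 0 (dd (x ^ 2) (z ^ 2))) ^ C₀ ≤
      (C₂ ^ 3) ^ C₀ * (Real.log (2 * L) ^ 3) ^ C₀ := by
    rw [← mul_pow]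
    refine pow_le_pow_left₀ ?_ g1 _
    have p1 := one_le_Fw 0 (dd (x ^ 2) (u ^ 2))
    have p2 := one_le_Fw 0 (dd (u ^ 2) (z ^ 2))
    have p3 := one_le_Fw 0 (dd (x ^ 2) (z ^ 2))
    positivity
  have g3 : (M : ℝ) / Real.log M ^ 3 ≤ 64 / L ^ 3 * M := by
    have hlm : 0 < Real.log M := by linarith
    rw [div_mul_eq_mul_div, div_le_div_iff₀ (by positivity) (by positivity)]
    have h4 : L ^ 3 ≤ 64 * Real.log M ^ 3 := by
      have h5 : L ≤ 4 * Real.log M := by linarith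
      have := pow_le_pow_left₀ hL0.le h5 3
      linarith [this, (by ring : (4 * Real.log M) ^ 3 = 64 * Real.log M ^ 3)]
    nlinarith
  have hC0r : (0 : ℝ) ≤ C₀ := Nat.cast_nonneg _
  calc C₀ * (Fw 0 (dd (x ^ 2) (u ^ 2)) * Fw 0 (dd (u ^ 2) (z ^ 2)) * Fw 0 (dd (x ^ 2) (z ^ 2))) ^ C₀ *
        (M / Real.log M ^ 3) ≤ C₀ * ((C₂ ^ 3) ^ C₀ * (Real.log (2 * L) ^ 3) ^ C₀) * (64 / L ^ 3 * M) :=
        mul_le_mul (mul_le_mul_of_nonneg_left g2 hC0r) g3 (by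
          have hlm : 0 < Real.log M := by linarith
          positivity) (by positivity)
    _ = E * (Real.log (2 * L) ^ 3) ^ C₀ / L ^ 3 * M := by rw [hE]; ring
    _ ≤ Real.sqrt L / L ^ 3 * M := by
        refine mul_le_mul_of_nonneg_right (div_le_div_of_nonneg_right h1 (by positivity)) hM0.le

end Pool.Agent.Run7.h880.RP
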